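import Mathlib

/-! Piece Auto1: uniqueness of the place at infinity of an elliptic function field. -/

set_option autoImplicit false

open scoped Polynomial IntermediateField

namespace Pool.Agent.DegThree

namespace Auto1

variable {M N : Type} [Field M] [Field N] [Algebra M N]

/-- Constants are units of `W`. -/
theorem val_const (W : ValuationSubring N) (hM : ∀ c : M, algebraMap M N c ∈ W) (c : M)
    (hc : c ≠ 0) : W.valuation (algebraMap M N c) = 1 := by
  have h1 : W.valuation (algebraMap M N c) ≤ 1 := (W.valuation_le_one_iff _).2 (hM c)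
  have h2 : W.valuation (algebraMap M N c⁻¹) ≤ 1 := (W.valuation_le_one_iff _).2 (hM c⁻¹)
  have h3 : W.valuation (algebraMap M N c) * W.valuation (algebraMap M N c⁻¹) = 1 := by
    rw [← map_mul, ← map_mul, mul_inv_cancel₀ hc, map_one, map_one]
  refine le_antisymm h1 ?_
  calc (1 : W.ValueGroup) = W.valuation (algebraMap M N c) * W.valuation (algebraMap M N c⁻¹) :=
        h3.symm
    _ ≤ W.valuation (algebraMap M N c) * 1 := by gcongr
    _ = _ := mul_one _

theorem val_poly (W : ValuationSubring N) (hM : ∀ c : M, algebraMap M N c ∈ W) (x : N)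
    (hx : x ∉ W) (p : M[X]) (hp : p ≠ 0) :
    W.valuation (Polynomial.aeval x p) = W.valuation x ^ p.natDegree := by
  have hx1 : 1 < W.valuation x := by
    rw [← not_le]; exact fun h => hx ((W.valuation_le_one_iff _).1 h)
  have hx0 : W.valuation x ≠ 0 := (lt_trans zero_lt_one hx1).ne'
  rw [Polynomial.aeval_eq_sum_range, Finset.sum_range_succ]
  have hlead : W.valuation (p.coeff p.natDegree • x ^ p.natDegree) =
      W.valuation x ^ p.natDegree := by
    rw [Algebra.smul_def, map_mul, val_const W hM _ (by simpa using hp), one_mul, map_pow]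
  rw [Valuation.map_add_eq_of_lt_right, hlead]
  rw [hlead]
  refine Valuation.map_sum_lt _ (pow_ne_zero _ hx0) ?_
  intro i hi
  rw [Finset.mem_range] at hi
  rw [Algebra.smul_def, map_mul, map_pow]
  calc W.valuation (algebraMap M N (p.coeff i)) * W.valuation x ^ i
      ≤ 1 * W.valuation x ^ i := by
        gcongr
        exact (W.valuation_le_one_iff _).2 (hM _)
    _ = W.valuation x ^ i := one_mul _
    _ < W.valuation x ^ p.natDegree := pow_lt_pow_right₀ hx1 hi

theorem mem_iff (A B : M) (x y : N)
    (h : y ^ 2 = x ^ 3 + algebraMap M N A * x + algebraMap M N B)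
    (W : ValuationSubring N) (hM : ∀ c : M, algebraMap M N c ∈ W) (hx : x ∉ W)
    (p q r : M[X]) (hr : r ≠ 0) :
    (Polynomial.aeval x p + Polynomial.aeval x q * y) / Polynomial.aeval x r ∈ W ↔
      (p ≠ 0 → 2 * p.natDegree ≤ 2 * r.natDegree) ∧
      (q ≠ 0 → 2 * q.natDegree + 3 ≤ 2 * r.natDegree) := by
  have hx1 : 1 < W.valuation x := by
    rw [← not_le]; exact fun h => hx ((W.valuation_le_one_iff _).1 h)
  have hx0 : W.valuation x ≠ 0 := (lt_trans zero_lt_one hx1).ne'
  have hf : y ^ 2 = Polynomial.aeval x (Polynomial.X ^ 3 + Polynomial.C A * Polynomial.X +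
      Polynomial.C B : M[X]) := by
    simp [h]
  have hdeg : (Polynomial.X ^ 3 + Polynomial.C A * Polynomial.X +
      Polynomial.C B : M[X]).natDegree = 3 := by
    compute_degree!
  have hf0 : (Polynomial.X ^ 3 + Polynomial.C A * Polynomial.X + Polynomial.C B : M[X]) ≠ 0 := by
    intro h0
    rw [h0] at hdeg
    simp at hdeg
  have hy : W.valuation y ^ 2 = W.valuation x ^ 3 := by
    rw [← map_pow, hf, val_poly W hM x hx _ hf0, hdeg]
  have hr0 : W.valuation (Polynomial.aeval x r) ≠ 0 := by
    rw [val_poly W hM x hx _ hr]; exact pow_ne_zero _ hx0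
  have hrp : 0 < W.valuation (Polynomial.aeval x r) := zero_lt_iff.2 hr0
  have hrs : W.valuation (Polynomial.aeval x r) ^ 2 = W.valuation x ^ (2 * r.natDegree) := by
    rw [val_poly W hM x hx _ hr, ← pow_mul, mul_comm]
  have hps : p ≠ 0 → W.valuation (Polynomial.aeval x p) ^ 2 = W.valuation x ^ (2 * p.natDegree) := by
    intro hp
    rw [val_poly W hM x hx _ hp, ← pow_mul, mul_comm]
  have hqs : q ≠ 0 → W.valuation (Polynomial.aeval x q * y) ^ 2 =
      W.valuation x ^ (2 * q.natDegree + 3) := by
    intro hq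
    rw [map_mul, mul_pow, val_poly W hM x hx _ hq, ← pow_mul, mul_comm, hy, ← pow_add]
    congr 1
    ring
  have hsq : ∀ a b : W.ValueGroup, a ≤ b ↔ a ^ 2 ≤ b ^ 2 := by
    intro a b
    exact (pow_le_pow_iff_left₀ zero_le zero_le two_ne_zero).symm
  have key : W.valuation (Polynomial.aeval x p + Polynomial.aeval x q * y) =
      max (W.valuation (Polynomial.aeval x p)) (W.valuation (Polynomial.aeval x q * y)) := by
    by_cases hp : p = 0
    · subst hp
      simp
    by_cases hq : q = 0
    · subst hq
      simp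
    apply Valuation.map_add_of_distinct_val
    intro he
    have h2 := congrArg (· ^ 2) he
    rw [hps hp, hqs hq] at h2
    have := pow_right_injective₀ (lt_trans zero_lt_one hx1) hx1.ne' h2
    omega
  rw [← W.valuation_le_one_iff, map_div₀, key, div_le_one₀ hrp, max_le_iff]
  refine and_congr ?_ ?_
  · by_cases hp : p = 0
    · subst hp
      simp
    · rw [hsq, hps hp, hrs, pow_le_pow_iff_right₀ hx1]
      simp [hp]
  · by_cases hq : q = 0
    · subst hq
      simp
    · rw [hsq, hqs hq, hrs, pow_le_pow_iff_right₀ hx1]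
      simp [hq]

theorem repr (A B : M) (x y : N)
    (h : y ^ 2 = x ^ 3 + algebraMap M N A * x + algebraMap M N B)
    (tx : Transcendental M x) (g : IntermediateField.adjoin M {x, y} = ⊤) (z : N) :
    ∃ p q r : M[X], r ≠ 0 ∧
      z = (Polynomial.aeval x p + Polynomial.aeval x q * y) / Polynomial.aeval x r := by
  classical
  have ht : ∀ p : M[X], p ≠ 0 → Polynomial.aeval x p ≠ 0 := by
    intro p hp h0
    exact hp ((transcendental_iff.1 tx) p h0)
  set f : M[X] := Polynomial.X ^ 3 + Polynomial.C A * Polynomial.X + Polynomial.C B with hfdef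
  have hf : y ^ 2 = Polynomial.aeval x f := by
    simp [hfdef, h]
  have hfd : f.natDegree = 3 := by
    rw [hfdef]
    compute_degree!
  have hf0 : f ≠ 0 := by
    intro h0
    rw [h0] at hfd
    simp at hfd
  have hnorm : ∀ p q : M[X], p ^ 2 - q ^ 2 * f = 0 → p = 0 ∧ q = 0 := by
    intro p q hpq
    by_cases hq : q = 0
    · subst hq
      simp at hpq
      exact ⟨hpq, rfl⟩
    · exfalso
      have h1 : p ^ 2 = q ^ 2 * f := by linear_combination hpq
      have h2 := congrArg Polynomial.natDegree h1
      rw [Polynomial.natDegree_pow, Polynomial.natDegree_mul (pow_ne_zero _ hq) hf0,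
        Polynomial.natDegree_pow, hfd] at h2
      omega
  let S : Subalgebra M N :=
    { carrier := {z | ∃ p q r : M[X], r ≠ 0 ∧
        z * Polynomial.aeval x r = Polynomial.aeval x p + Polynomial.aeval x q * y}
      mul_mem' := by
        rintro a b ⟨p, q, r, hr, h1⟩ ⟨p', q', r', hr', h2⟩
        refine ⟨p * p' + q * q' * f, p * q' + q * p', r * r', mul_ne_zero hr hr', ?_⟩
        simp only [map_mul, map_add]
        linear_combination (b * Polynomial.aeval x r') * h1 +
          (Polynomial.aeval x p + Polynomial.aeval x q * y) * h2 +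
          (Polynomial.aeval x q * Polynomial.aeval x q') * hf
      add_mem' := by
        rintro a b ⟨p, q, r, hr, h1⟩ ⟨p', q', r', hr', h2⟩
        refine ⟨p * r' + p' * r, q * r' + q' * r, r * r', mul_ne_zero hr hr', ?_⟩
        simp only [map_mul, map_add]
        linear_combination (Polynomial.aeval x r') * h1 + (Polynomial.aeval x r) * h2
      algebraMap_mem' := by
        intro c
        exact ⟨Polynomial.C c, 0, 1, one_ne_zero, by simp⟩ }
  have hinv : ∀ a ∈ S, a⁻¹ ∈ S := by
    rintro a ⟨p, q, r, hr, h1⟩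
    by_cases ha : a = 0
    · subst ha
      exact ⟨0, 0, 1, one_ne_zero, by simp⟩
    · have hn : p ^ 2 - q ^ 2 * f ≠ 0 := by
        intro h0
        obtain ⟨rfl, rfl⟩ := hnorm p q h0
        simp at h1
        rcases h1 with h1 | h1
        · exact ha h1
        · exact ht r hr h1
      refine ⟨r * p, - (r * q), p ^ 2 - q ^ 2 * f, hn, ?_⟩
      simp only [map_mul, map_sub, map_pow, map_neg]
      have h3 : a⁻¹ * a = 1 := inv_mul_cancel₀ ha
      have h4 : Polynomial.aeval x p ^ 2 - Polynomial.aeval x q ^ 2 * Polynomial.aeval x f =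
          (a * Polynomial.aeval x r) * (Polynomial.aeval x p - Polynomial.aeval x q * y) := by
        rw [h1]
        linear_combination (Polynomial.aeval x q) ^ 2 * hf
      rw [h4]
      linear_combination (Polynomial.aeval x r *
        (Polynomial.aeval x p - Polynomial.aeval x q * y)) * h3
  have hS : (IntermediateField.adjoin M {x, y}) ≤ S.toIntermediateField hinv := by
    rw [IntermediateField.adjoin_le_iff]
    rintro w (rfl | rfl)
    · exact ⟨Polynomial.X, 0, 1, one_ne_zero, by simp⟩
    · exact ⟨0, 1, 1, one_ne_zero, by simp⟩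
  have hz : z ∈ S.toIntermediateField hinv := hS (by rw [g]; trivial)
  obtain ⟨p, q, r, hr, h1⟩ := hz
  exact ⟨p, q, r, hr, by rw [eq_div_iff (ht r hr), h1]⟩

end Auto1

theorem inf_unique {M N : Type} [Field M] [CharZero M] [Field N] [Algebra M N] (A B : M) (x y : N)
    (h : y ^ 2 = x ^ 3 + algebraMap M N A * x + algebraMap M N B)
    (tx : Transcendental M x) (g : IntermediateField.adjoin M {x, y} = ⊤)
    (W W₀ : ValuationSubring N) (hM : ∀ c : M, algebraMap M N c ∈ W)
    (hM₀ : ∀ c : M, algebraMap M N c ∈ W₀) (hx : x ∉ W) (hx₀ : x ∉ W₀) : W = W₀ := by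
  ext z
  obtain ⟨p, q, r, hr, rfl⟩ := Auto1.repr A B x y h tx g z
  rw [Auto1.mem_iff A B x y h W hM hx p q r hr, Auto1.mem_iff A B x y h W₀ hM₀ hx₀ p q r hr]

end Pool.Agent.DegThree
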