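import Mathlib
import Pool.Agent.Lib_MP_9293ae_ag.Auto1

/-! Piece Auto2: the affine coordinate ring is the intersection of the valuation rings containing x. -/

set_option autoImplicit false

open scoped Polynomial IntermediateField

namespace Pool.Agent.DegThree

namespace Auto2

/-- A monic quadratic equation over the fraction field of a normal domain, for an integral
element: either the element is in the ring or both coefficients are in the ring. -/
lemma quad {R K0 N : Type} [CommRing R] [IsDomain R] [IsIntegrallyClosed R] [Field K0]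
    [Algebra R K0] [IsFractionRing R K0] [Field N] [Algebra R N] [Algebra K0 N]
    [IsScalarTower R K0 N] (z : N) (hz : IsIntegral R z) (S P : K0)
    (hq : z ^ 2 + algebraMap K0 N S * z + algebraMap K0 N P = 0) :
    (∃ r : R, z = algebraMap R N r) ∨
      (∃ s p : R, algebraMap R K0 s = S ∧ algebraMap R K0 p = P) := by
  have hint : IsIntegral K0 z := hz.tower_top
  by_cases hr : z ∈ (algebraMap K0 N).range
  · left
    obtain ⟨k, rfl⟩ := hr
    have hk : IsIntegral R k := (isIntegral_algebraMap_iff (algebraMap K0 N).injective).1 hz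
    obtain ⟨r, rfl⟩ := (IsIntegrallyClosed.isIntegral_iff).1 hk
    exact ⟨r, (IsScalarTower.algebraMap_apply R K0 N r).symm⟩
  · right
    have h2 : 2 ≤ (minpoly K0 z).natDegree := (minpoly.two_le_natDegree_iff hint).2 hr
    set Q : K0[X] := Polynomial.X ^ 2 + Polynomial.C S * Polynomial.X + Polynomial.C P with hQ
    have hQd : Q.natDegree = 2 := by
      rw [hQ]; compute_degree!
    have hQm : Q.Monic := by
      rw [hQ]; monicity!
    have hQz : Polynomial.aeval z Q = 0 := by
      rw [hQ]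
      simpa using hq
    have hdvd : minpoly K0 z ∣ Q := minpoly.dvd K0 z hQz
    have hEq : minpoly K0 z = Q :=
      (Polynomial.eq_of_monic_of_dvd_of_natDegree_le (minpoly.monic hint) hQm hdvd
        (by rw [hQd]; exact h2)).symm
    have hm : minpoly K0 z = (minpoly R z).map (algebraMap R K0) :=
      minpoly.isIntegrallyClosed_eq_field_fractions' K0 hz
    rw [hEq] at hm
    refine ⟨(minpoly R z).coeff 1, (minpoly R z).coeff 0, ?_, ?_⟩
    · rw [← Polynomial.coeff_map, ← hm, hQ]
      simp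
    · rw [← Polynomial.coeff_map, ← hm, hQ]
      simp

lemma integral {M N : Type} [Field M] [Field N] [Algebra M N] (x z : N)
    (hz : ∀ W : ValuationSubring N, (∀ c : M, algebraMap M N c ∈ W) → x ∈ W → z ∈ W) :
    ∃ p : M[X][X], p.Monic ∧ Polynomial.eval₂ (Polynomial.aeval x : M[X] →ₐ[M] N).toRingHom z p = 0 := by
  set φ : M[X] →+* N := (Polynomial.aeval x : M[X] →ₐ[M] N).toRingHom with hφ
  have hz1 : z ∈ (integralClosure (Subring.closure (Set.range φ)) N).toSubring := by
    rw [← iInf_valuationSubring_superset]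
    rw [Subring.mem_iInf]
    rintro ⟨V, hV⟩
    apply hz V
    · intro c
      apply hV
      exact ⟨Polynomial.C c, by simp [hφ]⟩
    · apply hV
      exact ⟨Polynomial.X, by simp [hφ]⟩
  have hz2 : IsIntegral (Subring.closure (Set.range φ)) z := hz1
  obtain ⟨p, hp, hpz⟩ := hz2
  have hcl : Subring.closure (Set.range φ) = φ.range := by
    rw [← RingHom.coe_range, Subring.closure_eq]
  have hlift : p.map (algebraMap (Subring.closure (Set.range φ)) N) ∈ Polynomial.lifts φ := by
    rw [Polynomial.lifts_iff_coeff_lifts]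
    intro n
    rw [Polynomial.coeff_map]
    have h3 : ((p.coeff n : Subring.closure (Set.range φ)) : N) ∈ φ.range := by
      rw [← hcl]
      exact (p.coeff n).2
    obtain ⟨r, hr⟩ := h3
    exact ⟨r, hr⟩
  obtain ⟨q, hq1, -, hq3⟩ := Polynomial.lifts_and_natDegree_eq_and_monic hlift (hp.map _)
  refine ⟨q, hq3, ?_⟩
  rw [← Polynomial.eval_map, hq1, Polynomial.eval_map]
  exact hpz

lemma squarefree {M : Type} [Field M] [CharZero M] (A B : M)
    (hΔ : 4 * A ^ 3 + 27 * B ^ 2 ≠ 0) :
    Squarefree (Polynomial.X ^ 3 + Polynomial.C A * Polynomial.X + Polynomial.C B : M[X]) := by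
  apply Polynomial.Separable.squarefree
  rw [Polynomial.separable_def']
  refine ⟨Polynomial.C (4 * A ^ 3 + 27 * B ^ 2)⁻¹ * (-9 * (2 * Polynomial.C A * Polynomial.X -
    3 * Polynomial.C B)), Polynomial.C (4 * A ^ 3 + 27 * B ^ 2)⁻¹ * (4 * Polynomial.C A ^ 2 +
    3 * Polynomial.X * (2 * Polynomial.C A * Polynomial.X - 3 * Polynomial.C B)), ?_⟩
  have hder : Polynomial.derivative
      (Polynomial.X ^ 3 + Polynomial.C A * Polynomial.X + Polynomial.C B : M[X]) =
      3 * Polynomial.X ^ 2 + Polynomial.C A := by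
    simp [Polynomial.derivative_pow, map_ofNat]
  rw [hder]
  have h1 : (Polynomial.C (4 * A ^ 3 + 27 * B ^ 2)⁻¹ : M[X]) *
      (4 * Polynomial.C A ^ 3 + 27 * Polynomial.C B ^ 2) = 1 := by
    have : (4 * Polynomial.C A ^ 3 + 27 * Polynomial.C B ^ 2 : M[X]) =
        Polynomial.C (4 * A ^ 3 + 27 * B ^ 2) := by
      simp [map_ofNat]
    rw [this, ← Polynomial.C_mul, inv_mul_cancel₀ hΔ, Polynomial.C_1]
  linear_combination h1

lemma dvd_of_sq {M : Type} [Field M] (f q r : M[X]) (hf : Squarefree f) (hr : r ≠ 0)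
    (h : r ^ 2 ∣ q ^ 2 * f) : r ∣ q := by
  classical
  by_cases hq : q = 0
  · rw [hq]; exact dvd_zero _
  let inst : GCDMonoid M[X] := EuclideanDomain.gcdMonoid M[X]
  obtain ⟨g, r', q', hg, hrq⟩ : ∃ g r' q' : M[X], (r = g * r' ∧ q = g * q') ∧ IsCoprime r' q' := by
    have hne : GCDMonoid.gcd r q ≠ 0 := fun h0 => hr ((gcd_eq_zero_iff r q).1 h0).1
    refine ⟨GCDMonoid.gcd r q, r / GCDMonoid.gcd r q, q / GCDMonoid.gcd r q, ⟨?_, ?_⟩, ?_⟩
    · exact (EuclideanDomain.mul_div_cancel' hne (GCDMonoid.gcd_dvd_left r q)).symm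
    · exact (EuclideanDomain.mul_div_cancel' hne (GCDMonoid.gcd_dvd_right r q)).symm
    · exact isCoprime_div_gcd_div_gcd hq
  obtain ⟨hg1, hg2⟩ := hg
  have hg0 : g ≠ 0 := by
    intro h0
    rw [h0, zero_mul] at hg1
    exact hr hg1
  have h1 : r' ^ 2 ∣ q' ^ 2 * f := by
    rw [hg1, hg2] at h
    have h2 : g ^ 2 * r' ^ 2 ∣ g ^ 2 * (q' ^ 2 * f) := by
      convert h using 1 <;> ring
    exact (mul_dvd_mul_iff_left (pow_ne_zero 2 hg0)).1 h2
  have h3 : r' ^ 2 ∣ f := (hrq.pow).dvd_of_dvd_mul_left h1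
  have h4 : IsUnit r' := hf r' (by rw [← pow_two]; exact h3)
  rw [hg1, hg2]
  exact mul_dvd_mul_left g (h4.dvd)

end Auto2

theorem mem_adjoin_of_forall {M N : Type} [Field M] [CharZero M] [Field N] [Algebra M N] (A B : M)
    (hΔ : 4 * A ^ 3 + 27 * B ^ 2 ≠ 0) (x y : N)
    (h : y ^ 2 = x ^ 3 + algebraMap M N A * x + algebraMap M N B)
    (tx : Transcendental M x) (g : IntermediateField.adjoin M {x, y} = ⊤) (z : N)
    (hz : ∀ W : ValuationSubring N, (∀ c : M, algebraMap M N c ∈ W) → x ∈ W → z ∈ W) :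
    z ∈ Algebra.adjoin M {x, y} := by
  obtain ⟨p, q, r, hr, hzr⟩ := Auto1.repr A B x y h tx g z
  obtain ⟨F, hFm, hF⟩ := Auto2.integral x z hz
  have hinj : Function.Injective (Polynomial.aeval x : M[X] →ₐ[M] N) :=
    transcendental_iff_injective.1 tx
  have hxA : x ∈ Algebra.adjoin M {x, y} := Algebra.subset_adjoin (by simp)
  have hyA : y ∈ Algebra.adjoin M {x, y} := Algebra.subset_adjoin (by simp)
  have hpol : ∀ s : M[X], Polynomial.aeval x s ∈ Algebra.adjoin M {x, y} := fun s =>
    (Polynomial.aeval_mem_adjoin_singleton M x |> fun h => Algebra.adjoin_mono (by simp) h)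
  let alg : Algebra M[X] N := (Polynomial.aeval x : M[X] →ₐ[M] N).toRingHom.toAlgebra
  have hmap : ∀ s : M[X], algebraMap M[X] N s = Polynomial.aeval x s := fun s => rfl
  have : FaithfulSMul M[X] N := (faithfulSMul_iff_algebraMap_injective M[X] N).2 hinj
  let : Algebra (FractionRing M[X]) N := FractionRing.liftAlgebra M[X] N
  have : IsScalarTower M[X] (FractionRing M[X]) N := FractionRing.isScalarTower_liftAlgebra M[X] N
  have hzint : IsIntegral M[X] z := ⟨F, hFm, hF⟩
  have hr0 : Polynomial.aeval x r ≠ 0 := by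
    intro h0
    exact hr (hinj (by rw [h0, map_zero]))
  set f : M[X] := Polynomial.X ^ 3 + Polynomial.C A * Polynomial.X + Polynomial.C B with hf
  have hfx : y ^ 2 = Polynomial.aeval x f := by
    rw [hf]; simp [h]
  have hcoe : ∀ s : M[X], algebraMap (FractionRing M[X]) N (algebraMap M[X] (FractionRing M[X]) s) =
      Polynomial.aeval x s := fun s => by
    rw [← IsScalarTower.algebraMap_apply, hmap]
  have hrK : algebraMap M[X] (FractionRing M[X]) r ≠ 0 := by
    simpa using hr
  rcases Auto2.quad (R := M[X]) (K0 := FractionRing M[X]) z hzint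
    (algebraMap _ _ (-2 * p) / algebraMap _ _ r)
    (algebraMap _ _ (p ^ 2 - q ^ 2 * f) / algebraMap _ _ (r ^ 2)) (by
      rw [map_div₀, map_div₀, hcoe, hcoe, hcoe, hcoe, hzr]
      simp only [map_mul, map_sub, map_pow, map_neg, map_ofNat]
      rw [← hfx]
      field_simp
      ring) with ⟨s, hs⟩ | ⟨s, n, hs, hn⟩
  · rw [hs, hmap]
    exact hpol s
  · have h1 : -2 * p = s * r := by
      have h2 := (div_eq_iff hrK).1 hs.symm
      rw [← map_mul] at h2
      exact IsFractionRing.injective M[X] (FractionRing M[X]) h2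
    have hrK2 : algebraMap M[X] (FractionRing M[X]) (r ^ 2) ≠ 0 := by
      rw [map_pow]; exact pow_ne_zero 2 hrK
    have h3 : p ^ 2 - q ^ 2 * f = n * r ^ 2 := by
      have h2 := (div_eq_iff hrK2).1 hn.symm
      rw [← map_mul] at h2
      exact IsFractionRing.injective M[X] (FractionRing M[X]) h2
    have h4 : Polynomial.C (2 : M)⁻¹ * (2 : M[X]) = 1 := by
      have : (2 : M[X]) = Polynomial.C 2 := (map_ofNat Polynomial.C 2).symm
      rw [this, ← Polynomial.C_mul, inv_mul_cancel₀ two_ne_zero, Polynomial.C_1]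
    have h5 : p = (-Polynomial.C (2 : M)⁻¹ * s) * r := by
      linear_combination (-Polynomial.C (2 : M)⁻¹) * h1 - p * h4
    have h6 : r ^ 2 ∣ q ^ 2 * f := by
      refine ⟨(-Polynomial.C (2 : M)⁻¹ * s) ^ 2 - n, ?_⟩
      rw [h5] at h3
      linear_combination -h3
    obtain ⟨q', hq'⟩ := Auto2.dvd_of_sq f q r (Auto2.squarefree A B hΔ) hr h6
    have h7 : z = Polynomial.aeval x (-Polynomial.C (2 : M)⁻¹ * s) + Polynomial.aeval x q' * y := by
      rw [hzr, div_eq_iff hr0]
      rw [hq', h5]
      simp only [map_mul, map_neg]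
      ring
    rw [h7]
    exact add_mem (hpol _) (mul_mem (hpol _) hyA)

end Pool.Agent.DegThree
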