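import Pool.Agent.Lib_MP_9293ae_ag.Auto1

/-! Piece Auto3: two Weierstrass presentations of the same coordinate ring. -/

set_option autoImplicit false

open scoped Polynomial IntermediateField

namespace Pool.Agent.DegThree

namespace Auto3

variable {M N : Type} [Field M] [Field N] [Algebra M N]

/-- The valuation of `y / x` is a square root of the valuation of `x`. -/
theorem val_root (A B : M) (x y : N)
    (h : y ^ 2 = x ^ 3 + algebraMap M N A * x + algebraMap M N B)
    (W : ValuationSubring N) (hM : ∀ c : M, algebraMap M N c ∈ W) (hx : x ∉ W) :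
    1 < W.valuation (y / x) ∧ W.valuation x = W.valuation (y / x) ^ 2 ∧
      W.valuation y = W.valuation (y / x) ^ 3 := by
  have hx1 : 1 < W.valuation x := by
    rw [← not_le]; exact fun h => hx ((W.valuation_le_one_iff _).1 h)
  have hx0 : W.valuation x ≠ 0 := (lt_trans zero_lt_one hx1).ne'
  have hf : y ^ 2 = Polynomial.aeval x (Polynomial.X ^ 3 + Polynomial.C A * Polynomial.X +
      Polynomial.C B : M[X]) := by
    simp [h]
  have hdeg : (Polynomial.X ^ 3 + Polynomial.C A * Polynomial.X +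
      Polynomial.C B : M[X]).natDegree = 3 := by
    compute_degree!
  have hf0 : (Polynomial.X ^ 3 + Polynomial.C A * Polynomial.X + Polynomial.C B : M[X]) ≠ 0 := by
    intro h0
    rw [h0] at hdeg
    simp at hdeg
  have hy : W.valuation y ^ 2 = W.valuation x ^ 3 := by
    rw [← map_pow, hf, Auto1.val_poly W hM x hx _ hf0, hdeg]
  have h2 : W.valuation x = W.valuation (y / x) ^ 2 := by
    rw [map_div₀, div_pow, hy, pow_succ, mul_div_assoc, mul_comm]
    field_simp
  refine ⟨?_, h2, ?_⟩
  · by_contra hle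
    rw [not_lt] at hle
    have : W.valuation x ≤ 1 := by rw [h2]; exact pow_le_one₀ zero_le hle
    exact absurd hx1 (not_lt.2 this)
  · rw [pow_succ, ← h2, map_div₀, mul_div_cancel₀ _ hx0]

/-- Degree of an element of the coordinate ring at infinity. -/
theorem val_elem (A B : M) (x y : N)
    (h : y ^ 2 = x ^ 3 + algebraMap M N A * x + algebraMap M N B)
    (W : ValuationSubring N) (hM : ∀ c : M, algebraMap M N c ∈ W) (hx : x ∉ W)
    (p q : M[X]) (hpq : p ≠ 0 ∨ q ≠ 0) :
    ∃ d : ℕ, W.valuation (Polynomial.aeval x p + Polynomial.aeval x q * y) =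
        W.valuation (y / x) ^ d ∧ (p ≠ 0 → 2 * p.natDegree ≤ d) ∧
        (q ≠ 0 → 2 * q.natDegree + 3 ≤ d) := by
  obtain ⟨h1, h2, h3⟩ := val_root A B x y h W hM hx
  have hps : p ≠ 0 → W.valuation (Polynomial.aeval x p) =
      W.valuation (y / x) ^ (2 * p.natDegree) := by
    intro hp
    rw [Auto1.val_poly W hM x hx _ hp, h2, ← pow_mul]
  have hqs : q ≠ 0 → W.valuation (Polynomial.aeval x q * y) =
      W.valuation (y / x) ^ (2 * q.natDegree + 3) := by
    intro hq
    rw [map_mul, Auto1.val_poly W hM x hx _ hq, h3, pow_add]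
    congr 1
    rw [h2, ← pow_mul]
  by_cases hp : p = 0
  · have hq : q ≠ 0 := by tauto
    refine ⟨2 * q.natDegree + 3, ?_, fun h => absurd hp h, fun _ => le_rfl⟩
    rw [hp, map_zero, zero_add, hqs hq]
  by_cases hq : q = 0
  · refine ⟨2 * p.natDegree, ?_, fun _ => le_rfl, fun h => absurd hq h⟩
    rw [hq, map_zero, zero_mul, add_zero, hps hp]
  refine ⟨max (2 * p.natDegree) (2 * q.natDegree + 3), ?_, fun _ => le_max_left _ _,
    fun _ => le_max_right _ _⟩
  rw [Valuation.map_add_of_distinct_val, hps hp, hqs hq]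
  · rcases le_total (2 * p.natDegree) (2 * q.natDegree + 3) with h4 | h4
    · rw [max_eq_right h4, max_eq_right (pow_le_pow_right₀ h1.le h4)]
    · rw [max_eq_left h4, max_eq_left (pow_le_pow_right₀ h1.le h4)]
  · rw [hps hp, hqs hq]
    intro h4
    have := pow_right_injective₀ (lt_trans zero_lt_one h1) h1.ne' h4
    omega

/-- Elements of the coordinate ring. -/
theorem repr_adjoin (A B : M) (x y : N)
    (h : y ^ 2 = x ^ 3 + algebraMap M N A * x + algebraMap M N B) (z : N)
    (hz : z ∈ Algebra.adjoin M {x, y}) :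
    ∃ p q : M[X], z = Polynomial.aeval x p + Polynomial.aeval x q * y := by
  set f : M[X] := Polynomial.X ^ 3 + Polynomial.C A * Polynomial.X + Polynomial.C B with hfdef
  have hf : y ^ 2 = Polynomial.aeval x f := by
    simp [hfdef, h]
  let S : Subalgebra M N :=
    { carrier := {z | ∃ p q : M[X], z = Polynomial.aeval x p + Polynomial.aeval x q * y}
      mul_mem' := by
        rintro a b ⟨p, q, h1⟩ ⟨p', q', h2⟩
        refine ⟨p * p' + q * q' * f, p * q' + q * p', ?_⟩
        simp only [map_mul, map_add]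
        rw [h1, h2]
        linear_combination (Polynomial.aeval x q * Polynomial.aeval x q') * hf
      add_mem' := by
        rintro a b ⟨p, q, h1⟩ ⟨p', q', h2⟩
        refine ⟨p + p', q + q', ?_⟩
        simp only [map_add]
        rw [h1, h2]
        ring
      algebraMap_mem' := by
        intro c
        exact ⟨Polynomial.C c, 0, by simp⟩ }
  have hS : Algebra.adjoin M {x, y} ≤ S := by
    rw [Algebra.adjoin_le_iff]
    rintro w (rfl | rfl)
    · exact ⟨Polynomial.X, 0, by simp⟩
    · exact ⟨0, 1, by simp⟩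
  exact hS hz

/-- Comparison of the two square roots. -/
theorem exists_pow (A B : M) (x y x' y' : N)
    (h : y ^ 2 = x ^ 3 + algebraMap M N A * x + algebraMap M N B)
    (h' : y' ^ 2 = x' ^ 3 + algebraMap M N A * x' + algebraMap M N B)
    (W : ValuationSubring N) (hM : ∀ c : M, algebraMap M N c ∈ W) (hx : x ∉ W) (hx' : x' ∉ W)
    (hX : x' ∈ Algebra.adjoin M {x, y}) (hY : y' ∈ Algebra.adjoin M {x, y}) :
    ∃ m : ℕ, W.valuation (y' / x') = W.valuation (y / x) ^ m := by
  obtain ⟨h1, h2, h3⟩ := val_root A B x y h W hM hx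
  obtain ⟨k1, k2, k3⟩ := val_root A B x' y' h' W hM hx'
  obtain ⟨p, q, hpq⟩ := repr_adjoin A B x y h x' hX
  obtain ⟨r, s, hrs⟩ := repr_adjoin A B x y h y' hY
  have hx'0 : x' ≠ 0 := by rintro rfl; exact hx' W.zero_mem
  have hy'0 : y' ≠ 0 := by
    rintro rfl
    rw [map_zero] at k3
    have := pow_pos (lt_trans zero_lt_one k1) 3
    rw [← k3] at this
    exact lt_irrefl _ this
  have hpq0 : p ≠ 0 ∨ q ≠ 0 := by
    by_contra hc
    push Not at hc
    rw [hc.1, hc.2] at hpq
    simp at hpq
    exact hx'0 hpq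
  have hrs0 : r ≠ 0 ∨ s ≠ 0 := by
    by_contra hc
    push Not at hc
    rw [hc.1, hc.2] at hrs
    simp at hrs
    exact hy'0 hrs
  obtain ⟨a, ha, -, -⟩ := val_elem A B x y h W hM hx p q hpq0
  obtain ⟨b, hb, -, -⟩ := val_elem A B x y h W hM hx r s hrs0
  rw [← hpq, k2] at ha
  rw [← hrs, k3] at hb
  have hπ : W.valuation (y / x) ≠ 0 := (lt_trans zero_lt_one h1).ne'
  have hπ' : W.valuation (y' / x') ≠ 0 := (lt_trans zero_lt_one k1).ne'
  have hab : a ≤ b := by
    by_contra hc
    rw [not_le] at hc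
    have h5 : W.valuation (y / x) ^ b < W.valuation (y / x) ^ a := pow_lt_pow_right₀ h1 hc
    rw [← ha, ← hb] at h5
    have h6 : W.valuation (y' / x') ^ 2 < W.valuation (y' / x') ^ 3 :=
      pow_lt_pow_right₀ k1 (by norm_num)
    exact absurd h5 (not_lt.2 h6.le)
  refine ⟨b - a, ?_⟩
  have h7 : W.valuation (y' / x') * W.valuation (y' / x') ^ 2 =
      W.valuation (y / x) ^ (b - a) * W.valuation (y' / x') ^ 2 := by
    rw [← pow_succ', hb, ha, ← pow_add]
    congr 1
    omega
  exact mul_right_cancel₀ (pow_ne_zero 2 hπ') h7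

theorem cubic_zero (a b c d : M) (h0 : Polynomial.C a * Polynomial.X ^ 3 +
    Polynomial.C b * Polynomial.X ^ 2 +
      Polynomial.C c * Polynomial.X + Polynomial.C d = 0) : a = 0 ∧ b = 0 ∧ c = 0 ∧ d = 0 := by
  have h1 : (Cubic.mk a b c d).toPoly = 0 := h0
  rw [Cubic.toPoly_eq_zero_iff] at h1
  have ha := congrArg Cubic.a h1
  have hb := congrArg Cubic.b h1
  have hc := congrArg Cubic.c h1
  have hd := congrArg Cubic.d h1
  exact ⟨ha, hb, hc, hd⟩

end Auto3

theorem eq_of_adjoin_eq {M N : Type} [Field M] [CharZero M] [Field N] [Algebra M N] (A B : M)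
    (hA : A ≠ 0) (hB : B ≠ 0) (x y x' y' : N)
    (h : y ^ 2 = x ^ 3 + algebraMap M N A * x + algebraMap M N B)
    (h' : y' ^ 2 = x' ^ 3 + algebraMap M N A * x' + algebraMap M N B)
    (tx : Transcendental M x) (tx' : Transcendental M x')
    (hadj : Algebra.adjoin M {x, y} = Algebra.adjoin M {x', y'}) :
    x' = x ∧ (y' = y ∨ y' = -y) := by
  classical
  -- a place at infinity
  obtain ⟨W, hM, hx⟩ : ∃ W : ValuationSubring N, (∀ c : M, algebraMap M N c ∈ W) ∧ x ∉ W := by
    by_contra hc
    push Not at hc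
    have hmem : x ∈ (⨅ V : {V : ValuationSubring N //
        ((algebraMap M N).range : Set N) ⊆ V.toSubring}, V.1.toSubring) := by
      rw [Subring.mem_iInf]
      intro V
      exact hc V.1 (fun c => V.2 ⟨c, rfl⟩)
    rw [iInf_valuationSubring_superset, Subring.closure_eq] at hmem
    have hint : IsIntegral (algebraMap M N).range x := hmem
    let e : M ≃+* (algebraMap M N).range := RingEquiv.ofBijective (algebraMap M N).rangeRestrict
      ⟨fun a b hab => (algebraMap M N).injective (congrArg Subtype.val hab),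
        (algebraMap M N).rangeRestrict_surjective⟩
    have h2 : IsIntegral M ((RingHom.id N) x) := by
      refine IsIntegral.map_of_comp_eq e.symm.toRingHom (RingHom.id N) ?_ hint
      ext r
      have := congrArg Subtype.val (e.apply_symm_apply r)
      exact this
    exact tx (IsIntegral.isAlgebraic h2)
  have hy2W : ∀ u v : N, v ^ 2 = u ^ 3 + algebraMap M N A * u + algebraMap M N B → u ∈ W → v ∈ W := by
    intro u v huv hu
    have h2 : v ^ 2 ∈ W := by
      rw [huv]
      exact W.add_mem _ _ (W.add_mem _ _ (W.pow_mem hu 3) (W.mul_mem _ _ (hM A) hu)) (hM B)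
    rw [← W.valuation_le_one_iff] at h2 ⊢
    rw [map_pow] at h2
    by_contra hc
    rw [not_le] at hc
    exact absurd (one_lt_pow₀ hc two_ne_zero) (not_lt.2 h2)
  have hx' : x' ∉ W := by
    intro hc
    have hy'W := hy2W x' y' h' hc
    have hsub : x ∈ Algebra.adjoin M {x', y'} := by
      rw [← hadj]; exact Algebra.subset_adjoin (by simp)
    obtain ⟨p, q, hpq⟩ := Auto3.repr_adjoin A B x' y' h' x hsub
    apply hx
    have haev : ∀ p : M[X], Polynomial.aeval x' p ∈ W := by
      intro p
      rw [Polynomial.aeval_eq_sum_range]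
      refine sum_mem fun i _ => ?_
      rw [Algebra.smul_def]
      exact W.mul_mem _ _ (hM _) (W.pow_mem hc i)
    rw [hpq]
    exact W.add_mem _ _ (haev p) (W.mul_mem _ _ (haev q) hy'W)
  obtain ⟨h1, h2, h3⟩ := Auto3.val_root A B x y h W hM hx
  obtain ⟨k1, k2, k3⟩ := Auto3.val_root A B x' y' h' W hM hx'
  have hX : x' ∈ Algebra.adjoin M {x, y} := by
    rw [hadj]; exact Algebra.subset_adjoin (by simp)
  have hY : y' ∈ Algebra.adjoin M {x, y} := by
    rw [hadj]; exact Algebra.subset_adjoin (by simp)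
  have hX2 : x ∈ Algebra.adjoin M {x', y'} := by
    rw [← hadj]; exact Algebra.subset_adjoin (by simp)
  have hY2 : y ∈ Algebra.adjoin M {x', y'} := by
    rw [← hadj]; exact Algebra.subset_adjoin (by simp)
  obtain ⟨m, hm⟩ := Auto3.exists_pow A B x y x' y' h h' W hM hx hx' hX hY
  obtain ⟨m', hm'⟩ := Auto3.exists_pow A B x' y' x y h' h W hM hx' hx hX2 hY2
  have hπ : W.valuation (y' / x') = W.valuation (y / x) := by
    have h4 : W.valuation (y / x) ^ 1 = W.valuation (y / x) ^ (m * m') := by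
      rw [pow_mul, ← hm, ← hm', pow_one]
    have h5 := pow_right_injective₀ (lt_trans zero_lt_one h1) h1.ne' h4
    have h6 : m = 1 := Nat.eq_one_of_mul_eq_one_right h5.symm
    rw [hm, h6, pow_one]
  -- shape of x'
  obtain ⟨u, v, huv⟩ := Auto3.repr_adjoin A B x y h x' hX
  obtain ⟨r, s, hrs⟩ := Auto3.repr_adjoin A B x y h y' hY
  have hx'0 : x' ≠ 0 := by rintro rfl; exact hx' W.zero_mem
  have hy'0 : y' ≠ 0 := by
    rintro rfl
    rw [map_zero] at k3
    have := pow_pos (lt_trans zero_lt_one k1) 3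
    rw [← k3] at this
    exact lt_irrefl _ this
  have huv0 : u ≠ 0 ∨ v ≠ 0 := by
    by_contra hc
    push Not at hc
    rw [hc.1, hc.2] at huv
    simp at huv
    exact hx'0 huv
  have hrs0 : r ≠ 0 ∨ s ≠ 0 := by
    by_contra hc
    push Not at hc
    rw [hc.1, hc.2] at hrs
    simp at hrs
    exact hy'0 hrs
  obtain ⟨a, ha, hau, hav⟩ := Auto3.val_elem A B x y h W hM hx u v huv0
  obtain ⟨b, hb, hbr, hbs⟩ := Auto3.val_elem A B x y h W hM hx r s hrs0
  rw [← huv, k2, hπ] at ha
  rw [← hrs, k3, hπ] at hb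
  have ha2 : 2 = a := pow_right_injective₀ (lt_trans zero_lt_one h1) h1.ne' ha
  have hb3 : 3 = b := pow_right_injective₀ (lt_trans zero_lt_one h1) h1.ne' hb
  have hv0 : v = 0 := by
    by_contra hc
    have := hav hc
    omega
  have hu1 : u.natDegree ≤ 1 := by
    by_cases hc : u = 0
    · rw [hc]; simp
    · have := hau hc; omega
  have hr1 : r.natDegree ≤ 1 := by
    by_cases hc : r = 0
    · rw [hc]; simp
    · have := hbr hc; omega
  have hs0 : s.natDegree = 0 := by
    by_cases hc : s = 0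
    · rw [hc]; simp
    · have := hbs hc; omega
  obtain ⟨u1, u0, hu⟩ : ∃ u1 u0 : M, u = Polynomial.C u1 * Polynomial.X + Polynomial.C u0 :=
    ⟨_, _, Polynomial.eq_X_add_C_of_natDegree_le_one hu1⟩
  obtain ⟨r1, r0, hr⟩ : ∃ r1 r0 : M, r = Polynomial.C r1 * Polynomial.X + Polynomial.C r0 :=
    ⟨_, _, Polynomial.eq_X_add_C_of_natDegree_le_one hr1⟩
  obtain ⟨s0, hs⟩ : ∃ s0 : M, s = Polynomial.C s0 := ⟨_, Polynomial.eq_C_of_natDegree_eq_zero hs0⟩
  have hx'e : x' = algebraMap M N u1 * x + algebraMap M N u0 := by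
    rw [huv, hv0, hu]; simp
  have hy'e : y' = algebraMap M N r1 * x + algebraMap M N r0 + algebraMap M N s0 * y := by
    rw [hrs, hr, hs]; simp
  have hind : ∀ p q : M[X], Polynomial.aeval x p + Polynomial.aeval x q * y = 0 → p = 0 ∧ q = 0 := by
    intro p q h0
    by_contra hc
    have hc' : p ≠ 0 ∨ q ≠ 0 := by tauto
    obtain ⟨d, hd, -, -⟩ := Auto3.val_elem A B x y h W hM hx p q hc'
    rw [h0, map_zero] at hd
    exact pow_ne_zero d (lt_trans zero_lt_one h1).ne' hd.symm
  have hPQ := hind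
    (Polynomial.C (s0 ^ 2 - u1 ^ 3) * Polynomial.X ^ 3 + Polynomial.C (r1 ^ 2 - 3 * u1 ^ 2 * u0) *
      Polynomial.X ^ 2 + Polynomial.C (s0 ^ 2 * A + 2 * r1 * r0 - 3 * u1 * u0 ^ 2 - A * u1) *
      Polynomial.X + Polynomial.C (s0 ^ 2 * B + r0 ^ 2 - u0 ^ 3 - A * u0 - B))
    (Polynomial.C (2 * s0 * r1) * Polynomial.X + Polynomial.C (2 * s0 * r0)) (by
      simp only [map_add, map_mul, map_sub, map_pow, Polynomial.aeval_X, Polynomial.aeval_C,
        map_ofNat]
      rw [hx'e, hy'e] at h'
      linear_combination h' - (algebraMap M N s0) ^ 2 * h)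
  obtain ⟨hP, hQ⟩ := hPQ
  obtain ⟨e3, e2, e1, e0⟩ := Auto3.cubic_zero _ _ _ _ hP
  obtain ⟨-, -, d1, d0⟩ := Auto3.cubic_zero 0 0 (2 * s0 * r1) (2 * s0 * r0) (by
    rw [map_zero, zero_mul, zero_mul, zero_add, zero_add]; exact hQ)
  have hu10 : u1 ≠ 0 := by
    rintro rfl
    apply tx'
    rw [hx'e, map_zero, zero_mul, zero_add]
    exact isAlgebraic_algebraMap _
  have hs00 : s0 ≠ 0 := by
    rintro rfl
    have : u1 ^ 3 = 0 := by linear_combination -e3
    exact hu10 (pow_eq_zero_iff (by norm_num) |>.1 this)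
  have h2M : (2 : M) ≠ 0 := two_ne_zero
  have h3M : (3 : M) ≠ 0 := three_ne_zero
  have hr10 : r1 = 0 := by
    rcases mul_eq_zero.1 d1 with h | h
    · exact absurd h (mul_ne_zero h2M hs00)
    · exact h
  have hr00 : r0 = 0 := by
    rcases mul_eq_zero.1 d0 with h | h
    · exact absurd h (mul_ne_zero h2M hs00)
    · exact h
  subst hr10 hr00
  have hu00 : u0 = 0 := by
    have : (3 * u1 ^ 2) * u0 = 0 := by linear_combination -e2
    rcases mul_eq_zero.1 this with h | h
    · exact absurd h (mul_ne_zero h3M (pow_ne_zero 2 hu10))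
    · exact h
  subst hu00
  have hs2 : s0 ^ 2 = 1 := by
    have : (s0 ^ 2 - 1) * B = 0 := by linear_combination e0
    rcases mul_eq_zero.1 this with h | h
    · linear_combination h
    · exact absurd h hB
  have hu1' : u1 = 1 := by
    have : (s0 ^ 2 - u1) * A = 0 := by linear_combination e1
    rcases mul_eq_zero.1 this with h | h
    · linear_combination hs2 - h
    · exact absurd h hA
  subst hu1'
  refine ⟨by rw [hx'e]; simp, ?_⟩
  have hs1 : (s0 - 1) * (s0 + 1) = 0 := by linear_combination hs2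
  rcases mul_eq_zero.1 hs1 with h | h
  · left
    have : s0 = 1 := by linear_combination h
    rw [hy'e, this]; simp
  · right
    have : s0 = -1 := by linear_combination h
    rw [hy'e, this]; simp

end Pool.Agent.DegThree
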