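import Mathlib

/-! Piece Auto4: the residue field of a place of a function field of one variable. -/

set_option autoImplicit false

open scoped Polynomial IntermediateField

namespace Pool.Agent.DegThree

open scoped IntermediateField.algebraAdjoinAdjoin in
/-- Exchange: if `N` is algebraic over `M(x)` and `f` is transcendental over `M`, then `N` is
algebraic over `M(f)`. -/
theorem auto4_exchange {M N : Type} [Field M] [Field N] [Algebra M N]
    (x : N) (_tx : Transcendental M x)
    (halg : Algebra.IsAlgebraic (IntermediateField.adjoin M {x}) N) (f : N)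
    (tf : Transcendental M f) :
    Algebra.IsAlgebraic (IntermediateField.adjoin M {f}) N := by
  have h1 : Algebra.IsAlgebraic (Algebra.adjoin M {x}) N :=
    (IsFractionRing.comap_isAlgebraic_iff (A := Algebra.adjoin M {x})
      (K := IntermediateField.adjoin M {x}) (C := N)).2 halg
  have h2 : Algebra.trdeg M N ≤ Cardinal.mk ({x} : Set N) :=
    Algebra.IsAlgebraic.trdeg_le_cardinalMk M {x}
  have h3 : AlgebraicIndependent M (fun _ : Unit => f) :=
    algebraicIndependent_unique_type_iff.2 tf
  have h4 : IsTranscendenceBasis M (fun _ : Unit => f) :=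
    h3.isTranscendenceBasis_of_lift_trdeg_le_of_finite (by simpa using h2)
  have h5 := h4.isAlgebraic_field
  rwa [Set.range_const] at h5

theorem residue_const {M N : Type} [Field M] [Field N] [Algebra M N] [IsAlgClosed M] (x : N)
    (tx : Transcendental M x) (halg : Algebra.IsAlgebraic (IntermediateField.adjoin M {x}) N)
    (W : ValuationSubring N) (hM : ∀ c : M, algebraMap M N c ∈ W) (hW : W ≠ ⊤) (f : N)
    (hf : f ∈ W) : ∃ c : M, W.valuation (f - algebraMap M N c) < 1 := by
  by_contra hcon
  push Not at hcon
  have hle : ∀ z ∈ W, W.valuation z ≤ 1 := fun z hz => (W.valuation_le_one_iff z).2 hz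
  have hval1 : ∀ c : M, W.valuation (f - algebraMap M N c) = 1 := fun c =>
    le_antisymm (hle _ (W.sub_mem hf (hM c))) (hcon c)
  have hMval : ∀ c : M, c ≠ 0 → W.valuation (algebraMap M N c) = 1 := by
    intro c hc
    refine le_antisymm (hle _ (hM c)) ?_
    have h1 := hle _ (hM c⁻¹)
    rw [map_inv₀, map_inv₀] at h1
    have h2 : W.valuation (algebraMap M N c) ≠ 0 := by
      rw [Ne, map_eq_zero, map_eq_zero]
      exact hc
    exact (inv_le_one₀ (zero_lt_iff.2 h2)).1 h1
  -- all nonzero polynomials in f have valuation one
  have hpoly : ∀ p : M[X], p ≠ 0 → W.valuation (Polynomial.aeval f p) = 1 := by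
    intro p hp
    have hs := IsAlgClosed.splits p
    rw [hs.eq_prod_roots] 
    rw [map_mul, Polynomial.aeval_C, map_mul, hMval _ (Polynomial.leadingCoeff_ne_zero.2 hp),
      one_mul, map_multiset_prod, map_multiset_prod, Multiset.map_map, Multiset.map_map]
    apply Multiset.prod_eq_one
    intro a ha
    rw [Multiset.mem_map] at ha
    obtain ⟨c, _, rfl⟩ := ha
    simpa using hval1 c
  have tf : Transcendental M f := by
    rw [transcendental_iff]
    intro p hp
    by_contra hp0
    have := hpoly p hp0
    rw [hp, map_zero] at this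
    exact zero_ne_one this
  have hN := auto4_exchange x tx halg f tf
  apply hW
  rw [eq_top_iff]
  intro z _
  -- z is algebraic over M(f), M(f) ⊆ W
  have hMf : ∀ w : IntermediateField.adjoin M {f}, (w : N) ∈ W := by
    intro w
    obtain ⟨p, q, hpq⟩ := (IntermediateField.mem_adjoin_simple_iff M (w : N)).1 w.2
    by_cases hq : q = 0
    · rw [hpq, hq]
      simp [W.zero_mem]
    · rw [← W.valuation_le_one_iff, hpq, map_div₀, hpoly q hq, div_one]
      by_cases hp : p = 0
      · simp [hp]
      · exact (hpoly p hp).le
  have hz : IsIntegral (IntermediateField.adjoin M {f}) z := (hN.isAlgebraic z).isIntegral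
  obtain ⟨P, hP, hPz⟩ := hz
  -- W is integrally closed
  let φ : IntermediateField.adjoin M {f} →+* W :=
    { toFun := fun w => ⟨w, hMf w⟩
      map_one' := rfl
      map_zero' := rfl
      map_mul' := fun _ _ => rfl
      map_add' := fun _ _ => rfl }
  have hz2 : IsIntegral W z := by
    refine ⟨P.map φ, hP.map φ, ?_⟩
    rw [Polynomial.eval₂_map]
    exact hPz
  obtain ⟨w, hw⟩ := IsIntegrallyClosed.isIntegral_iff.1 hz2
  rw [← hw]
  exact w.2

end Pool.Agent.DegThree
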