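import Mathlib

/-! Piece Auto5: translating a point to infinity. -/

set_option autoImplicit false

open scoped Polynomial IntermediateField

namespace Pool.Agent.DegThree

theorem exists_translate {M N : Type} [Field M] [CharZero M] [Field N] [Algebra M N] (A B : M)
    (hΔ : 4 * A ^ 3 + 27 * B ^ 2 ≠ 0)
    (W : ValuationSubring N) (hM : ∀ c : M, algebraMap M N c ∈ W)
    (hres : ∀ f ∈ W, ∃ c : M, W.valuation (f - algebraMap M N c) < 1)
    (x y : N) (h : y ^ 2 = x ^ 3 + algebraMap M N A * x + algebraMap M N B)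
    (tx : Transcendental M x) :
    x ∉ W ∨ ∃ a b : M, b ^ 2 = a ^ 3 + A * a + B ∧
      ((y - algebraMap M N b) / (x - algebraMap M N a)) ^ 2 - x - algebraMap M N a ∉ W := by
  by_cases hx : x ∈ W
  swap
  · exact Or.inl hx
  right
  set v := W.valuation with hv
  have hW : ∀ z, v z ≤ 1 ↔ z ∈ W := fun z => W.valuation_le_one_iff z
  -- constants
  have hc1 : ∀ c : M, v (algebraMap M N c) ≤ 1 := fun c => (hW _).mpr (hM c)
  have hc2 : ∀ c : M, c ≠ 0 → v (algebraMap M N c) = 1 := by
    intro c hc
    refine le_antisymm (hc1 c) ?_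
    have h1 := hc1 c⁻¹
    rw [map_inv₀, map_inv₀] at h1
    by_contra h2
    push Not at h2
    have h3 : v (algebraMap M N c) ≠ 0 := by
      rw [Valuation.ne_zero_iff]
      exact (map_ne_zero _).mpr hc
    have h4 : 1 < (v (algebraMap M N c))⁻¹ := (one_lt_inv₀ (zero_lt_iff.mpr h3)).mpr h2
    exact absurd h1 (not_le.mpr h4)
  have hvx : v x ≤ 1 := (hW x).mpr hx
  have hy : v y ≤ 1 := by
    have h1 : v (y ^ 2) ≤ 1 := by
      rw [h, hW]
      exact W.add_mem _ _ (W.add_mem _ _ (W.toSubring.pow_mem hx 3)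
        (W.mul_mem _ _ (hM A) hx)) (hM B)
    rw [map_pow] at h1
    by_contra h2
    push Not at h2
    exact absurd h1 (not_le.mpr (one_lt_pow₀ h2 two_ne_zero))
  obtain ⟨a, ha⟩ := hres x hx
  obtain ⟨c, hc⟩ := hres y ((hW y).mp hy)
  have hmul : ∀ s t : N, v s < 1 → v t ≤ 1 → v (s * t) < 1 := by
    intro s t h1 h2
    rw [map_mul]
    exact mul_lt_one_of_lt_of_le h1 h2
  have hadd : ∀ s t : N, v s < 1 → v t < 1 → v (s + t) < 1 := fun s t h1 h2 => v.map_add_lt h1 h2
  have hadd1 : ∀ s t : N, v s ≤ 1 → v t ≤ 1 → v (s + t) ≤ 1 := fun s t h1 h2 => v.map_add_le h1 h2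
  have hmul1 : ∀ s t : N, v s ≤ 1 → v t ≤ 1 → v (s * t) ≤ 1 := by
    intro s t h1 h2
    rw [map_mul]
    exact mul_le_one' h1 h2
  have hpoint : c ^ 2 = a ^ 3 + A * a + B := by
    by_contra hne
    have h1 := hc2 _ (sub_ne_zero.mpr hne)
    have h2 : algebraMap M N (c ^ 2 - (a ^ 3 + A * a + B)) =
        (y - algebraMap M N c) * (-(y + algebraMap M N c)) + (x - algebraMap M N a) *
          (x * x + x * algebraMap M N a + algebraMap M N a * algebraMap M N a +
            algebraMap M N A) := by
      simp only [map_sub, map_add, map_mul, map_pow]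
      linear_combination h
    rw [h2] at h1
    refine absurd h1 (ne_of_lt (hadd _ _ (hmul _ _ hc ?_) (hmul _ _ ha ?_)))
    · rw [Valuation.map_neg]
      exact hadd1 _ _ hy (hc1 c)
    · exact hadd1 _ _ (hadd1 _ _ (hadd1 _ _ (hmul1 _ _ hvx hvx) (hmul1 _ _ hvx (hc1 a)))
        (hmul1 _ _ (hc1 a) (hc1 a))) (hc1 A)
  have hxa : x - algebraMap M N a ≠ 0 := by
    intro h0
    apply tx
    rw [sub_eq_zero.mp h0]
    exact isAlgebraic_algebraMap a
  have hxa0 : 0 < v (x - algebraMap M N a) := zero_lt_iff.mpr ((Valuation.ne_zero_iff _).mpr hxa)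
  refine ⟨a, -c, by rw [neg_sq]; exact hpoint, ?_⟩
  -- it suffices that the square has large valuation
  suffices hbig : 1 < v (((y - algebraMap M N (-c)) / (x - algebraMap M N a)) ^ 2) by
    intro hmem
    rw [← hW] at hmem
    have h1 : ((y - algebraMap M N (-c)) / (x - algebraMap M N a)) ^ 2 =
      (((y - algebraMap M N (-c)) / (x - algebraMap M N a)) ^ 2 - x - algebraMap M N a) +
        (x + algebraMap M N a) := by ring
    rw [h1] at hbig
    exact absurd (hadd1 _ _ hmem (hadd1 _ _ hvx (hc1 a))) (not_le.mpr hbig)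
  have hunit : ∀ (s : N) (m : M), m ≠ 0 → v (s - algebraMap M N m) < 1 → v s = 1 := by
    intro s m hm h1
    have h2 : s = (s - algebraMap M N m) + algebraMap M N m := by ring
    rw [h2, Valuation.map_add_eq_of_lt_right _ (by rw [hc2 m hm]; exact h1), hc2 m hm]
  by_cases hc0 : c = 0
  · have hfa : a ^ 3 + A * a + B = 0 := by rw [← hpoint, hc0]; ring
    have hder : 3 * a ^ 2 + A ≠ 0 := by
      intro h0
      apply hΔ
      have hA : A = -(3 * a ^ 2) := by linear_combination h0
      have hB : B = 2 * a ^ 3 := by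
        rw [hA] at hfa
        linear_combination hfa
      rw [hA, hB]
      ring
    have hfa' : algebraMap M N a ^ 3 + algebraMap M N A * algebraMap M N a + algebraMap M N B = 0 := by
      have := congrArg (algebraMap M N) hfa
      simpa using this
    set g := x * x + x * algebraMap M N a + algebraMap M N a * algebraMap M N a +
            algebraMap M N A with hg
    have hy2 : y ^ 2 = (x - algebraMap M N a) * g := by
      rw [h, hg]
      linear_combination hfa'
    have hg1 : v g = 1 := by
      refine hunit g _ hder ?_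
      have h1 : g - algebraMap M N (3 * a ^ 2 + A) =
          (x - algebraMap M N a) * (x + algebraMap M N a + algebraMap M N a) := by
        rw [hg]
        simp only [map_add, map_mul, map_pow, map_ofNat]
        ring
      rw [h1]
      exact hmul _ _ ha (hadd1 _ _ (hadd1 _ _ hvx (hc1 a)) (hc1 a))
    have h2 : ((y - algebraMap M N (-c)) / (x - algebraMap M N a)) ^ 2 =
        g / (x - algebraMap M N a) := by
      rw [hc0, neg_zero, map_zero, sub_zero, div_pow, hy2]
      field_simp
    rw [h2, map_div₀, hg1, one_div]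
    exact (one_lt_inv₀ hxa0).mpr ha
  · have h1 : v (y - algebraMap M N (-c)) = 1 := by
      refine hunit _ (2 * c) (mul_ne_zero two_ne_zero hc0) ?_
      have h2 : y - algebraMap M N (-c) - algebraMap M N (2 * c) = y - algebraMap M N c := by
        simp only [map_neg, map_mul, map_ofNat]
        ring
      rw [h2]
      exact hc
    rw [map_pow, map_div₀, h1, one_div]
    exact one_lt_pow₀ ((one_lt_inv₀ hxa0).mpr ha) two_ne_zero

end Pool.Agent.DegThree
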