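import Pool.Agent.Lib_MP_9293ae_ag.Auto1
import Pool.Agent.Lib_MP_9293ae_ag.Auto2
import Pool.Agent.Lib_MP_9293ae_ag.Auto3
import Pool.Agent.Lib_MP_9293ae_ag.Auto4
import Pool.Agent.Lib_MP_9293ae_ag.Auto5

/-! Piece Auto6: automorphisms of an elliptic function field are translations up to sign. -/

set_option autoImplicit false

open scoped Polynomial IntermediateField

namespace Pool.Agent.DegThree

namespace Auto6

variable {M N : Type} [Field M] [Field N] [Algebra M N]

/-- Over an algebraically closed field, elements which are not transcendental are constants. -/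
theorem mem_range_of_isIntegral [IsAlgClosed M] (z : N) (hz : IsIntegral M z) :
    ∃ c : M, algebraMap M N c = z := by
  have h1 : (minpoly M z).degree = 1 :=
    IsAlgClosed.degree_eq_one_of_irreducible M (minpoly.irreducible hz)
  exact minpoly.mem_range_of_degree_eq_one M z h1

/-- A transcendental element is outside some valuation ring containing the constants. -/
theorem exists_not_mem [IsAlgClosed M] (x : N) (tx : Transcendental M x) :
    ∃ W : ValuationSubring N, (∀ c : M, algebraMap M N c ∈ W) ∧ x ∉ W := by
  have hcl : IsIntegrallyClosedIn (algebraMap M N).range N := by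
    rw [Subring.isIntegrallyClosedIn_iff]
    intro z hz
    have h2 : IsIntegral M z := by
      obtain ⟨p, hp, hpz⟩ := hz
      obtain ⟨q, hq, -, hqm⟩ := Polynomial.lifts_and_natDegree_eq_and_monic
        (f := (algebraMap M N).rangeRestrict) (p := p)
        ((Polynomial.mem_lifts _).2 (by
          obtain ⟨q, hq⟩ := Polynomial.map_surjective (algebraMap M N).rangeRestrict
            (algebraMap M N).rangeRestrict_surjective p
          exact ⟨q, hq⟩)) hp
      refine ⟨q, hqm, ?_⟩
      rw [← hpz, ← hq, Polynomial.eval₂_map]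
      rfl
    obtain ⟨c, hc⟩ := mem_range_of_isIntegral z h2
    exact ⟨c, hc⟩
  have hx : x ∉ (algebraMap M N).range := by
    rintro ⟨c, hc⟩
    exact tx (hc ▸ isAlgebraic_algebraMap c)
  obtain ⟨V, hV, hxV⟩ := Subring.exists_le_valuationSubring_of_isIntegrallyClosedIn hx
  exact ⟨V, fun c => hV ⟨c, rfl⟩, hxV⟩

/-- An element outside a valuation ring containing the constants is transcendental. -/
theorem transcendental_of_not_mem [IsAlgClosed M] (x : N) (W : ValuationSubring N)
    (hM : ∀ c : M, algebraMap M N c ∈ W) (hx : x ∉ W) : Transcendental M x := by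
  intro ha
  obtain ⟨c, hc⟩ := mem_range_of_isIntegral x ha.isIntegral
  exact hx (hc ▸ hM c)

theorem mem_of_sq_mem (W : ValuationSubring N) (y : N) (h : y ^ 2 ∈ W) : y ∈ W := by
  rcases W.mem_or_inv_mem y with hy | hy
  · exact hy
  · by_cases hy0 : y = 0
    · rw [hy0]; exact W.zero_mem
    · have := W.mul_mem _ _ h hy
      rwa [pow_two, mul_assoc, mul_inv_cancel₀ hy0, mul_one] at this

theorem y_mem (A B : M) (x y : N) (h : y ^ 2 = x ^ 3 + algebraMap M N A * x + algebraMap M N B)
    (W : ValuationSubring N) (hM : ∀ c : M, algebraMap M N c ∈ W) (hx : x ∈ W) : y ∈ W := by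
  apply mem_of_sq_mem
  rw [h]
  exact W.add_mem _ _ (W.add_mem _ _ (pow_mem hx 3) (W.mul_mem _ _ (hM A) hx)) (hM B)

/-- One inclusion of the coordinate rings. -/
theorem adjoin_le_adjoin [CharZero M] (A B : M) (hΔ : 4 * A ^ 3 + 27 * B ^ 2 ≠ 0)
    (x y x' y' : N)
    (h : y ^ 2 = x ^ 3 + algebraMap M N A * x + algebraMap M N B)
    (h' : y' ^ 2 = x' ^ 3 + algebraMap M N A * x' + algebraMap M N B)
    (tx : Transcendental M x) (tx' : Transcendental M x')
    (g : IntermediateField.adjoin M {x, y} = ⊤) (g' : IntermediateField.adjoin M {x', y'} = ⊤)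
    (W₀ : ValuationSubring N) (hM₀ : ∀ c : M, algebraMap M N c ∈ W₀) (hx₀ : x ∉ W₀)
    (hx₀' : x' ∉ W₀) : Algebra.adjoin M {x', y'} ≤ Algebra.adjoin M {x, y} := by
  have key : ∀ W : ValuationSubring N, (∀ c : M, algebraMap M N c ∈ W) → x ∈ W → x' ∈ W := by
    intro W hM hx
    by_contra hx'
    have := inf_unique A B x' y' h' tx' g' W W₀ hM hM₀ hx' hx₀'
    exact hx₀ (this ▸ hx)
  rw [Algebra.adjoin_le_iff]
  rintro w (rfl | rfl)
  · exact mem_adjoin_of_forall A B hΔ x y h tx g w key
  · exact mem_adjoin_of_forall A B hΔ x y h tx g w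
      (fun W hM hx => y_mem A B x' w h' W hM (key W hM hx))

end Auto6

theorem auto_lemma {M N : Type} [Field M] [CharZero M] [Field N] [Algebra M N] [IsAlgClosed M]
    (A B : M) (hA : A ≠ 0) (hB : B ≠ 0)
    (hΔ : 4 * A ^ 3 + 27 * B ^ 2 ≠ 0) (x y x' y' : N)
    (h : y ^ 2 = x ^ 3 + algebraMap M N A * x + algebraMap M N B)
    (h' : y' ^ 2 = x' ^ 3 + algebraMap M N A * x' + algebraMap M N B)
    (tx : Transcendental M x) (tx' : Transcendental M x')
    (g : IntermediateField.adjoin M {x, y} = ⊤) (g' : IntermediateField.adjoin M {x', y'} = ⊤) :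
    (x' = x ∧ (y' = y ∨ y' = -y)) ∨
    ∃ a b : M, b ^ 2 = a ^ 3 + A * a + B ∧ x' ≠ algebraMap M N a ∧
      ∃ ℓ : N, ℓ = (y' - algebraMap M N b) / (x' - algebraMap M N a) ∧
        x = ℓ ^ 2 - x' - algebraMap M N a ∧
        (y = -(ℓ * (x - x') + y') ∨ y = ℓ * (x - x') + y') := by
  obtain ⟨W₀, hM₀, hx₀⟩ := Auto6.exists_not_mem x tx
  have hW₀ : W₀ ≠ ⊤ := by
    rintro rfl
    exact hx₀ trivial
  have halg : Algebra.IsAlgebraic (IntermediateField.adjoin M {x}) N := by
    have hy : IsAlgebraic (IntermediateField.adjoin M {x}) y := by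
      refine IsIntegral.isAlgebraic ?_
      have : IsIntegral (IntermediateField.adjoin M {x}) (y ^ 2) := by
        rw [h]
        have h1 : IsIntegral (IntermediateField.adjoin M {x}) x := by
          have : x = algebraMap (IntermediateField.adjoin M {x}) N
            ⟨x, IntermediateField.mem_adjoin_simple_self M x⟩ := rfl
          rw [this]
          exact isIntegral_algebraMap
        have h2 : ∀ c : M, IsIntegral (IntermediateField.adjoin M {x}) (algebraMap M N c) := by
          intro c
          rw [IsScalarTower.algebraMap_apply M (IntermediateField.adjoin M {x}) N]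
          exact isIntegral_algebraMap
        exact ((h1.pow 3).add ((h2 A).mul h1)).add (h2 B)
      exact IsIntegral.of_pow two_pos this
    have htop : IntermediateField.adjoin (IntermediateField.adjoin M {x}) {y} = ⊤ := by
      have h1 := IntermediateField.adjoin_adjoin_left M {x} {y}
      rw [Set.singleton_union, g] at h1
      rw [eq_top_iff]
      intro z _
      have : z ∈ (⊤ : IntermediateField M N) := trivial
      rw [← h1] at this
      exact this
    have h3 : Algebra.IsAlgebraic (IntermediateField.adjoin M {x})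
        (IntermediateField.adjoin (IntermediateField.adjoin M {x}) {y}) :=
      IntermediateField.isAlgebraic_adjoin_simple hy.isIntegral
    rw [htop] at h3
    exact (IntermediateField.topEquiv (F := IntermediateField.adjoin M {x})
      (E := N)).isAlgebraic_iff.1 h3
  have hres : ∀ f ∈ W₀, ∃ c : M, W₀.valuation (f - algebraMap M N c) < 1 :=
    fun f hf => residue_const x tx halg W₀ hM₀ hW₀ f hf
  rcases exists_translate A B hΔ W₀ hM₀ hres x' y' h' tx' with hx' | ⟨a, b, hab, hx'⟩
  · left
    have hadj : Algebra.adjoin M {x, y} = Algebra.adjoin M {x', y'} :=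
      le_antisymm
        (Auto6.adjoin_le_adjoin A B hΔ x' y' x y h' h tx' tx g' g W₀ hM₀ hx' hx₀)
        (Auto6.adjoin_le_adjoin A B hΔ x y x' y' h h' tx tx' g g' W₀ hM₀ hx₀ hx')
    exact eq_of_adjoin_eq A B hA hB x y x' y' h h' tx tx' hadj
  · right
    set l : N := (y' - algebraMap M N b) / (x' - algebraMap M N a) with hl
    set x'' : N := l ^ 2 - x' - algebraMap M N a with hx''
    have hne : x' ≠ algebraMap M N a := by
      intro he
      exact tx' (he ▸ isAlgebraic_algebraMap a)
    have hne' : x' - algebraMap M N a ≠ 0 := sub_ne_zero.2 hne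
    have hl' : l * (x' - algebraMap M N a) = y' - algebraMap M N b := by
      rw [hl]; field_simp
    have hab' : algebraMap M N b ^ 2 = algebraMap M N a ^ 3 + algebraMap M N A * algebraMap M N a
        + algebraMap M N B := by
      rw [← map_pow, hab]; simp
    have tx'' : Transcendental M x'' := Auto6.transcendental_of_not_mem x'' W₀ hM₀ hx'
    set y'' : N := -(l * (x'' - x') + y') with hy''
    have h'' : y'' ^ 2 = x'' ^ 3 + algebraMap M N A * x'' + algebraMap M N B := by
      have key : (x' - algebraMap M N a) * (y'' ^ 2 -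
          (x'' ^ 3 + algebraMap M N A * x'' + algebraMap M N B)) = 0 := by
        generalize hα : algebraMap M N a = α at *
        generalize hβ : algebraMap M N b = β at *
        generalize hA' : algebraMap M N A = A' at *
        generalize hB' : algebraMap M N B = B' at *
        rw [hy'', hx'']
        have hyy : y' = l * (x' - α) + β := by rw [hl']; ring
        have e1 : (l * (x' - α) + β) ^ 2 = x' ^ 3 + A' * x' + B' := by rw [← hyy]; exact h'
        rw [hyy]
        linear_combination (l ^ 2 - x' - α - α) * e1 - (l ^ 2 - x' - α - x') * hab'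
      rcases mul_eq_zero.1 key with h0 | h0
      · exact absurd h0 hne'
      · exact sub_eq_zero.1 h0
    have g'' : IntermediateField.adjoin M {x'', y''} = ⊤ := by
      rw [eq_top_iff, ← g', IntermediateField.adjoin_le_iff]
      have hxm : x'' ∈ IntermediateField.adjoin M {x'', y''} :=
        IntermediateField.subset_adjoin M _ (by simp)
      have hym : y'' ∈ IntermediateField.adjoin M {x'', y''} :=
        IntermediateField.subset_adjoin M _ (by simp)
      have hcm : ∀ c : M, algebraMap M N c ∈ IntermediateField.adjoin M {x'', y''} :=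
        fun c => IntermediateField.algebraMap_mem _ c
      have hne'' : x'' - algebraMap M N a ≠ 0 := by
        intro h0
        exact tx'' ((sub_eq_zero.1 h0) ▸ isAlgebraic_algebraMap a)
      have hlm : l = -(y'' + algebraMap M N b) / (x'' - algebraMap M N a) := by
        rw [eq_div_iff hne'']
        rw [hy'']
        linear_combination hl'
      have hlmem : l ∈ IntermediateField.adjoin M {x'', y''} := by
        rw [hlm]
        exact div_mem (neg_mem (add_mem hym (hcm b))) (sub_mem hxm (hcm a))
      have hx'm : x' ∈ IntermediateField.adjoin M {x'', y''} := by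
        have : x' = l ^ 2 - x'' - algebraMap M N a := by rw [hx'']; ring
        rw [this]
        exact sub_mem (sub_mem (pow_mem hlmem 2) hxm) (hcm a)
      rintro w (rfl | rfl)
      · exact hx'm
      · have : w = -(l * (x'' - x') + y'') := by rw [hy'']; ring
        rw [this]
        exact neg_mem (add_mem (mul_mem hlmem (sub_mem hxm hx'm)) hym)
    have hadj : Algebra.adjoin M {x, y} = Algebra.adjoin M {x'', y''} :=
      le_antisymm
        (Auto6.adjoin_le_adjoin A B hΔ x'' y'' x y h'' h tx'' tx g'' g W₀ hM₀ hx' hx₀)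
        (Auto6.adjoin_le_adjoin A B hΔ x y x'' y'' h h'' tx tx'' g g'' W₀ hM₀ hx₀ hx')
    obtain ⟨e1, e2⟩ := eq_of_adjoin_eq A B hA hB x y x'' y'' h h'' tx tx'' hadj
    refine ⟨a, b, hab, hne, l, rfl, e1.symm, ?_⟩
    rcases e2 with e2 | e2
    · left
      rw [← e2, hy'', e1]
    · right
      have : y = -y'' := by rw [e2]; ring
      rw [this, hy'', e1]; ring

end Pool.Agent.DegThree
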