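import Mathlib

/-! Piece Bridge: short Weierstrass coordinates in the function field of an elliptic curve. -/

set_option autoImplicit false

open scoped Polynomial IntermediateField

namespace Pool.Agent.DegThree

/-- The image of `X` in the function field. -/
noncomputable def bridgeX (E : WeierstrassCurve ℂ) : E.toAffine.FunctionField :=
  algebraMap E.toAffine.CoordinateRing _ (algebraMap ℂ[X] E.toAffine.CoordinateRing Polynomial.X)

/-- The image of `Y` in the function field. -/
noncomputable def bridgeY (E : WeierstrassCurve ℂ) : E.toAffine.FunctionField :=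
  algebraMap E.toAffine.CoordinateRing _
    (WeierstrassCurve.Affine.CoordinateRing.mk E.toAffine Polynomial.X)

theorem bridge_poly (E : WeierstrassCurve ℂ) (p : ℂ[X]) :
    algebraMap E.toAffine.CoordinateRing E.toAffine.FunctionField
      (algebraMap ℂ[X] E.toAffine.CoordinateRing p) = Polynomial.aeval (bridgeX E) p := by
  have h : ((Algebra.ofId E.toAffine.CoordinateRing
      E.toAffine.FunctionField).restrictScalars ℂ).comp
      (IsScalarTower.toAlgHom ℂ ℂ[X] E.toAffine.CoordinateRing) =
      Polynomial.aeval (bridgeX E) := by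
    ext
    simp [bridgeX, Algebra.ofId_apply]
  exact congrArg (fun f => f p) h

theorem bridge_eqn (E : WeierstrassCurve ℂ) :
    bridgeY E ^ 2 + (algebraMap ℂ _ E.a₁ * bridgeX E + algebraMap ℂ _ E.a₃) * bridgeY E =
      bridgeX E ^ 3 + algebraMap ℂ _ E.a₂ * bridgeX E ^ 2 + algebraMap ℂ _ E.a₄ * bridgeX E +
        algebraMap ℂ _ E.a₆ := by
  have h0 : ∀ p : Polynomial ℂ[X], p = E.toAffine.polynomial →
      (algebraMap E.toAffine.CoordinateRing E.toAffine.FunctionField)
      (WeierstrassCurve.Affine.CoordinateRing.mk E.toAffine p) = 0 := by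
    rintro p rfl
    rw [AdjoinRoot.mk_self, map_zero]
  have hC : ∀ p : ℂ[X], (algebraMap E.toAffine.CoordinateRing E.toAffine.FunctionField)
      (WeierstrassCurve.Affine.CoordinateRing.mk E.toAffine (Polynomial.C p)) =
      Polynomial.aeval (bridgeX E) p := fun p => bridge_poly E p
  have hp : E.toAffine.polynomial = Polynomial.X ^ 2 + Polynomial.C (Polynomial.C E.a₁ *
      Polynomial.X + Polynomial.C E.a₃) * Polynomial.X - Polynomial.C (Polynomial.X ^ 3 +
      Polynomial.C E.a₂ * Polynomial.X ^ 2 + Polynomial.C E.a₄ * Polynomial.X +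
      Polynomial.C E.a₆) := rfl
  have h := h0 _ hp.symm
  rw [map_sub, map_sub, hC, map_add, map_add, map_mul, map_mul, hC, map_pow, map_pow] at h
  simp only [map_add, map_mul, map_pow, Polynomial.aeval_X, Polynomial.aeval_C] at h
  change bridgeY E ^ 2 + _ * bridgeY E - _ = 0 at h
  exact sub_eq_zero.mp h

theorem bridge_transc (E : WeierstrassCurve ℂ) : Transcendental ℂ (bridgeX E) := by
  have h1 : Function.Injective (algebraMap ℂ[X] E.toAffine.CoordinateRing) :=
    FaithfulSMul.algebraMap_injective _ _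
  have h2 : Function.Injective
      (algebraMap E.toAffine.CoordinateRing E.toAffine.FunctionField) :=
    IsFractionRing.injective _ _
  intro h
  rw [bridgeX] at h
  rw [isAlgebraic_algebraMap_iff h2, isAlgebraic_algebraMap_iff h1] at h
  exact Polynomial.transcendental_X ℂ h

theorem bridge_top (E : WeierstrassCurve ℂ) (K : IntermediateField ℂ E.toAffine.FunctionField)
    (hX : bridgeX E ∈ K) (hY : bridgeY E ∈ K) : K = ⊤ := by
  rw [eq_top_iff]
  intro f _
  have haev : ∀ p : ℂ[X], Polynomial.aeval (bridgeX E) p ∈ K := by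
    intro p
    have h := Polynomial.aeval_mem_adjoin_singleton (R := ℂ) (bridgeX E) (p := p)
    have h2 : Algebra.adjoin ℂ {bridgeX E} ≤ K.toSubalgebra :=
      Algebra.adjoin_le (Set.singleton_subset_iff.mpr hX)
    exact h2 h
  have hR : ∀ r : E.toAffine.CoordinateRing,
      algebraMap E.toAffine.CoordinateRing E.toAffine.FunctionField r ∈ K := by
    intro r
    obtain ⟨p, q, rfl⟩ := WeierstrassCurve.Affine.CoordinateRing.exists_smul_basis_eq r
    rw [Algebra.smul_def, Algebra.smul_def, mul_one, map_add, map_mul, bridge_poly, bridge_poly]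
    exact K.add_mem (haev p) (K.mul_mem (haev q) hY)
  obtain ⟨a, b, hb, rfl⟩ := IsFractionRing.div_surjective (A := E.toAffine.CoordinateRing) f
  exact K.div_mem (hR a) (hR b)

theorem exists_short (E : WeierstrassCurve ℂ) [E.IsElliptic] :
    ∃ (A B : ℂ) (x y : E.toAffine.FunctionField), (E.j ≠ 0 → A ≠ 0) ∧ (E.j ≠ 1728 → B ≠ 0) ∧
      4 * A ^ 3 + 27 * B ^ 2 ≠ 0 ∧
      y ^ 2 = x ^ 3 + algebraMap ℂ _ A * x + algebraMap ℂ _ B ∧ Transcendental ℂ x ∧
      IntermediateField.adjoin ℂ {x, y} = ⊤ := by
  have hch : CharZero E.toAffine.FunctionField :=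
    charZero_of_injective_algebraMap (algebraMap ℂ E.toAffine.FunctionField).injective
  have heq := bridge_eqn E
  set X := bridgeX E with hXd
  set Y := bridgeY E with hYd
  set φ := algebraMap ℂ E.toAffine.FunctionField with hφ
  refine ⟨-E.c₄ / 48, -E.c₆ / 864, X + φ (E.b₂ / 12), Y + (φ E.a₁ * X + φ E.a₃) / 2, ?_, ?_, ?_,
    ?_, ?_, ?_⟩
  · intro hj h
    apply hj
    have h1 : E.c₄ = 0 := by linear_combination -48 * h
    rw [WeierstrassCurve.j, h1]
    simp
  · intro hj h
    apply hj
    have h1 : E.c₆ = 0 := by linear_combination -864 * h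
    have h2 := E.c_relation
    rw [h1] at h2
    have h3 : E.c₄ ^ 3 = E.Δ' * 1728 := by
      rw [WeierstrassCurve.coe_Δ']
      linear_combination -h2
    rw [WeierstrassCurve.j, h3, Units.inv_mul_cancel_left]
  · have h1 := E.c_relation
    have h2 : E.Δ ≠ 0 := E.isUnit_Δ.ne_zero
    intro h
    apply h2
    have : E.Δ = -16 * (4 * (-E.c₄ / 48) ^ 3 + 27 * (-E.c₆ / 864) ^ 2) := by
      linear_combination h1 / 1728
    rw [this, h, mul_zero]
  · simp only [WeierstrassCurve.c₄, WeierstrassCurve.c₆, WeierstrassCurve.b₂,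
      WeierstrassCurve.b₄, WeierstrassCurve.b₆, map_div₀, map_neg, map_add, map_sub, map_mul,
      map_pow, map_ofNat]
    linear_combination heq
  · intro h
    apply bridge_transc E
    have := h.sub (isAlgebraic_algebraMap (R := ℂ) (A := E.toAffine.FunctionField) (E.b₂ / 12))
    simpa [hφ] using this
  · have h1 : X + φ (E.b₂ / 12) ∈ IntermediateField.adjoin ℂ
        {X + φ (E.b₂ / 12), Y + (φ E.a₁ * X + φ E.a₃) / 2} :=
      IntermediateField.subset_adjoin _ _ (by simp)
    have h2 : Y + (φ E.a₁ * X + φ E.a₃) / 2 ∈ IntermediateField.adjoin ℂ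
        {X + φ (E.b₂ / 12), Y + (φ E.a₁ * X + φ E.a₃) / 2} :=
      IntermediateField.subset_adjoin _ _ (by simp)
    generalize IntermediateField.adjoin ℂ
        {X + φ (E.b₂ / 12), Y + (φ E.a₁ * X + φ E.a₃) / 2} = K at h1 h2 ⊢
    have hc : ∀ c : ℂ, φ c ∈ K := fun c => K.algebraMap_mem c
    have hX : X ∈ K := by
      have := K.sub_mem h1 (hc (E.b₂ / 12))
      rwa [add_sub_cancel_right] at this
    refine bridge_top E K hX ?_
    have h3 : (φ E.a₁ * X + φ E.a₃) / 2 ∈ K := by
      have h4 := K.mul_mem (K.add_mem (K.mul_mem (hc E.a₁) hX) (hc E.a₃)) (hc (1 / 2))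
      have h5 : φ (1 / 2) = 1 / 2 := by rw [map_div₀, map_one, map_ofNat]
      rw [h5, mul_one_div] at h4
      exact h4
    have := K.sub_mem h2 h3
    rwa [add_sub_cancel_right] at this

end Pool.Agent.DegThree
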