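import Mathlib
import Pool.Agent.Lib_MP_1209e6_ag.Der

/-! Piece ConstField: three embeddings of a curve satisfying two linear relations take values in an algebraically closed field of transcendence degree one. -/

set_option autoImplicit false

open scoped Polynomial IntermediateField

namespace Pool.Agent.DegThree

/-- The kernel of a derivation is an intermediate field. -/
noncomputable def cfKer {K : Type} [Field K] [Algebra ℂ K] (D : Derivation ℂ K K) :
    IntermediateField ℂ K where
  carrier := {z | D z = 0}
  mul_mem' := by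
    intro a b ha hb
    simp only [Set.mem_ofPred_eq] at *
    rw [Derivation.leibniz, ha, hb]; simp
  add_mem' := by
    intro a b ha hb
    simp only [Set.mem_ofPred_eq] at *
    rw [map_add, ha, hb, add_zero]
  algebraMap_mem' := fun r => D.map_algebraMap r
  inv_mem' := by
    intro a ha
    simp only [Set.mem_ofPred_eq] at *
    rw [Derivation.leibniz_inv, ha]; simp

theorem cf_mem_ker {K : Type} [Field K] [Algebra ℂ K] (D : Derivation ℂ K K) (z : K) :
    z ∈ cfKer D ↔ D z = 0 := Iff.rfl

/-- In transcendence degree one, everything is algebraic over one transcendental element. -/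
theorem cf_alg {F : Type} [Field F] [Algebra ℂ F] (hF : Algebra.trdeg ℂ F = 1) (s : F)
    (hs : Transcendental ℂ s) (z : F) : IsAlgebraic (IntermediateField.adjoin ℂ {s}) z := by
  have hx : AlgebraicIndependent ℂ (fun _ : Unit => s) :=
    algebraicIndependent_unique_type_iff.2 hs
  have hb : IsTranscendenceBasis ℂ (fun _ : Unit => s) :=
    AlgebraicIndependent.isTranscendenceBasis_of_trdeg_le_of_finite hx (by rw [hF]; simp)
  have := hb.isAlgebraic_field
  have hr : Set.range (fun _ : Unit => s) = {s} := by simp
  rw [hr] at this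
  exact Algebra.IsAlgebraic.isAlgebraic z

/-- Two elements, independent in the tower sense, form a transcendence basis. -/
theorem cf_basis {K : Type} [Field K] [Algebra ℂ K] (hA : Algebra.trdeg ℂ K = 2) (a b : K)
    (ha : Transcendental ℂ a) (hb : Transcendental (IntermediateField.adjoin ℂ {a}) b) :
    IsTranscendenceBasis ℂ (fun o : Option Unit => o.elim b (fun _ => a)) := by
  have hx : AlgebraicIndependent ℂ (fun _ : Unit => a) :=
    algebraicIndependent_unique_type_iff.2 ha
  have hr : Set.range (fun _ : Unit => a) = {a} := by simp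
  have hy : AlgebraicIndependent ℂ (fun o : Option Unit => o.elim b (fun _ => a)) := by
    rw [AlgebraicIndependent.option_iff]
    refine ⟨hx, ?_⟩
    rw [hr]
    intro halg
    apply hb
    exact halg.ringHom_of_comp_eq
      (Subalgebra.inclusion (IntermediateField.algebra_adjoin_le_adjoin ℂ {a})).toRingHom
      (RingHom.id K) (Subalgebra.inclusion_injective _) rfl
  refine AlgebraicIndependent.isTranscendenceBasis_of_trdeg_le_of_finite hy ?_
  rw [hA]; simp

/-- A derivation killing two independent elements is zero. -/
theorem cf_zero {K : Type} [Field K] [Algebra ℂ K] (hA : Algebra.trdeg ℂ K = 2) (a b : K)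
    (ha : Transcendental ℂ a) (hb : Transcendental (IntermediateField.adjoin ℂ {a}) b)
    (D : Derivation ℂ K K) (h1 : D a = 0) (h2 : D b = 0) (z : K) : D z = 0 := by
  have hbas := cf_basis hA a b ha hb
  have := hbas.isAlgebraic_field
  refine Campana.derivation_eq_zero D (IntermediateField.adjoin ℂ
    (Set.range (fun o : Option Unit => o.elim b (fun _ => a)))) ?_ z
    (Algebra.IsAlgebraic.isAlgebraic z)
  intro x hx
  have hle : IntermediateField.adjoin ℂ
      (Set.range (fun o : Option Unit => o.elim b (fun _ => a))) ≤ cfKer D := by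
    rw [IntermediateField.adjoin_le_iff]
    rintro _ ⟨o, rfl⟩
    cases o with
    | none => exact h2
    | some u => exact h1
  exact hle hx

/-- There is a nonzero derivation killing a given transcendental element. -/
theorem cf_exists {K : Type} [Field K] [Algebra ℂ K] (hA : Algebra.trdeg ℂ K = 2) (a : K)
    (ha : Transcendental ℂ a) : ∃ (D : Derivation ℂ K K) (y : K), D a = 0 ∧ D y = 1 := by
  have hx : AlgebraicIndependent ℂ (fun _ : Unit => a) :=
    algebraicIndependent_unique_type_iff.2 ha
  have hr : Set.range (fun _ : Unit => a) = {a} := by simp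
  obtain ⟨t, ht, hb⟩ := exists_isTranscendenceBasis_superset (R := ℂ)
    (s := Set.range (fun _ : Unit => a)) ((algebraicIndependent_subtype_range hx.injective).2 hx)
  have hat : a ∈ t := ht ⟨(), rfl⟩
  have hcard : Cardinal.mk t = 2 := by rw [hb.cardinalMk_eq_trdeg, hA]
  obtain ⟨y, hyt, hya⟩ : ∃ y ∈ t, y ≠ a := by
    by_contra hcon
    push Not at hcon
    have h1 : t = {a} := by
      ext z
      exact ⟨fun hz => hcon z hz, fun hz => by rw [Set.mem_singleton_iff.1 hz]; exact hat⟩
    rw [h1] at hcard
    simp at hcard
  classical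
  obtain ⟨D, hD⟩ := Campana.exists_derivation_of_basis _ hb
    (fun z : t => if (z : K) = a then (0 : K) else 1)
  refine ⟨D, y, ?_, ?_⟩
  · simpa using hD ⟨a, hat⟩
  · simpa [hya] using hD ⟨y, hyt⟩

/-- If one transcendental element of `F` is mapped by `σ` to something algebraic over `K1`,
then so is every element. -/
theorem cf_all {F Ab : Type} [Field F] [Field Ab] [Algebra ℂ F] [Algebra ℂ Ab]
    (hF : Algebra.trdeg ℂ F = 1) (σ : F →ₐ[ℂ] Ab) (K1 : IntermediateField ℂ Ab) (g : F)
    (hg : Transcendental ℂ g) (h : IsAlgebraic K1 (σ g)) (z : F) : IsAlgebraic K1 (σ z) := by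
  set M : IntermediateField ℂ Ab := (algebraicClosure K1 Ab).restrictScalars ℂ with hM
  have hmem : ∀ w : Ab, w ∈ M ↔ IsAlgebraic K1 w := fun w => mem_algebraicClosure_iff
  have hle : IntermediateField.adjoin ℂ {g} ≤ M.comap σ := by
    rw [IntermediateField.adjoin_le_iff]
    rintro _ rfl
    exact (hmem _).2 h
  have h1 : IsAlgebraic (IntermediateField.adjoin ℂ {g}) z := cf_alg hF g hg z
  have h2 : IsAlgebraic (algebraicClosure K1 Ab) (σ z) := by
    let φ : IntermediateField.adjoin ℂ {g} →+* algebraicClosure K1 Ab :=
      { toFun := fun w => ⟨σ w, hle w.2⟩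
        map_one' := by ext; simp
        map_mul' := fun _ _ => by ext; simp
        map_zero' := by ext; simp
        map_add' := fun _ _ => by ext; simp }
    exact h1.ringHom_of_comp_eq φ (σ : F →+* Ab) φ.injective rfl
  have h3 : σ z ∈ algebraicClosure (algebraicClosure K1 Ab) Ab := mem_algebraicClosure_iff.2 h2
  rw [algebraicClosure.algebraicClosure_eq_bot] at h3
  obtain ⟨w, hw⟩ := IntermediateField.mem_bot.1 h3
  rw [← hw]
  exact mem_algebraicClosure_iff.1 w.2

theorem exists_const_field {F Ab ι : Type} [Field F] [Field Ab] [Algebra ℂ F] [Algebra ℂ Ab]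
    [Fintype ι] (hι : Fintype.card ι = 3)
    (hF : Algebra.trdeg ℂ F = 1) (hA : Algebra.trdeg ℂ Ab = 2) [IsAlgClosed Ab]
    (τ : ι → F →ₐ[ℂ] Ab) (s f h : F) (hs : Transcendental ℂ s) (hf : f ≠ 0)
    (hh : Transcendental ℂ h)
    (h1 : ∀ D : Derivation ℂ Ab Ab, ∑ i, τ i f * D (τ i s) = 0)
    (h2 : ∀ D : Derivation ℂ Ab Ab, ∑ i, τ i (h * f) * D (τ i s) = 0) :
    ∃ M : IntermediateField ℂ Ab, IsAlgClosed M ∧ (∀ i z, τ i z ∈ M) ∧
      ∀ i, ∀ z ∈ M, IsAlgebraic (τ i).fieldRange z := by
  classical
  -- the core claim
  have core : ∀ i j z, IsAlgebraic (τ i).fieldRange (τ j z) := by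
    have htr : ∀ (i : ι) (g : F), Transcendental ℂ g → Transcendental ℂ (τ i g) := by
      intro i g hg halg
      exact hg (halg.of_ringHom_of_comp_eq (RingHom.id ℂ) (τ i : F →+* Ab)
        Function.surjective_id (τ i).injective (by ext z; simp))
    by_cases hcase : ∀ i j, τ i h = τ j h
    · intro i j z
      apply cf_all hF (τ j) _ h hh
      rw [← hcase i j]
      exact isAlgebraic_algebraMap (⟨τ i h, ⟨h, rfl⟩⟩ : (τ i).fieldRange)
    · push Not at hcase
      obtain ⟨j, k, hjk⟩ := hcase
      have hjk' : j ≠ k := by rintro rfl; exact hjk rfl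
      obtain ⟨i, hi⟩ : ∃ i, i ∉ ({j, k} : Finset ι) := by
        by_contra hcon
        push Not at hcon
        have h3 : (Finset.univ : Finset ι) ⊆ {j, k} := fun x _ => hcon x
        have h4 := Finset.card_le_card h3
        rw [Finset.card_univ, hι, Finset.card_pair hjk'] at h4
        omega
      have hij : i ≠ j := by rintro rfl; simp at hi
      have hik : i ≠ k := by rintro rfl; simp at hi
      have huniv : (Finset.univ : Finset ι) = {i, j, k} := by
        symm
        apply Finset.eq_univ_of_card
        rw [Finset.card_insert_of_notMem (by simpa using ⟨hij, hik⟩), Finset.card_pair hjk', hι]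
      obtain ⟨D, y, hD0, hDy⟩ := cf_exists hA (τ i s) (htr i s hs)
      have e1 := h1 D
      have e2 := h2 D
      rw [huniv, Finset.sum_insert (by simpa using ⟨hij, hik⟩), Finset.sum_pair hjk', hD0] at e1 e2
      rw [map_mul, map_mul, map_mul] at e2
      have e3 : (τ j h - τ k h) * (τ j f * D (τ j s)) = 0 := by
        linear_combination e2 - τ k h * e1
      have hfj : τ j f ≠ 0 := (map_ne_zero_iff _ (τ j).injective).2 hf
      have hfk : τ k f ≠ 0 := (map_ne_zero_iff _ (τ k).injective).2 hf
      have hDj : D (τ j s) = 0 := by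
        rcases mul_eq_zero.1 e3 with h0 | h0
        · exact absurd (sub_eq_zero.1 h0) hjk
        · exact (mul_eq_zero.1 h0).resolve_left hfj
      have hDk : D (τ k s) = 0 := by
        rw [hDj] at e1
        simp only [mul_zero, zero_add] at e1
        exact (mul_eq_zero.1 e1).resolve_left hfk
      have hall : ∀ l, D (τ l s) = 0 := by
        intro l
        have hl : l ∈ ({i, j, k} : Finset ι) := by rw [← huniv]; exact Finset.mem_univ l
        simp only [Finset.mem_insert, Finset.mem_singleton] at hl
        rcases hl with rfl | rfl | rfl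
        · exact hD0
        · exact hDj
        · exact hDk
      intro a b z
      apply cf_all hF (τ b) _ s hs
      by_contra hcon
      have h3 : Transcendental (IntermediateField.adjoin ℂ {τ a s}) (τ b s) := by
        intro halg
        apply hcon
        have hle : IntermediateField.adjoin ℂ {τ a s} ≤ (τ a).fieldRange := by
          rw [IntermediateField.adjoin_le_iff]
          rintro _ rfl
          exact ⟨s, rfl⟩
        exact halg.ringHom_of_comp_eq (IntermediateField.inclusion hle).toRingHom
          (RingHom.id Ab) (IntermediateField.inclusion hle).injective rfl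
      have h4 := cf_zero hA _ _ (htr a s hs) h3 D (hall a) (hall b) y
      rw [hDy] at h4
      exact one_ne_zero h4
  -- an index
  have hne : Nonempty ι := by
    rw [← Fintype.card_pos_iff, hι]; norm_num
  obtain ⟨i0⟩ := hne
  refine ⟨(algebraicClosure (τ i0).fieldRange Ab).restrictScalars ℂ, ?_, ?_, ?_⟩
  · exact (IsAlgClosed.algebraicClosure_eq_bot_iff (algebraicClosure (τ i0).fieldRange Ab) Ab).1
      (algebraicClosure.algebraicClosure_eq_bot (τ i0).fieldRange Ab)
  · intro i z
    exact mem_algebraicClosure_iff.2 (core i0 i z)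
  · intro i z hz
    have hz' : IsAlgebraic (τ i0).fieldRange z := mem_algebraicClosure_iff.1 hz
    have hle : (τ i0).fieldRange ≤ (algebraicClosure (τ i).fieldRange Ab).restrictScalars ℂ := by
      rintro _ ⟨w, rfl⟩
      exact mem_algebraicClosure_iff.2 (core i i0 w)
    have h5 : IsAlgebraic (algebraicClosure (τ i).fieldRange Ab) z := by
      let φ : (τ i0).fieldRange →+* algebraicClosure (τ i).fieldRange Ab :=
        (IntermediateField.inclusion hle).toRingHom
      exact hz'.ringHom_of_comp_eq φ (RingHom.id Ab) φ.injective rfl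
    have h6 : z ∈ algebraicClosure (algebraicClosure (τ i).fieldRange Ab) Ab :=
      mem_algebraicClosure_iff.2 h5
    rw [algebraicClosure.algebraicClosure_eq_bot] at h6
    obtain ⟨w, hw⟩ := IntermediateField.mem_bot.1 h6
    rw [← hw]
    exact mem_algebraicClosure_iff.1 w.2

end Pool.Agent.DegThree
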