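import Pool.Agent.Lib_MP_9293ae_ag.EllForm
import Pool.Agent.Lib_MP_1209e6_ag.Der

/-! Piece ConstPt: elliptic curves have only constant points over a surface without regular one-forms. -/

set_option autoImplicit false

open scoped Polynomial IntermediateField

namespace Pool.Agent.DegThree

theorem constPt_of_isAlgebraic {L : Type} [Field L] [Algebra ℂ L] (z : L) (hz : IsAlgebraic ℂ z) :
    ∃ c : ℂ, z = algebraMap ℂ L c := by
  have hirr := minpoly.irreducible hz.isIntegral
  have hdeg := IsAlgClosed.degree_eq_one_of_irreducible ℂ hirr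
  obtain ⟨c, hc⟩ := minpoly.mem_range_of_degree_eq_one ℂ z hdeg
  exact ⟨c, hc.symm⟩

theorem constPt_isAlgebraic_of_D {L : Type} [Field L] [Algebra ℂ L] (x : L)
    (h : KaehlerDifferential.D ℂ L x = 0) : IsAlgebraic ℂ x := by
  by_contra hx
  have hx' : AlgebraicIndependent ℂ (fun _ : Unit => x) :=
    algebraicIndependent_unique_type_iff.mpr hx
  obtain ⟨D, hD⟩ := Pool.Agent.Campana.exists_derivation (fun _ : Unit => x) hx' (fun _ => 1)
  have h1 := D.liftKaehlerDifferential_comp_D x
  rw [h, map_zero, hD ()] at h1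
  exact zero_ne_one h1

theorem const_point {L : Type} [Field L] [Algebra ℂ L] (hq : regularForms L = ⊥) (f : ℂ[X])
    (hf : f.Monic) (hd : f.natDegree = 3) (hs : f.Separable) (x y : L)
    (h : y ^ 2 = Polynomial.aeval x f) :
    (∃ c : ℂ, x = algebraMap ℂ L c) ∧ ∃ c : ℂ, y = algebraMap ℂ L c := by
  have key : y⁻¹ • KaehlerDifferential.D ℂ L x = 0 := by
    have h1 : y⁻¹ • KaehlerDifferential.D ℂ L x ∈ regularForms L :=
      fun W hW => regularAt_invariant W hW.1 f hf hd hs x y h
    rw [hq] at h1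
    exact (Submodule.mem_bot ℂ).mp h1
  have hx : IsAlgebraic ℂ x := by
    rcases smul_eq_zero.mp key with h0 | h0
    · refine ⟨f, hf.ne_zero, ?_⟩
      rw [← h, inv_eq_zero.mp h0]
      simp
    · exact constPt_isAlgebraic_of_D x h0
  obtain ⟨c, rfl⟩ := constPt_of_isAlgebraic x hx
  refine ⟨⟨c, rfl⟩, constPt_of_isAlgebraic y ?_⟩
  rw [Polynomial.aeval_algebraMap_apply] at h
  have h2 : IsAlgebraic ℂ (y ^ 2) := by
    rw [h]
    exact isAlgebraic_algebraMap _
  exact IsAlgebraic.of_pow (by norm_num) h2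

end Pool.Agent.DegThree
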