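import Pool.Agent.Lib_MP_9293ae_ag.Defs

/-! Piece Coord: coordinates at a prime divisor. -/

set_option autoImplicit false

open scoped Polynomial IntermediateField

namespace Pool.Agent.DegThree

/-- An element of the maximal ideal is transcendental over a subalgebra all whose nonzero elements
are units of the valuation ring. -/
private theorem transcendental_of_units {L : Type} [Field L] [Algebra ℂ L] (V : ValuationSubring L)
    (R : Subalgebra ℂ L) (hR : ∀ c ∈ R, c ≠ 0 → V.valuation c = 1) {u : L} (hu0 : u ≠ 0)
    (hu : V.valuation u < 1) : Transcendental R u := by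
  rw [transcendental_iff]
  have hRV : ∀ c : R, V.valuation (c : L) ≤ 1 := by
    intro c
    by_cases hc : (c : L) = 0
    · rw [hc, map_zero]; exact zero_le_one
    · exact (hR _ c.2 hc).le
  have huV : u ∈ V := (V.valuation_le_one_iff u).mp hu.le
  have hval : ∀ p : R[X], Polynomial.aeval u p ∈ V := by
    intro p
    induction p using Polynomial.induction_on' with
    | add p q hp hq => rw [map_add]; exact V.add_mem _ _ hp hq
    | monomial n a =>
      rw [Polynomial.aeval_monomial]
      refine V.mul_mem _ _ ?_ (pow_mem huV n)
      exact (V.valuation_le_one_iff _).mp (hRV a)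
  have key : ∀ n : ℕ, ∀ p : R[X], p.natDegree ≤ n → Polynomial.aeval u p = 0 → p = 0 := by
    intro n
    induction n with
    | zero =>
      intro p hp h0
      rw [Polynomial.eq_C_of_natDegree_le_zero hp] at h0 ⊢
      rw [Polynomial.aeval_C] at h0
      have : (p.coeff 0 : L) = 0 := h0
      have h1 : p.coeff 0 = 0 := by
        apply Subtype.ext
        simpa using this
      rw [h1, map_zero]
    | succ n ih =>
      intro p hp h0
      have hdec := Polynomial.divX_mul_X_add p
      have h1 : Polynomial.aeval u p.divX * u + (p.coeff 0 : L) = 0 := by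
        have := congrArg (Polynomial.aeval u) hdec
        rw [h0, map_add, map_mul, Polynomial.aeval_X, Polynomial.aeval_C] at this
        exact this
      have hc0 : (p.coeff 0 : L) = 0 := by
        by_contra hne
        have h2 : V.valuation (p.coeff 0 : L) = 1 := hR _ (p.coeff 0).2 hne
        have h3 : (p.coeff 0 : L) = -(Polynomial.aeval u p.divX * u) := by
          linear_combination h1
        rw [h3, Valuation.map_neg, map_mul] at h2
        have h4 : V.valuation (Polynomial.aeval u p.divX) ≤ 1 :=
          (V.valuation_le_one_iff _).mpr (hval _)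
        have h5 : V.valuation (Polynomial.aeval u p.divX) * V.valuation u < 1 :=
          lt_of_le_of_lt (mul_le_of_le_one_left' h4) hu
        exact absurd h2 h5.ne
      have hd : p.divX = 0 := by
        apply ih
        · rw [Polynomial.natDegree_divX_eq_natDegree_tsub_one]
          omega
        · rw [hc0, add_zero] at h1
          exact (mul_eq_zero.mp h1).resolve_right hu0
      have hc : p.coeff 0 = 0 := Subtype.ext (by simpa using hc0)
      rw [← hdec, hd, hc]
      simp
  exact fun p hp => key _ p le_rfl hp

theorem exists_coord {L : Type} [Field L] [Algebra ℂ L] (V : ValuationSubring L)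
    (hV : IsPrimeDivisor V) :
    ∃ u v : L, AlgebraicIndependent ℂ ![u, v] ∧
      (∀ c : IntermediateField.adjoin ℂ {v}, (c : L) ∈ V) ∧ V.valuation u < 1 ∧
      ∀ z : L, V.valuation z < 1 → z / u ∈ V := by
  obtain ⟨-, hdvr, v, hvV, hv⟩ := hV
  obtain ⟨π, hπ⟩ := IsDiscreteValuationRing.exists_irreducible V
  have hπm : π ∈ IsLocalRing.maximalIdeal V := by
    rw [hπ.maximalIdeal_eq]
    exact Ideal.mem_span_singleton_self π
  have hu : V.valuation (π : L) < 1 := (V.valuation_lt_one_iff π).mp hπm
  have hu0 : (π : L) ≠ 0 := by
    intro h
    exact hπ.ne_zero (Subtype.ext h)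
  have hvtr : Transcendental ℂ v := by
    rw [transcendental_iff]
    intro p hp
    by_contra hne
    have := hv p hne
    rw [hp, map_zero] at this
    exact zero_ne_one this
  refine ⟨π, v, ?_, ?_, hu, ?_⟩
  · rw [AlgebraicIndependent.iff_transcendental_adjoin_image (0 : Fin 2)]
    constructor
    · have : Subsingleton {j : Fin 2 // j ≠ 0} := by
        constructor
        rintro ⟨a, ha⟩ ⟨b, hb⟩
        apply Subtype.ext
        show a = b
        omega
      rw [algebraicIndependent_singleton_iff (⟨1, by decide⟩ : {j : Fin 2 // j ≠ 0})]
      simpa using hvtr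
    · have himg : (![(π : L), v] '' {0}ᶜ : Set L) = {v} := by
        ext z
        constructor
        · rintro ⟨i, hi, rfl⟩
          fin_cases i
          · exact absurd rfl hi
          · simp
        · rintro rfl
          exact ⟨1, by simp, by simp⟩
      rw [himg]
      show Transcendental _ (π : L)
      apply transcendental_of_units V _ _ hu0 hu
      intro c hc hc0
      rw [Algebra.adjoin_singleton_eq_range_aeval] at hc
      obtain ⟨p, rfl⟩ := hc
      have hp : p ≠ 0 := by
        rintro rfl
        simp at hc0
      exact hv p hp
  · rintro ⟨c, hc⟩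
    rw [IntermediateField.mem_adjoin_simple_iff] at hc
    obtain ⟨r, s, rfl⟩ := hc
    show Polynomial.aeval v r / Polynomial.aeval v s ∈ V
    by_cases hr : r = 0
    · rw [hr, map_zero, zero_div]; exact V.zero_mem
    by_cases hs : s = 0
    · rw [hs, map_zero, div_zero]; exact V.zero_mem
    rw [← V.valuation_le_one_iff, map_div₀, hv r hr, hv s hs, div_one]
  · intro z hz
    have hzV : z ∈ V := (V.valuation_le_one_iff z).mp hz.le
    have hzm : (⟨z, hzV⟩ : V) ∈ IsLocalRing.maximalIdeal V := (V.valuation_lt_one_iff _).mpr hz
    rw [hπ.maximalIdeal_eq, Ideal.mem_span_singleton] at hzm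
    obtain ⟨w, hw⟩ := hzm
    have hw' : z = (π : L) * (w : L) := congrArg Subtype.val hw
    rw [hw', mul_div_cancel_left₀ _ hu0]
    exact w.2

end Pool.Agent.DegThree
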