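import Mathlib

/-! Definitions for MP_9293ae_ag: function fields, regular one-forms, the product of an elliptic curve
and a curve, dominant rational maps to the plane. -/

set_option autoImplicit false

open scoped Polynomial

namespace Pool.Agent.DegThree

/-- `F` is the function field of an `n`-dimensional complex variety: a finitely generated field
extension of `ℂ` of transcendence degree `n`. -/
structure IsFunctionField (n : ℕ) (F : Type) [Field F] [Algebra ℂ F] : Prop where
  fg : ∃ s : Finset F, IntermediateField.adjoin ℂ (s : Set F) = ⊤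
  trdeg : Algebra.trdeg ℂ F = n

/-- The rational one-form `ω` (a Kähler differential of the function field `F`) is regular at the
valuation ring `W`: it is a finite sum of forms `a • db` with `a` and `b` in `W`, i.e. it lies in the
image of the Kähler differentials of `W`. -/
def RegularAt {F : Type} [Field F] [Algebra ℂ F] (W : ValuationSubring F) (ω : Ω[F⁄ℂ]) : Prop :=
  ∃ (n : ℕ) (a b : Fin n → F), (∀ i, a i ∈ W) ∧ (∀ i, b i ∈ W) ∧
    ω = ∑ i, a i • KaehlerDifferential.D ℂ F (b i)

theorem RegularAt.zero {F : Type} [Field F] [Algebra ℂ F] (W : ValuationSubring F) :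
    RegularAt W (0 : Ω[F⁄ℂ]) :=
  ⟨0, Fin.elim0, Fin.elim0, fun i => i.elim0, fun i => i.elim0, by simp⟩

theorem RegularAt.add {F : Type} [Field F] [Algebra ℂ F] {W : ValuationSubring F} {ω η : Ω[F⁄ℂ]}
    (hω : RegularAt W ω) (hη : RegularAt W η) : RegularAt W (ω + η) := by
  obtain ⟨n, a, b, ha, hb, rfl⟩ := hω
  obtain ⟨m, a', b', ha', hb', rfl⟩ := hη
  refine ⟨n + m, Fin.append a a', Fin.append b b', fun i => ?_, fun i => ?_, ?_⟩
  · refine Fin.addCases (fun i => ?_) (fun i => ?_) i
    · simpa using ha i
    · simpa using ha' i
  · refine Fin.addCases (fun i => ?_) (fun i => ?_) i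
    · simpa using hb i
    · simpa using hb' i
  · rw [Fin.sum_univ_add]
    simp

theorem RegularAt.smul {F : Type} [Field F] [Algebra ℂ F] {W : ValuationSubring F} {ω : Ω[F⁄ℂ]}
    (hω : RegularAt W ω) {c : F} (hc : c ∈ W) : RegularAt W (c • ω) := by
  obtain ⟨n, a, b, ha, hb, rfl⟩ := hω
  refine ⟨n, fun i => c * a i, b, fun i => W.mul_mem _ _ hc (ha i), hb, ?_⟩
  rw [Finset.smul_sum]
  exact Finset.sum_congr rfl fun i _ => by rw [smul_smul]

/-- The holomorphic one-forms of (the smooth projective model of) the curve with function field `F`: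
the one-forms which are regular at all places, i.e. at all valuation rings `ℂ ⊆ W ⊊ F`. -/
def holomorphicForms (F : Type) [Field F] [Algebra ℂ F] : Submodule ℂ Ω[F⁄ℂ] where
  carrier := {ω | ∀ W : ValuationSubring F, (∀ c : ℂ, algebraMap ℂ F c ∈ W) → W ≠ ⊤ →
    RegularAt W ω}
  zero_mem' := fun W _ _ => RegularAt.zero W
  add_mem' := fun hω hη W h1 h2 => (hω W h1 h2).add (hη W h1 h2)
  smul_mem' := fun c ω hω W h1 h2 => by
    rw [← algebraMap_smul F c ω]
    exact (hω W h1 h2).smul (h1 c)

/-- The genus of the curve with function field `F`. -/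
noncomputable def genus (F : Type) [Field F] [Algebra ℂ F] : ℕ :=
  Module.finrank ℂ (holomorphicForms F)

/-- `W` is (the local ring of) a prime divisor of a smooth projective model of the surface with
function field `L`: a discrete valuation ring of `L` containing `ℂ` whose residue field is
transcendental over `ℂ`. -/
def IsPrimeDivisor {L : Type} [Field L] [Algebra ℂ L] (W : ValuationSubring L) : Prop :=
  (∀ c : ℂ, algebraMap ℂ L c ∈ W) ∧ IsDiscreteValuationRing W ∧
    ∃ v ∈ W, ∀ p : ℂ[X], p ≠ 0 → W.valuation (Polynomial.aeval v p) = 1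

/-- The global regular one-forms of the smooth projective surfaces with function field `L`: the
one-forms which are regular along all prime divisors. The dimension of this space is the
irregularity `q`. -/
def regularForms (L : Type) [Field L] [Algebra ℂ L] : Submodule ℂ Ω[L⁄ℂ] where
  carrier := {ω | ∀ W : ValuationSubring L, IsPrimeDivisor W → RegularAt W ω}
  zero_mem' := fun W _ => RegularAt.zero W
  add_mem' := fun hω hη W h1 => (hω W h1).add (hη W h1)
  smul_mem' := fun c ω hω W h1 => by
    rw [← algebraMap_smul L c ω]
    exact (hω W h1).smul (h1.1 c)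

end Pool.Agent.DegThree
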