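import Pool.Agent.Lib_MP_9293ae_ag.Pair
import Pool.Agent.Lib_MP_1209e6_ag.Der

/-! Piece Dual: partial derivatives and expansion of one-forms. -/

set_option autoImplicit false

open scoped Polynomial IntermediateField

namespace Pool.Agent.DegThree

variable {L Ab : Type} [Field L] [Field Ab] [Algebra ℂ L] [Algebra ℂ Ab] [Algebra L Ab]

/-- A derivation is rational over `L` if it preserves the image of `L`. -/
def LRational (L : Type) {Ab : Type} [Field L] [Field Ab] [Algebra ℂ Ab]
    [Algebra L Ab] (D : Derivation ℂ Ab Ab) : Prop :=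
  ∀ z : L, ∃ z' : L, D (algebraMap L Ab z) = algebraMap L Ab z'

/-- A derivation with values in a vector space which vanishes on a subfield vanishes on the
elements which are algebraic over it. -/
theorem der_mod_eq_zero {k K M : Type} [Field k] [CharZero k] [Field K] [Algebra k K]
    [AddCommGroup M] [Module k M] [Module K M] [IsScalarTower k K M]
    (d : Derivation k K M) (F : IntermediateField k K) (hF : ∀ x ∈ F, d x = 0) (z : K)
    (hz : IsAlgebraic F z) : d z = 0 := by
  let dF : Derivation F K M :=
    { toFun := d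
      map_add' := d.map_add
      map_smul' := fun f x => by
        have h1 : f • x = (f : K) * x := rfl
        have h2 : (RingHom.id F f) • d x = (f : K) • d x := rfl
        rw [h2, h1, d.leibniz, hF _ f.2, smul_zero, add_zero]
      map_one_eq_zero' := d.map_one_eq_zero
      leibniz' := d.leibniz }
  have hz' : IsIntegral F z := hz.isIntegral
  have h1 := dF.map_aeval (minpoly F z) z
  rw [minpoly.aeval, map_zero] at h1
  have h4 : Polynomial.aeval z (Polynomial.derivative (minpoly F z)) ≠ 0 :=
    (minpoly.irreducible hz').separable.aeval_derivative_ne_zero (minpoly.aeval F z)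
  exact (smul_eq_zero.mp h1.symm).resolve_left h4

/-- A derivation with values in a vector space which vanishes on a transcendence basis is zero. -/
theorem der_mod_eq_zero_of_basis {k K M ι : Type} [Field k] [CharZero k] [Field K] [Algebra k K]
    [AddCommGroup M] [Module k M] [Module K M] [IsScalarTower k K M]
    (d : Derivation k K M) (x : ι → K) (hx : IsTranscendenceBasis k x) (h : ∀ i, d (x i) = 0)
    (z : K) : d z = 0 := by
  have hF : ∀ y ∈ IntermediateField.adjoin k (Set.range x), d y = 0 := by
    intro y hy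
    induction hy using IntermediateField.adjoin_induction with
    | mem y hy => obtain ⟨i, rfl⟩ := hy; exact h i
    | algebraMap c => exact d.map_algebraMap c
    | add a b _ _ ha hb => rw [map_add, ha, hb, add_zero]
    | inv a _ ha => rw [Derivation.leibniz_inv, ha, smul_zero]
    | mul a b _ _ ha hb => rw [d.leibniz, ha, hb, smul_zero, smul_zero, add_zero]
  have : Algebra.IsAlgebraic (IntermediateField.adjoin k (Set.range x)) K := hx.isAlgebraic_field
  exact der_mod_eq_zero d _ hF z (Algebra.IsAlgebraic.isAlgebraic z)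

theorem exists_dual [IsScalarTower ℂ L Ab] (hL : Algebra.trdeg ℂ L = 2)
    [Algebra.IsAlgebraic L Ab] (u v : L) (huv : AlgebraicIndependent ℂ ![u, v]) :
    ∃ Du Dv : Derivation ℂ Ab Ab, LRational L Du ∧ LRational L Dv ∧
      Du (algebraMap L Ab u) = 1 ∧ Du (algebraMap L Ab v) = 0 ∧
      Dv (algebraMap L Ab u) = 0 ∧ Dv (algebraMap L Ab v) = 1 ∧
      (∀ D : Derivation ℂ Ab Ab, D = D (algebraMap L Ab u) • Du + D (algebraMap L Ab v) • Dv) ∧
      ∀ (Ψ : Ω[L⁄ℂ]) (a b : L),
        evalForm (IsScalarTower.toAlgHom ℂ L Ab) Du Ψ = algebraMap L Ab a →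
        evalForm (IsScalarTower.toAlgHom ℂ L Ab) Dv Ψ = algebraMap L Ab b →
        Ψ = a • KaehlerDifferential.D ℂ L u + b • KaehlerDifferential.D ℂ L v := by
  have hbas : IsTranscendenceBasis ℂ ![u, v] := by
    refine huv.isTranscendenceBasis_of_trdeg_le_of_finite ?_
    rw [hL]; simp
  have hbasA : IsTranscendenceBasis ℂ (algebraMap L Ab ∘ ![u, v]) := hbas.algebraMap_comp
  obtain ⟨dU, hU⟩ := Campana.exists_derivation ![u, v] huv ![1, 0]
  obtain ⟨dV, hV⟩ := Campana.exists_derivation ![u, v] huv ![0, 1]
  obtain ⟨Du, hDu⟩ := Campana.exists_derivation _ hbasA.1 ![1, 0]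
  obtain ⟨Dv, hDv⟩ := Campana.exists_derivation _ hbasA.1 ![0, 1]
  have U0 := hU 0
  have U1 := hU 1
  have V0 := hV 0
  have V1 := hV 1
  have A0 := hDu 0
  have A1 := hDu 1
  have B0 := hDv 0
  have B1 := hDv 1
  simp only [Matrix.cons_val_zero, Matrix.cons_val_one, Function.comp_apply] at U0 U1 V0 V1 A0 A1 B0 B1
  -- rationality
  have rat : ∀ (D : Derivation ℂ Ab Ab) (d : Derivation ℂ L L),
      D (algebraMap L Ab u) = algebraMap L Ab (d u) →
      D (algebraMap L Ab v) = algebraMap L Ab (d v) →
      ∀ z, D (algebraMap L Ab z) = algebraMap L Ab (d z) := by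
    intro D d h1 h2 z
    let e : Derivation ℂ L Ab :=
      D.compAlgebraMap L - (Algebra.linearMap L Ab).compDer d
    have he : ∀ z, e z = D (algebraMap L Ab z) - algebraMap L Ab (d z) := fun z => rfl
    have := der_mod_eq_zero_of_basis e ![u, v] hbas (by
      intro i
      rw [he]
      fin_cases i
      · exact sub_eq_zero.2 h1
      · exact sub_eq_zero.2 h2) z
    rw [he] at this
    exact sub_eq_zero.1 this
  have ratU := rat Du dU (by rw [A0, U0, map_one]) (by rw [A1, U1, map_zero])
  have ratV := rat Dv dV (by rw [B0, V0, map_zero]) (by rw [B1, V1, map_one])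
  refine ⟨Du, Dv, fun z => ⟨_, ratU z⟩, fun z => ⟨_, ratV z⟩, A0, A1, B0, B1, ?_, ?_⟩
  · intro D
    rw [← sub_eq_zero]
    ext z
    refine der_mod_eq_zero_of_basis _ _ hbasA ?_ z
    intro i
    fin_cases i
    · simp [A0, B0]
    · simp [A1, B1]
  · intro Ψ a b ha hb
    -- the expansion of an exact form
    have ex : ∀ c : L, KaehlerDifferential.D ℂ L c =
        dU c • KaehlerDifferential.D ℂ L u + dV c • KaehlerDifferential.D ℂ L v := by
      intro c
      let e : Derivation ℂ L Ω[L⁄ℂ] := KaehlerDifferential.D ℂ L -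
        ((LinearMap.toSpanSingleton L Ω[L⁄ℂ] (KaehlerDifferential.D ℂ L u)).compDer dU +
        (LinearMap.toSpanSingleton L Ω[L⁄ℂ] (KaehlerDifferential.D ℂ L v)).compDer dV)
      have he : ∀ z, e z = KaehlerDifferential.D ℂ L z - (dU z • KaehlerDifferential.D ℂ L u +
        dV z • KaehlerDifferential.D ℂ L v) := fun z => rfl
      have := der_mod_eq_zero_of_basis e ![u, v] hbas (by
        intro i
        rw [he]
        fin_cases i
        · simp [U0, V0]
        · simp [U1, V1]) c
      rw [he] at this
      exact sub_eq_zero.1 this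
    obtain ⟨n, p, q, rfl⟩ := exists_sum Ψ
    have inj := FaithfulSMul.algebraMap_injective L Ab
    have ha' : a = ∑ i, p i * dU (q i) := by
      apply inj
      rw [← ha, map_sum, map_sum]
      refine Finset.sum_congr rfl fun i _ => ?_
      rw [evalForm_smul, evalForm_D, map_mul, ← ratU]
      rfl
    have hb' : b = ∑ i, p i * dV (q i) := by
      apply inj
      rw [← hb, map_sum, map_sum]
      refine Finset.sum_congr rfl fun i _ => ?_
      rw [evalForm_smul, evalForm_D, map_mul, ← ratV]
      rfl
    rw [ha', hb', Finset.sum_smul, Finset.sum_smul, ← Finset.sum_add_distrib]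
    refine Finset.sum_congr rfl fun i _ => ?_
    rw [ex (q i), smul_add, smul_smul, smul_smul]

end Pool.Agent.DegThree
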