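import Pool.Agent.Lib_MP_9293ae_ag.Defs

/-! Piece EllForm: the invariant differential of an elliptic curve is regular at every valuation ring. -/

set_option autoImplicit false

open scoped Polynomial IntermediateField

namespace Pool.Agent.DegThree

theorem ellForm_mul_lt {G : Type} [LinearOrderedCommGroupWithZero G] {a b : G} (ha : a ≤ 1)
    (hb : b < 1) : a * b < 1 :=
  lt_of_le_of_lt (mul_le_of_le_one_left' ha) hb

theorem ellForm_single {L : Type} [Field L] [Algebra ℂ L] (W : ValuationSubring L) (a b : L)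
    (ha : a ∈ W) (hb : b ∈ W) : RegularAt W (a • KaehlerDifferential.D ℂ L b) :=
  ⟨1, fun _ => a, fun _ => b, fun _ => ha, fun _ => hb, by simp⟩

theorem ellForm_aeval_mem {L : Type} [Field L] [Algebra ℂ L] (W : ValuationSubring L)
    (hW : ∀ c : ℂ, algebraMap ℂ L c ∈ W) (p : ℂ[X]) (x : L) (hx : x ∈ W) :
    Polynomial.aeval x p ∈ W := by
  rw [Polynomial.aeval_eq_sum_range]
  refine sum_mem fun i _ => ?_
  rw [Algebra.smul_def]
  exact W.mul_mem _ _ (hW _) (pow_mem hx i)

theorem ellForm_aeval_three {L : Type} [Field L] [Algebra ℂ L] (f : ℂ[X]) (hf : f.Monic)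
    (hd : f.natDegree = 3) (x : L) :
    Polynomial.aeval x f = x ^ 3 + algebraMap ℂ L (f.coeff 2) * x ^ 2 +
      algebraMap ℂ L (f.coeff 1) * x + algebraMap ℂ L (f.coeff 0) := by
  have h3 : f.coeff 3 = 1 := by
    have := hf.coeff_natDegree
    rwa [hd] at this
  rw [Polynomial.aeval_eq_sum_range, hd]
  simp only [Finset.sum_range_succ, Finset.sum_range_zero, h3, Algebra.smul_def, map_one]
  ring

theorem ellForm_integral {L : Type} [Field L] [Algebra ℂ L] (W : ValuationSubring L)
    (hW : ∀ c : ℂ, algebraMap ℂ L c ∈ W) (f : ℂ[X])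
    (hs : f.Separable) (x y : L) (h : y ^ 2 = Polynomial.aeval x f) (hy0 : y ≠ 0) (hx : x ∈ W) :
    RegularAt W (y⁻¹ • KaehlerDifferential.D ℂ L x) := by
  have hy : y ∈ W := by
    rcases W.mem_or_inv_mem y with hy | hy
    · exact hy
    · have h2 : y = y ^ 2 * y⁻¹ := by field_simp
      rw [h2, h]
      exact W.mul_mem _ _ (ellForm_aeval_mem W hW f x hx) hy
  obtain ⟨p, q, hpq⟩ := hs
  have e1 : Polynomial.aeval x p * y ^ 2 +
      Polynomial.aeval x q * Polynomial.aeval x (Polynomial.derivative f) = 1 := by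
    rw [h, ← map_mul, ← map_mul, ← map_add, hpq, map_one]
  have e2 : (2 * y) • KaehlerDifferential.D ℂ L y =
      Polynomial.aeval x (Polynomial.derivative f) • KaehlerDifferential.D ℂ L x := by
    rw [← Derivation.map_aeval, ← h, Derivation.leibniz_pow]
    simp [mul_smul, two_smul, ← Nat.cast_smul_eq_nsmul L]
  have e3 : y⁻¹ • KaehlerDifferential.D ℂ L x =
      (Polynomial.aeval x p * y) • KaehlerDifferential.D ℂ L x +
      (2 * Polynomial.aeval x q) • KaehlerDifferential.D ℂ L y := by
    have e4 : y⁻¹ = Polynomial.aeval x p * y +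
        (Polynomial.aeval x q * y⁻¹) * Polynomial.aeval x (Polynomial.derivative f) := by
      field_simp
      rw [mul_comm (y ^ 2), e1]
    have e5 : (2 * Polynomial.aeval x q) • KaehlerDifferential.D ℂ L y =
        ((Polynomial.aeval x q * y⁻¹) * (2 * y)) • KaehlerDifferential.D ℂ L y := by
      congr 1
      field_simp
    rw [e5, mul_smul (Polynomial.aeval x q * y⁻¹), e2, ← mul_smul, ← add_smul, ← e4]
  rw [e3]
  have hp := ellForm_aeval_mem W hW p x hx
  have hq := ellForm_aeval_mem W hW q x hx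
  have h2 : (2 : L) ∈ W := by
    have := hW 2
    rwa [map_ofNat] at this
  exact (ellForm_single W _ _ (W.mul_mem _ _ hp hy) hx).add
    (ellForm_single W _ _ (W.mul_mem _ _ h2 hq) hy)

theorem ellForm_pole {L : Type} [Field L] [Algebra ℂ L] (W : ValuationSubring L)
    (hW : ∀ c : ℂ, algebraMap ℂ L c ∈ W) (f : ℂ[X]) (hf : f.Monic) (hd : f.natDegree = 3)
    (x y : L) (h : y ^ 2 = Polynomial.aeval x f) (hy0 : y ≠ 0) (hx : x ∉ W) :
    RegularAt W (y⁻¹ • KaehlerDifferential.D ℂ L x) := by
  rw [ellForm_aeval_three f hf hd] at h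
  set a := algebraMap ℂ L (f.coeff 2) with ha
  set b := algebraMap ℂ L (f.coeff 1) with hb
  set c := algebraMap ℂ L (f.coeff 0) with hc
  have haW : a ∈ W := hW _
  have hbW : b ∈ W := hW _
  have hcW : c ∈ W := hW _
  have hx0 : x ≠ 0 := fun h0 => hx (h0 ▸ W.zero_mem)
  -- valuations
  have vx : 1 < W.valuation x := by
    by_contra hcon
    exact hx ((W.valuation_le_one_iff x).mp (not_lt.mp hcon))
  have va : W.valuation a ≤ 1 := (W.valuation_le_one_iff a).mpr haW
  have vb : W.valuation b ≤ 1 := (W.valuation_le_one_iff b).mpr hbW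
  have vc : W.valuation c ≤ 1 := (W.valuation_le_one_iff c).mpr hcW
  -- x inverse in the maximal ideal
  set t := x⁻¹ with ht
  have vt : W.valuation t < 1 := by
    rw [ht, map_inv₀]
    exact inv_lt_one_of_one_lt₀ vx
  set e := a * t + b * t ^ 2 + c * t ^ 3 with he
  have vt' : W.valuation t ≤ 1 := vt.le
  have ve : W.valuation e < 1 := by
    have h1 : W.valuation (a * t) < 1 := by
      rw [map_mul]
      exact ellForm_mul_lt va vt
    have h2 : W.valuation (b * t ^ 2) < 1 := by
      rw [map_mul, map_pow]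
      exact ellForm_mul_lt vb (pow_lt_one₀ zero_le' vt two_ne_zero)
    have h3 : W.valuation (c * t ^ 3) < 1 := by
      rw [map_mul, map_pow]
      exact ellForm_mul_lt vc (pow_lt_one₀ zero_le' vt three_ne_zero)
    exact Valuation.map_add_lt _ (Valuation.map_add_lt _ h1 h2) h3
  have hone : W.valuation (1 + e) = 1 := by
    have : W.valuation (1 : L) = 1 := map_one _
    rw [Valuation.map_add_eq_of_lt_left _ (by rwa [this]), this]
  have hy2 : y ^ 2 = x ^ 3 * (1 + e) := by
    rw [h, he, ht]
    field_simp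
    ring
  set z := x / y with hz
  set w := y⁻¹ with hw
  have hu0 : (1 + e) ≠ 0 := by
    intro h0
    rw [h0, map_zero] at hone
    exact zero_ne_one hone
  have z2 : z ^ 2 = t * (1 + e)⁻¹ := by
    rw [hz, div_pow, hy2, ht]
    field_simp
  have w2 : w ^ 2 = t ^ 3 * (1 + e)⁻¹ := by
    rw [hw, inv_pow, hy2, ht]
    field_simp
  have vz : W.valuation z < 1 := by
    have : (W.valuation z) ^ 2 < 1 := by
      rw [← map_pow, z2, map_mul, map_inv₀ W.valuation (1 + e), hone, inv_one, mul_one]
      exact vt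
    by_contra hcon
    exact absurd this (not_lt.mpr (one_le_pow₀ (not_lt.mp hcon)))
  have vw : W.valuation w < 1 := by
    have : (W.valuation w) ^ 2 < 1 := by
      rw [← map_pow, w2, map_mul, map_inv₀ W.valuation (1 + e), hone, inv_one, mul_one, map_pow]
      exact pow_lt_one₀ zero_le' vt three_ne_zero
    by_contra hcon
    exact absurd this (not_lt.mpr (one_le_pow₀ (not_lt.mp hcon)))
  have hzW : z ∈ W := (W.valuation_le_one_iff z).mp vz.le
  have hwW : w ∈ W := (W.valuation_le_one_iff w).mp vw.le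
  have wy : w * y = 1 := inv_mul_cancel₀ hy0
  have zy : z * y = x := div_mul_cancel₀ x hy0
  have rel : w = z ^ 3 + a * (z ^ 2 * w) + b * (z * w ^ 2) + c * w ^ 3 := by
    have : w * y ^ 3 = (z ^ 3 + a * (z ^ 2 * w) + b * (z * w ^ 2) + c * w ^ 3) * y ^ 3 := by
      have e1 : w * y ^ 3 = y ^ 2 := by
        calc w * y ^ 3 = (w * y) * y ^ 2 := by ring
          _ = y ^ 2 := by rw [wy, one_mul]
      have e2 : (z ^ 3 + a * (z ^ 2 * w) + b * (z * w ^ 2) + c * w ^ 3) * y ^ 3 =
          (z * y) ^ 3 + a * ((z * y) ^ 2 * (w * y)) + b * ((z * y) * (w * y) ^ 2) +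
            c * (w * y) ^ 3 := by ring
      rw [e1, e2, wy, zy, h]
      ring
    exact mul_right_cancel₀ (pow_ne_zero 3 hy0) this
  set g := a * z ^ 2 + 2 * b * (z * w) + 3 * c * w ^ 2 with hg
  have two_mem : (2 : L) ∈ W := by
    have := hW 2
    rwa [map_ofNat] at this
  have three_mem : (3 : L) ∈ W := by
    have := hW 3
    rwa [map_ofNat] at this
  have v2 : W.valuation 2 ≤ 1 := (W.valuation_le_one_iff _).mpr two_mem
  have v3 : W.valuation 3 ≤ 1 := (W.valuation_le_one_iff _).mpr three_mem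
  have vg : W.valuation g < 1 := by
    have h1 : W.valuation (a * z ^ 2) < 1 := by
      rw [map_mul, map_pow]
      exact ellForm_mul_lt va (pow_lt_one₀ zero_le' vz two_ne_zero)
    have h2 : W.valuation (2 * b * (z * w)) < 1 := by
      rw [map_mul, map_mul, map_mul]
      exact ellForm_mul_lt (mul_le_one' v2 vb) (ellForm_mul_lt vz.le vw)
    have h3 : W.valuation (3 * c * w ^ 2) < 1 := by
      rw [map_mul, map_mul, map_pow]
      exact ellForm_mul_lt (mul_le_one' v3 vc) (pow_lt_one₀ zero_le' vw two_ne_zero)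
    exact Valuation.map_add_lt _ (Valuation.map_add_lt _ h1 h2) h3
  have hG : W.valuation (1 - g) = 1 := by
    have : W.valuation (1 : L) = 1 := map_one _
    rw [Valuation.map_sub_eq_of_lt_left _ (by rwa [this]), this]
  have hG0 : (1 - g) ≠ 0 := by
    intro h0
    rw [h0, map_zero] at hG
    exact zero_ne_one hG
  have hGW : (1 - g)⁻¹ ∈ W := by
    rw [← W.valuation_le_one_iff, map_inv₀, hG, inv_one]
  -- differentials
  set D := KaehlerDifferential.D ℂ L with hD
  have Da : D a = 0 := D.map_algebraMap _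
  have Db : D b = 0 := D.map_algebraMap _
  have Dc : D c = 0 := D.map_algebraMap _
  have E : (1 - g) • D w = (3 * z ^ 2 + 2 * a * (z * w) + b * w ^ 2) • D z := by
    have e1 : D w = D (z ^ 3 + a * (z ^ 2 * w) + b * (z * w ^ 2) + c * w ^ 3) := by rw [← rel]
    have e2 : D (z ^ 3 + a * (z ^ 2 * w) + b * (z * w ^ 2) + c * w ^ 3) =
        (3 * z ^ 2 + 2 * a * (z * w) + b * w ^ 2) • D z + g • D w := by
      simp only [map_add, Derivation.leibniz, Derivation.leibniz_pow, Da, Db, Dc, smul_zero,
        add_zero, ← Nat.cast_smul_eq_nsmul L, smul_add, ← mul_smul]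
      rw [hg]
      norm_num
      module
    rw [e2] at e1
    rw [sub_smul, one_smul]
    rw [sub_eq_iff_eq_add]
    exact e1
  have Ex : D x = z • D y + y • D z := by rw [← zy, Derivation.leibniz]
  have Ey : w • D y + y • D w = 0 := by
    have := D.leibniz w y
    rw [wy, Derivation.map_one_eq_zero] at this
    rw [← this]
  have key : (1 - g) • (w • D x) = (-2 : L) • D z := by
    have e1 : w • D x = D z - (z * y) • D w := by
      rw [Ex, smul_add, ← mul_smul w y, wy, one_smul, ← mul_smul, mul_comm w z, mul_smul]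
      have : w • D y = - (y • D w) := eq_neg_of_add_eq_zero_left Ey
      rw [this, smul_neg, ← mul_smul]
      abel
    rw [e1, smul_sub, ← mul_smul, mul_comm (1 - g) (z * y), mul_smul (z * y), E, ← mul_smul,
      ← sub_smul]
    congr 1
    have e3 : z ^ 3 * y = 1 - a * z ^ 2 - b * (z * w) - c * w ^ 2 := by
      have : w * y = (z ^ 3 + a * (z ^ 2 * w) + b * (z * w ^ 2) + c * w ^ 3) * y := by rw [← rel]
      have e4 : (z ^ 3 + a * (z ^ 2 * w) + b * (z * w ^ 2) + c * w ^ 3) * y =
          z ^ 3 * y + a * z ^ 2 * (w * y) + b * (z * w) * (w * y) + c * w ^ 2 * (w * y) := by ring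
      rw [e4, wy] at this
      linear_combination -this
    have e5 : z * y * (3 * z ^ 2 + 2 * a * (z * w) + b * w ^ 2) =
        3 * (z ^ 3 * y) + 2 * a * z ^ 2 * (w * y) + b * (z * w) * (w * y) := by ring
    rw [e5, wy, e3, hg]
    ring
  have fin : w • D x = (-2 * (1 - g)⁻¹) • D z := by
    have : w • D x = (1 - g)⁻¹ • ((1 - g) • (w • D x)) := by
      rw [← mul_smul, inv_mul_cancel₀ hG0, one_smul]
    rw [this, key, ← mul_smul, mul_comm]
  rw [fin]
  exact ellForm_single W _ _ (W.mul_mem _ _ (neg_mem two_mem) hGW) hzW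

theorem regularAt_invariant {L : Type} [Field L] [Algebra ℂ L] (W : ValuationSubring L)
    (hW : ∀ c : ℂ, algebraMap ℂ L c ∈ W) (f : ℂ[X]) (hf : f.Monic) (hd : f.natDegree = 3)
    (hs : f.Separable) (x y : L) (h : y ^ 2 = Polynomial.aeval x f) :
    RegularAt W (y⁻¹ • KaehlerDifferential.D ℂ L x) := by
  by_cases hy0 : y = 0
  · rw [hy0, inv_zero, zero_smul]
    exact RegularAt.zero W
  by_cases hx : x ∈ W
  · exact ellForm_integral W hW f hs x y h hy0 hx
  · exact ellForm_pole W hW f hf hd x y h hy0 hx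

end Pool.Agent.DegThree
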