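import Mathlib

/-! Piece Flex: every complex elliptic curve has a flex (a point of order three). -/

set_option autoImplicit false

open scoped Polynomial IntermediateField

namespace Pool.Agent.DegThree

theorem flex_root (A B : ℂ) : ∃ x₁ : ℂ, 3 * x₁ ^ 4 + 6 * A * x₁ ^ 2 + 12 * B * x₁ - A ^ 2 = 0 := by
  classical
  let p : ℂ[X] := Polynomial.C 3 * Polynomial.X ^ 4 + Polynomial.C (6 * A) * Polynomial.X ^ 2 +
    Polynomial.C (12 * B) * Polynomial.X - Polynomial.C (A ^ 2)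
  have hc : p.coeff 4 = 3 := by
    simp only [p, Polynomial.coeff_sub, Polynomial.coeff_add, Polynomial.coeff_C_mul,
      Polynomial.coeff_X_pow, Polynomial.coeff_X, Polynomial.coeff_C]
    norm_num
  have hdeg : p.degree ≠ 0 := by
    intro h
    have h4 : p.coeff 4 = 0 := by
      apply Polynomial.coeff_eq_zero_of_degree_lt
      rw [h]
      exact_mod_cast (by norm_num : (0 : ℕ) < 4)
    rw [hc] at h4
    norm_num at h4
  obtain ⟨x₁, hx₁⟩ := IsAlgClosed.exists_root p hdeg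
  refine ⟨x₁, ?_⟩
  have := hx₁
  simp only [Polynomial.IsRoot.def, p, Polynomial.eval_add, Polynomial.eval_sub, Polynomial.eval_mul,
    Polynomial.eval_C, Polynomial.eval_pow, Polynomial.eval_X] at this
  linear_combination this

theorem exists_flex (A B : ℂ) (hΔ : 4 * A ^ 3 + 27 * B ^ 2 ≠ 0) :
    ∃ x₁ α β : ℂ, β ≠ 0 ∧ ∀ (K : Type) [Field K] [Algebra ℂ K] (x : K),
      x ^ 3 + algebraMap ℂ K A * x + algebraMap ℂ K B = (x - algebraMap ℂ K x₁) ^ 3 +
        (algebraMap ℂ K α * (x - algebraMap ℂ K x₁) + algebraMap ℂ K β) ^ 2 := by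
  obtain ⟨x₁, hx₁⟩ := flex_root A B
  have hf : x₁ ^ 3 + A * x₁ + B ≠ 0 := by
    intro h
    have h' : 3 * x₁ ^ 2 + A = 0 := by
      have : (3 * x₁ ^ 2 + A) ^ 2 = 0 := by
        linear_combination 12 * x₁ * h - hx₁
      exact pow_eq_zero_iff (two_ne_zero) |>.mp this
    apply hΔ
    linear_combination (27 * (B - x₁ ^ 3 - A * x₁)) * h
      + (4 * A ^ 2 + 15 * x₁ ^ 2 * A + 9 * x₁ ^ 4) * h'
  obtain ⟨β, hβ⟩ := IsAlgClosed.exists_pow_nat_eq (x₁ ^ 3 + A * x₁ + B) (n := 2) (by norm_num)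
  have hβ0 : β ≠ 0 := by
    rintro rfl
    apply hf
    rw [← hβ]; ring
  have hα2 : ((3 * x₁ ^ 2 + A) / (2 * β)) ^ 2 = 3 * x₁ := by
    rw [div_pow, mul_pow, hβ, div_eq_iff (mul_ne_zero (by norm_num) hf)]
    linear_combination (-1 : ℂ) * hx₁
  refine ⟨x₁, (3 * x₁ ^ 2 + A) / (2 * β), β, hβ0, ?_⟩
  intro K _ _ x
  have h1 : algebraMap ℂ K β ^ 2 = algebraMap ℂ K x₁ ^ 3 + algebraMap ℂ K A * algebraMap ℂ K x₁ +
      algebraMap ℂ K B := by
    rw [← map_pow, hβ]; simp only [map_add, map_mul, map_pow]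
  have h2 : algebraMap ℂ K ((3 * x₁ ^ 2 + A) / (2 * β)) ^ 2 = 3 * algebraMap ℂ K x₁ := by
    rw [← map_pow, hα2, map_mul, map_ofNat]
  have h3 : 2 * (algebraMap ℂ K ((3 * x₁ ^ 2 + A) / (2 * β)) * algebraMap ℂ K β) =
      3 * algebraMap ℂ K x₁ ^ 2 + algebraMap ℂ K A := by
    rw [← map_mul, ← map_ofNat (algebraMap ℂ K) 2, ← map_mul]
    have : (2 : ℂ) * ((3 * x₁ ^ 2 + A) / (2 * β) * β) = 3 * x₁ ^ 2 + A := by
      field_simp
    rw [this]
    simp only [map_add, map_mul, map_pow, map_ofNat]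
  linear_combination -(x - algebraMap ℂ K x₁) ^ 2 * h2 - (x - algebraMap ℂ K x₁) * h3 - h1

end Pool.Agent.DegThree
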