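import Mathlib
import Pool.Agent.Lib_MP_1209e6_ag.Der

/-! Piece Gen: generation statements. -/

set_option autoImplicit false

open scoped Polynomial IntermediateField

namespace Pool.Agent.DegThree

variable {F L K Ab : Type} [Field F] [Field L] [Field K] [Field Ab] [Algebra ℂ F] [Algebra ℂ L]
  [Algebra ℂ K] [Algebra ℂ Ab] [Algebra F K] [IsScalarTower ℂ F K] [Algebra L K]
  [IsScalarTower ℂ L K] [Algebra L Ab] [IsScalarTower ℂ L Ab]

theorem adjoin_eq_top (h3 : Module.finrank L K = 3) [FiniteDimensional L K] [IsAlgClosed Ab]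
    [Algebra.IsAlgebraic L Ab] (s f : F) (hs : Transcendental ℂ s) (hf : f ≠ 0)
    (h1 : ∀ D : Derivation ℂ Ab Ab, ∑ σ : K →ₐ[L] Ab, σ (algebraMap F K f) *
      D (σ (algebraMap F K s)) = 0) :
    IntermediateField.adjoin L (Set.range (algebraMap F K)) = ⊤ := by
  by_contra hne
  set N := IntermediateField.adjoin L (Set.range (algebraMap F K)) with hN
  have h4 : Module.finrank L N * Module.finrank N K = 3 := by
    rw [Module.finrank_mul_finrank, h3]
  have h5 : Module.finrank L N = 1 := by
    have h6 : Module.finrank L N ∣ 3 := ⟨_, h4.symm⟩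
    rcases (Nat.dvd_prime Nat.prime_three).1 h6 with h | h
    · exact h
    · exfalso
      apply hne
      have h7 : Module.finrank N K = 1 := by
        rw [h] at h4
        omega
      exact IntermediateField.finrank_eq_one_iff_eq_top.1 h7
  have h6 : N = ⊥ := IntermediateField.finrank_eq_one_iff.1 h5
  have h7 : ∀ z : F, ∃ l : L, algebraMap L K l = algebraMap F K z := by
    intro z
    have h8 : algebraMap F K z ∈ N := IntermediateField.subset_adjoin _ _ ⟨z, rfl⟩
    rw [h6] at h8
    exact IntermediateField.mem_bot.1 h8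
  obtain ⟨ls, hls⟩ := h7 s
  obtain ⟨lf, hlf⟩ := h7 f
  have h8 : ∀ D : Derivation ℂ Ab Ab, algebraMap L Ab lf * D (algebraMap L Ab ls) = 0 := by
    intro D
    have h9 := h1 D
    have hca : CharZero Ab := charZero_of_injective_algebraMap (algebraMap ℂ Ab).injective
    simp_rw [← hls, ← hlf, AlgHom.commutes] at h9
    rw [Finset.sum_const, nsmul_eq_mul] at h9
    rcases mul_eq_zero.1 h9 with h | h
    · exfalso
      have hn : Nonempty (K →ₐ[L] Ab) := ⟨IsAlgClosed.lift⟩
      rw [Nat.cast_eq_zero, Finset.card_eq_zero] at h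
      have := hn.some
      have h10 : this ∈ (Finset.univ : Finset (K →ₐ[L] Ab)) := Finset.mem_univ _
      rw [h] at h10
      simp at h10
    · exact h
  have htr : Transcendental ℂ (algebraMap L Ab ls) := by
    intro ha
    apply hs
    have h9 : IsAlgebraic ℂ ls :=
      (isAlgebraic_algebraMap_iff (FaithfulSMul.algebraMap_injective L Ab)).1 ha
    have h10 : IsAlgebraic ℂ (algebraMap L K ls) := h9.algebraMap
    rw [hls] at h10
    exact (isAlgebraic_algebraMap_iff (FaithfulSMul.algebraMap_injective F K)).1 h10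
  obtain ⟨D, hD⟩ := Pool.Agent.Campana.exists_derivation (k := ℂ) (K := Ab) (ι := Unit)
    (fun _ => algebraMap L Ab ls) ((algebraicIndependent_unique_type_iff).2 htr) (fun _ => 1)
  have h9 := h8 D
  rw [hD (), mul_one] at h9
  have h10 : lf = 0 := (map_eq_zero _).1 h9
  rw [h10, map_zero] at hlf
  exact hf ((map_eq_zero _).1 hlf.symm)

theorem gen_le (hFL : IntermediateField.adjoin L (Set.range (algebraMap F K)) = ⊤)
    (x y : K) (hxy : IntermediateField.adjoin F {x, y} = ⊤) (M : IntermediateField ℂ Ab)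
    (hM : ∀ (σ : K →ₐ[L] Ab) (z : F), σ (algebraMap F K z) ∈ M) (σ σ' : K →ₐ[L] Ab) :
    IntermediateField.adjoin M {σ x, σ y} ≤ IntermediateField.adjoin M {σ' x, σ' y} := by
  set T := IntermediateField.adjoin M {σ' x, σ' y} with hT
  have hMT : ∀ z ∈ M, z ∈ T := fun z hz => T.algebraMap_mem (⟨z, hz⟩ : M)
  let S' : IntermediateField F K := (T.toSubfield.comap (σ' : K →+* Ab)).toIntermediateField
    (fun z => hMT _ (hM σ' z))
  have h1 : (⊤ : IntermediateField F K) ≤ S' := by
    rw [← hxy, IntermediateField.adjoin_le_iff]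
    rintro z (rfl | rfl)
    · exact IntermediateField.subset_adjoin M _ (Set.mem_insert _ _)
    · exact IntermediateField.subset_adjoin M _ (Set.mem_insert_of_mem _ rfl)
  have h2 : ∀ k : K, σ' k ∈ T := fun k => h1 (IntermediateField.mem_top (x := k))
  let S : IntermediateField L K := (T.toSubfield.comap (σ : K →+* Ab)).toIntermediateField
    (fun l => by
      change σ (algebraMap L K l) ∈ T
      rw [σ.commutes, ← σ'.commutes]
      exact h2 _)
  have h3 : (⊤ : IntermediateField L K) ≤ S := by
    rw [← hFL, IntermediateField.adjoin_le_iff]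
    rintro _ ⟨z, rfl⟩
    exact hMT _ (hM σ z)
  have h4 : ∀ k : K, σ k ∈ T := fun k => h3 (IntermediateField.mem_top (x := k))
  rw [IntermediateField.adjoin_le_iff]
  rintro z (rfl | rfl)
  · exact h4 _
  · exact h4 _

theorem adjoin_eq_adjoin (hFL : IntermediateField.adjoin L (Set.range (algebraMap F K)) = ⊤)
    (x y : K) (hxy : IntermediateField.adjoin F {x, y} = ⊤) (M : IntermediateField ℂ Ab)
    (hM : ∀ (σ : K →ₐ[L] Ab) (z : F), σ (algebraMap F K z) ∈ M) (σ σ' : K →ₐ[L] Ab) :
    IntermediateField.adjoin M {σ x, σ y} = IntermediateField.adjoin M {σ' x, σ' y} :=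
  le_antisymm (gen_le hFL x y hxy M hM σ σ') (gen_le hFL x y hxy M hM σ' σ)

end Pool.Agent.DegThree
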