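import Pool.Agent.Lib_MP_9293ae_ag.Defs

/-! Piece Pair: the value of a one-form of F on a derivation of a bigger field. -/

set_option autoImplicit false

open scoped Polynomial IntermediateField

namespace Pool.Agent.DegThree

variable {F Ab : Type} [Field F] [Algebra ℂ F] [Field Ab] [Algebra ℂ Ab]

/-- The value `ω(D ∘ σ)` of the one-form `ω` of `F` on the derivation `D ∘ σ`. -/
noncomputable def evalForm (σ : F →ₐ[ℂ] Ab) (D : Derivation ℂ Ab Ab) : Ω[F⁄ℂ] →+ Ab :=
  letI : Algebra F Ab := σ.toRingHom.toAlgebra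
  haveI : IsScalarTower ℂ F Ab := IsScalarTower.of_algebraMap_eq fun c => (σ.commutes c).symm
  ((D.compAlgebraMap F).liftKaehlerDifferential).toAddMonoidHom

theorem evalForm_D (σ : F →ₐ[ℂ] Ab) (D : Derivation ℂ Ab Ab) (b : F) :
    evalForm σ D (KaehlerDifferential.D ℂ F b) = D (σ b) := by
  letI : Algebra F Ab := σ.toRingHom.toAlgebra
  haveI : IsScalarTower ℂ F Ab := IsScalarTower.of_algebraMap_eq fun c => (σ.commutes c).symm
  change (D.compAlgebraMap F).liftKaehlerDifferential (KaehlerDifferential.D ℂ F b) = _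
  rw [Derivation.liftKaehlerDifferential_comp_D]
  rfl

theorem evalForm_smul (σ : F →ₐ[ℂ] Ab) (D : Derivation ℂ Ab Ab) (a : F) (ω : Ω[F⁄ℂ]) :
    evalForm σ D (a • ω) = σ a * evalForm σ D ω := by
  letI : Algebra F Ab := σ.toRingHom.toAlgebra
  haveI : IsScalarTower ℂ F Ab := IsScalarTower.of_algebraMap_eq fun c => (σ.commutes c).symm
  change (D.compAlgebraMap F).liftKaehlerDifferential (a • ω) = _
  rw [map_smul, Algebra.smul_def]
  rfl

/-- every one-form is a finite sum -/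
theorem exists_sum (ω : Ω[F⁄ℂ]) : ∃ (n : ℕ) (a b : Fin n → F),
    ω = ∑ i, a i • KaehlerDifferential.D ℂ F (b i) := by
  have h : ω ∈ Submodule.span F (Set.range (KaehlerDifferential.D ℂ F)) := by
    rw [KaehlerDifferential.span_range_derivation]; trivial
  induction h using Submodule.span_induction with
  | mem x hx =>
    obtain ⟨b, rfl⟩ := hx
    exact ⟨1, fun _ => 1, fun _ => b, by simp⟩
  | zero => exact ⟨0, Fin.elim0, Fin.elim0, by simp⟩
  | add x y _ _ hx hy =>
    obtain ⟨n, a, b, rfl⟩ := hx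
    obtain ⟨m, a', b', rfl⟩ := hy
    refine ⟨n + m, Fin.append a a', Fin.append b b', ?_⟩
    rw [Fin.sum_univ_add]
    simp
  | smul c x _ hx =>
    obtain ⟨n, a, b, rfl⟩ := hx
    refine ⟨n, fun i => c * a i, b, ?_⟩
    rw [Finset.smul_sum]
    exact Finset.sum_congr rfl fun i _ => by rw [smul_smul]

theorem evalForm_sum (σ : F →ₐ[ℂ] Ab) (D : Derivation ℂ Ab Ab) {n : ℕ} (a b : Fin n → F) :
    evalForm σ D (∑ i, a i • KaehlerDifferential.D ℂ F (b i)) = ∑ i, σ (a i) * D (σ (b i)) := by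
  rw [map_sum]
  exact Finset.sum_congr rfl fun i _ => by rw [evalForm_smul, evalForm_D]

theorem evalForm_add_der (σ : F →ₐ[ℂ] Ab) (D D' : Derivation ℂ Ab Ab) (ω : Ω[F⁄ℂ]) :
    evalForm σ (D + D') ω = evalForm σ D ω + evalForm σ D' ω := by
  obtain ⟨n, a, b, rfl⟩ := exists_sum ω
  rw [evalForm_sum, evalForm_sum, evalForm_sum, ← Finset.sum_add_distrib]
  exact Finset.sum_congr rfl fun i _ => by rw [Derivation.add_apply, mul_add]

theorem evalForm_smul_der (σ : F →ₐ[ℂ] Ab) (c : Ab) (D : Derivation ℂ Ab Ab) (ω : Ω[F⁄ℂ]) :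
    evalForm σ (c • D) ω = c * evalForm σ D ω := by
  obtain ⟨n, a, b, rfl⟩ := exists_sum ω
  rw [evalForm_sum, evalForm_sum, Finset.mul_sum]
  refine Finset.sum_congr rfl fun i _ => ?_
  rw [Derivation.smul_apply, smul_eq_mul]
  ring

/-- values of holomorphic forms of a curve at valuation rings of a bigger field -/
theorem evalForm_mem (ω : Ω[F⁄ℂ]) (hω : ω ∈ holomorphicForms F) (σ : F →ₐ[ℂ] Ab)
    (W : ValuationSubring Ab) (hW : ∀ c : ℂ, algebraMap ℂ Ab c ∈ W) (D : Derivation ℂ Ab Ab)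
    (J : AddSubgroup Ab) (hJ : ∀ w ∈ W, ∀ j ∈ J, w * j ∈ J) (hD : ∀ w ∈ W, D w ∈ J) :
    evalForm σ D ω ∈ J := by
  have key : ∀ (n : ℕ) (a b : Fin n → F), (∀ i, σ (a i) ∈ W) → (∀ i, σ (b i) ∈ W) →
      evalForm σ D (∑ i, a i • KaehlerDifferential.D ℂ F (b i)) ∈ J := by
    intro n a b ha hb
    rw [evalForm_sum]
    exact J.sum_mem fun i _ => hJ _ (ha i) _ (hD _ (hb i))
  by_cases htop : W.comap σ.toRingHom = ⊤
  · obtain ⟨n, a, b, rfl⟩ := exists_sum ω
    refine key n a b (fun i => ?_) fun i => ?_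
    · have : a i ∈ W.comap σ.toRingHom := by rw [htop]; trivial
      exact this
    · have : b i ∈ W.comap σ.toRingHom := by rw [htop]; trivial
      exact this
  · obtain ⟨n, a, b, ha, hb, rfl⟩ := hω (W.comap σ.toRingHom) (fun c => by
      change σ (algebraMap ℂ F c) ∈ W
      rw [σ.commutes]
      exact hW c) htop
    exact key n a b ha hb

end Pool.Agent.DegThree
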