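import Mathlib

/-! Piece Place: valuation rings extend to bigger fields. -/

set_option autoImplicit false

open scoped Polynomial IntermediateField

namespace Pool.Agent.DegThree

theorem exists_place {L Ab : Type} [Field L] [Field Ab] [Algebra L Ab] (V : ValuationSubring L) :
    ∃ W : ValuationSubring Ab, W.comap (algebraMap L Ab) = V := by
  let f : V →+* Ab := (algebraMap L Ab).comp V.subtype
  obtain ⟨B, hB⟩ := (LocalSubring.range f).exists_le_valuationSubring
  refine ⟨B, ?_⟩
  have hle : ∀ a : V, algebraMap L Ab a ∈ B := fun a => hB.1 ⟨a, rfl⟩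
  ext z
  rw [ValuationSubring.mem_comap]
  constructor
  · intro hz
    by_contra hzV
    have hz0 : z ≠ 0 := fun h => hzV (h ▸ V.zero_mem)
    have hzi : z⁻¹ ∈ V := (V.mem_or_inv_mem z).resolve_left hzV
    -- the image of z⁻¹ is a unit of B, hence a unit of the range
    have hmem : f ⟨z⁻¹, hzi⟩ ∈ (LocalSubring.range f).toSubring := ⟨⟨z⁻¹, hzi⟩, rfl⟩
    have hu : IsUnit (Subring.inclusion hB.1 ⟨f ⟨z⁻¹, hzi⟩, hmem⟩) := by
      rw [isUnit_iff_exists_inv]
      refine ⟨⟨algebraMap L Ab z, hz⟩, ?_⟩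
      apply Subtype.ext
      change algebraMap L Ab z⁻¹ * algebraMap L Ab z = 1
      rw [← map_mul, inv_mul_cancel₀ hz0, map_one]
    have hu2 := hB.2.1 _ hu
    obtain ⟨⟨b, hb⟩, hb2⟩ := isUnit_iff_exists_inv.1 hu2
    obtain ⟨c, rfl⟩ := hb
    have h3 : algebraMap L Ab (z⁻¹ * c) = 1 := by
      have := congrArg Subtype.val hb2
      rw [map_mul]
      exact this
    have h4 : z⁻¹ * (c : L) = 1 := (algebraMap L Ab).injective (by rw [h3, map_one])
    have h5 : (c : L) = z := by
      field_simp at h4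
      exact h4
    exact hzV (h5 ▸ c.2)
  · intro hz
    exact hle ⟨z, hz⟩

end Pool.Agent.DegThree
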