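import Pool.Agent.Lib_MP_9293ae_ag.TameFin

/-! Piece Tame: derivations of tame type preserve valuation rings (algebraic extension). -/

set_option autoImplicit false

open scoped Polynomial IntermediateField

namespace Pool.Agent.DegThree

theorem tame_lt_one_iff {K : Type} [Field K] (W : ValuationSubring K) (x : K) :
    W.valuation x < 1 ↔ (x = 0 ∨ x⁻¹ ∉ W) := by
  by_cases h : x = 0
  · subst h; simp
  · have h' : 0 < W.valuation x := zero_lt_iff.2 ((Valuation.ne_zero_iff _).2 h)
    rw [← ValuationSubring.valuation_le_one_iff, map_inv₀, not_le, one_lt_inv₀ h']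
    simp [h]

theorem tame_der_inv {A : Type} [Field A] (D : Derivation ℤ A A) (x : A) (hx : x ≠ 0) :
    D x⁻¹ = - (x⁻¹ * x⁻¹ * D x) := by
  have h : D (x * x⁻¹) = 0 := by rw [mul_inv_cancel₀ hx]; simp
  rw [D.leibniz, smul_eq_mul, smul_eq_mul] at h
  have h2 : D x⁻¹ = x⁻¹ * (x * D x⁻¹) := by field_simp
  rw [h2]
  have h3 : x * D x⁻¹ = - (x⁻¹ * D x) := by linear_combination h
  rw [h3]
  ring

/-- a derivation preserving `E` preserves the algebraic extension `E(z)` -/
theorem tame_der_adjoin {E A : Type} [Field E] [CharZero E] [Field A] [Algebra E A]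
    (D : Derivation ℤ A A) (hE : ∀ e : E, ∃ e' : E, D (algebraMap E A e) = algebraMap E A e')
    (z : A) (hz : IsAlgebraic E z) (x : A) (hx : x ∈ IntermediateField.adjoin E {z}) :
    D x ∈ IntermediateField.adjoin E {z} := by
  have hzL : z ∈ IntermediateField.adjoin E {z} := IntermediateField.mem_adjoin_simple_self E z
  have hpoly : ∀ p : E[X], Polynomial.aeval z p ∈ IntermediateField.adjoin E {z} := by
    intro p
    have := (Polynomial.aeval (⟨z, hzL⟩ : IntermediateField.adjoin E {z}) p).2
    rwa [← IntermediateField.algebraMap_apply, ← Polynomial.aeval_algebraMap_apply] at this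
  have hDp : ∀ p : E[X], D (Polynomial.aeval z p) -
      Polynomial.aeval z (Polynomial.derivative p) * D z ∈ IntermediateField.adjoin E {z} := by
    intro p
    induction p using Polynomial.induction_on' with
    | add p q hp hq =>
      have : D (Polynomial.aeval z (p + q)) -
          Polynomial.aeval z (Polynomial.derivative (p + q)) * D z =
          (D (Polynomial.aeval z p) - Polynomial.aeval z (Polynomial.derivative p) * D z) +
          (D (Polynomial.aeval z q) - Polynomial.aeval z (Polynomial.derivative q) * D z) := by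
        simp only [map_add]; ring
      rw [this]
      exact add_mem hp hq
    | monomial n a =>
      obtain ⟨e', he'⟩ := hE a
      have : D (Polynomial.aeval z (Polynomial.monomial n a)) -
          Polynomial.aeval z (Polynomial.derivative (Polynomial.monomial n a)) * D z =
          algebraMap E A e' * z ^ n := by
        rw [Polynomial.derivative_monomial, Polynomial.aeval_monomial, Polynomial.aeval_monomial,
          D.leibniz, D.leibniz_pow, he']
        simp only [smul_eq_mul, map_mul, map_natCast, nsmul_eq_mul]
        ring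
      rw [this]
      exact mul_mem (IntermediateField.algebraMap_mem _ _) (pow_mem hzL n)
  have hDz : D z ∈ IntermediateField.adjoin E {z} := by
    have hint : IsIntegral E z := hz.isIntegral
    have h1 := hDp (minpoly E z)
    rw [minpoly.aeval, map_zero, zero_sub] at h1
    have h2 : Polynomial.aeval z (Polynomial.derivative (minpoly E z)) ≠ 0 :=
      (minpoly.irreducible hint).separable.aeval_derivative_ne_zero (minpoly.aeval E z)
    have h3 := div_mem (neg_mem h1) (hpoly (Polynomial.derivative (minpoly E z)))
    rw [neg_neg, mul_div_cancel_left₀ _ h2] at h3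
    exact h3
  induction hx using IntermediateField.adjoin_induction with
  | mem x hx => rw [Set.mem_singleton_iff.1 hx]; exact hDz
  | algebraMap e =>
    obtain ⟨e', he'⟩ := hE e
    rw [he']; exact IntermediateField.algebraMap_mem _ _
  | add x y _ _ hx hy => rw [map_add]; exact add_mem hx hy
  | inv x hx' hx =>
    by_cases h : x = 0
    · rw [h, inv_zero, map_zero]; exact zero_mem _
    · rw [tame_der_inv D x h]
      exact neg_mem (mul_mem (mul_mem (inv_mem hx') (inv_mem hx')) hx)
  | mul x y hx' hy' hx hy =>
    rw [D.leibniz, smul_eq_mul, smul_eq_mul]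
    exact add_mem (mul_mem hx' hy) (mul_mem hy' hx)

theorem tame_alg {k₀ A : Type} [Field k₀] [CharZero k₀] [Field A] [Algebra k₀ A] (u : A)
    (hu : Transcendental k₀ u) (halg : Algebra.IsAlgebraic (IntermediateField.adjoin k₀ {u}) A)
    (D : Derivation ℤ A A)
    (h0 : ∀ c : k₀, ∃ c' : k₀, D (algebraMap k₀ A c) = algebraMap k₀ A c')
    (h1 : ∃ c : k₀, D u = algebraMap k₀ A c * u) (W : ValuationSubring A)
    (hk : ∀ c : k₀, algebraMap k₀ A c ∈ W) (hW : W.valuation u < 1) :
    (∀ z ∈ W, D z ∈ W) ∧
      ((∀ c : k₀, D (algebraMap k₀ A c) = 0) → ∀ z ∈ W, W.valuation (D z) < 1) := by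
  -- D preserves E = k₀(u)
  have hE : ∀ x ∈ IntermediateField.adjoin k₀ {u}, D x ∈ IntermediateField.adjoin k₀ {u} := by
    intro x hx
    induction hx using IntermediateField.adjoin_induction with
    | mem x hx =>
      rw [Set.mem_singleton_iff.1 hx]
      obtain ⟨c, hc⟩ := h1
      rw [hc]
      exact mul_mem (IntermediateField.algebraMap_mem _ _)
        (IntermediateField.mem_adjoin_simple_self k₀ u)
    | algebraMap e =>
      obtain ⟨e', he'⟩ := h0 e
      rw [he']; exact IntermediateField.algebraMap_mem _ _
    | add x y _ _ hx hy => rw [map_add]; exact add_mem hx hy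
    | inv x hx' hx =>
      by_cases h : x = 0
      · rw [h, inv_zero, map_zero]; exact zero_mem _
      · rw [tame_der_inv D x h]
        exact neg_mem (mul_mem (mul_mem (inv_mem hx') (inv_mem hx')) hx)
    | mul x y hx' hy' hx hy =>
      rw [D.leibniz, smul_eq_mul, smul_eq_mul]
      exact add_mem (mul_mem hx' hy) (mul_mem hy' hx)
  have key : ∀ z ∈ W, D z ∈ W ∧ ((∀ c : k₀, D (algebraMap k₀ A c) = 0) →
      W.valuation (D z) < 1) := by
    intro z hz
    let E : IntermediateField k₀ A := IntermediateField.adjoin k₀ {u}
    let L : IntermediateField E A := IntermediateField.adjoin E {z}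
    have hzalg : IsAlgebraic E z := halg.isAlgebraic z
    have hfin : FiniteDimensional E L :=
      IntermediateField.adjoin.finiteDimensional hzalg.isIntegral
    have huE : u ∈ E := IntermediateField.mem_adjoin_simple_self k₀ u
    have huL : u ∈ L := L.algebraMap_mem ⟨u, huE⟩
    have hzL : z ∈ L := IntermediateField.mem_adjoin_simple_self E z
    let uL : L := ⟨u, huL⟩
    have hDL : ∀ x ∈ L, D x ∈ L := fun x hx =>
      tame_der_adjoin D (fun e => ⟨⟨D e, hE e e.2⟩, rfl⟩) z hzalg x hx
    let D₁ : Derivation ℤ L L := Derivation.mk'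
      (AddMonoidHom.toIntLinearMap
        { toFun := fun x => (⟨D x, hDL x x.2⟩ : L)
          map_zero' := Subtype.ext (by simp)
          map_add' := fun x y => Subtype.ext (by simp) })
      (fun x y => Subtype.ext (by simp))
    have hD₁ : ∀ x : L, ((D₁ x : L) : A) = D x := fun x => rfl
    have htow : IsScalarTower k₀ L A := IsScalarTower.of_algebraMap_eq fun _ => rfl
    have huL' : Transcendental k₀ uL := by
      intro h
      exact hu (h.algebraMap (A := A))
    have hfin' : FiniteDimensional (IntermediateField.adjoin k₀ {uL}) L := by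
      let f : L →ₐ[k₀] A := IsScalarTower.toAlgHom k₀ L A
      have hmap : (IntermediateField.adjoin k₀ {uL}).map f = E := by
        rw [IntermediateField.adjoin_map, Set.image_singleton]
        rfl
      have hmem : ∀ x : L, (x : A) ∈ E → x ∈ IntermediateField.adjoin k₀ {uL} := by
        intro x hx
        have hx2 : (x : A) ∈ (IntermediateField.adjoin k₀ {uL}).map f := by rw [hmap]; exact hx
        obtain ⟨y, hy, hyx⟩ := hx2
        have : y = x := Subtype.ext hyx
        rwa [← this]
      obtain ⟨s, hs⟩ := hfin.fg_top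
      refine ⟨⟨s, ?_⟩⟩
      rw [eq_top_iff]
      rintro x -
      have hx : x ∈ Submodule.span E (s : Set L) := by rw [hs]; trivial
      induction hx using Submodule.span_induction with
      | mem x hx => exact Submodule.subset_span hx
      | zero => exact zero_mem _
      | add x y _ _ hx hy => exact add_mem hx hy
      | smul e x _ hx =>
        have h3 : e • x = (⟨algebraMap E L e, hmem _ e.2⟩ :
            IntermediateField.adjoin k₀ {uL}) • x := by
          rw [Algebra.smul_def]; rfl
        rw [h3]
        exact Submodule.smul_mem _ _ hx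
    let W₁ : ValuationSubring L := W.comap (algebraMap L A)
    have hW₁ : ∀ x : L, x ∈ W₁ ↔ (x : A) ∈ W := fun x => Iff.rfl
    have hlt : ∀ x : L, W₁.valuation x < 1 ↔ W.valuation (x : A) < 1 := by
      intro x
      rw [tame_lt_one_iff, tame_lt_one_iff, hW₁]
      simp
    have c0 : ∀ c : k₀, ∃ c' : k₀, D₁ (algebraMap k₀ L c) = algebraMap k₀ L c' := by
      intro c
      obtain ⟨c', hc'⟩ := h0 c
      exact ⟨c', Subtype.ext hc'⟩
    have c1 : ∃ c : k₀, D₁ uL = algebraMap k₀ L c * uL := by
      obtain ⟨c, hc⟩ := h1
      exact ⟨c, Subtype.ext hc⟩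
    obtain ⟨r1, r2⟩ := tame_fin uL huL' hfin' D₁ c0 c1 W₁ (fun c => hk c) ((hlt uL).2 hW)
    refine ⟨r1 ⟨z, hzL⟩ hz, fun hc => ?_⟩
    have := r2 (fun c => Subtype.ext (hc c)) ⟨z, hzL⟩ hz
    rwa [hlt] at this
  exact ⟨fun z hz => (key z hz).1, fun hc z hz => (key z hz).2 hc⟩

end Pool.Agent.DegThree
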