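import Pool.Agent.Lib_MP_9293ae_ag.Bridge
import Pool.Agent.Lib_MP_9293ae_ag.Pair
import Pool.Agent.Lib_MP_9293ae_ag.Place
import Pool.Agent.Lib_MP_9293ae_ag.Tame
import Pool.Agent.Lib_MP_9293ae_ag.EllForm
import Pool.Agent.Lib_MP_9293ae_ag.Dual

/-! Piece GenusOne: elliptic curves have genus one. -/

set_option autoImplicit false

open scoped Polynomial IntermediateField

namespace Pool.Agent.DegThree

section

variable {N : Type} [Field N] [Algebra ℂ N]

/-- a place at which a transcendental element vanishes -/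
theorem genusOne_place (u : N) (hu : Transcendental ℂ u) :
    ∃ W : ValuationSubring N, (∀ c : ℂ, algebraMap ℂ N c ∈ W) ∧ W.valuation u < 1 := by
  let A : Subring N := (Algebra.adjoin ℂ {u}).toSubring
  have huA : u ∈ A := Algebra.self_mem_adjoin_singleton ℂ u
  let I : Ideal A := Ideal.span {⟨u, huA⟩}
  have hI : I ≠ ⊤ := by
    intro h
    rw [Ideal.eq_top_iff_one, Ideal.mem_span_singleton'] at h
    obtain ⟨⟨a, ha⟩, h1⟩ := h
    have h2 : a * u = 1 := congrArg Subtype.val h1
    have ha' : a ∈ Algebra.adjoin ℂ {u} := ha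
    rw [Algebra.adjoin_singleton_eq_range_aeval] at ha'
    obtain ⟨p, hp⟩ := ha'
    apply hu
    refine ⟨p * Polynomial.X - 1, ?_, ?_⟩
    · intro h3
      have := congrArg (Polynomial.eval 0) h3
      simp at this
    · have hp' : Polynomial.aeval u p = a := hp
      simp [hp', h2]
  obtain ⟨W, hW1, hW2⟩ := Ideal.image_subset_nonunits_valuationSubring I hI
  refine ⟨W, fun c => hW1 (Subalgebra.algebraMap_mem _ c), ?_⟩
  have : u ∈ W.nonunits := hW2 ⟨⟨u, huA⟩, Ideal.mem_span_singleton_self _, rfl⟩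
  exact (ValuationSubring.mem_nonunits_iff W).1 this

theorem genusOne_const (W : ValuationSubring N) (hW : ∀ c : ℂ, algebraMap ℂ N c ∈ W) (c : ℂ)
    (hc : c ≠ 0) : W.valuation (algebraMap ℂ N c) = 1 := by
  apply le_antisymm
  · exact (W.valuation_le_one_iff _).2 (hW c)
  · have h1 : W.valuation (algebraMap ℂ N c⁻¹) ≤ 1 := (W.valuation_le_one_iff _).2 (hW _)
    rw [map_inv₀, map_inv₀] at h1
    have h2 : 0 < W.valuation (algebraMap ℂ N c) :=
      zero_lt_iff.2 ((Valuation.ne_zero_iff _).2 (by simpa using hc))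
    exact (inv_le_one₀ h2).1 h1

theorem genusOne_le (W : ValuationSubring N) (hW : ∀ c : ℂ, algebraMap ℂ N c ∈ W) (x : N)
    (hx : W.valuation x ≤ 1) (P : ℂ[X]) : W.valuation (Polynomial.aeval x P) ≤ 1 :=
  (W.valuation_le_one_iff _).2 (ellForm_aeval_mem W hW P x ((W.valuation_le_one_iff _).1 hx))

theorem genusOne_le_of_sub (W : ValuationSubring N) (hW : ∀ c : ℂ, algebraMap ℂ N c ∈ W) (x : N)
    (a : ℂ) (hx : W.valuation (x - algebraMap ℂ N a) < 1) : W.valuation x ≤ 1 := by
  have h : x = (x - algebraMap ℂ N a) + algebraMap ℂ N a := by ring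
  rw [h]
  exact (Valuation.map_add _ _ _).trans (max_le hx.le ((W.valuation_le_one_iff _).2 (hW a)))

theorem genusOne_fin (W : ValuationSubring N) (hW : ∀ c : ℂ, algebraMap ℂ N c ∈ W) (x : N)
    (a : ℂ) (hx : W.valuation (x - algebraMap ℂ N a) < 1) (P : ℂ[X]) (hP : P.eval a ≠ 0) :
    W.valuation (Polynomial.aeval x P) = 1 := by
  obtain ⟨Q, hQ⟩ := Polynomial.X_sub_C_dvd_sub_C_eval (a := a) (p := P)
  have h1 : Polynomial.aeval x P =
      (x - algebraMap ℂ N a) * Polynomial.aeval x Q + algebraMap ℂ N (P.eval a) := by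
    have := congrArg (Polynomial.aeval x) hQ
    simp only [map_sub, map_mul, Polynomial.aeval_C, Polynomial.aeval_X] at this
    linear_combination this
  have h2 : W.valuation ((x - algebraMap ℂ N a) * Polynomial.aeval x Q) < 1 := by
    rw [map_mul, mul_comm]
    exact ellForm_mul_lt (genusOne_le W hW x (genusOne_le_of_sub W hW x a hx) Q) hx
  rw [h1, Valuation.map_add_eq_of_lt_right, genusOne_const W hW _ hP]
  rwa [genusOne_const W hW _ hP]

theorem genusOne_inf (W : ValuationSubring N) (hW : ∀ c : ℂ, algebraMap ℂ N c ∈ W) (x : N)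
    (hx : 1 < W.valuation x) (P : ℂ[X]) (hP : P ≠ 0) :
    W.valuation (Polynomial.aeval x P) = W.valuation x ^ P.natDegree := by
  have hx0 : x ≠ 0 := by
    rintro rfl
    simp at hx
  let _ : Invertible x := invertibleOfNonzero hx0
  have h1 := Polynomial.eval₂_reverse_mul_pow (algebraMap ℂ N) x P
  rw [invOf_eq_inv, ← Polynomial.aeval_def, ← Polynomial.aeval_def] at h1
  rw [← h1, map_mul, map_pow]
  rw [genusOne_fin W hW x⁻¹ 0, one_mul]
  · rw [map_zero, sub_zero, map_inv₀]
    exact inv_lt_one_of_one_lt₀ hx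
  · rw [← Polynomial.coeff_zero_eq_eval_zero, Polynomial.coeff_zero_reverse]
    exact Polynomial.leadingCoeff_ne_zero.2 hP

/-- a rational function of `x` without poles is a polynomial -/
theorem genusOne_poly (x : N) (tx : Transcendental ℂ x) (s z : N) (hz : z ≠ 0)
    (hs : s ∈ IntermediateField.adjoin ℂ {x})
    (H : ∀ (a : ℂ) (W : ValuationSubring N), (∀ c : ℂ, algebraMap ℂ N c ∈ W) →
      W.valuation (x - algebraMap ℂ N a) < 1 →
      W.valuation z ≤ 1 ∧ W.valuation ((x - algebraMap ℂ N a) * (s / z)) < 1) :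
    ∃ P : ℂ[X], s = Polynomial.aeval x P := by
  classical
  obtain ⟨P0, Q0, hPQ⟩ := (IntermediateField.mem_adjoin_simple_iff _ _).1 hs
  by_cases hQ0 : Q0 = 0
  · refine ⟨0, ?_⟩
    rw [hPQ, hQ0]
    simp
  have hinj : ∀ R : ℂ[X], R ≠ 0 → Polynomial.aeval x R ≠ 0 := fun R hR h =>
    tx ⟨R, hR, h⟩
  obtain ⟨P, Q, hQ, hcop, hsPQ⟩ : ∃ P Q : ℂ[X], Q ≠ 0 ∧ IsCoprime P Q ∧
      s = Polynomial.aeval x P / Polynomial.aeval x Q := by
    obtain ⟨g, P1, Q1, hg, h1, h2⟩ : ∃ g P1 Q1 : ℂ[X], IsCoprime P1 Q1 ∧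
        P0 = g * P1 ∧ Q0 = g * Q1 := by
      obtain ⟨P1, Q1, hP1, hQ1, hu⟩ := extract_gcd P0 Q0
      exact ⟨gcd P0 Q0, P1, Q1, (gcd_isUnit_iff _ _).1 hu, hP1, hQ1⟩
    have hg0 : g ≠ 0 := by
      rintro rfl
      rw [zero_mul] at h2
      exact hQ0 h2
    have hQ1 : Q1 ≠ 0 := by
      rintro rfl
      rw [mul_zero] at h2
      exact hQ0 h2
    refine ⟨P1, Q1, hQ1, hg, ?_⟩
    rw [hPQ, h1, h2, map_mul, map_mul, mul_div_mul_left _ _ (hinj g hg0)]
  by_cases hdeg : Q.degree = 0
  · obtain ⟨c, hc⟩ : ∃ c, Q = Polynomial.C c := ⟨_, Polynomial.eq_C_of_degree_eq_zero hdeg⟩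
    have hc0 : c ≠ 0 := by
      rintro rfl
      simp [hc] at hQ
    refine ⟨Polynomial.C c⁻¹ * P, ?_⟩
    rw [hsPQ, hc, map_mul, Polynomial.aeval_C, Polynomial.aeval_C, map_inv₀]
    ring
  · exfalso
    obtain ⟨a, ha⟩ := Complex.exists_root (f := Q)
      (by
        rcases lt_or_ge 0 Q.degree with h | h
        · exact h
        · exact absurd (le_antisymm h (Polynomial.zero_le_degree_iff.2 hQ)) hdeg)
    obtain ⟨Q1, hQ1⟩ := Polynomial.dvd_iff_isRoot.2 ha
    have hPa : P.eval a ≠ 0 := by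
      intro h
      obtain ⟨r, t, hrt⟩ := hcop
      have := congrArg (Polynomial.eval a) hrt
      have ha' : Q.eval a = 0 := ha
      simp [h, ha'] at this
    have hu : Transcendental ℂ (x - algebraMap ℂ N a) := by
      intro h
      apply tx
      have := h.add (isAlgebraic_algebraMap (R := ℂ) (A := N) a)
      simpa using this
    obtain ⟨W, hW, hxa⟩ := genusOne_place _ hu
    obtain ⟨hz1, hlt⟩ := H a W hW hxa
    have hxa0 : x - algebraMap ℂ N a ≠ 0 := by
      intro h
      apply hu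
      rw [h]
      exact isAlgebraic_zero
    have hQ10 : Q1 ≠ 0 := by
      rintro rfl
      rw [mul_zero] at hQ1
      exact hQ hQ1
    have e1 : (x - algebraMap ℂ N a) * (s / z) =
        Polynomial.aeval x P / (Polynomial.aeval x Q1 * z) := by
      rw [hsPQ, hQ1, map_mul, map_sub, Polynomial.aeval_X, Polynomial.aeval_C]
      have := hinj Q1 hQ10
      field_simp
    rw [e1, map_div₀, map_mul, genusOne_fin W hW x a hxa P hPa] at hlt
    have h3 : W.valuation (Polynomial.aeval x Q1) * W.valuation z ≤ 1 :=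
      mul_le_one' (genusOne_le W hW x (genusOne_le_of_sub W hW x a hxa) Q1) hz1
    have h4 : 0 < W.valuation (Polynomial.aeval x Q1) * W.valuation z := by
      rw [← map_mul]
      exact zero_lt_iff.2 ((Valuation.ne_zero_iff _).2 (mul_ne_zero (hinj Q1 hQ10) hz))
    rw [div_lt_one₀ h4] at hlt
    exact absurd h3 (not_le.2 hlt)

/-- the derivation condition at a place -/
theorem genusOne_tame (h1 : Algebra.trdeg ℂ N = 1) (u : N) (hu : Transcendental ℂ u)
    (D : Derivation ℂ N N) (c : ℂ) (hD : D u = algebraMap ℂ N c * u) (W : ValuationSubring N)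
    (hW : ∀ c : ℂ, algebraMap ℂ N c ∈ W) (hWu : W.valuation u < 1) (ω : Ω[N⁄ℂ])
    (hω : ω ∈ holomorphicForms N) : W.valuation (evalForm (AlgHom.id ℂ N) D ω) < 1 := by
  have hi : AlgebraicIndependent ℂ (fun _ : Unit => u) := by
    rw [algebraicIndependent_unique_type_iff]
    exact hu
  have hb : IsTranscendenceBasis ℂ (fun _ : Unit => u) := by
    refine hi.isTranscendenceBasis_of_trdeg_le_of_finite ?_
    rw [h1]; simp
  have halg : Algebra.IsAlgebraic (IntermediateField.adjoin ℂ {u}) N := by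
    have := hb.isAlgebraic_field
    have hr : Set.range (fun _ : Unit => u) = {u} := by simp
    rwa [hr] at this
  have ht := tame_alg u hu halg (D.restrictScalars ℤ) (fun c => ⟨0, by
    change D (algebraMap ℂ N c) = _
    rw [D.map_algebraMap, map_zero]⟩) ⟨c, hD⟩ W hW hWu
  have h2 := ht.2 fun c => by
    change D (algebraMap ℂ N c) = _
    rw [D.map_algebraMap]
  have := evalForm_mem ω hω (AlgHom.id ℂ N) W hW D (W.valuation.ltAddSubgroup 1) (by
    intro w hw j hj
    rw [Valuation.mem_ltAddSubgroup_iff] at hj ⊢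
    rw [map_mul]
    exact ellForm_mul_lt ((W.valuation_le_one_iff _).2 hw) hj) (by
    intro w hw
    rw [Valuation.mem_ltAddSubgroup_iff]
    exact h2 w hw)
  rwa [Valuation.mem_ltAddSubgroup_iff] at this

theorem genusOne_add {W : ValuationSubring N} (hW : ∀ c : ℂ, algebraMap ℂ N c ∈ W) {p q r : N}
    (h1 : W.valuation (r * (p + q)) < 1) (h2 : W.valuation (r * (p - q)) < 1) :
    W.valuation (r * p) < 1 ∧ W.valuation (r * q) < 1 := by
  have hc := hW (1 / 2)
  have e0 : algebraMap ℂ N (1 / 2) * 2 = 1 := by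
    have : (2 : N) = algebraMap ℂ N 2 := (map_ofNat _ 2).symm
    rw [this, ← map_mul]
    norm_num
  have e1 : r * p = algebraMap ℂ N (1 / 2) * (r * (p + q) + r * (p - q)) := by
    linear_combination (-(r * p)) * e0
  have e2 : r * q = algebraMap ℂ N (1 / 2) * (r * (p + q) - r * (p - q)) := by
    linear_combination (-(r * q)) * e0
  constructor
  · rw [e1, map_mul]
    exact ellForm_mul_lt ((W.valuation_le_one_iff _).2 hc) (Valuation.map_add_lt _ h1 h2)
  · rw [e2, map_mul]
    exact ellForm_mul_lt ((W.valuation_le_one_iff _).2 hc) (Valuation.map_sub_lt _ h1 h2)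

/-- the cubic polynomial -/
noncomputable def genusOneF (A B : ℂ) : ℂ[X] :=
  Polynomial.X ^ 3 + Polynomial.C A * Polynomial.X + Polynomial.C B

theorem genusOneF_natDegree (A B : ℂ) : (genusOneF A B).natDegree = 3 := by
  unfold genusOneF; compute_degree!

theorem genusOneF_monic (A B : ℂ) : (genusOneF A B).Monic := by
  unfold genusOneF; monicity!

theorem genusOneF_separable (A B : ℂ) (hΔ : 4 * A ^ 3 + 27 * B ^ 2 ≠ 0) :
    (genusOneF A B).Separable := by
  rw [Polynomial.separable_def']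
  refine ⟨Polynomial.C (4 * A ^ 3 + 27 * B ^ 2)⁻¹ * (- Polynomial.C (18 * A) * Polynomial.X +
    Polynomial.C (27 * B)), Polynomial.C (4 * A ^ 3 + 27 * B ^ 2)⁻¹ *
    (Polynomial.C (6 * A) * Polynomial.X ^ 2 - Polynomial.C (9 * B) * Polynomial.X +
    Polynomial.C (4 * A ^ 2)), ?_⟩
  have hd : Polynomial.derivative (genusOneF A B) =
      Polynomial.C 3 * Polynomial.X ^ 2 + Polynomial.C A := by
    unfold genusOneF
    simp
    rw [← Polynomial.C_1, ← Polynomial.C_add]
    norm_num
  have h1 : Polynomial.C (4 * A ^ 3 + 27 * B ^ 2)⁻¹ *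
      Polynomial.C (4 * A ^ 3 + 27 * B ^ 2) = 1 := by
    rw [← Polynomial.C_mul, inv_mul_cancel₀ hΔ, Polynomial.C_1]
  rw [hd, ← h1]
  unfold genusOneF
  simp only [Polynomial.C_add, Polynomial.C_mul, Polynomial.C_pow, map_ofNat]
  ring

theorem genusOne_aeval (A B : ℂ) (x y : N)
    (h : y ^ 2 = x ^ 3 + algebraMap ℂ N A * x + algebraMap ℂ N B) :
    y ^ 2 = Polynomial.aeval x (genusOneF A B) := by
  rw [h]; simp [genusOneF]

theorem genusOne_trdeg (x y : N) (P : ℂ[X]) (h : y ^ 2 = Polynomial.aeval x P)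
    (tx : Transcendental ℂ x) (hxy : IntermediateField.adjoin ℂ {x, y} = ⊤) :
    Algebra.trdeg ℂ N = 1 := by
  have hb : IsTranscendenceBasis ℂ (fun _ : Unit => x) := by
    have hi : AlgebraicIndependent ℂ (fun _ : Unit => x) := by
      rw [algebraicIndependent_unique_type_iff]
      exact tx
    rw [hi.isTranscendenceBasis_iff_isAlgebraic]
    have hr : Set.range (fun _ : Unit => x) = {x} := by simp
    rw [hr]
    have hc : Polynomial.aeval x P ∈ Algebra.adjoin ℂ {x} :=
      Polynomial.aeval_mem_adjoin_singleton ℂ x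
    have hy : IsAlgebraic (Algebra.adjoin ℂ {x}) y := by
      refine ⟨Polynomial.X ^ 2 - Polynomial.C ⟨_, hc⟩, ?_, ?_⟩
      · exact Polynomial.X_pow_sub_C_ne_zero (by norm_num) _
      · simp only [map_sub, map_pow, Polynomial.aeval_X, Polynomial.aeval_C]
        rw [h, sub_eq_zero]
        rfl
    refine ⟨fun z => ?_⟩
    have hz : z ∈ IntermediateField.adjoin ℂ {x, y} := by rw [hxy]; trivial
    induction hz using IntermediateField.adjoin_induction with
    | mem w hw =>
      rcases hw with rfl | hw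
      · exact isAlgebraic_algebraMap (⟨w, Algebra.self_mem_adjoin_singleton ℂ w⟩ :
          Algebra.adjoin ℂ {w})
      · rw [Set.mem_singleton_iff.mp hw]
        exact hy
    | algebraMap a =>
      rw [IsScalarTower.algebraMap_apply ℂ (Algebra.adjoin ℂ {x}) N]
      exact isAlgebraic_algebraMap _
    | add a b _ _ ha hb => exact ha.add hb
    | inv a _ ha => exact ha.inv
    | mul a b _ _ ha hb => exact ha.mul hb
  have := hb.cardinalMk_eq_trdeg
  simpa using this.symm

theorem genusOne_notMem (x y : N) (P : ℂ[X]) (hP : P.natDegree = 3)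
    (h : y ^ 2 = Polynomial.aeval x P) (tx : Transcendental ℂ x) :
    y ∉ IntermediateField.adjoin ℂ {x} := by
  intro hy
  obtain ⟨R, S, hRS⟩ := (IntermediateField.mem_adjoin_simple_iff _ _).1 hy
  have hx0 : x ≠ 0 := by
    rintro rfl
    exact tx isAlgebraic_zero
  have txi : Transcendental ℂ x⁻¹ := by
    intro h
    apply tx
    have := h.inv
    rwa [inv_inv] at this
  obtain ⟨W, hW, hx⟩ := genusOne_place _ txi
  rw [map_inv₀] at hx
  have hx1 : 1 < W.valuation x := by
    rw [← inv_one] at hx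
    rwa [inv_lt_inv₀ (zero_lt_iff.2 ((Valuation.ne_zero_iff _).2 hx0)) zero_lt_one] at hx
  have hP0 : P ≠ 0 := by
    rintro rfl
    simp at hP
  have h1 := congrArg W.valuation h
  rw [genusOne_inf W hW x hx1 P hP0, hP, map_pow] at h1
  have hy0 : y ≠ 0 := by
    rintro rfl
    rw [map_zero, zero_pow two_ne_zero] at h1
    exact (pow_pos (lt_trans zero_lt_one hx1) 3).ne h1
  have hR0 : R ≠ 0 := by
    rintro rfl
    rw [map_zero, zero_div] at hRS
    exact hy0 hRS
  have hS0 : S ≠ 0 := by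
    rintro rfl
    rw [map_zero, div_zero] at hRS
    exact hy0 hRS
  have hSv := genusOne_inf W hW x hx1 S hS0
  have hRv := genusOne_inf W hW x hx1 R hR0
  have h2 : y * Polynomial.aeval x S = Polynomial.aeval x R := by
    rw [hRS, div_mul_cancel₀]
    exact fun h => tx ⟨S, hS0, h⟩
  have h3 := congrArg (fun z => W.valuation z ^ 2) h2
  simp only [map_mul, hSv, hRv] at h3
  rw [mul_pow, h1, ← pow_mul, ← pow_mul, ← pow_add] at h3
  have h4 := pow_right_injective₀ (lt_trans zero_lt_one hx1) hx1.ne' h3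
  omega

theorem genusOne_adjoin (x y : N) (hxy : IntermediateField.adjoin ℂ {x, y} = ⊤) :
    IntermediateField.adjoin (IntermediateField.adjoin ℂ {x}) {y} = ⊤ := by
  have h := IntermediateField.adjoin_adjoin_left ℂ {x} {y}
  have h2 : ({x} : Set N) ∪ {y} = {x, y} := by
    rw [Set.singleton_union]
  rw [h2, hxy] at h
  rw [← IntermediateField.restrictScalars_eq_top_iff (K := ℂ)]
  exact h

theorem genusOne_minpoly (x y : N) (P : ℂ[X]) (hP : P.natDegree = 3)
    (h : y ^ 2 = Polynomial.aeval x P) (tx : Transcendental ℂ x)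
    (c : IntermediateField.adjoin ℂ {x}) (hc : (c : N) = Polynomial.aeval x P) :
    minpoly (IntermediateField.adjoin ℂ {x}) y = Polynomial.X ^ 2 - Polynomial.C c := by
  have hm : (Polynomial.X ^ 2 - Polynomial.C c :
      (IntermediateField.adjoin ℂ {x})[X]).Monic :=
    Polynomial.monic_X_pow_sub_C _ two_ne_zero
  have hr : Polynomial.aeval y (Polynomial.X ^ 2 - Polynomial.C c :
      (IntermediateField.adjoin ℂ {x})[X]) = 0 := by
    simp only [map_sub, map_pow, Polynomial.aeval_X, Polynomial.aeval_C]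
    rw [h, sub_eq_zero, ← hc]
    rfl
  have hi : IsIntegral (IntermediateField.adjoin ℂ {x}) y := ⟨_, hm, hr⟩
  refine (Polynomial.eq_of_monic_of_dvd_of_natDegree_le (minpoly.monic hi) hm
    (minpoly.dvd _ _ hr) ?_).symm
  rw [Polynomial.natDegree_X_pow_sub_C, minpoly.two_le_natDegree_iff hi]
  rintro ⟨a, ha⟩
  apply genusOne_notMem x y P hP h tx
  rw [← ha]
  exact a.2

/-- the involution -/
theorem genusOne_auto (x y : N) (P : ℂ[X]) (hP : P.natDegree = 3)
    (h : y ^ 2 = Polynomial.aeval x P) (tx : Transcendental ℂ x)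
    (hxy : IntermediateField.adjoin ℂ {x, y} = ⊤) :
    ∃ σ : N →ₐ[IntermediateField.adjoin ℂ {x}] N, σ y = -y := by
  have hc : Polynomial.aeval x P ∈ IntermediateField.adjoin ℂ {x} := by
    have h1 := Polynomial.aeval_mem_adjoin_singleton ℂ x (p := P)
    exact IntermediateField.algebra_adjoin_le_adjoin ℂ {x} h1
  have m1 := genusOne_minpoly x y P hP h tx ⟨_, hc⟩ rfl
  have m2 := genusOne_minpoly x (-y) P hP (by rw [neg_sq, h]) tx ⟨_, hc⟩ rfl
  have htop := genusOne_adjoin x y hxy
  have hi : IsIntegral (IntermediateField.adjoin ℂ {x}) y := by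
    by_contra hcon
    have := minpoly.eq_zero hcon
    rw [m1] at this
    exact Polynomial.X_pow_sub_C_ne_zero two_pos _ this
  have hfin : Module.finrank (IntermediateField.adjoin ℂ {x}) N = 2 := by
    have h1 := IntermediateField.adjoin.finrank hi
    rw [htop, IntermediateField.finrank_top', m1, Polynomial.natDegree_X_pow_sub_C] at h1
    exact h1
  have hq : Algebra.IsQuadraticExtension (IntermediateField.adjoin ℂ {x}) N := ⟨hfin⟩
  have hconj : IsConjRoot (IntermediateField.adjoin ℂ {x}) (-y) y := by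
    rw [isConjRoot_def, m1, m2]
  obtain ⟨σ, hσ⟩ := hconj.exists_algEquiv
  exact ⟨σ.toAlgHom, hσ⟩

theorem genusOne_decomp (x y : N) (P : ℂ[X]) (hP : P.natDegree = 3)
    (h : y ^ 2 = Polynomial.aeval x P) (tx : Transcendental ℂ x)
    (hxy : IntermediateField.adjoin ℂ {x, y} = ⊤) (g : N) :
    ∃ p q : N, p ∈ IntermediateField.adjoin ℂ {x} ∧ q ∈ IntermediateField.adjoin ℂ {x} ∧
      g = p + q * y := by
  have hc : Polynomial.aeval x P ∈ IntermediateField.adjoin ℂ {x} := by
    have h1 := Polynomial.aeval_mem_adjoin_singleton ℂ x (p := P)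
    exact IntermediateField.algebra_adjoin_le_adjoin ℂ {x} h1
  have m1 := genusOne_minpoly x y P hP h tx ⟨_, hc⟩ rfl
  have htop := genusOne_adjoin x y hxy
  have hi : IsIntegral (IntermediateField.adjoin ℂ {x}) y := by
    by_contra hcon
    have := minpoly.eq_zero hcon
    rw [m1] at this
    exact Polynomial.X_pow_sub_C_ne_zero two_pos _ this
  have hg : g ∈ IntermediateField.adjoin (IntermediateField.adjoin ℂ {x}) {y} := by
    rw [htop]; trivial
  have hg2 : g ∈ Algebra.adjoin (IntermediateField.adjoin ℂ {x}) {y} := by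
    rw [← IntermediateField.adjoin_simple_toSubalgebra_of_isAlgebraic hi.isAlgebraic]
    exact hg
  rw [Algebra.adjoin_singleton_eq_range_aeval] at hg2
  obtain ⟨R, hR⟩ := hg2
  have hR' : Polynomial.aeval y R = g := hR
  have hmon := minpoly.monic hi
  rw [m1] at hmon
  have h1 := Polynomial.modByMonic_add_div R (Polynomial.X ^ 2 - Polynomial.C
    (⟨_, hc⟩ : IntermediateField.adjoin ℂ {x}))
  have h2 : Polynomial.degree (R %ₘ (Polynomial.X ^ 2 - Polynomial.C
    (⟨_, hc⟩ : IntermediateField.adjoin ℂ {x}))) < 2 := by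
    have := Polynomial.degree_modByMonic_lt R hmon
    rwa [Polynomial.degree_X_pow_sub_C two_pos] at this
  set T := R %ₘ (Polynomial.X ^ 2 - Polynomial.C
    (⟨_, hc⟩ : IntermediateField.adjoin ℂ {x})) with hT
  have h3 : T = Polynomial.C (T.coeff 1) * Polynomial.X + Polynomial.C (T.coeff 0) := by
    apply Polynomial.eq_X_add_C_of_degree_le_one
    refine (Polynomial.degree_le_iff_coeff_zero _ _).2 fun m hm => ?_
    refine (Polynomial.degree_lt_iff_coeff_zero _ 2).1 h2 m ?_
    have hm' : 1 < m := by exact_mod_cast hm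
    omega
  have h4 : Polynomial.aeval y (Polynomial.X ^ 2 - Polynomial.C
    (⟨_, hc⟩ : IntermediateField.adjoin ℂ {x})) = 0 := by
    rw [← m1]
    exact minpoly.aeval _ _
  have h5 : g = Polynomial.aeval y T := by
    rw [← hR', ← h1, map_add, map_mul, h4, zero_mul, add_zero]
  refine ⟨T.coeff 0, T.coeff 1, (T.coeff 0).2, (T.coeff 1).2, ?_⟩
  rw [h5, h3]
  simp only [map_add, map_mul, Polynomial.aeval_C, Polynomial.aeval_X]
  rw [add_comm]
  simp

omit [Algebra ℂ N] in
theorem genusOne_comap (W : ValuationSubring N) (σ : N →+* N) (z : N) :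
    (W.comap σ).valuation z < 1 ↔ W.valuation (σ z) < 1 := by
  rw [tame_lt_one_iff, tame_lt_one_iff, ValuationSubring.mem_comap, map_inv₀, map_eq_zero]

theorem genusOne_main (A B : ℂ) (hΔ : 4 * A ^ 3 + 27 * B ^ 2 ≠ 0) (x y : N)
    (h : y ^ 2 = x ^ 3 + algebraMap ℂ N A * x + algebraMap ℂ N B) (tx : Transcendental ℂ x)
    (hxy : IntermediateField.adjoin ℂ {x, y} = ⊤) :
    IsFunctionField 1 N ∧ genus N = 1 := by
  classical
  have hf := genusOne_aeval A B x y h
  have hd := genusOneF_natDegree A B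
  have htr := genusOne_trdeg x y _ hf tx hxy
  refine ⟨⟨⟨{x, y}, by simpa using hxy⟩, by exact_mod_cast htr⟩, ?_⟩
  have hf0 : genusOneF A B ≠ 0 := (genusOneF_monic A B).ne_zero
  have hy0 : y ≠ 0 := by
    rintro rfl
    apply tx
    refine ⟨genusOneF A B, hf0, ?_⟩
    rw [← hf]
    simp
  have hx0 : x ≠ 0 := by
    rintro rfl
    exact tx isAlgebraic_zero
  have txa : ∀ a : ℂ, Transcendental ℂ (x - algebraMap ℂ N a) := by
    intro a h
    apply tx
    have := h.add (isAlgebraic_algebraMap (R := ℂ) (A := N) a)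
    simpa using this
  have txi : Transcendental ℂ x⁻¹ := by
    intro h
    apply tx
    have := h.inv
    rwa [inv_inv] at this
  have hxi : ∀ W : ValuationSubring N, W.valuation x⁻¹ < 1 → 1 < W.valuation x := by
    intro W hx
    rw [map_inv₀] at hx
    rw [← inv_one] at hx
    rwa [inv_lt_inv₀ (zero_lt_iff.2 ((Valuation.ne_zero_iff _).2 hx0)) zero_lt_one] at hx
  -- the derivation
  have hi : AlgebraicIndependent ℂ (fun _ : Unit => x) := by
    rw [algebraicIndependent_unique_type_iff]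
    exact tx
  have hb : IsTranscendenceBasis ℂ (fun _ : Unit => x) := by
    refine hi.isTranscendenceBasis_of_trdeg_le_of_finite ?_
    rw [htr]; simp
  obtain ⟨D0, hD0⟩ := Campana.exists_derivation (fun _ : Unit => x) hi (fun _ => 1)
  have hDx : D0 x = 1 := hD0 ()
  have hform : ∀ ω : Ω[N⁄ℂ], ω = evalForm (AlgHom.id ℂ N) D0 ω • KaehlerDifferential.D ℂ N x := by
    intro ω
    have ex : ∀ c : N, KaehlerDifferential.D ℂ N c = D0 c • KaehlerDifferential.D ℂ N x := by
      intro c
      let e : Derivation ℂ N Ω[N⁄ℂ] := KaehlerDifferential.D ℂ N -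
        ((LinearMap.toSpanSingleton N Ω[N⁄ℂ] (KaehlerDifferential.D ℂ N x)).compDer D0)
      have he : ∀ z, e z = KaehlerDifferential.D ℂ N z - D0 z • KaehlerDifferential.D ℂ N x :=
        fun z => rfl
      have := der_mod_eq_zero_of_basis e (fun _ : Unit => x) hb (by
        intro i
        rw [he, hDx, one_smul, sub_self]) c
      rw [he] at this
      exact sub_eq_zero.1 this
    obtain ⟨n, p, q, rfl⟩ := exists_sum ω
    rw [evalForm_sum, Finset.sum_smul]
    refine Finset.sum_congr rfl fun i _ => ?_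
    rw [ex (q i), smul_smul]
    rfl
  have hwx : evalForm (AlgHom.id ℂ N) D0 (y⁻¹ • KaehlerDifferential.D ℂ N x) = y⁻¹ := by
    rw [evalForm_smul, evalForm_D]
    change y⁻¹ * D0 x = _
    rw [hDx, mul_one]
  have hv : y⁻¹ • KaehlerDifferential.D ℂ N x ∈ holomorphicForms N := by
    intro W hW _
    exact regularAt_invariant W hW _ (genusOneF_monic A B) hd (genusOneF_separable A B hΔ) x y hf
  have hv0 : (⟨_, hv⟩ : holomorphicForms N) ≠ 0 := by
    intro h0
    have h1 : y⁻¹ • KaehlerDifferential.D ℂ N x = 0 := congrArg Subtype.val h0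
    rw [h1, map_zero] at hwx
    exact inv_ne_zero hy0 hwx.symm
  refine finrank_eq_one ⟨_, hv⟩ hv0 ?_
  rintro ⟨ω, hω⟩
  obtain ⟨σ, hσ⟩ := genusOne_auto x y _ hd hf tx hxy
  obtain ⟨p, q, hp, hq, hg⟩ := genusOne_decomp x y _ hd hf tx hxy
    (evalForm (AlgHom.id ℂ N) D0 ω)
  set g := evalForm (AlgHom.id ℂ N) D0 ω with hgdef
  have hσK : ∀ z : N, z ∈ IntermediateField.adjoin ℂ {x} → σ z = z := fun z hz =>
    σ.commutes ⟨z, hz⟩
  have hxK : x ∈ IntermediateField.adjoin ℂ {x} := IntermediateField.mem_adjoin_simple_self ℂ x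
  have hcK : ∀ c : ℂ, algebraMap ℂ N c ∈ IntermediateField.adjoin ℂ {x} := fun c =>
    IntermediateField.algebraMap_mem _ c
  have hσW : ∀ W : ValuationSubring N, (∀ c : ℂ, algebraMap ℂ N c ∈ W) →
      ∀ c : ℂ, algebraMap ℂ N c ∈ W.comap (σ : N →+* N) := by
    intro W hW c
    rw [ValuationSubring.mem_comap]
    change σ (algebraMap ℂ N c) ∈ W
    rw [hσK _ (hcK c)]
    exact hW c
  -- finite places
  have fin1 : ∀ (a : ℂ) (W : ValuationSubring N), (∀ c : ℂ, algebraMap ℂ N c ∈ W) →
      W.valuation (x - algebraMap ℂ N a) < 1 → W.valuation ((x - algebraMap ℂ N a) * g) < 1 := by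
    intro a W hW hxa
    have := genusOne_tame htr _ (txa a) ((x - algebraMap ℂ N a) • D0) 1 (by
      rw [map_one, one_mul, Derivation.smul_apply, map_sub, hDx, D0.map_algebraMap, sub_zero,
        smul_eq_mul, mul_one]) W hW hxa ω hω
    rwa [evalForm_smul_der] at this
  have inf1 : ∀ (W : ValuationSubring N), (∀ c : ℂ, algebraMap ℂ N c ∈ W) →
      W.valuation x⁻¹ < 1 → W.valuation (x * g) < 1 := by
    intro W hW hxa
    have := genusOne_tame htr _ txi ((-x) • D0) 1 (by
      rw [map_one, one_mul, Derivation.smul_apply, Derivation.leibniz_inv, hDx]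
      simp only [smul_eq_mul]
      field_simp) W hW hxa ω hω
    rw [evalForm_smul_der, neg_mul, Valuation.map_neg] at this
    exact this
  have fin2 : ∀ (a : ℂ) (W : ValuationSubring N), (∀ c : ℂ, algebraMap ℂ N c ∈ W) →
      W.valuation (x - algebraMap ℂ N a) < 1 →
      W.valuation ((x - algebraMap ℂ N a) * p) < 1 ∧
      W.valuation ((x - algebraMap ℂ N a) * (q * y)) < 1 := by
    intro a W hW hxa
    refine genusOne_add hW ?_ ?_
    · rw [← hg]
      exact fin1 a W hW hxa
    · have h1 := fin1 a (W.comap (σ : N →+* N)) (hσW W hW) (by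
        rw [genusOne_comap]
        change W.valuation (σ _) < 1
        rwa [hσK _ (sub_mem hxK (hcK a))])
      rw [genusOne_comap, hg] at h1
      change W.valuation (σ _) < 1 at h1
      rw [map_mul σ, map_add σ, map_mul σ, hσK _ (sub_mem hxK (hcK a)), hσK _ hp, hσK _ hq,
        hσ] at h1
      have e : p - q * y = p + q * -y := by ring
      rwa [e]
  have inf2 : ∀ (W : ValuationSubring N), (∀ c : ℂ, algebraMap ℂ N c ∈ W) →
      W.valuation x⁻¹ < 1 → W.valuation (x * p) < 1 ∧ W.valuation (x * (q * y)) < 1 := by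
    intro W hW hxa
    refine genusOne_add hW ?_ ?_
    · rw [← hg]
      exact inf1 W hW hxa
    · have h1 := inf1 (W.comap (σ : N →+* N)) (hσW W hW) (by
        rw [genusOne_comap]
        change W.valuation (σ _) < 1
        rwa [hσK _ (inv_mem hxK)])
      rw [genusOne_comap, hg] at h1
      change W.valuation (σ _) < 1 at h1
      rw [map_mul σ, map_add σ, map_mul σ, hσK _ hxK, hσK _ hp, hσK _ hq, hσ] at h1
      have e : p - q * y = p + q * -y := by ring
      rwa [e]
  -- p is a polynomial, hence zero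
  obtain ⟨W0, hW0, hxi0⟩ := genusOne_place _ txi
  have hx1 := hxi W0 hxi0
  have hp0 : p = 0 := by
    obtain ⟨P, hP⟩ := genusOne_poly x tx p 1 one_ne_zero hp (by
      intro a W hW hxa
      rw [map_one, div_one]
      exact ⟨le_refl _, (fin2 a W hW hxa).1⟩)
    by_contra hcon
    have hP0 : P ≠ 0 := by
      rintro rfl
      rw [map_zero] at hP
      exact hcon hP
    have h1 := (inf2 W0 hW0 hxi0).1
    rw [hP, map_mul, genusOne_inf W0 hW0 x hx1 P hP0, ← pow_succ'] at h1
    exact absurd (one_le_pow₀ hx1.le) (not_le.2 h1)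
  have hs : q * y ^ 2 ∈ IntermediateField.adjoin ℂ {x} := by
    refine mul_mem hq ?_
    rw [h]
    exact add_mem (add_mem (pow_mem hxK 3) (mul_mem (hcK A) hxK)) (hcK B)
  have hsy : q * y ^ 2 / y = q * y := by field_simp
  obtain ⟨S, hS⟩ := genusOne_poly x tx (q * y ^ 2) y hy0 hs (by
    intro a W hW hxa
    rw [hsy]
    refine ⟨?_, (fin2 a W hW hxa).2⟩
    have h1 : W.valuation (y ^ 2) ≤ 1 := by
      rw [hf]
      exact genusOne_le W hW x (genusOne_le_of_sub W hW x a hxa) _
    rw [map_pow] at h1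
    exact (pow_le_one_iff two_ne_zero).1 h1)
  obtain ⟨c, hc⟩ : ∃ c : ℂ, S = Polynomial.C c := by
    by_contra hcon
    have hdeg : S.natDegree ≠ 0 := fun h0 => hcon ⟨_, Polynomial.eq_C_of_natDegree_eq_zero h0⟩
    have hS0 : S ≠ 0 := by
      rintro rfl
      simp at hdeg
    have h1 := (inf2 W0 hW0 hxi0).2
    have h2 : W0.valuation (x * (q * y)) ^ 2 < 1 := pow_lt_one₀ zero_le h1 two_ne_zero
    have h3 : (x * (q * y)) ^ 2 * y ^ 2 = x ^ 2 * Polynomial.aeval x S ^ 2 := by
      rw [← hS]; ring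
    have h4 := congrArg W0.valuation h3
    have hy2 : W0.valuation y ^ 2 = W0.valuation x ^ 3 := by
      rw [← map_pow, hf, genusOne_inf W0 hW0 x hx1 _ hf0, hd]
    rw [map_mul W0.valuation (_ ^ 2) (y ^ 2), map_mul W0.valuation (x ^ 2), map_pow, map_pow,
      map_pow, map_pow, genusOne_inf W0 hW0 x hx1 S hS0, hy2, ← pow_mul, ← pow_add] at h4
    have h5 : W0.valuation x ^ (2 + S.natDegree * 2) < W0.valuation x ^ 3 := by
      rw [← h4]
      calc _ < 1 * W0.valuation x ^ 3 := by
            exact mul_lt_mul_of_pos_right h2 (pow_pos (lt_trans zero_lt_one hx1) 3)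
        _ = _ := one_mul _
    have h6 := (pow_lt_pow_iff_right₀ hx1).1 h5
    omega
  refine ⟨c, ?_⟩
  apply Subtype.ext
  change c • (y⁻¹ • KaehlerDifferential.D ℂ N x) = ω
  rw [hform ω, ← hgdef, hg, hp0, zero_add]
  have h7 : q * y = algebraMap ℂ N c * y⁻¹ := by
    rw [hc, Polynomial.aeval_C] at hS
    rw [← hS]
    field_simp
  rw [h7, mul_smul, algebraMap_smul]

end

theorem genus_elliptic (E : WeierstrassCurve ℂ) [E.IsElliptic] :
    IsFunctionField 1 E.toAffine.FunctionField ∧ genus E.toAffine.FunctionField = 1 := by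
  obtain ⟨A, B, x, y, -, -, hΔ, h, tx, hxy⟩ := exists_short E
  exact genusOne_main A B hΔ x y h tx hxy

end Pool.Agent.DegThree
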