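import Pool.Agent.Lib_MP_9293ae_ag.Dual

/-! Piece Inv: the trace of a form evaluated at a rational derivation is rational. -/

set_option autoImplicit false

open scoped Polynomial IntermediateField

namespace Pool.Agent.DegThree

/-- A derivation of `Ab` which vanishes on `L` is zero if `Ab` is algebraic over `L`. -/
theorem inv_der_eq_zero {L Ab : Type} [Field L] [Field Ab] [Algebra ℂ L] [Algebra ℂ Ab]
    [Algebra L Ab] [IsScalarTower ℂ L Ab] [Algebra.IsAlgebraic L Ab] (d : Derivation ℂ Ab Ab)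
    (h : ∀ z : L, d (algebraMap L Ab z) = 0) (z : Ab) : d z = 0 := by
  let dF : Derivation L Ab Ab :=
    { toFun := d
      map_add' := d.map_add
      map_smul' := fun f x => by
        rw [RingHom.id_apply, Algebra.smul_def, d.leibniz, h, smul_zero, add_zero, smul_eq_mul,
          Algebra.smul_def]
      map_one_eq_zero' := d.map_one_eq_zero
      leibniz' := d.leibniz }
  have : CharZero L := charZero_of_injective_algebraMap (algebraMap ℂ L).injective
  have hz' : IsIntegral L z := (Algebra.IsAlgebraic.isAlgebraic z).isIntegral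
  have h1 := dF.map_aeval (minpoly L z) z
  rw [minpoly.aeval, map_zero] at h1
  have h4 : Polynomial.aeval z (Polynomial.derivative (minpoly L z)) ≠ 0 :=
    (minpoly.irreducible hz').separable.aeval_derivative_ne_zero (minpoly.aeval L z)
  exact (smul_eq_zero.mp h1.symm).resolve_left h4

/-- Automorphisms over `L` commute with rational derivations. -/
theorem inv_comm {L Ab : Type} [Field L] [Field Ab] [Algebra ℂ L] [Algebra ℂ Ab]
    [Algebra L Ab] [IsScalarTower ℂ L Ab] [Algebra.IsAlgebraic L Ab] (D : Derivation ℂ Ab Ab)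
    (hD : LRational L D) (g : Ab ≃ₐ[L] Ab) (z : Ab) : g (D z) = D (g z) := by
  let e : Derivation ℂ Ab Ab := Derivation.mk'
    (((g.symm.toLinearMap.restrictScalars ℂ).comp D.toLinearMap).comp
      (g.toLinearMap.restrictScalars ℂ)) (by
      intro a b
      change g.symm (D (g (a * b))) = a • g.symm (D (g b)) + b • g.symm (D (g a))
      rw [map_mul, D.leibniz, map_add]
      simp)
  have he : ∀ z, e z = g.symm (D (g z)) := fun z => rfl
  have h0 : (e - D) z = 0 := by
    refine inv_der_eq_zero (L := L) _ (fun w => ?_) z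
    obtain ⟨w', hw'⟩ := hD w
    rw [Derivation.sub_apply, he, AlgEquiv.commutes, hw', AlgEquiv.commutes, sub_self]
  rw [Derivation.sub_apply, he, sub_eq_zero] at h0
  rw [← h0, AlgEquiv.apply_symm_apply]

theorem inv_evalForm {F L Ab : Type} [Field F] [Field L] [Field Ab] [Algebra ℂ F] [Algebra ℂ L]
    [Algebra ℂ Ab] [Algebra L Ab] [IsScalarTower ℂ L Ab] [Algebra.IsAlgebraic L Ab]
    (D : Derivation ℂ Ab Ab) (hD : LRational L D) (g : Ab ≃ₐ[L] Ab) (τ τ' : F →ₐ[ℂ] Ab)
    (h : ∀ x, τ' x = g (τ x)) (ω : Ω[F⁄ℂ]) : g (evalForm τ D ω) = evalForm τ' D ω := by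
  obtain ⟨n, p, q, rfl⟩ := exists_sum ω
  rw [map_sum, map_sum, map_sum]
  refine Finset.sum_congr rfl fun i _ => ?_
  rw [evalForm_smul, evalForm_smul, evalForm_D, evalForm_D, map_mul, inv_comm D hD g, h, h]

variable {F L K Ab : Type} [Field F] [Field L] [Field K] [Field Ab] [Algebra ℂ F] [Algebra ℂ L]
  [Algebra ℂ K] [Algebra ℂ Ab] [Algebra F K] [IsScalarTower ℂ F K] [Algebra L K]
  [IsScalarTower ℂ L K] [Algebra L Ab] [IsScalarTower ℂ L Ab]

theorem trace_mem [FiniteDimensional L K] [IsAlgClosed Ab] [Algebra.IsAlgebraic L Ab]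
    (ω : Ω[F⁄ℂ]) (D : Derivation ℂ Ab Ab) (hD : LRational L D) :
    ∃ z : L, ∑ σ : K →ₐ[L] Ab,
      evalForm ((σ.restrictScalars ℂ).comp (IsScalarTower.toAlgHom ℂ F K)) D ω =
        algebraMap L Ab z := by
  have : CharZero L := charZero_of_injective_algebraMap (algebraMap ℂ L).injective
  have hnorm : Normal L Ab := by
    have : IsAlgClosure L Ab := ⟨inferInstance, inferInstance⟩
    exact IsAlgClosure.normal L Ab
  have hgal : IsGalois L Ab := ⟨⟩
  set S : Ab := ∑ σ : K →ₐ[L] Ab,
      evalForm ((σ.restrictScalars ℂ).comp (IsScalarTower.toAlgHom ℂ F K)) D ω with hS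
  have hfix : ∀ g : Ab ≃ₐ[L] Ab, g S = S := by
    intro g
    rw [hS, map_sum]
    refine Fintype.sum_bijective (fun σ : K →ₐ[L] Ab => (g : Ab →ₐ[L] Ab).comp σ) ?_ _ _ ?_
    · constructor
      · intro σ τ h
        ext x
        have := DFunLike.congr_fun h x
        exact g.injective this
      · intro σ
        refine ⟨(g.symm : Ab →ₐ[L] Ab).comp σ, ?_⟩
        ext x
        simp
    · intro σ
      exact inv_evalForm D hD g _ _ (fun x => rfl) ω
  have hmem : S ∈ Set.range (algebraMap L Ab) :=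
    (InfiniteGalois.mem_range_algebraMap_iff_fixed S).2 hfix
  obtain ⟨z, hz⟩ := hmem
  exact ⟨z, hz.symm⟩

end Pool.Agent.DegThree
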