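import Pool.Agent.Lib_MP_9293ae_ag.Pt0
import Pool.Agent.Lib_MP_9293ae_ag.Auto6

/-! Piece Pt1: two generic points generating the same field over M agree up to sign and translation. -/

set_option autoImplicit false

open scoped Polynomial WeierstrassCurve.Affine

namespace Pool.Agent.DegThree

variable {Ab : Type} [Field Ab] [Algebra ℂ Ab] [DecidableEq Ab]

theorem pt1_transcendental {M N : Type} [Field M] [Field N] [Algebra M N] [IsAlgClosed M] (z : N)
    (hz : ∀ c : M, algebraMap M N c ≠ z) : Transcendental M z := by
  intro h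
  have h1 : IsIntegral M z := isAlgebraic_iff_isIntegral.mp h
  have h2 : (minpoly M z).degree = 1 :=
    IsAlgClosed.degree_eq_one_of_irreducible M (minpoly.irreducible h1)
  obtain ⟨c, hc⟩ := minpoly.mem_range_of_degree_eq_one M z h2
  exact hz c hc

omit [DecidableEq Ab] in
theorem pt1_adjoin_top {M : IntermediateField ℂ Ab} (N : IntermediateField M Ab) (x y : N)
    (h : N = IntermediateField.adjoin M {(x : Ab), (y : Ab)}) :
    IntermediateField.adjoin M {x, y} = ⊤ := by
  have h1 : (IntermediateField.adjoin M {x, y}).map N.val = (⊤ : IntermediateField M N).map N.val := by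
    rw [IntermediateField.adjoin_map, Set.image_pair]
    rw [← AlgHom.fieldRange_eq_map, IntermediateField.fieldRange_val]
    exact h.symm
  exact IntermediateField.map_injective _ h1

theorem pt1_add_formula (A B : ℂ) (x y a b ℓ : Ab) (x' y' : Ab)
    (h' : ((sw A B)⁄Ab).Nonsingular x' y') (hT : ((sw A B)⁄Ab).Nonsingular a b)
    (hne : x' ≠ a) (hl : ℓ = (y' - b) / (x' - a)) (hx : x = ℓ ^ 2 - x' - a)
    (hy : y = -(ℓ * (x - x') + y')) (h : ((sw A B)⁄Ab).Nonsingular x y) :
    WeierstrassCurve.Affine.Point.some x' y' h' + .some a b hT = .some x y h := by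
  rw [WeierstrassCurve.Affine.Point.add_of_X_ne hne, WeierstrassCurve.Affine.Point.some.injEq]
  rw [WeierstrassCurve.Affine.slope_of_X_ne hne, ← hl]
  have h1 : ((sw A B)⁄Ab).toAffine.addX x' a ℓ = x := by
    simp [WeierstrassCurve.Affine.addX, sw, WeierstrassCurve.Affine.baseChange,
      WeierstrassCurve.baseChange, hx]
  refine ⟨h1, ?_⟩
  rw [WeierstrassCurve.Affine.addY, WeierstrassCurve.Affine.negAddY, h1]
  simp [WeierstrassCurve.Affine.negY, sw, WeierstrassCurve.Affine.baseChange,
      WeierstrassCurve.baseChange, hy]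

theorem point_of_auto (A B : ℂ) (hA : A ≠ 0) (hB : B ≠ 0) (hΔ : 4 * A ^ 3 + 27 * B ^ 2 ≠ 0)
    (M : IntermediateField ℂ Ab) [IsAlgClosed M] (x y x' y' : Ab)
    (h : ((sw A B)⁄Ab).Nonsingular x y) (h' : ((sw A B)⁄Ab).Nonsingular x' y')
    (tx : x ∉ M) (tx' : x' ∉ M)
    (g : IntermediateField.adjoin M {x, y} = IntermediateField.adjoin M {x', y'}) :
    WeierstrassCurve.Affine.Point.some x' y' h' - .some x y h ∈ rat A B M ∨
    WeierstrassCurve.Affine.Point.some x' y' h' + .some x y h ∈ rat A B M := by
  set N : IntermediateField M Ab := IntermediateField.adjoin M {x, y} with hN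
  have hxN : x ∈ N := IntermediateField.subset_adjoin _ _ (by simp)
  have hyN : y ∈ N := IntermediateField.subset_adjoin _ _ (by simp)
  have hxN' : x' ∈ N := by rw [g]; exact IntermediateField.subset_adjoin _ _ (by simp)
  have hyN' : y' ∈ N := by rw [g]; exact IntermediateField.subset_adjoin _ _ (by simp)
  have hA' : algebraMap ℂ M A ≠ 0 := by simpa using hA
  have hB' : algebraMap ℂ M B ≠ 0 := by simpa using hB
  have hΔ' : 4 * (algebraMap ℂ M A) ^ 3 + 27 * (algebraMap ℂ M B) ^ 2 ≠ 0 := by
    intro h0
    apply hΔ
    apply (algebraMap ℂ M).injective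
    rw [map_zero, map_add, map_mul, map_mul, map_pow, map_pow, map_ofNat, map_ofNat]
    exact h0
  have hc : CharZero M := charZero_of_injective_algebraMap (algebraMap ℂ M).injective
  have e1 := sw_eqn A B x y h
  have e2 := sw_eqn A B x' y' h'
  have t1 : Transcendental M (⟨x, hxN⟩ : N) := by
    apply pt1_transcendental
    intro c hc
    apply tx
    have := congrArg (fun z : N => (z : Ab)) hc
    rw [← show (c : Ab) = x from this]
    exact c.2
  have t2 : Transcendental M (⟨x', hxN'⟩ : N) := by
    apply pt1_transcendental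
    intro c hc
    apply tx'
    have := congrArg (fun z : N => (z : Ab)) hc
    rw [← show (c : Ab) = x' from this]
    exact c.2
  have key := auto_lemma (M := M) (N := N) (algebraMap ℂ M A) (algebraMap ℂ M B) hA' hB' hΔ'
    ⟨x, hxN⟩ ⟨y, hyN⟩ ⟨x', hxN'⟩ ⟨y', hyN'⟩
    (by apply Subtype.ext; exact e1) (by apply Subtype.ext; exact e2) t1 t2
    (pt1_adjoin_top N _ _ hN) (pt1_adjoin_top N _ _ g)
  rcases key with ⟨hx, hy⟩ | ⟨a, b, hab, hne, l, hl, hlx, hly⟩
  · have hx1 : x' = x := congrArg (fun z : N => (z : Ab)) hx
    rcases hy with hy | hy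
    · have hy1 : y' = y := congrArg (fun z : N => (z : Ab)) hy
      subst hx1 hy1
      left
      rw [sub_self]
      exact zero_mem _
    · have hy1 : y' = -y := congrArg (fun z : N => (z : Ab)) hy
      subst hx1
      right
      have : WeierstrassCurve.Affine.Point.some x' y' h' =
          - WeierstrassCurve.Affine.Point.some x' y h := by
        rw [WeierstrassCurve.Affine.Point.neg_some, WeierstrassCurve.Affine.Point.some.injEq]
        refine ⟨rfl, ?_⟩
        simp [WeierstrassCurve.Affine.negY, sw, WeierstrassCurve.Affine.baseChange,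
          WeierstrassCurve.baseChange, hy1]
      rw [this, neg_add_cancel]
      exact zero_mem _
  · have hT : ((sw A B)⁄Ab).Nonsingular (a : Ab) (b : Ab) := by
      apply sw_nonsingular A B hΔ
      have := congrArg (fun z : M => (z : Ab)) hab
      exact this
    have hTm : WeierstrassCurve.Affine.Point.some (a : Ab) (b : Ab) hT ∈ rat A B M :=
      (some_mem_rat A B M _ _ hT).mpr ⟨a.2, b.2⟩
    have hne' : x' ≠ (a : Ab) := fun h0 => hne (Subtype.ext h0)
    have hl' : (l : Ab) = (y' - b) / (x' - a) := congrArg (fun z : N => (z : Ab)) hl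
    have hlx' : x = (l : Ab) ^ 2 - x' - a := congrArg (fun z : N => (z : Ab)) hlx
    rcases hly with hly | hly
    · have hly' : y = -((l : Ab) * (x - x') + y') := congrArg (fun z : N => (z : Ab)) hly
      left
      rw [← pt1_add_formula A B x y a b l x' y' h' hT hne' hl' hlx' hly' h]
      rw [show WeierstrassCurve.Affine.Point.some x' y' h' -
        (WeierstrassCurve.Affine.Point.some x' y' h' + WeierstrassCurve.Affine.Point.some (a : Ab) b hT) =
        - WeierstrassCurve.Affine.Point.some (a : Ab) b hT by abel]
      exact neg_mem hTm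
    · have hly' : y = (l : Ab) * (x - x') + y' := congrArg (fun z : N => (z : Ab)) hly
      right
      have hn : ((sw A B)⁄Ab).Nonsingular x (-y) := by
        apply sw_nonsingular A B hΔ
        rw [neg_sq]
        exact e1
      have h3 := pt1_add_formula A B x (-y) a b l x' y' h' hT hne' hl' hlx' (by rw [hly']) hn
      have h4 : WeierstrassCurve.Affine.Point.some x y h = - WeierstrassCurve.Affine.Point.some x (-y) hn := by
        rw [WeierstrassCurve.Affine.Point.neg_some, WeierstrassCurve.Affine.Point.some.injEq]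
        refine ⟨rfl, ?_⟩
        simp [WeierstrassCurve.Affine.negY, sw, WeierstrassCurve.Affine.baseChange,
          WeierstrassCurve.baseChange]
      rw [h4, ← h3]
      rw [show WeierstrassCurve.Affine.Point.some x' y' h' +
        -(WeierstrassCurve.Affine.Point.some x' y' h' + WeierstrassCurve.Affine.Point.some (a : Ab) b hT) =
        - WeierstrassCurve.Affine.Point.some (a : Ab) b hT by abel]
      exact neg_mem hTm

end Pool.Agent.DegThree
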