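import Pool.Agent.Lib_MP_9293ae_ag.Pt0

/-! Piece Pt2: three times a generic point is not constant. -/

set_option autoImplicit false

open scoped Polynomial WeierstrassCurve.Affine

namespace Pool.Agent.DegThree

variable {Ab : Type} [Field Ab] [Algebra ℂ Ab] [DecidableEq Ab]

theorem pt2_mem_of_isAlgebraic (M : IntermediateField ℂ Ab) [IsAlgClosed M] (x : Ab)
    (h : IsAlgebraic M x) : x ∈ M := by
  have hi : IsIntegral M x := h.isIntegral
  have h1 : (minpoly M x).degree = 1 :=
    IsAlgClosed.degree_eq_one_of_irreducible M (minpoly.irreducible hi)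
  obtain ⟨m, hm⟩ := minpoly.mem_range_of_degree_eq_one M x h1
  rw [← hm]
  exact m.2

/-- the two abscissa formulas cannot agree, case of a finite point -/
theorem pt2_some {k K : Type} [Field k] [CharZero k] [Field K] [Algebra k K] (A B a b : k)
    (x y : K) (hx : Transcendental k x)
    (h : y ^ 2 = x ^ 3 + algebraMap k K A * x + algebraMap k K B)
    (hy : y ≠ 0) (hxa : algebraMap k K a - x ≠ 0)
    (he : ((3 * x ^ 2 + algebraMap k K A) / (2 * y)) ^ 2 - x - x =
      ((algebraMap k K b + y) / (algebraMap k K a - x)) ^ 2 - algebraMap k K a - x) : False := by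
  have hc : CharZero K := charZero_of_injective_algebraMap (algebraMap k K).injective
  set α := algebraMap k K A with hα
  set β := algebraMap k K B with hβ
  set a' := algebraMap k K a with ha'
  set b' := algebraMap k K b with hb'
  have h2 : (2 : K) * y ≠ 0 := mul_ne_zero two_ne_zero hy
  have h3 : (3 * x ^ 2 + α) ^ 2 * (a' - x) ^ 2 - 2 * x * (2 * y) ^ 2 * (a' - x) ^ 2 =
      (b' + y) ^ 2 * (2 * y) ^ 2 - (a' + x) * (2 * y) ^ 2 * (a' - x) ^ 2 := by
    field_simp at he
    linear_combination he
  let N : k[X] := Polynomial.X ^ 6 + Polynomial.C (-6 * a) * Polynomial.X ^ 5 +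
    Polynomial.C (-3 * a ^ 2 - 6 * A) * Polynomial.X ^ 4 +
    Polynomial.C (4 * a ^ 3 - 12 * B - 4 * b ^ 2) * Polynomial.X ^ 3 +
    Polynomial.C (-6 * A * a ^ 2 - 3 * A ^ 2 + 12 * a * B) * Polynomial.X ^ 2 +
    Polynomial.C (-2 * a * A ^ 2 - 12 * a ^ 2 * B - 8 * A * B - 4 * A * b ^ 2 + 4 * a ^ 3 * A) *
      Polynomial.X +
    Polynomial.C (a ^ 2 * A ^ 2 - 4 * B ^ 2 - 4 * b ^ 2 * B + 4 * a ^ 3 * B)
  have hN : Polynomial.aeval x N = 8 * b' * (x ^ 3 + α * x + β) * y := by
    simp only [N, map_add, map_mul, map_pow, Polynomial.aeval_X, Polynomial.aeval_C, map_sub,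
      map_neg, map_ofNat, ← hα, ← hβ, ← ha', ← hb']
    have e1 : (2 * y) ^ 2 = 4 * (x ^ 3 + α * x + β) := by linear_combination 4 * h
    rw [e1] at h3
    linear_combination h3 + 4 * (x ^ 3 + α * x + β) * h
  let F : k[X] := Polynomial.X ^ 3 + Polynomial.C A * Polynomial.X + Polynomial.C B
  have hF : Polynomial.aeval x F = x ^ 3 + α * x + β := by
    simp only [F, map_add, map_mul, map_pow, Polynomial.aeval_X, Polynomial.aeval_C, ← hα, ← hβ]
  have h4 : Polynomial.aeval x (N ^ 2 - Polynomial.C (64 * b ^ 2) * F ^ 3) = 0 := by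
    rw [map_sub, map_pow, map_mul, map_pow, hN, hF, Polynomial.aeval_C, map_mul, map_pow,
      map_ofNat, ← hb']
    linear_combination 64 * b' ^ 2 * (x ^ 3 + α * x + β) ^ 2 * h
  have h5 := (transcendental_iff.1 hx) _ h4
  have h6 : N.natDegree = 6 := by
    simp only [N]
    compute_degree!
  have h7 : F.natDegree ≤ 3 := by
    simp only [F]
    compute_degree!
  have h8 : (N ^ 2).natDegree = 12 := by rw [Polynomial.natDegree_pow, h6]
  have h9 : (Polynomial.C (64 * b ^ 2) * F ^ 3).natDegree ≤ 9 := by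
    refine (Polynomial.natDegree_C_mul_le _ _).trans ?_
    rw [Polynomial.natDegree_pow]
    omega
  rw [sub_eq_zero] at h5
  rw [← h5, h8] at h9
  omega

theorem pt2_zero {k K : Type} [Field k] [CharZero k] [Field K] [Algebra k K] (A B : k)
    (x y : K) (hx : Transcendental k x)
    (h : y ^ 2 = x ^ 3 + algebraMap k K A * x + algebraMap k K B)
    (hy : y ≠ 0)
    (he : ((3 * x ^ 2 + algebraMap k K A) / (2 * y)) ^ 2 - x - x = x) : False := by
  have hc : CharZero K := charZero_of_injective_algebraMap (algebraMap k K).injective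
  set α := algebraMap k K A with hα
  set β := algebraMap k K B with hβ
  have h3 : (3 * x ^ 2 + α) ^ 2 = 3 * x * (2 * y) ^ 2 := by
    field_simp at he
    linear_combination he
  let N : k[X] := Polynomial.C (-3) * Polynomial.X ^ 4 +
    Polynomial.C (-6 * A) * Polynomial.X ^ 2 +
    Polynomial.C (-12 * B) * Polynomial.X +
    Polynomial.C (A ^ 2)
  have hN : Polynomial.aeval x N = 0 := by
    simp only [N, map_add, map_mul, map_pow, Polynomial.aeval_X, Polynomial.aeval_C,
      map_neg, map_ofNat, ← hα, ← hβ]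
    linear_combination h3 + 12 * x * h
  have h5 := (transcendental_iff.1 hx) _ hN
  have h6 : N.natDegree = 4 := by
    simp only [N]
    compute_degree!
  rw [h5] at h6
  simp at h6

theorem three_nsmul_not_mem (A B : ℂ) (hΔ : 4 * A ^ 3 + 27 * B ^ 2 ≠ 0)
    (M : IntermediateField ℂ Ab) [IsAlgClosed M] (x y : Ab)
    (h : ((sw A B)⁄Ab).Nonsingular x y) (tx : x ∉ M) :
    3 • WeierstrassCurve.Affine.Point.some x y h ∉ rat A B M := by
  intro hmem
  have hx : Transcendental M x := fun hx => tx (pt2_mem_of_isAlgebraic M x hx)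
  have hxy := sw_eqn A B x y h
  have hA : algebraMap ℂ Ab A = algebraMap M Ab (algebraMap ℂ M A) := rfl
  have hB : algebraMap ℂ Ab B = algebraMap M Ab (algebraMap ℂ M B) := rfl
  have hcm : CharZero M := charZero_of_injective_algebraMap (algebraMap ℂ M).injective
  have hca : CharZero Ab := charZero_of_injective_algebraMap (algebraMap ℂ Ab).injective
  have hy : y ≠ 0 := by
    rintro rfl
    apply tx
    apply pt2_mem_of_isAlgebraic
    refine ⟨Polynomial.X ^ 3 + Polynomial.C (algebraMap ℂ M A) * Polynomial.X +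
      Polynomial.C (algebraMap ℂ M B), ?_, ?_⟩
    · intro h0
      have h1 : (Polynomial.X ^ 3 + Polynomial.C (algebraMap ℂ M A) * Polynomial.X +
        Polynomial.C (algebraMap ℂ M B) : M[X]).natDegree = 3 := by compute_degree!
      rw [h0] at h1
      simp at h1
    · simp only [map_add, map_mul, map_pow, Polynomial.aeval_X, Polynomial.aeval_C, ← hA, ← hB]
      linear_combination -hxy
  have hneg : ∀ u v : Ab, ((sw A B)⁄Ab).negY u v = -v := by
    intro u v
    simp [WeierstrassCurve.Affine.negY, sw, WeierstrassCurve.Affine.baseChange,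
      WeierstrassCurve.baseChange]
  have hyn : y ≠ ((sw A B)⁄Ab).negY x y := by
    rw [hneg]
    intro h0
    apply hy
    have : (2 : Ab) * y = 0 := by linear_combination h0
    simpa using this
  have haddX : ∀ u v l : Ab, ((sw A B)⁄Ab).addX u v l = l ^ 2 - u - v := by
    intro u v l
    simp [WeierstrassCurve.Affine.addX, sw, WeierstrassCurve.Affine.baseChange,
      WeierstrassCurve.baseChange]
  have hsl : ((sw A B)⁄Ab).slope x x y y = (3 * x ^ 2 + algebraMap ℂ Ab A) / (2 * y) := by
    rw [WeierstrassCurve.Affine.slope_of_Y_ne rfl hyn, hneg]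
    simp [sw, WeierstrassCurve.Affine.baseChange, WeierstrassCurve.baseChange]
    ring
  obtain ⟨R, hR⟩ : ∃ R : ((sw A B)⁄Ab).Point, R = 3 • WeierstrassCurve.Affine.Point.some x y h :=
    ⟨_, rfl⟩
  rw [← hR] at hmem
  have h2 : WeierstrassCurve.Affine.Point.some x y h + WeierstrassCurve.Affine.Point.some x y h =
      R + -WeierstrassCurve.Affine.Point.some x y h := by
    rw [hR]
    abel
  rw [WeierstrassCurve.Affine.Point.add_self_of_Y_ne hyn,
    WeierstrassCurve.Affine.Point.neg_some] at h2
  rcases R with _ | ⟨a, b, hab⟩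
  · have h3 : (WeierstrassCurve.Affine.Point.zero : ((sw A B)⁄Ab).Point) = 0 := rfl
    rw [h3, zero_add, WeierstrassCurve.Affine.Point.some.injEq, haddX, hsl] at h2
    exact pt2_zero (algebraMap ℂ M A) (algebraMap ℂ M B) x y hx hxy hy h2.1
  · rw [some_mem_rat] at hmem
    have hax : a ≠ x := by
      rintro rfl
      exact tx hmem.1
    rw [WeierstrassCurve.Affine.Point.add_of_X_ne hax,
      WeierstrassCurve.Affine.Point.some.injEq, haddX, haddX, hsl,
      WeierstrassCurve.Affine.slope_of_X_ne hax, hneg, sub_neg_eq_add] at h2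
    exact pt2_some (algebraMap ℂ M A) (algebraMap ℂ M B) ⟨a, hmem.1⟩ ⟨b, hmem.2⟩ x y hx hxy hy
      (sub_ne_zero.2 hax) h2.1

end Pool.Agent.DegThree
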