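import Pool.Agent.Lib_MP_9293ae_ag.Pt0
import Pool.Agent.Lib_MP_9293ae_ag.ConstPt

/-! Piece Pt3: the sum of the conjugates of a point is constant. -/

set_option autoImplicit false

open scoped Polynomial WeierstrassCurve.Affine

namespace Pool.Agent.DegThree

/-- the cubic polynomial `X³ + A X + B` -/
noncomputable def pt3F (A B : ℂ) : ℂ[X] :=
  Polynomial.X ^ 3 + (Polynomial.C A * Polynomial.X + Polynomial.C B)

theorem pt3F_natDegree_lt (A B : ℂ) :
    (Polynomial.C A * Polynomial.X + Polynomial.C B).degree < ((3 : ℕ) : WithBot ℕ) := by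
  refine lt_of_le_of_lt Polynomial.degree_linear_le ?_
  norm_num

theorem pt3F_monic (A B : ℂ) : (pt3F A B).Monic := by
  exact Polynomial.monic_X_pow_add (pt3F_natDegree_lt A B)

theorem pt3F_natDegree (A B : ℂ) : (pt3F A B).natDegree = 3 := by
  rw [pt3F]
  compute_degree!

theorem pt3F_separable (A B : ℂ) (hΔ : 4 * A ^ 3 + 27 * B ^ 2 ≠ 0) : (pt3F A B).Separable := by
  rw [Polynomial.Separable]
  refine ⟨Polynomial.C (4 * A ^ 3 + 27 * B ^ 2)⁻¹ * (Polynomial.C (27 * B) -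
      Polynomial.C (18 * A) * Polynomial.X), Polynomial.C (4 * A ^ 3 + 27 * B ^ 2)⁻¹ *
      (Polynomial.C (6 * A) * Polynomial.X ^ 2 - Polynomial.C (9 * B) * Polynomial.X +
      Polynomial.C (4 * A ^ 2)), ?_⟩
  have h1 : Polynomial.C (4 * A ^ 3 + 27 * B ^ 2)⁻¹ * Polynomial.C (4 * A ^ 3 + 27 * B ^ 2) =
      (1 : ℂ[X]) := by
    rw [← Polynomial.C_mul, inv_mul_cancel₀ hΔ, Polynomial.C_1]
  rw [← h1]
  have h2 : Polynomial.derivative (pt3F A B) = 3 * Polynomial.X ^ 2 + Polynomial.C A := by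
    have h3 : (Polynomial.C 2 : ℂ[X]) = 2 := map_ofNat _ 2
    simp [pt3F]
    rw [h3]
    ring
  rw [h2, pt3F]
  simp only [map_add, map_mul, map_pow, map_ofNat]
  ring

theorem pt3_mem_range {L Ab : Type} [Field L] [CharZero L] [Field Ab] [Algebra L Ab]
    [IsAlgClosed Ab] [Algebra.IsAlgebraic L Ab] (z : Ab) (hz : ∀ g : Ab ≃ₐ[L] Ab, g z = z) :
    ∃ w : L, algebraMap L Ab w = z := by
  have : IsAlgClosure L Ab := ⟨inferInstance, inferInstance⟩
  have : Normal L Ab := IsAlgClosure.normal L Ab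
  have : IsGalois L Ab := ⟨⟩
  have h := (InfiniteGalois.mem_bot_iff_fixed (k := L) z).mpr hz
  exact IntermediateField.mem_bot.mp h

theorem sum_conj_mem {L K Ab : Type} [Field L] [Field K] [Field Ab] [Algebra ℂ L] [Algebra ℂ Ab]
    [DecidableEq Ab] [Algebra ℂ K] [Algebra L K] [IsScalarTower ℂ L K] [Algebra L Ab]
    [IsScalarTower ℂ L Ab] [DecidableEq K] [FiniteDimensional L K] [IsAlgClosed Ab]
    [Algebra.IsAlgebraic L Ab] (hq : regularForms L = ⊥) (A B : ℂ)
    (hΔ : 4 * A ^ 3 + 27 * B ^ 2 ≠ 0) (P : ((sw A B)⁄K).Point) (M : IntermediateField ℂ Ab) :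
    ∑ σ : K →ₐ[L] Ab, WeierstrassCurve.Affine.Point.map (W' := sw A B) (S := ℂ)
      (σ.restrictScalars ℂ) P ∈ rat A B M := by
  have hc : CharZero L := charZero_of_injective_algebraMap (algebraMap ℂ L).injective
  have hfix : ∀ g : Ab ≃ₐ[L] Ab, WeierstrassCurve.Affine.Point.map (W' := sw A B) (S := ℂ)
      ((g : Ab →ₐ[L] Ab).restrictScalars ℂ)
      (∑ σ : K →ₐ[L] Ab, WeierstrassCurve.Affine.Point.map (W' := sw A B) (S := ℂ)
      (σ.restrictScalars ℂ) P) = ∑ σ : K →ₐ[L] Ab,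
      WeierstrassCurve.Affine.Point.map (W' := sw A B) (S := ℂ) (σ.restrictScalars ℂ) P := by
    intro g
    rw [map_sum]
    simp only [WeierstrassCurve.Affine.Point.map_map]
    let e : (K →ₐ[L] Ab) ≃ (K →ₐ[L] Ab) :=
      { toFun := fun σ => (g : Ab →ₐ[L] Ab).comp σ
        invFun := fun σ => (g.symm : Ab →ₐ[L] Ab).comp σ
        left_inv := fun σ => by ext x; simp
        right_inv := fun σ => by ext x; simp }
    exact Fintype.sum_equiv e _ _ (fun σ => rfl)
  generalize (∑ σ : K →ₐ[L] Ab, WeierstrassCurve.Affine.Point.map (W' := sw A B) (S := ℂ)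
      (σ.restrictScalars ℂ) P) = Q at hfix ⊢
  rcases Q with _ | ⟨a, b, hab⟩
  · exact (rat A B M).zero_mem
  · have hg : ∀ g : Ab ≃ₐ[L] Ab, g a = a ∧ g b = b := by
      intro g
      have h1 := hfix g
      rw [WeierstrassCurve.Affine.Point.map_some,
        WeierstrassCurve.Affine.Point.some.injEq] at h1
      exact h1
    obtain ⟨a', ha⟩ := pt3_mem_range (L := L) a (fun g => (hg g).1)
    obtain ⟨b', hb⟩ := pt3_mem_range (L := L) b (fun g => (hg g).2)
    have heq := sw_eqn A B a b hab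
    have h2 : b' ^ 2 = Polynomial.aeval a' (pt3F A B) := by
      apply (algebraMap L Ab).injective
      rw [map_pow, hb, heq, ← ha, ← Polynomial.aeval_algebraMap_apply, pt3F]
      simp
      ring
    obtain ⟨⟨c, hc1⟩, ⟨d, hd1⟩⟩ := const_point hq (pt3F A B) (pt3F_monic A B) (pt3F_natDegree A B)
      (pt3F_separable A B hΔ) a' b' h2
    rw [some_mem_rat]
    refine ⟨?_, ?_⟩
    · rw [← ha, hc1, ← IsScalarTower.algebraMap_apply]
      exact M.algebraMap_mem c
    · rw [← hb, hd1, ← IsScalarTower.algebraMap_apply]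
      exact M.algebraMap_mem d

end Pool.Agent.DegThree
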