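import Pool.Agent.Lib_MP_9293ae_ag.Defs
import Pool.Agent.Lib_MP_9293ae_ag.Dual
import Pool.Agent.Lib_MP_1209e6_ag.Der

/-! Piece Repr: two holomorphic forms on a curve of genus at least two. -/

set_option autoImplicit false

open scoped Polynomial IntermediateField

namespace Pool.Agent.DegThree

theorem repr_smul {F : Type} [Field F] [Algebra ℂ F] {s : F}
    (hs : IsTranscendenceBasis ℂ ![s]) (ω : Ω[F⁄ℂ]) :
    ∃ f : F, ω = f • KaehlerDifferential.D ℂ F s := by
  obtain ⟨δ, hδ⟩ := Campana.exists_derivation ![s] hs.1 ![1]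
  have h0 : δ s = 1 := by simpa using hδ 0
  have ex : ∀ c : F, KaehlerDifferential.D ℂ F c = δ c • KaehlerDifferential.D ℂ F s := by
    intro c
    let e : Derivation ℂ F Ω[F⁄ℂ] := KaehlerDifferential.D ℂ F -
      (LinearMap.toSpanSingleton F Ω[F⁄ℂ] (KaehlerDifferential.D ℂ F s)).compDer δ
    have he : ∀ z, e z = KaehlerDifferential.D ℂ F z - δ z • KaehlerDifferential.D ℂ F s :=
      fun z => rfl
    have := der_mod_eq_zero_of_basis e ![s] hs (by
      intro i
      rw [he]
      fin_cases i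
      simp [h0]) c
    rw [he] at this
    exact sub_eq_zero.1 this
  obtain ⟨n, a, b, rfl⟩ := exists_sum ω
  refine ⟨∑ i, a i * δ (b i), ?_⟩
  rw [Finset.sum_smul]
  exact Finset.sum_congr rfl fun i _ => by rw [ex (b i), smul_smul]

theorem exists_repr {F : Type} [Field F] [Algebra ℂ F] (hF : Algebra.trdeg ℂ F = 1)
    (hg : 2 ≤ genus F) :
    ∃ s f h : F, Transcendental ℂ s ∧ f ≠ 0 ∧ Transcendental ℂ h ∧
      f • KaehlerDifferential.D ℂ F s ∈ holomorphicForms F ∧
      (h * f) • KaehlerDifferential.D ℂ F s ∈ holomorphicForms F := by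
  obtain ⟨B, hB⟩ := exists_isTranscendenceBasis ℂ F
  have hcard := hB.cardinalMk_eq_trdeg
  rw [hF] at hcard
  obtain ⟨hsub, ⟨s⟩⟩ := Cardinal.eq_one_iff_unique.1 hcard
  have htr : Transcendental ℂ (s : F) := hB.1.transcendental s
  have hs : IsTranscendenceBasis ℂ ![(s : F)] := by
    have hi : AlgebraicIndependent ℂ ![(s : F)] := by
      rw [algebraicIndependent_unique_type_iff]
      simpa using htr
    refine hi.isTranscendenceBasis_of_trdeg_le_of_finite ?_
    rw [hF]; simp
  have hlt : 1 < Module.finrank ℂ (holomorphicForms F) := hg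
  have : Nontrivial (holomorphicForms F) := Module.nontrivial_of_finrank_pos (R := ℂ) (by omega)
  obtain ⟨ω, hω⟩ := exists_ne (0 : holomorphicForms F)
  obtain ⟨η, hη⟩ := exists_linearIndependent_pair_of_one_lt_finrank hlt hω
  obtain ⟨f, hf⟩ := repr_smul hs ω.1
  obtain ⟨g, hg'⟩ := repr_smul hs η.1
  have hf0 : f ≠ 0 := by
    rintro rfl
    rw [zero_smul] at hf
    exact hω (Subtype.ext hf)
  refine ⟨s, f, g / f, htr, hf0, ?_, hf ▸ ω.2, ?_⟩
  · intro halg
    have : Algebra.IsAlgebraic ℂ (IntermediateField.adjoin ℂ {g / f}) :=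
      IntermediateField.isAlgebraic_adjoin_simple halg.isIntegral
    obtain ⟨c, hc⟩ := (IsAlgClosed.algebraMap_bijective_of_isIntegral (k := ℂ)
      (K := IntermediateField.adjoin ℂ {g / f})).2
      ⟨g / f, IntermediateField.mem_adjoin_simple_self ℂ _⟩
    have hc' : g = algebraMap ℂ F c * f := by
      have h3 : algebraMap ℂ F c = g / f := congrArg Subtype.val hc
      rw [h3, div_mul_cancel₀ _ hf0]
    have h2 : η = c • ω := by
      apply Subtype.ext
      rw [Submodule.coe_smul, hf, hg', hc', mul_smul, algebraMap_smul]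
    rw [LinearIndependent.pair_iff] at hη
    have := hη c (-1) (by rw [h2]; module)
    simp at this
  · rw [div_mul_cancel₀ _ hf0, ← hg']
    exact η.2

end Pool.Agent.DegThree
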