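import Pool.Agent.Lib_MP_9293ae_ag.TraceZero
import Pool.Agent.Lib_MP_9293ae_ag.Repr
import Pool.Agent.Lib_MP_9293ae_ag.ConstField
import Pool.Agent.Lib_MP_9293ae_ag.Gen
import Pool.Agent.Lib_MP_9293ae_ag.Pt1
import Pool.Agent.Lib_MP_9293ae_ag.Pt2
import Pool.Agent.Lib_MP_9293ae_ag.Pt3

/-! Piece NegAbs: no degree three map to a surface without regular one-forms (abstract form). -/

set_option autoImplicit false

open scoped Polynomial IntermediateField

namespace Pool.Agent.DegThree

theorem negAbs_group {G : Type*} [AddCommGroup G] (S : AddSubgroup G) (a b c : G)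
    (h : a + b + c ∈ S) (hb : b - a ∈ S ∨ b + a ∈ S) (hc : c - a ∈ S ∨ c + a ∈ S) :
    3 • a ∈ S ∨ a ∈ S := by
  rcases hb with hb | hb <;> rcases hc with hc | hc
  · left
    have := S.sub_mem (S.sub_mem h hb) hc
    convert this using 1
    abel
  · right
    have := S.sub_mem (S.sub_mem h hb) hc
    convert this using 1
    abel
  · right
    have := S.sub_mem (S.sub_mem h hb) hc
    convert this using 1
    abel
  · right
    have := S.neg_mem (S.sub_mem (S.sub_mem h hb) hc)
    convert this using 1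
    abel

theorem negAbs_group' {G ι : Type*} [AddCommGroup G] [Fintype ι] (hι : Fintype.card ι = 3)
    (S : AddSubgroup G) (Q : ι → G) (h : ∑ i, Q i ∈ S) (i₀ : ι)
    (hQ : ∀ i, Q i - Q i₀ ∈ S ∨ Q i + Q i₀ ∈ S) : 3 • Q i₀ ∈ S ∨ Q i₀ ∈ S := by
  classical
  let e : ι ≃ Fin 3 := Fintype.equivFinOfCardEq hι
  have hsum : ∑ i, Q i = ∑ j : Fin 3, Q (e.symm j) :=
    (Equiv.sum_comp e.symm Q).symm
  rw [hsum, Fin.sum_univ_three] at h
  obtain ⟨j, hj⟩ : ∃ j, e.symm j = i₀ := ⟨e i₀, by simp⟩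
  fin_cases j
  · simp only [Fin.zero_eta] at hj
    rw [hj] at h
    exact negAbs_group S _ _ _ h (hQ _) (hQ _)
  · simp only [Fin.mk_one] at hj
    rw [hj] at h
    refine negAbs_group S _ (Q (e.symm 0)) (Q (e.symm 2)) ?_ (hQ _) (hQ _)
    convert h using 1
    abel
  · simp only [Fin.reduceFinMk] at hj
    rw [hj] at h
    refine negAbs_group S _ (Q (e.symm 0)) (Q (e.symm 1)) ?_ (hQ _) (hQ _)
    convert h using 1
    abel

theorem negAbs_trdeg {F K : Type} [Field F] [Field K] [Algebra ℂ F] [Algebra ℂ K] [Algebra F K]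
    [IsScalarTower ℂ F K] (hF : Algebra.trdeg ℂ F = 1) (c : K) (x y : K)
    (h : y ^ 2 = c) (hc : c ∈ Algebra.adjoin F {x}) (tx : Transcendental F x)
    (hxy : IntermediateField.adjoin F {x, y} = ⊤) : Algebra.trdeg ℂ K = 2 := by
  have h1 : Algebra.trdeg F K = 1 := by
    have hb : IsTranscendenceBasis F (fun _ : Unit => x) := by
      have hi : AlgebraicIndependent F (fun _ : Unit => x) := by
        rw [algebraicIndependent_unique_type_iff]
        exact tx
      rw [hi.isTranscendenceBasis_iff_isAlgebraic]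
      have hr : Set.range (fun _ : Unit => x) = {x} := by simp
      rw [hr]
      have hy : IsAlgebraic (Algebra.adjoin F {x}) y := by
        refine ⟨Polynomial.X ^ 2 - Polynomial.C ⟨c, hc⟩, ?_, ?_⟩
        · exact Polynomial.X_pow_sub_C_ne_zero (by norm_num) _
        · simp only [map_sub, map_pow, Polynomial.aeval_X, Polynomial.aeval_C]
          rw [h, sub_eq_zero]
          rfl
      refine ⟨fun z => ?_⟩
      have hz : z ∈ IntermediateField.adjoin F {x, y} := by rw [hxy]; trivial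
      induction hz using IntermediateField.adjoin_induction with
      | mem w hw =>
        rcases hw with rfl | hw
        · exact isAlgebraic_algebraMap (⟨w, Algebra.self_mem_adjoin_singleton F w⟩ :
            Algebra.adjoin F {w})
        · rw [Set.mem_singleton_iff.mp hw]
          exact hy
      | algebraMap a =>
        rw [IsScalarTower.algebraMap_apply F (Algebra.adjoin F {x}) K]
        exact isAlgebraic_algebraMap _
      | add a b _ _ ha hb => exact ha.add hb
      | inv a _ ha => exact ha.inv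
      | mul a b _ _ ha hb => exact ha.mul hb
    have := hb.cardinalMk_eq_trdeg
    simpa using this.symm
  rw [← trdeg_add_eq ℂ F (A := K), hF, h1]
  norm_num

theorem neg_abstract {F K : Type} [Field F] [Field K] [Algebra ℂ F] [Algebra ℂ K] [Algebra F K]
    [IsScalarTower ℂ F K] (hF : Algebra.trdeg ℂ F = 1) (hg : 2 ≤ genus F) (A B : ℂ)
    (hA : A ≠ 0) (hB : B ≠ 0) (hΔ : 4 * A ^ 3 + 27 * B ^ 2 ≠ 0) (x y : K)
    (h : y ^ 2 = x ^ 3 + algebraMap ℂ K A * x + algebraMap ℂ K B) (tx : Transcendental F x)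
    (hxy : IntermediateField.adjoin F {x, y} = ⊤) (L : IntermediateField ℂ K)
    (h3 : Module.finrank L K = 3) : regularForms L ≠ ⊥ := by
  classical
  intro hq
  have hfin : FiniteDimensional L K := Module.finite_of_finrank_pos (by omega)
  let Ab := AlgebraicClosure K
  have halgL : Algebra.IsAlgebraic L Ab := Algebra.IsAlgebraic.trans L K Ab
  have hK2 : Algebra.trdeg ℂ K = 2 := by
    refine negAbs_trdeg hF _ x y h ?_ tx hxy
    have hx : x ∈ Algebra.adjoin F {x} := Algebra.self_mem_adjoin_singleton F x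
    have hc : ∀ a : ℂ, algebraMap ℂ K a ∈ Algebra.adjoin F {x} := fun a => by
      rw [IsScalarTower.algebraMap_apply ℂ F K]
      exact Subalgebra.algebraMap_mem _ _
    exact add_mem (add_mem (pow_mem hx 3) (mul_mem (hc A) hx)) (hc B)
  have hL2 : Algebra.trdeg ℂ L = 2 := by
    have := trdeg_add_eq ℂ L (A := K)
    have h0 : Algebra.trdeg L K = 0 := trdeg_eq_zero_iff.mpr inferInstance
    rw [h0, add_zero, hK2] at this
    exact this
  have hAb2 : Algebra.trdeg ℂ Ab = 2 := by
    have := trdeg_add_eq ℂ K (A := Ab)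
    have h0 : Algebra.trdeg K Ab = 0 := trdeg_eq_zero_iff.mpr inferInstance
    rw [h0, add_zero, hK2] at this
    exact this.symm
  obtain ⟨s, f, r, hs, hf, hr, hω1, hω2⟩ := exists_repr hF hg
  have hcard : Fintype.card (K →ₐ[L] Ab) = 3 := by rw [AlgHom.card, h3]
  let τ : (K →ₐ[L] Ab) → F →ₐ[ℂ] Ab := fun σ =>
    (σ.restrictScalars ℂ).comp (IsScalarTower.toAlgHom ℂ F K)
  have h1 : ∀ D : Derivation ℂ Ab Ab, ∑ σ, τ σ f * D (τ σ s) = 0 := by
    intro D
    have := trace_zero hL2 hq (K := K) (Ab := Ab) _ hω1 D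
    rw [← this]
    exact Finset.sum_congr rfl fun σ _ => by rw [evalForm_smul, evalForm_D]
  have h2 : ∀ D : Derivation ℂ Ab Ab, ∑ σ, τ σ (r * f) * D (τ σ s) = 0 := by
    intro D
    have := trace_zero hL2 hq (K := K) (Ab := Ab) _ hω2 D
    rw [← this]
    exact Finset.sum_congr rfl fun σ _ => by rw [evalForm_smul, evalForm_D]
  obtain ⟨M, hMac, hM1, hM2⟩ := exists_const_field hcard hF hAb2 τ s f r hs hf hr h1 h2
  have hFL := adjoin_eq_top (F := F) (L := L) (K := K) (Ab := Ab) h3 s f hs hf h1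
  have hgen := adjoin_eq_adjoin (Ab := Ab) hFL x y hxy M hM1
  -- the points
  let P : (WeierstrassCurve.Affine.baseChange (sw A B) K).Point :=
    WeierstrassCurve.Affine.Point.some x y (sw_nonsingular A B hΔ x y h)
  have hns : ∀ σ : K →ₐ[L] Ab, (WeierstrassCurve.Affine.baseChange (sw A B) Ab).Nonsingular
      (σ x) (σ y) := by
    intro σ
    apply sw_nonsingular A B hΔ
    have := congrArg σ h
    simp only [map_pow, map_add, map_mul] at this
    rw [this]
    have hc : ∀ c : ℂ, σ (algebraMap ℂ K c) = algebraMap ℂ Ab c := fun c =>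
      (σ.restrictScalars ℂ).commutes c
    rw [hc, hc]
  let Q : (K →ₐ[L] Ab) → (WeierstrassCurve.Affine.baseChange (sw A B) Ab).Point := fun σ =>
    WeierstrassCurve.Affine.Point.some (σ x) (σ y) (hns σ)
  have hsum : ∑ σ, Q σ ∈ rat A B M := sum_conj_mem hq A B hΔ P M
  have hnot : ∀ σ : K →ₐ[L] Ab, σ x ∉ M := by
    intro σ hσ
    obtain ⟨p, hp0, hp⟩ := hM2 σ _ hσ
    apply tx
    let e : F ≃ₐ[ℂ] (τ σ).fieldRange := AlgEquiv.ofInjectiveField (τ σ)
    refine ⟨p.map e.symm.toRingEquiv.toRingHom, ?_, ?_⟩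
    · rwa [Ne, Polynomial.map_eq_zero]
    · apply σ.toRingHom.injective
      rw [map_zero, ← hp, Polynomial.aeval_def, Polynomial.aeval_def, Polynomial.eval₂_map]
      erw [Polynomial.hom_eval₂]
      congr 1
      ext z
      obtain ⟨w, hw⟩ := e.surjective z
      subst hw
      change σ (algebraMap F K (e.symm (e w))) = ((e w : (τ σ).fieldRange) : Ab)
      rw [e.symm_apply_apply]
      rfl
  have hne : Nonempty (K →ₐ[L] Ab) := by
    rw [← Fintype.card_pos_iff, hcard]; norm_num
  obtain ⟨σ₀⟩ := hne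
  have hQ : ∀ σ, Q σ - Q σ₀ ∈ rat A B M ∨ Q σ + Q σ₀ ∈ rat A B M := by
    intro σ
    exact point_of_auto A B hA hB hΔ M (σ₀ x) (σ₀ y) (σ x) (σ y) (hns σ₀) (hns σ) (hnot σ₀)
      (hnot σ) (hgen σ₀ σ)
  rcases negAbs_group' hcard (rat A B M) Q hsum σ₀ hQ with h | h
  · exact three_nsmul_not_mem A B hΔ M (σ₀ x) (σ₀ y) (hns σ₀) (hnot σ₀) h
  · exact hnot σ₀ ((some_mem_rat A B M _ _ _).mp h).1

end Pool.Agent.DegThree
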