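import Pool.Agent.Lib_MP_9293ae_ag.Defs
import Pool.Agent.Lib_MP_1209e6_ag.Der
import Pool.Agent.Lib_MP_1209e6_ag.Rational

/-! Piece Plane: the plane has no regular one-forms. -/

set_option autoImplicit false

open scoped Polynomial IntermediateField

namespace Pool.Agent.DegThree

open Pool.Agent.Campana Pool.Agent.Campana.RatPlace Polynomial

namespace PlanePiece

lemma isPrimeDivisor {L : Type} [Field L] [Algebra ℂ L] (F : IntermediateField ℂ L) (y : L)
    (P : F[X]) (hP : Irreducible P) (O : ValuationSubring L) (hdvr : IsDiscreteValuationRing O)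
    (hO : ∀ z, z ∈ O ↔ ∃ A B : F[X], ¬ P ∣ B ∧ z = aeval y A / aeval y B)
    (v : L) (hv : v ∈ F) (hvt : Transcendental ℂ v) : IsPrimeDivisor O := by
  have hF : ∀ z ∈ F, z ∈ O := by
    intro z hz
    refine (hO z).2 ⟨C ⟨z, hz⟩, 1, ?_, ?_⟩
    · intro h
      exact hP.not_isUnit (isUnit_of_dvd_one h)
    · rw [map_one, div_one, aeval_C]
      rfl
  refine ⟨fun c => hF _ (F.algebraMap_mem c), hdvr, v, hF v hv, fun p hp => ?_⟩
  have h0 : aeval v p ≠ 0 := fun h => hp ((transcendental_iff.1 hvt) p h)
  have h1 : aeval v p ∈ F := by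
    have : aeval v p = ((aeval (⟨v, hv⟩ : F) p : F) : L) := by
      rw [← IntermediateField.algebraMap_apply, ← aeval_algebraMap_apply]
      rfl
    rw [this]
    exact SetLike.coe_mem _
  have h2 : O.valuation (aeval v p) ≤ 1 := (O.valuation_le_one_iff _).2 (hF _ h1)
  have h3 : O.valuation (aeval v p)⁻¹ ≤ 1 := (O.valuation_le_one_iff _).2 (hF _ (inv_mem h1))
  rw [map_inv₀] at h3
  have h4 : O.valuation (aeval v p) ≠ 0 := (Valuation.ne_zero_iff _).2 h0
  refine le_antisymm h2 ?_
  exact (inv_le_one₀ (zero_lt_iff.2 h4)).1 h3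

lemma lift_mem {L : Type} [Field L] [Algebra ℂ L] (W : ValuationSubring L) (ω : Ω[L⁄ℂ])
    (hω : RegularAt W ω) (D : Derivation ℂ L L) (hD : ∀ z ∈ W, D z ∈ W) :
    D.liftKaehlerDifferential ω ∈ W := by
  obtain ⟨n, a, b, ha, hb, rfl⟩ := hω
  rw [map_sum]
  refine sum_mem fun i _ => ?_
  rw [map_smul, Derivation.liftKaehlerDifferential_comp_D, smul_eq_mul]
  exact mul_mem (ha i) (hD _ (hb i))

end PlanePiece

open PlanePiece

theorem regularForms_plane {L : Type} [Field L] [Algebra ℂ L]
    (e : FractionRing (MvPolynomial (Fin 2) ℂ) ≃ₐ[ℂ] L) : regularForms L = ⊥ := by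
  classical
  -- coordinates
  obtain ⟨s, hs, hgen⟩ : ∃ s : Fin 2 → L, AlgebraicIndependent ℂ s ∧
      IntermediateField.adjoin ℂ (Set.range s) = ⊤ := by
    let f : MvPolynomial (Fin 2) ℂ →ₐ[ℂ] L := (e : FractionRing (MvPolynomial (Fin 2) ℂ) →ₐ[ℂ] L).comp
      (IsScalarTower.toAlgHom ℂ (MvPolynomial (Fin 2) ℂ) (FractionRing (MvPolynomial (Fin 2) ℂ)))
    have hf : Function.Injective f := e.injective.comp (IsFractionRing.injective _ _)
    have hfe : f = MvPolynomial.aeval (fun i => f (MvPolynomial.X i)) := by
      ext i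
      simp
    refine ⟨fun i => f (MvPolynomial.X i), ?_, ?_⟩
    · rw [AlgebraicIndependent, ← hfe]
      exact hf
    · rw [eq_top_iff]
      intro z _
      obtain ⟨w, rfl⟩ := e.surjective z
      obtain ⟨a, b, hb, rfl⟩ := IsFractionRing.div_surjective (A := MvPolynomial (Fin 2) ℂ) w
      have key : ∀ a : MvPolynomial (Fin 2) ℂ, f a ∈ IntermediateField.adjoin ℂ
          (Set.range fun i => f (MvPolynomial.X i)) := by
        intro a
        have h1 : f a = MvPolynomial.aeval (fun i => f (MvPolynomial.X i)) a := by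
          conv_lhs => rw [hfe]
        rw [h1]
        refine IntermediateField.algebra_adjoin_le_adjoin ℂ _ ?_
        rw [Algebra.adjoin_range_eq_range_aeval]
        exact ⟨a, rfl⟩
      rw [map_div₀]
      exact div_mem (key a) (key b)
  -- partial derivatives
  have hd : ∀ i : Fin 2, ∃ D : Derivation ℂ L L, ∀ l, D (s l) = (Pi.single i 1 : Fin 2 → L) l :=
    fun i => exists_derivation s hs _
  choose d hd using hd
  rw [eq_bot_iff]
  intro ω hω
  rw [Submodule.mem_bot]
  -- it suffices to show that the coefficients vanish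
  suffices hmain : ∀ i j : Fin 2, i ≠ j → (d j).liftKaehlerDifferential ω = 0 by
    have hall : ∀ j : Fin 2, (d j).liftKaehlerDifferential ω = 0 := by
      intro j
      fin_cases j
      · exact hmain 1 0 (by decide)
      · exact hmain 0 1 (by decide)
    rw [← Module.forall_dual_apply_eq_zero_iff L ω]
    intro φ
    set D : Derivation ℂ L L := φ.compDer (KaehlerDifferential.D ℂ L) with hD
    have h1 : ∀ z : L, (D - ∑ i, (D (s i)) • d i) z = 0 := by
      intro z
      refine der_adjoin_zero _ (Set.range s) ?_ z (by rw [hgen]; trivial)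
      rintro _ ⟨l, rfl⟩
      rw [Derivation.sub_apply, sum_smul_apply]
      simp [hd, Pi.single_apply]
    have h2 : D = ∑ i, (D (s i)) • d i := by
      ext z
      have := h1 z
      rw [Derivation.sub_apply] at this
      exact sub_eq_zero.1 this
    have h3 : φ = D.liftKaehlerDifferential := by
      apply Derivation.liftKaehlerDifferential_unique
      ext z
      simp [hD]
    have h4 : ∀ τ : Ω[L⁄ℂ], D.liftKaehlerDifferential τ =
        ∑ i, D (s i) * (d i).liftKaehlerDifferential τ := by
      intro τ
      have h5 : D.liftKaehlerDifferential = ∑ i, D (s i) • (d i).liftKaehlerDifferential := by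
        symm
        apply Derivation.liftKaehlerDifferential_unique
        ext z
        have h6 := h1 z
        rw [Derivation.sub_apply, sum_smul_apply, sub_eq_zero] at h6
        have h7 : (D.liftKaehlerDifferential.compDer (KaehlerDifferential.D ℂ L)) z = D z := by
          simp
        rw [h7, h6]
        simp
      rw [h5]
      simp
    rw [h3, h4]
    simp [hall]
  intro i j hij
  set x : L := s j with hx
  let F : IntermediateField ℂ L := IntermediateField.adjoin ℂ {s i}
  have hll : ∀ l : Fin 2, l = i ∨ l = j := by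
    intro l
    fin_cases i <;> fin_cases j <;> fin_cases l <;> simp_all
  -- the derivation kills `F`
  have hdj : ∀ z ∈ F, d j z = 0 := by
    intro z hz
    refine der_adjoin_zero (d j) _ ?_ z hz
    intro w hw
    rw [Set.mem_singleton_iff] at hw
    rw [hw, hd, Pi.single_apply, if_neg hij]
  have hdF : ∀ z ∈ F, d j z ∈ F := fun z hz => by
    rw [hdj z hz]
    exact zero_mem _
  have hdx : d j x = 1 := by
    rw [hx, hd, Pi.single_eq_same]
  have hxt : Transcendental F x := by
    intro ha
    have h1 := derivation_eq_zero (d j) F hdj x ha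
    rw [hdx] at h1
    exact one_ne_zero h1
  have hx0 : x ≠ 0 := by
    intro h0
    rw [h0] at hxt
    exact hxt isAlgebraic_zero
  have hxt' : Transcendental F x⁻¹ := by
    intro ha
    exact hxt (by simpa using ha.inv)
  have hgen0 : ∀ y : L, x ∈ IntermediateField.adjoin F {y} →
      ∀ z : L, z ∈ IntermediateField.adjoin F {y} := by
    intro y hy z
    have h1 : z ∈ IntermediateField.adjoin ℂ (Set.range s) := by rw [hgen]; trivial
    have h2 : IntermediateField.adjoin ℂ (Set.range s) ≤
        (IntermediateField.adjoin F {y}).restrictScalars ℂ := by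
      rw [IntermediateField.adjoin_le_iff]
      rintro _ ⟨l, rfl⟩
      rcases hll l with hl | hl
      · have h3 : s l ∈ F := IntermediateField.subset_adjoin _ _ (by rw [hl]; rfl)
        exact (IntermediateField.adjoin F {y}).algebraMap_mem (⟨s l, h3⟩ : F)
      · subst hl
        exact hy
    exact h2 h1
  have hgx : ∀ z : L, ∃ A B : F[X], z = aeval x A / aeval x B := fun z =>
    (IntermediateField.mem_adjoin_simple_iff F z).1
      (hgen0 x (IntermediateField.mem_adjoin_simple_self F x) z)
  have hgx' : ∀ z : L, ∃ A B : F[X], z = aeval x⁻¹ A / aeval x⁻¹ B := fun z =>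
    (IntermediateField.mem_adjoin_simple_iff F z).1
      (hgen0 x⁻¹ (by
        have := inv_mem (IntermediateField.mem_adjoin_simple_self F x⁻¹)
        rwa [inv_inv] at this) z)
  have hsi : s i ∈ F := IntermediateField.subset_adjoin _ _ rfl
  have hsit : Transcendental ℂ (s i) := hs.transcendental i
  set a : L := (d j).liftKaehlerDifferential ω with ha
  obtain ⟨H, hH⟩ : ∃ H : F[X], a = aeval x H := by
    refine poly_of_places x hxt hgx a fun P hP => ?_
    obtain ⟨O, hdvr, hO⟩ := exists_place x hxt hgx P hP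
    refine (hO a).1 ?_
    refine lift_mem O ω (hω O (isPrimeDivisor F x P hP O hdvr hO (s i) hsi hsit)) (d j) ?_
    exact fun z hz => der_place F (d j) x hdF (by rw [hdx]; exact one_mem _) P hP O hO z hz
  by_contra ha0
  have hH0 : H ≠ 0 := by
    rintro rfl
    exact ha0 (by rw [hH, map_zero])
  obtain ⟨O, hdvr, hO⟩ := exists_place x⁻¹ hxt' hgx' X irreducible_X
  have h1 : (x ^ 2 • d j).liftKaehlerDifferential ω ∈ O := by
    refine lift_mem O ω (hω O (isPrimeDivisor F x⁻¹ X irreducible_X O hdvr hO (s i) hsi hsit)) _ ?_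
    intro z hz
    refine der_place F (x ^ 2 • d j) x⁻¹ ?_ ?_ X irreducible_X O hO z hz
    · intro z hz
      rw [Derivation.smul_apply, hdj z hz, smul_zero]
      exact zero_mem _
    · rw [Derivation.smul_apply, Derivation.leibniz_inv, hdx, smul_eq_mul, smul_eq_mul, mul_one,
        mul_neg, ← mul_pow, mul_inv_cancel₀ hx0, one_pow]
      exact neg_mem (one_mem _)
  have h2 : (x ^ 2 • d j).liftKaehlerDifferential ω = x ^ 2 * a := by
    have h5 : (x ^ 2 • d j).liftKaehlerDifferential = x ^ 2 • (d j).liftKaehlerDifferential := by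
      symm
      apply Derivation.liftKaehlerDifferential_unique
      ext z
      simp
    rw [h5, LinearMap.smul_apply, smul_eq_mul]
  rw [h2] at h1
  obtain ⟨A, B, hB, h4⟩ := (hO _).1 h1
  rw [hH] at h4
  exact not_infty x hxt H hH0 2 (by omega) A B hB h4

end Pool.Agent.DegThree
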