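import Pool.Agent.Lib_MP_9293ae_ag.PosAsm
import Pool.Agent.Lib_MP_9293ae_ag.NegAbs
import Pool.Agent.Lib_MP_9293ae_ag.Plane
import Pool.Agent.Lib_MP_9293ae_ag.GenusOne

/-! The main theorem: degree three maps from the product of an elliptic curve and a curve. -/

set_option autoImplicit false

open scoped Polynomial IntermediateField TensorProduct

namespace Pool.Agent.DegThree

theorem neg (E : WeierstrassCurve ℂ) [E.IsElliptic] (h0 : E.j ≠ 0) (h1 : E.j ≠ 1728)
    (F : Type) [Field F] [Algebra ℂ F] (hF : IsFunctionField 1 F) (hg : 2 ≤ genus F)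
    (K : Type) [Field K] [Algebra ℂ K] [Algebra (E.toAffine.FunctionField ⊗[ℂ] F) K]
    [IsScalarTower ℂ (E.toAffine.FunctionField ⊗[ℂ] F) K]
    [IsFractionRing (E.toAffine.FunctionField ⊗[ℂ] F) K] (L : IntermediateField ℂ K)
    (h3 : Module.finrank L K = 3) : regularForms L ≠ ⊥ := by
  obtain ⟨A, B, x, y, hA, hB, hΔ, he, tx, hxy⟩ := exists_short E
  let l := tinl E.toAffine.FunctionField F K
  let r := tinr E.toAffine.FunctionField F K
  let _ : Algebra F K := r.toRingHom.toAlgebra
  have : IsScalarTower ℂ F K := IsScalarTower.of_algebraMap_eq fun c => (r.commutes c).symm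
  have hl : ∀ c : ℂ, l (algebraMap ℂ _ c) = algebraMap ℂ K c := l.commutes
  refine neg_abstract (F := F) (K := K) hF.trdeg hg A B (hA h0) (hB h1) hΔ (l x) (l y) ?_ ?_ ?_
    L h3
  · rw [← map_pow, he, map_add, map_add, map_mul, map_pow, hl, hl]
  · rintro ⟨p, hp, hp0⟩
    exact tensor_transcendental E.toAffine.FunctionField F K x tx p hp hp0
  · have h := tensor_generated E.toAffine.FunctionField F K
      ((IntermediateField.adjoin F {l x, l y}).restrictScalars ℂ) {x, y} hxy ?_ ?_
    · exact (IntermediateField.restrictScalars_eq_top_iff).mp h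
    · rintro z (rfl | hz)
      · exact IntermediateField.subset_adjoin F _ (Set.mem_insert _ _)
      · rw [Set.mem_singleton_iff.mp hz]
        exact IntermediateField.subset_adjoin F _ (Set.mem_insert_of_mem _ rfl)
    · intro a
      exact (IntermediateField.adjoin F {l x, l y}).algebraMap_mem a

/-- The main theorem. -/
theorem main :
    (∀ (E₁ E₂ : WeierstrassCurve ℂ) [E₁.IsElliptic] [E₂.IsElliptic],
      (IsFunctionField 1 E₂.toAffine.FunctionField ∧ genus E₂.toAffine.FunctionField = 1) ∧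
      ∀ (K : Type) [Field K] [Algebra ℂ K]
        [Algebra (E₁.toAffine.FunctionField ⊗[ℂ] E₂.toAffine.FunctionField) K]
        [IsScalarTower ℂ (E₁.toAffine.FunctionField ⊗[ℂ] E₂.toAffine.FunctionField) K]
        [IsFractionRing (E₁.toAffine.FunctionField ⊗[ℂ] E₂.toAffine.FunctionField) K],
        HasMapToPlane K 3) ∧
    (∀ (E : WeierstrassCurve ℂ) [E.IsElliptic], E.j ≠ 0 → E.j ≠ 1728 →
      ∀ (F : Type) [Field F] [Algebra ℂ F], IsFunctionField 1 F → 2 ≤ genus F →
      ∀ (K : Type) [Field K] [Algebra ℂ K] [Algebra (E.toAffine.FunctionField ⊗[ℂ] F) K]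
        [IsScalarTower ℂ (E.toAffine.FunctionField ⊗[ℂ] F) K]
        [IsFractionRing (E.toAffine.FunctionField ⊗[ℂ] F) K],
        ¬ HasMapToPlane K 3 ∧
        ∀ L : IntermediateField ℂ K, Module.finrank L K = 3 → regularForms L ≠ ⊥) := by
  refine ⟨fun E₁ E₂ _ _ => ⟨genus_elliptic E₂, fun K _ _ _ _ _ => pos E₁ E₂ K⟩,
    fun E _ h0 h1 F _ _ hF hg K _ _ _ _ _ => ⟨?_, fun L hL => neg E h0 h1 F hF hg K L hL⟩⟩
  rintro ⟨x, y, hxy, h3⟩
  refine neg E h0 h1 F hF hg K (IntermediateField.adjoin ℂ {x, y}) h3 ?_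
  have hr : Set.range ![x, y] = {x, y} := by
    ext z
    simp [eq_comm, or_comm]
  have e := hxy.aevalEquivField
  rw [hr] at e
  exact regularForms_plane e

end Pool.Agent.DegThree
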