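import Pool.Agent.Lib_MP_9293ae_ag.NoDefs2
import Pool.Agent.Lib_MP_1209e6_ag.Der

/-! Piece BASIS: expansion of derivations, 1-forms and 2-forms in coordinates. -/

set_option autoImplicit false

namespace Pool.Agent.DegThree

open scoped TensorProduct

/-- A derivation with values in a vector space which vanishes on a subfield vanishes on the
elements which are algebraic over it. -/
theorem derMod_eq_zero {k K M : Type} [Field k] [CharZero k] [Field K] [Algebra k K]
    [AddCommGroup M] [Module k M] [Module K M] [IsScalarTower k K M]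
    (d : Derivation k K M) (F : IntermediateField k K) (hF : ∀ x ∈ F, d x = 0) (z : K)
    (hz : IsAlgebraic F z) : d z = 0 := by
  let dF : Derivation F K M :=
    { toFun := d
      map_add' := d.map_add
      map_smul' := fun f x => by
        have h1 : f • x = (f : K) * x := rfl
        have h2 : (RingHom.id F f) • d x = (f : K) • d x := rfl
        rw [h2, h1, d.leibniz, hF _ f.2, smul_zero, add_zero]
      map_one_eq_zero' := d.map_one_eq_zero
      leibniz' := d.leibniz }
  have hz' : IsIntegral F z := hz.isIntegral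
  have h1 := dF.map_aeval (minpoly F z) z
  rw [minpoly.aeval, map_zero] at h1
  have h4 : Polynomial.aeval z (Polynomial.derivative (minpoly F z)) ≠ 0 :=
    (minpoly.irreducible hz').separable.aeval_derivative_ne_zero (minpoly.aeval F z)
  exact (smul_eq_zero.mp h1.symm).resolve_left h4

/-- A derivation with values in a vector space which vanishes on a transcendence basis is zero. -/
theorem derMod_eq_zero_of_basis {k K M ι : Type} [Field k] [CharZero k] [Field K] [Algebra k K]
    [AddCommGroup M] [Module k M] [Module K M] [IsScalarTower k K M]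
    (d : Derivation k K M) (x : ι → K) (hx : IsTranscendenceBasis k x) (h : ∀ i, d (x i) = 0)
    (z : K) : d z = 0 := by
  have hF : ∀ y ∈ IntermediateField.adjoin k (Set.range x), d y = 0 := by
    intro y hy
    induction hy using IntermediateField.adjoin_induction with
    | mem y hy => obtain ⟨i, rfl⟩ := hy; exact h i
    | algebraMap c => exact d.map_algebraMap c
    | add a b _ _ ha hb => rw [map_add, ha, hb, add_zero]
    | inv a _ ha => rw [Derivation.leibniz_inv, ha, smul_zero]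
    | mul a b _ _ ha hb => rw [d.leibniz, ha, hb, smul_zero, smul_zero, add_zero]
  have : Algebra.IsAlgebraic (IntermediateField.adjoin k (Set.range x)) K := hx.isAlgebraic_field
  exact derMod_eq_zero d _ hF z (Algebra.IsAlgebraic.isAlgebraic z)

theorem exists_dual {K : Type} [Field K] [Algebra ℂ K] (x y : K)
    (hb : IsTranscendenceBasis ℂ ![x, y]) :
    ∃ D₁ D₂ : Derivation ℂ K K, D₁ x = 1 ∧ D₁ y = 0 ∧ D₂ x = 0 ∧ D₂ y = 1 := by
  obtain ⟨dU, hU⟩ := Campana.exists_derivation ![x, y] hb.1 ![1, 0]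
  obtain ⟨dV, hV⟩ := Campana.exists_derivation ![x, y] hb.1 ![0, 1]
  exact ⟨dU, dV, by simpa using hU 0, by simpa using hU 1, by simpa using hV 0,
    by simpa using hV 1⟩

theorem der_expand {K : Type} [Field K] [Algebra ℂ K] (x y : K)
    (hb : IsTranscendenceBasis ℂ ![x, y]) (D₁ D₂ : Derivation ℂ K K)
    (h : D₁ x = 1 ∧ D₁ y = 0 ∧ D₂ x = 0 ∧ D₂ y = 1) (D : Derivation ℂ K K) (a : K) :
    D a = D x * D₁ a + D y * D₂ a := by
  obtain ⟨h1, h2, h3, h4⟩ := h
  have := derMod_eq_zero_of_basis (D - (D x • D₁ + D y • D₂)) ![x, y] hb (by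
    intro i
    fin_cases i
    · simp [h1, h3]
    · simp [h2, h4]) a
  simpa [sub_eq_zero] using this

theorem ev_D {K : Type} [Field K] [Algebra ℂ K] (D : Derivation ℂ K K) (a : K) :
    ev D (KaehlerDifferential.D ℂ K a) = D a := D.liftKaehlerDifferential_comp_D a

theorem ev_smul {K : Type} [Field K] [Algebra ℂ K] (D : Derivation ℂ K K) (a : K) (ω : Ω[K⁄ℂ]) :
    ev D (a • ω) = a * ev D ω := by
  simp [ev]

theorem ev_add {K : Type} [Field K] [Algebra ℂ K] (D : Derivation ℂ K K) (ω η : Ω[K⁄ℂ]) :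
    ev D (ω + η) = ev D ω + ev D η := by
  simp [ev]

theorem ev_zero {K : Type} [Field K] [Algebra ℂ K] (D : Derivation ℂ K K) :
    ev D (0 : Ω[K⁄ℂ]) = 0 := by
  simp [ev]

theorem omega_expand {K : Type} [Field K] [Algebra ℂ K] (x y : K)
    (hb : IsTranscendenceBasis ℂ ![x, y]) (D₁ D₂ : Derivation ℂ K K)
    (h : D₁ x = 1 ∧ D₁ y = 0 ∧ D₂ x = 0 ∧ D₂ y = 1) (θ : Ω[K⁄ℂ]) :
    θ = ev D₁ θ • KaehlerDifferential.D ℂ K x + ev D₂ θ • KaehlerDifferential.D ℂ K y := by
  obtain ⟨h1, h2, h3, h4⟩ := h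
  have ex : ∀ c : K, KaehlerDifferential.D ℂ K c =
      D₁ c • KaehlerDifferential.D ℂ K x + D₂ c • KaehlerDifferential.D ℂ K y := by
    intro c
    let e : Derivation ℂ K Ω[K⁄ℂ] := KaehlerDifferential.D ℂ K -
      ((LinearMap.toSpanSingleton K Ω[K⁄ℂ] (KaehlerDifferential.D ℂ K x)).compDer D₁ +
      (LinearMap.toSpanSingleton K Ω[K⁄ℂ] (KaehlerDifferential.D ℂ K y)).compDer D₂)
    have he : ∀ z, e z = KaehlerDifferential.D ℂ K z - (D₁ z • KaehlerDifferential.D ℂ K x +
      D₂ z • KaehlerDifferential.D ℂ K y) := fun z => rfl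
    have := derMod_eq_zero_of_basis e ![x, y] hb (by
      intro i
      rw [he]
      fin_cases i
      · simp [h1, h3]
      · simp [h2, h4]) c
    rw [he] at this
    exact sub_eq_zero.1 this
  have hθ : θ ∈ Submodule.span K (Set.range (KaehlerDifferential.D ℂ K)) := by
    rw [KaehlerDifferential.span_range_derivation]; trivial
  induction hθ using Submodule.span_induction with
  | mem θ hθ =>
    obtain ⟨c, rfl⟩ := hθ
    rw [ev_D, ev_D]
    exact ex c
  | zero => simp [ev_zero]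
  | add θ η _ _ hθ hη =>
    rw [ev_add, ev_add, add_smul, add_smul]
    nth_rewrite 1 [hθ, hη]
    abel
  | smul a θ _ hθ =>
    rw [ev_smul, ev_smul, mul_smul, mul_smul, ← smul_add, ← hθ]

section wedge

variable {K : Type} [Field K] [Algebra ℂ K]

theorem upd0 (ω η : Ω[K⁄ℂ]) : (![ω, η] : Fin 2 → Ω[K⁄ℂ]) = Function.update ![0, η] 0 ω := by
  ext i; fin_cases i <;> simp

theorem upd1 (ω η : Ω[K⁄ℂ]) : (![ω, η] : Fin 2 → Ω[K⁄ℂ]) = Function.update ![ω, 0] 1 η := by
  ext i; fin_cases i <;> simp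

theorem wedge_add_left (ω ω' η : Ω[K⁄ℂ]) : wedge (ω + ω') η = wedge ω η + wedge ω' η := by
  unfold wedge
  rw [upd0, AlternatingMap.map_update_add, ← upd0, ← upd0]

theorem wedge_smul_left (a : K) (ω η : Ω[K⁄ℂ]) : wedge (a • ω) η = a • wedge ω η := by
  unfold wedge
  rw [upd0, AlternatingMap.map_update_smul, ← upd0]

theorem wedge_add_right (ω η η' : Ω[K⁄ℂ]) : wedge ω (η + η') = wedge ω η + wedge ω η' := by
  unfold wedge
  rw [upd1, AlternatingMap.map_update_add, ← upd1, ← upd1]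

theorem wedge_smul_right (a : K) (ω η : Ω[K⁄ℂ]) : wedge ω (a • η) = a • wedge ω η := by
  unfold wedge
  rw [upd1, AlternatingMap.map_update_smul, ← upd1]

theorem wedge_self (ω : Ω[K⁄ℂ]) : wedge ω ω = 0 :=
  AlternatingMap.map_eq_zero_of_eq _ _ (i := 0) (j := 1) rfl (by decide)

theorem wedge_swap (ω η : Ω[K⁄ℂ]) : wedge η ω = -wedge ω η := by
  have h := wedge_self (ω + η)
  rw [wedge_add_left, wedge_add_right, wedge_add_right, wedge_self, wedge_self] at h
  rw [eq_neg_iff_add_eq_zero, ← h]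
  abel

end wedge

theorem wedge_expand {K : Type} [Field K] [Algebra ℂ K] (x y : K)
    (hb : IsTranscendenceBasis ℂ ![x, y]) (D₁ D₂ : Derivation ℂ K K)
    (h : D₁ x = 1 ∧ D₁ y = 0 ∧ D₂ x = 0 ∧ D₂ y = 1) (ω η : Ω[K⁄ℂ]) :
    wedge ω η = (ev D₁ ω * ev D₂ η - ev D₂ ω * ev D₁ η) •
      wedge (KaehlerDifferential.D ℂ K x) (KaehlerDifferential.D ℂ K y) := by
  conv_lhs => rw [omega_expand x y hb D₁ D₂ h ω, omega_expand x y hb D₁ D₂ h η]
  rw [wedge_add_left, wedge_add_right, wedge_add_right]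
  simp only [wedge_smul_left, wedge_smul_right, wedge_self, smul_zero, zero_add, add_zero]
  rw [wedge_swap (KaehlerDifferential.D ℂ K x) (KaehlerDifferential.D ℂ K y)]
  module

theorem smul_wedge_eq_zero {K : Type} [Field K] [Algebra ℂ K] (x y : K)
    (hb : IsTranscendenceBasis ℂ ![x, y]) (c : K)
    (hc : c • wedge (KaehlerDifferential.D ℂ K x) (KaehlerDifferential.D ℂ K y) = 0) :
    c = 0 := by
  obtain ⟨D₁, D₂, h1, h2, h3, h4⟩ := exists_dual x y hb
  let l : Ω[K⁄ℂ] →ₗ[K] (Fin 2 → K) :=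
    LinearMap.pi ![D₁.liftKaehlerDifferential, D₂.liftKaehlerDifferential]
  let φ : Ω[K⁄ℂ] [⋀^Fin 2]→ₗ[K] K := (Matrix.detRowAlternating (R := K) (n := Fin 2)).compLinearMap l
  have e : exteriorPower.alternatingMapLinearEquiv φ
      (wedge (KaehlerDifferential.D ℂ K x) (KaehlerDifferential.D ℂ K y)) = 1 := by
    unfold wedge
    rw [exteriorPower.alternatingMapLinearEquiv_apply_ιMulti]
    change Matrix.det (fun i => l (![KaehlerDifferential.D ℂ K x, KaehlerDifferential.D ℂ K y] i)) = 1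
    rw [Matrix.det_fin_two]
    simp [l, h1, h2, h3, h4]
  have := congrArg (exteriorPower.alternatingMapLinearEquiv φ) hc
  rw [map_smul, e, map_zero, smul_eq_mul, mul_one] at this
  exact this

theorem two_form_expand {K : Type} [Field K] [Algebra ℂ K] (x y : K)
    (hb : IsTranscendenceBasis ℂ ![x, y]) (ξ : ⋀[K]^2 Ω[K⁄ℂ]) :
    ∃ c : K, ξ = c • wedge (KaehlerDifferential.D ℂ K x) (KaehlerDifferential.D ℂ K y) := by
  obtain ⟨D₁, D₂, h⟩ := exists_dual x y hb
  have hξ : ξ ∈ Submodule.span K (Set.range (exteriorPower.ιMulti K 2 (M := Ω[K⁄ℂ]))) := by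
    rw [exteriorPower.ιMulti_span]; trivial
  induction hξ using Submodule.span_induction with
  | mem ξ hξ =>
    obtain ⟨v, rfl⟩ := hξ
    have : v = ![v 0, v 1] := by ext i; fin_cases i <;> rfl
    refine ⟨ev D₁ (v 0) * ev D₂ (v 1) - ev D₂ (v 0) * ev D₁ (v 1), ?_⟩
    conv_lhs => rw [this]
    exact wedge_expand x y hb D₁ D₂ h (v 0) (v 1)
  | zero => exact ⟨0, by simp⟩
  | add ξ ξ' _ _ h1 h2 =>
    obtain ⟨c, rfl⟩ := h1
    obtain ⟨c', rfl⟩ := h2
    exact ⟨c + c', by rw [add_smul]⟩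
  | smul a ξ _ h1 =>
    obtain ⟨c, rfl⟩ := h1
    exact ⟨a * c, by rw [mul_smul]⟩

end Pool.Agent.DegThree
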