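import Pool.Agent.Lib_MP_9293ae_ag.NoStructBase

/-! A valuation ring above `A` is a localisation of the integral closure of `A`. -/

set_option autoImplicit false

namespace Pool.Agent.DegThree

namespace StructQ

open Polynomial StructBase

variable {K L : Type} [Field K] [Field L] [Algebra K L]

/-- Integrality in terms of polynomials over `K` with coefficients in `A`. -/
theorem exists_monic {A : ValuationSubring K} {x : L}
    (h : ((algebraMap K L).comp A.subtype).IsIntegralElem x) :
    ∃ p : K[X], p.Monic ∧ (∀ i, p.coeff i ∈ A) ∧ aeval x p = 0 := by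
  obtain ⟨p, hp, hx⟩ := h
  refine ⟨p.map A.subtype, hp.map _, fun i => ?_, ?_⟩
  · rw [coeff_map]
    exact (p.coeff i).2
  · rw [aeval_def, eval₂_map]
    exact hx

/-- The tails of a relation are integral. -/
theorem tail_integral (A : ValuationSubring K) (P : K[X]) (hPA : ∀ i, P.coeff i ∈ A) (z : L)
    (hz : aeval z P = 0) (j : ℕ) :
    ((algebraMap K L).comp A.subtype).IsIntegralElem
      (∑ i ∈ Finset.Ico j (P.natDegree + 1), algebraMap K L (P.coeff i) * z ^ (i - j)) := by
  classical
  let := ((algebraMap K L).comp A.subtype).toAlgebra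
  set n := P.natDegree with hn
  -- the module spanned by the powers of `z` below `n + 1`
  let N : Submodule A L := Submodule.span A (Set.range fun i : Fin (n + 1) => z ^ (i : ℕ))
  have hsmul : ∀ (a : A) (x : L), a • x = algebraMap K L (a : K) * x := fun a x => rfl
  have hmem : ∀ (a : K), a ∈ A → ∀ m ≤ n, algebraMap K L a * z ^ m ∈ N := by
    intro a ha m hm
    rw [← hsmul ⟨a, ha⟩]
    exact N.smul_mem _ (Submodule.subset_span ⟨⟨m, by omega⟩, rfl⟩)
  have hN : N ≠ ⊥ := by
    intro h0
    have h1 : (1 : L) ∈ N := by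
      have := hmem 1 A.one_mem 0 (by omega)
      simpa using this
    rw [h0, Submodule.mem_bot] at h1
    exact one_ne_zero h1
  have hfg : N.FG := Submodule.fg_span (Set.finite_range _)
  refine isIntegral_of_smul_mem_submodule (R := A) (A := L) (M := L) N hN hfg _ ?_
  intro x hx
  induction hx using Submodule.span_induction with
  | zero => simp
  | add u v _ _ hu hv =>
    rw [smul_add]
    exact N.add_mem hu hv
  | smul a u _ hu =>
    rw [smul_comm]
    exact N.smul_mem _ hu
  | mem u hu =>
    obtain ⟨⟨i, hi⟩, rfl⟩ := hu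
    rw [smul_eq_mul]
    change _ * z ^ i ∈ N
    rcases lt_or_ge i j with hij | hij
    · rw [Finset.sum_mul]
      refine N.sum_mem fun l hl => ?_
      rw [Finset.mem_Ico] at hl
      rw [mul_assoc, ← pow_add]
      exact hmem _ (hPA l) _ (by omega)
    · have h0 : ∑ l ∈ Finset.range j, algebraMap K L (P.coeff l) * z ^ l +
          ∑ l ∈ Finset.Ico j (n + 1), algebraMap K L (P.coeff l) * z ^ l = 0 := by
        rw [Finset.sum_range_add_sum_Ico _ (by omega : j ≤ n + 1), ← hz, aeval_eq_sum_range]
        refine Finset.sum_congr rfl fun l _ => ?_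
        rw [Algebra.smul_def]
      have h1 : (∑ l ∈ Finset.Ico j (n + 1), algebraMap K L (P.coeff l) * z ^ (l - j)) * z ^ i =
          ∑ l ∈ Finset.range j, algebraMap K L (-(P.coeff l)) * z ^ (l + (i - j)) := by
        have h2 : (∑ l ∈ Finset.Ico j (n + 1), algebraMap K L (P.coeff l) * z ^ (l - j)) * z ^ i =
            (∑ l ∈ Finset.Ico j (n + 1), algebraMap K L (P.coeff l) * z ^ l) * z ^ (i - j) := by
          rw [Finset.sum_mul, Finset.sum_mul]
          refine Finset.sum_congr rfl fun l hl => ?_
          rw [Finset.mem_Ico] at hl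
          rw [mul_assoc, mul_assoc, ← pow_add, ← pow_add]
          congr 2
          omega
        rw [h2, eq_neg_of_add_eq_zero_right h0, neg_mul, Finset.sum_mul, ← Finset.sum_neg_distrib]
        refine Finset.sum_congr rfl fun l _ => ?_
        rw [map_neg, pow_add]
        ring
      rw [h1]
      refine N.sum_mem fun l hl => ?_
      rw [Finset.mem_range] at hl
      exact hmem _ (A.neg_mem _ (hPA l)) _ (by omega)

end StructQ

open Polynomial StructBase StructQ in
/-- `O` is localised from the integral closure of `A` -/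
theorem struct_quot {K L : Type} [Field K] [Field L] [Algebra K L] [Algebra.IsAlgebraic K L]
    (A : ValuationSubring K) (O : ValuationSubring L) (hO : O.comap (algebraMap K L) = A)
    (z : L) (hz : z ∈ O) :
    ∃ b s : L, (∃ p : Polynomial K, p.Monic ∧ (∀ i, p.coeff i ∈ A) ∧ Polynomial.aeval b p = 0) ∧
      (∃ p : Polynomial K, p.Monic ∧ (∀ i, p.coeff i ∈ A) ∧ Polynomial.aeval s p = 0) ∧
      O.valuation s = 1 ∧ z * s = b := by
  obtain ⟨P, k, hPz, hPk, hPle, hPlt⟩ := exists_relation A z
  have hPA : ∀ i, P.coeff i ∈ A := fun i => (A.valuation_le_one_iff _).1 (hPle i)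
  have hz1 : O.valuation z ≤ 1 := (O.valuation_le_one_iff _).2 hz
  have hkn : k ≤ P.natDegree := by
    apply le_natDegree_of_ne_zero
    rw [hPk]
    exact one_ne_zero
  set n := P.natDegree with hn
  have hval : O.valuation
      (∑ i ∈ Finset.Ico k (n + 1), algebraMap K L (P.coeff i) * z ^ (i - k)) = 1 := by
    rw [Finset.sum_eq_sum_Ico_succ_bot (by omega), hPk, map_one, Nat.sub_self, pow_zero, mul_one]
    apply Valuation.map_one_add_of_lt
    refine Valuation.map_sum_lt _ one_ne_zero fun i hi => ?_
    rw [Finset.mem_Ico] at hi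
    rw [map_mul, map_pow]
    exact mul_lt_one_of_lt_of_le ((lt_iff hO _).2 (hPlt i (by omega))) (pow_le_one' hz1 _)
  have hk0 : k ≠ 0 := by
    rintro rfl
    have h1 : ∑ i ∈ Finset.Ico 0 (n + 1), algebraMap K L (P.coeff i) * z ^ (i - 0) = 0 := by
      rw [← hPz, aeval_eq_sum_range, Finset.range_eq_Ico]
      refine Finset.sum_congr rfl fun l _ => ?_
      rw [Algebra.smul_def, Nat.sub_zero]
    rw [h1, map_zero] at hval
    exact zero_ne_one hval
  obtain ⟨j, rfl⟩ := Nat.exists_eq_succ_of_ne_zero hk0
  refine ⟨z * (∑ i ∈ Finset.Ico (j + 1) (n + 1), algebraMap K L (P.coeff i) * z ^ (i - (j + 1))),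
    _, ?_, exists_monic (tail_integral A P hPA z hPz (j + 1)), hval, rfl⟩
  apply exists_monic
  have h1 := tail_integral A P hPA z hPz j
  have h2 : ((algebraMap K L).comp A.subtype).IsIntegralElem (algebraMap K L (P.coeff j)) :=
    RingHom.isIntegralElem_map ((algebraMap K L).comp A.subtype) (x := ⟨P.coeff j, hPA j⟩)
  have h3 := h1.sub _ h2
  have e : z * (∑ i ∈ Finset.Ico (j + 1) (n + 1), algebraMap K L (P.coeff i) *
      z ^ (i - (j + 1))) = ∑ i ∈ Finset.Ico j (P.natDegree + 1),
        algebraMap K L (P.coeff i) * z ^ (i - j) - algebraMap K L (P.coeff j) := by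
    rw [Finset.sum_eq_sum_Ico_succ_bot (by omega : j < P.natDegree + 1), Nat.sub_self, pow_zero,
      mul_one, add_sub_cancel_left, Finset.mul_sum]
    refine Finset.sum_congr rfl fun l hl => ?_
    rw [Finset.mem_Ico] at hl
    rw [mul_left_comm, ← pow_succ']
    congr 2
    omega
  rw [e]
  exact h3

end Pool.Agent.DegThree
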