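import Pool.Agent.Lib_MP_9293ae_ag.NoDefs2
import Pool.Agent.Lib_MP_9293ae_ag.NoStructQ

set_option autoImplicit false

namespace Pool.Agent.DegThree

/-- In an artinian ring every element has a multiple which is idempotent and fixes a power. -/
theorem exists_idem {R : Type*} [CommRing R] [IsArtinianRing R] (s : R) :
    ∃ t : R, ∃ n : ℕ, (s * t) * (s * t) = s * t ∧ s ^ n * (s * t) = s ^ n := by
  obtain ⟨n, y, hy⟩ := IsArtinian.exists_pow_succ_smul_dvd s (1 : R)
  have h1 : s ^ n * (s * y) = s ^ n := by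
    have : s ^ (n + 1) * y = s ^ n := by simpa using hy
    calc s ^ n * (s * y) = s ^ (n + 1) * y := by ring
      _ = s ^ n := this
  have h2 : ∀ k, s ^ n * (s * y) ^ k = s ^ n := by
    intro k
    induction k with
    | zero => simp
    | succ k ih =>
      rw [pow_succ, ← mul_assoc, ih, h1]
  have h3 : ∀ k, (s * y) ^ (n + k) = (s * y) ^ n := by
    intro k
    calc (s * y) ^ (n + k) = y ^ n * (s ^ n * (s * y) ^ k) := by ring
      _ = (s * y) ^ n := by rw [h2]; ring
  have e : s * (y * (s * y) ^ n) = (s * y) ^ n := by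
    calc s * (y * (s * y) ^ n) = (s * y) ^ (n + 1) := by ring
      _ = (s * y) ^ n := h3 1
  refine ⟨y * (s * y) ^ n, n, ?_, ?_⟩
  · rw [e, ← pow_add, h3]
  · rw [e, h2]

theorem idem_trace {k R : Type*} [Field k] [CharZero k] [CommRing R] [Algebra k R]
    [Module.Finite k R] (ε : R) (h : ε * ε = ε) (ht : Algebra.trace k R ε = 0) : ε = 0 := by
  rw [Algebra.trace_apply] at ht
  have h4 : IsIdempotentElem (LinearMap.mul k R ε) := by
    refine LinearMap.ext fun z => ?_
    rw [Module.End.mul_apply, LinearMap.mul_apply', LinearMap.mul_apply', ← mul_assoc, h]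
  have h5 := LinearMap.IsIdempotentElem.eq_zero_of_trace_eq_zero h4 ht
  have h6 := LinearMap.congr_fun h5 1
  simpa using h6

open IsLocalRing in
theorem codiff_core {A K L B : Type} [CommRing A] [IsDomain A] [IsDiscreteValuationRing A]
    [Field K] [Algebra A K] [IsFractionRing A K] [Field L] [Algebra K L] [FiniteDimensional K L]
    [Algebra.IsSeparable K L] [Algebra A L] [IsScalarTower A K L] [CommRing B] [IsDomain B]
    [Algebra B L] [Algebra A B] [IsScalarTower A B L] [IsIntegralClosure B A L]
    [CharZero (A ⧸ maximalIdeal A)]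
    (s : B) (hs : ∀ n, s ^ n ∉ Ideal.map (algebraMap A B) (maximalIdeal A)) :
    ∃ t : B, ∃ a : A, algebraMap A K a = Algebra.trace K L (algebraMap B L (s * t)) ∧
      a ∉ maximalIdeal A := by
  have hinj : Function.Injective (algebraMap A L) := by
    rw [IsScalarTower.algebraMap_eq A K L]
    exact (algebraMap K L).injective.comp (IsFractionRing.injective A K)
  have : FaithfulSMul A L := (faithfulSMul_iff_algebraMap_injective A L).mpr hinj
  have : Module.IsTorsionFree A L := inferInstance
  have : Module.IsTorsionFree A B := IsIntegralClosure.isTorsionFree A L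
  have : Module.Finite A B := IsIntegralClosure.finite A K L B
  have : Module.Free A B := IsIntegralClosure.module_free A K L B
  have : IsDedekindDomain B := IsIntegralClosure.isDedekindDomain A K L B
  set pB := Ideal.map (algebraMap A B) (maximalIdeal A) with hpB
  let _ : Field (A ⧸ maximalIdeal A) := Ideal.Quotient.field _
  have : Module.Finite (A ⧸ maximalIdeal A) (B ⧸ pB) := inferInstance
  have : IsArtinianRing (B ⧸ pB) := IsArtinianRing.of_finite (A ⧸ maximalIdeal A) (B ⧸ pB)
  obtain ⟨t, n, h1, h2⟩ := exists_idem (Ideal.Quotient.mk pB s)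
  obtain ⟨t, rfl⟩ := Ideal.Quotient.mk_surjective t
  refine ⟨t, Algebra.trace A B (s * t), ?_, ?_⟩
  · rw [← Algebra.intTrace_eq_trace]
    exact Algebra.algebraMap_intTrace (K := K) (L := L) (s * t)
  · intro hmem
    have h3 := Algebra.trace_quotient_mk (R := A) (S := B) (s * t)
    rw [Ideal.Quotient.eq_zero_iff_mem.mpr hmem] at h3
    have h6 : Ideal.Quotient.mk pB (s * t) = 0 :=
      idem_trace _ (by rw [map_mul, h1]) h3
    have h7 : Ideal.Quotient.mk pB s ^ n = 0 := by
      rw [← h2, ← map_mul, h6, mul_zero]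
    rw [← map_pow] at h7
    exact hs n (Ideal.Quotient.eq_zero_iff_mem.mp h7)


theorem codiff {K L : Type} [Field K] [Field L] [Algebra ℂ K] [Algebra ℂ L] [Algebra K L]
    [IsScalarTower ℂ K L] [FiniteDimensional K L] (A : ValuationSubring K) (hC : OverC A)
    (hA : IsDiscreteValuationRing A)
    (hres : ∀ a ∈ A, ∃ c : ℂ, A.valuation (a - algebraMap ℂ K c) < 1)
    (O : ValuationSubring L) (hO : O.comap (algebraMap K L) = A)
    (p : K) (hp0 : p ≠ 0) (hp1 : A.valuation p < 1)
    (hp : ∀ a, A.valuation a < 1 → A.valuation a ≤ A.valuation p)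
    (π : L) (hπ0 : π ≠ 0) (hπ1 : O.valuation π < 1)
    (hπ : ∀ a, O.valuation a < 1 → O.valuation a ≤ O.valuation π)
    (e : ℕ) (he : 1 ≤ e) (u : L) (hu : O.valuation u = 1) (hpe : algebraMap K L p = u * π ^ e)
    (g : L) (hg : ∀ y : L, (∀ O' : ValuationSubring L, O'.comap (algebraMap K L) = A → y ∈ O') →
      A.valuation (Algebra.trace K L (g * y)) ≤ 1) :
    O.valuation (g * π ^ (e - 1)) ≤ 1 := by
  by_contra hcon
  push Not at hcon
  -- `z = (g p)⁻¹` lies in `O`
  have hz : (g * algebraMap K L p)⁻¹ ∈ O := by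
    rw [← O.valuation_le_one_iff, map_inv₀]
    have h1 : O.valuation (g * π ^ (e - 1))⁻¹ < 1 := by
      rw [map_inv₀]
      exact inv_lt_one_of_one_lt₀ hcon
    have h2 := hπ _ h1
    have h3 : O.valuation (g * algebraMap K L p) = O.valuation (g * π ^ (e - 1)) * O.valuation π := by
      rw [hpe, ← map_mul]
      obtain ⟨m, rfl⟩ : ∃ m, e = m + 1 := ⟨e - 1, by omega⟩
      have : g * (u * π ^ (m + 1)) = u * (g * π ^ (m + 1 - 1) * π) := by
        rw [Nat.add_sub_cancel]; ring
      rw [this, map_mul, hu, one_mul]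
    rw [h3]
    have h4 : 1 ≤ O.valuation (g * π ^ (e - 1)) * O.valuation π := by
      calc (1 : O.ValueGroup) = O.valuation (g * π ^ (e - 1)) * O.valuation (g * π ^ (e - 1))⁻¹ := by
            rw [map_inv₀, mul_inv_cancel₀ (by intro h0; rw [h0] at hcon; exact absurd hcon (by simp))]
        _ ≤ _ := by gcongr
    exact inv_le_one_of_one_le₀ h4
  obtain ⟨b, s, ⟨pb, hpb1, hpb2, hpb3⟩, ⟨ps, hps1, hps2, hps3⟩, hs, hzs⟩ := struct_quot A O hO _ hz
  let _ : Algebra A L := ((algebraMap K L).comp A.subtype).toAlgebra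
  have : IsScalarTower A K L := IsScalarTower.of_algebraMap_eq' rfl
  -- integrality criterion
  have hint : ∀ (x : L) (q : Polynomial K), q.Monic → (∀ i, q.coeff i ∈ A) →
      Polynomial.aeval x q = 0 → IsIntegral A x := by
    intro x q h1 h2 h3
    have h4 : q ∈ Polynomial.lifts (algebraMap A K) := by
      rw [Polynomial.lifts_iff_coeff_lifts]
      intro i
      exact ⟨⟨q.coeff i, h2 i⟩, rfl⟩
    obtain ⟨q', hq1, hq2, hq3⟩ := Polynomial.lifts_and_degree_eq_and_monic h4 h1
    refine ⟨q', hq3, ?_⟩
    rw [← h3, ← hq1, Polynomial.aeval_map_algebraMap, Polynomial.aeval_def]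
  have hb : IsIntegral A b := hint b pb hpb1 hpb2 hpb3
  have hs' : IsIntegral A s := hint s ps hps1 hps2 hps3
  -- integral elements are in all `O'`
  have hres : ∀ O' : ValuationSubring L, O'.comap (algebraMap K L) = A → ∀ a : A,
      algebraMap A L a ∈ O' := by
    rintro O' hO' ⟨a, ha⟩
    rw [← hO'] at ha
    exact ha
  have hin : ∀ O' : ValuationSubring L, O'.comap (algebraMap K L) = A → ∀ x : L, IsIntegral A x →
      x ∈ O' := by
    intro O' hO' x hx
    let φ : A →+* O' := (algebraMap A L).codRestrict O' (hres O' hO')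
    have h1 : IsIntegral O' ((RingHom.id L) x) :=
      hx.map_of_comp_eq φ (RingHom.id L) (by ext; rfl)
    obtain ⟨y, hy⟩ := IsIntegrallyClosed.algebraMap_eq_of_integral h1
    rw [RingHom.id_apply] at hy
    rw [← hy]
    exact y.2
  have hgp0 : g * algebraMap K L p ≠ 0 := by
    intro h0
    rw [hpe] at h0
    have hu0 : u ≠ 0 := by
      rintro rfl
      simp at hu
    have hg0 : g = 0 := by
      rcases mul_eq_zero.mp h0 with h | h
      · exact h
      · rcases mul_eq_zero.mp h with h | h
        · exact absurd h hu0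
        · exact absurd h (pow_ne_zero _ hπ0)
    rw [hg0] at hcon
    simp at hcon
  -- the core
  have : CharZero (A ⧸ IsLocalRing.maximalIdeal A) := by
    let φ : ℂ →+* A := (algebraMap ℂ K).codRestrict A hC
    exact charZero_of_injective_ringHom
      ((Ideal.Quotient.mk (IsLocalRing.maximalIdeal A)).comp φ).injective
  have : CharZero K := charZero_of_injective_algebraMap (algebraMap ℂ K).injective
  let B := integralClosure A L
  have hsB : ∀ n, (⟨s, hs'⟩ : B) ^ n ∉
      Ideal.map (algebraMap A B) (IsLocalRing.maximalIdeal A) := by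
    intro n hn
    let ψ : B →+* O := B.val.toRingHom.codRestrict O (fun x => hin O hO x x.2)
    have hle : Ideal.map (algebraMap A B) (IsLocalRing.maximalIdeal A) ≤
        (IsLocalRing.maximalIdeal O).comap ψ := by
      rw [Ideal.map_le_iff_le_comap]
      intro a ha
      rw [Ideal.mem_comap, Ideal.mem_comap, O.valuation_lt_one_iff]
      rw [A.valuation_lt_one_iff] at ha
      have h1 := hp _ ha
      rw [A.valuation_le_iff] at h1
      obtain ⟨c, hc⟩ := h1
      have h2 : ((ψ (algebraMap A B a) : O) : L) = algebraMap K L (a : K) := rfl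
      rw [h2, ← hc, map_mul, map_mul, hpe, map_mul, hu, one_mul, map_pow]
      have h3 : O.valuation (algebraMap K L c) ≤ 1 :=
        (O.valuation_le_one_iff _).mpr (hres O hO c)
      calc O.valuation (algebraMap K L c) * O.valuation π ^ e ≤ 1 * O.valuation π ^ e := by gcongr
        _ < 1 := by
          rw [one_mul]
          exact pow_lt_one₀ zero_le hπ1 (by omega)
    have h4 := hle hn
    rw [Ideal.mem_comap, O.valuation_lt_one_iff] at h4
    have h5 : ((ψ ((⟨s, hs'⟩ : B) ^ n) : O) : L) = s ^ n := rfl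
    rw [h5, map_pow, hs, one_pow] at h4
    exact lt_irrefl _ h4
  obtain ⟨t, a, hat, ha⟩ := codiff_core (A := A) (K := K) (L := L) (B := B) ⟨s, hs'⟩ hsB
  apply ha
  rw [A.valuation_lt_one_iff]
  have h1 : algebraMap B L (⟨s, hs'⟩ * t) = p • (g * (b * (t : L))) := by
    have h2 : algebraMap B L (⟨s, hs'⟩ * t) = s * (t : L) := rfl
    have h3 : s = g * algebraMap K L p * b := by rw [← hzs, mul_inv_cancel_left₀ hgp0]
    rw [h2, Algebra.smul_def]
    nth_rewrite 1 [h3]
    ring
  rw [h1, map_smul, smul_eq_mul] at hat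
  have h3 : ((a : A) : K) = p * Algebra.trace K L (g * (b * (t : L))) := hat
  rw [h3, map_mul]
  have h4 := hg (b * (t : L)) (fun O' hO' => O'.mul_mem _ _ (hin O' hO' b hb) (hin O' hO' _ t.2))
  calc A.valuation p * A.valuation (Algebra.trace K L (g * (b * (t : L))))
      ≤ A.valuation p * 1 := by gcongr
    _ < 1 := by rwa [mul_one]

end Pool.Agent.DegThree
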