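import Mathlib

/-! Definitions: regular differential forms on function fields over `ℂ`, genus, irregularity,
geometric genus. -/

set_option autoImplicit false

namespace Pool.Agent.DegThree

open scoped TensorProduct

/-- the valuation ring `O` contains the constants -/
def OverC {K : Type} [Field K] [Algebra ℂ K] (O : ValuationSubring K) : Prop :=
  ∀ c : ℂ, algebraMap ℂ K c ∈ O

/-- the 1-form `ω` is regular at the valuation ring `O`: it is a sum of terms `a db` with
`a, b ∈ O`. -/
def RegAt {K : Type} [Field K] [Algebra ℂ K] (O : ValuationSubring K) (ω : Ω[K⁄ℂ]) : Prop :=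
  ∃ (n : ℕ) (a b : Fin n → K), (∀ i, a i ∈ O ∧ b i ∈ O) ∧
    ω = ∑ i, a i • KaehlerDifferential.D ℂ K (b i)

/-- the exterior product `ω ∧ η` of two 1-forms -/
noncomputable def wedge {K : Type} [Field K] [Algebra ℂ K] (ω η : Ω[K⁄ℂ]) : ⋀[K]^2 Ω[K⁄ℂ] :=
  exteriorPower.ιMulti K 2 ![ω, η]

/-- the 2-form `ξ` is regular at `O`: it is a sum of terms `a db ∧ dc` with `a, b, c ∈ O`. -/
def RegAt2 {K : Type} [Field K] [Algebra ℂ K] (O : ValuationSubring K)
    (ξ : ⋀[K]^2 Ω[K⁄ℂ]) : Prop :=
  ∃ (n : ℕ) (a b c : Fin n → K), (∀ i, a i ∈ O ∧ b i ∈ O ∧ c i ∈ O) ∧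
    ξ = ∑ i, a i • wedge (KaehlerDifferential.D ℂ K (b i)) (KaehlerDifferential.D ℂ K (c i))

/-- function fields of curves over `ℂ` -/
def IsCurve (M : Type) [Field M] [Algebra ℂ M] : Prop :=
  (⊤ : IntermediateField ℂ M).FG ∧ Algebra.trdeg ℂ M = 1

/-- function fields of surfaces over `ℂ` -/
def IsSurface (K : Type) [Field K] [Algebra ℂ K] : Prop :=
  (⊤ : IntermediateField ℂ K).FG ∧ Algebra.trdeg ℂ K = 2

/-- the space of holomorphic differentials of a curve: the 1-forms of the function field which are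
regular at every valuation ring containing `ℂ` -/
noncomputable def holo (M : Type) [Field M] [Algebra ℂ M] : Submodule ℂ Ω[M⁄ℂ] where
  carrier := {ω | ∀ O : ValuationSubring M, OverC O → RegAt O ω}
  zero_mem' := by
    intro O _
    exact ⟨0, Fin.elim0, Fin.elim0, fun i => i.elim0, by simp⟩
  add_mem' := by
    rintro ω η hω hη O hO
    obtain ⟨n, a, b, h, rfl⟩ := hω O hO
    obtain ⟨m, c, d, h', rfl⟩ := hη O hO
    refine ⟨n + m, Fin.append a c, Fin.append b d, ?_, ?_⟩
    · intro i
      induction i using Fin.addCases <;> simp [h, h']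
    · rw [Fin.sum_univ_add]
      simp
  smul_mem' := by
    rintro c ω hω O hO
    obtain ⟨n, a, b, h, rfl⟩ := hω O hO
    refine ⟨n, fun i => algebraMap ℂ M c * a i, b, fun i => ⟨O.mul_mem _ _ (hO c) (h i).1, (h i).2⟩,
      ?_⟩
    rw [Finset.smul_sum]
    refine Finset.sum_congr rfl fun i _ => ?_
    rw [mul_smul, algebraMap_smul]

/-- the genus of a curve, as the dimension of the space of holomorphic differentials -/
noncomputable def genus (M : Type) [Field M] [Algebra ℂ M] : ℕ := Module.finrank ℂ (holo M)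

/-- `O` is a prime divisor of the function field `K` of a surface: a discrete valuation ring
containing `ℂ` whose residue field is not algebraic over `ℂ`: some `x ∈ O` is such that `p(x)` is a
unit of `O` for every nonzero polynomial `p` over `ℂ`. -/
def PrimeDivisor {K : Type} [Field K] [Algebra ℂ K] (O : ValuationSubring K) : Prop :=
  OverC O ∧ IsDiscreteValuationRing O ∧
    ∃ x ∈ O, ∀ p : Polynomial ℂ, p ≠ 0 →
      Polynomial.aeval x p ≠ 0 ∧ (Polynomial.aeval x p)⁻¹ ∈ O

/-- the surface has irregularity `q = 0`: every 1-form regular at all prime divisors vanishes -/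
def IrregularityZero (K : Type) [Field K] [Algebra ℂ K] : Prop :=
  ∀ ω : Ω[K⁄ℂ], (∀ O : ValuationSubring K, PrimeDivisor O → RegAt O ω) → ω = 0

/-- the surface has geometric genus `p_g = 0`: every 2-form regular at all prime divisors
vanishes -/
def GeometricGenusZero (K : Type) [Field K] [Algebra ℂ K] : Prop :=
  ∀ ξ : ⋀[K]^2 Ω[K⁄ℂ], (∀ O : ValuationSubring K, PrimeDivisor O → RegAt2 O ξ) → ξ = 0

end Pool.Agent.DegThree
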