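import Pool.Agent.Lib_MP_9293ae_ag.NoDefs

/-! Auxiliary notions for the NO part. -/

set_option autoImplicit false

namespace Pool.Agent.DegThree

open scoped TensorProduct

/-- value of a 1-form on a derivation -/
noncomputable def ev {K : Type} [Field K] [Algebra ℂ K] (D : Derivation ℂ K K) (ω : Ω[K⁄ℂ]) : K :=
  D.liftKaehlerDifferential ω

/-- pull-back of 1-forms along an embedding of fields -/
noncomputable def pull {M F : Type} [Field M] [Field F] [Algebra ℂ M] [Algebra ℂ F]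
    (f : M →ₐ[ℂ] F) : Ω[M⁄ℂ] →+ Ω[F⁄ℂ] :=
  letI := f.toRingHom.toAlgebra
  haveI : IsScalarTower ℂ M F := IsScalarTower.of_algebraMap_eq' f.comp_algebraMap.symm
  (KaehlerDifferential.map ℂ ℂ M F).toAddMonoidHom

/-- the Riemann-Roch space `L(k D)`, where `D` is the divisor of poles of `t` -/
def LL {M : Type} [Field M] [Algebra ℂ M] (t : M) (k : ℕ) : Set M :=
  {y | ∀ O : ValuationSubring M, OverC O → (t ∈ O → y ∈ O) ∧ (t ∉ O → (t ^ k)⁻¹ * y ∈ O)}

/-- the field `ℂ(t)` -/
noncomputable abbrev Ct {M : Type} [Field M] [Algebra ℂ M] (t : M) : IntermediateField ℂ M :=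
  IntermediateField.adjoin ℂ {t}

/-- first inclusion into the function field of a product -/
noncomputable def inl (N M F : Type) [Field N] [Field M] [Field F] [Algebra ℂ N] [Algebra ℂ M]
    [Algebra ℂ F] [Algebra (N ⊗[ℂ] M) F] [IsScalarTower ℂ (N ⊗[ℂ] M) F] : N →ₐ[ℂ] F :=
  (IsScalarTower.toAlgHom ℂ (N ⊗[ℂ] M) F).comp Algebra.TensorProduct.includeLeft

/-- second inclusion into the function field of a product -/
noncomputable def inr (N M F : Type) [Field N] [Field M] [Field F] [Algebra ℂ N] [Algebra ℂ M]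
    [Algebra ℂ F] [Algebra (N ⊗[ℂ] M) F] [IsScalarTower ℂ (N ⊗[ℂ] M) F] : M →ₐ[ℂ] F :=
  (IsScalarTower.toAlgHom ℂ (N ⊗[ℂ] M) F).comp Algebra.TensorProduct.includeRight

end Pool.Agent.DegThree
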