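import Pool.Agent.Lib_MP_9293ae_ag.NoStructBase

/-! A valuation ring of a finite extension above a discrete valuation ring is discrete. -/

set_option autoImplicit false

namespace Pool.Agent.DegThree

namespace StructD

open Polynomial StructBase

variable {K L : Type} [Field K] [Field L] [Algebra K L]

theorem zpow_iff {Γ : Type} [LinearOrderedCommGroupWithZero Γ] {γ : Γ} (h0 : γ ≠ 0) (h1 : γ < 1)
    (k : ℤ) : γ ^ k ≤ 1 ↔ 0 ≤ k :=
  zpow_le_one_iff_right_of_lt_one₀ (zero_lt_iff.2 h0) h1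

/-- The values of elements of `K`. -/
theorem exists_zpow_base {A : ValuationSubring K} (hA : IsDiscreteValuationRing A)
    {O : ValuationSubring L} (hO : O.comap (algebraMap K L) = A) (ϖ : A) (hϖ : Irreducible ϖ)
    (a : K) (ha : a ≠ 0) :
    ∃ k : ℤ, O.valuation (algebraMap K L a) = O.valuation (algebraMap K L (ϖ : K)) ^ k := by
  have key : ∀ b : A, b ≠ 0 → ∃ k : ℤ, O.valuation (algebraMap K L (b : K)) =
      O.valuation (algebraMap K L (ϖ : K)) ^ k := by
    intro b hb
    obtain ⟨n, u, hu⟩ := IsDiscreteValuationRing.eq_unit_mul_pow_irreducible hb hϖ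
    refine ⟨n, ?_⟩
    have hv : O.valuation (algebraMap K L ((u : A) : K)) = 1 :=
      (eq_iff hO _).2 ((A.valuation_eq_one_iff _).1 u.isUnit)
    have hbK : (b : K) = ((u : A) : K) * (ϖ : K) ^ n := by
      rw [hu]
      rfl
    rw [hbK, map_mul, map_pow, map_mul, map_pow, hv, one_mul, zpow_natCast]
  rcases A.mem_or_inv_mem a with h | h
  · exact key ⟨a, h⟩ (fun h0 => ha (congrArg Subtype.val h0))
  · obtain ⟨k, hk⟩ := key ⟨a⁻¹, h⟩ (fun h0 => (inv_ne_zero ha) (congrArg Subtype.val h0))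
    refine ⟨-k, ?_⟩
    change O.valuation (algebraMap K L a⁻¹) = _ at hk
    rw [map_inv₀, map_inv₀] at hk
    rw [zpow_neg, ← hk, inv_inv]

/-- Some power of the value of `x` is a value of `K`. -/
theorem exists_pow_mem [FiniteDimensional K L] (O : ValuationSubring L) (x : L) (hx : x ≠ 0) :
    ∃ e : ℕ, 1 ≤ e ∧ e ≤ Module.finrank K L ∧ ∃ a : K, a ≠ 0 ∧
      O.valuation x ^ e = O.valuation (algebraMap K L a) := by
  classical
  set P := minpoly K x with hP
  have hint : IsIntegral K x := Algebra.IsIntegral.isIntegral x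
  have hP0 : P ≠ 0 := minpoly.ne_zero hint
  have hdeg : P.natDegree ≤ Module.finrank K L := minpoly.natDegree_le x
  let t : ℕ → L := fun i => algebraMap K L (P.coeff i) * x ^ i
  obtain ⟨j, hj, hmax⟩ := Finset.exists_max_image P.support
    (fun i => O.valuation (t i)) (Polynomial.support_nonempty.2 hP0)
  have hcj : P.coeff j ≠ 0 := Polynomial.mem_support_iff.1 hj
  have htj : t j ≠ 0 := mul_ne_zero ((_root_.map_ne_zero _).2 hcj) (pow_ne_zero _ hx)
  have hvj : O.valuation (t j) ≠ 0 := (Valuation.ne_zero_iff _).2 htj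
  have hsum : ∑ i ∈ P.support, t i = 0 := by
    have := minpoly.aeval K x
    rw [aeval_eq_sum_range, ← hP] at this
    rw [← this]
    refine Finset.sum_subset_zero_on_sdiff ?_ ?_ ?_
    · intro i hi
      rw [Finset.mem_range]
      exact Nat.lt_succ_of_le (le_natDegree_of_mem_supp i hi)
    · intro i hi
      rw [Finset.mem_sdiff, Polynomial.mem_support_iff, not_not] at hi
      rw [hi.2, zero_smul]
    · intro i _
      rw [Algebra.smul_def]
  obtain ⟨i, hi, hij, hvi⟩ : ∃ i ∈ P.support, i ≠ j ∧ O.valuation (t i) = O.valuation (t j) := by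
    by_contra hcon
    push Not at hcon
    have h1 : O.valuation (∑ i ∈ P.support.erase j, t i) < O.valuation (t j) := by
      refine Valuation.map_sum_lt _ hvj fun i hi => ?_
      rw [Finset.mem_erase] at hi
      exact lt_of_le_of_ne (hmax i hi.2) (hcon i hi.2 hi.1)
    rw [← Finset.add_sum_erase _ _ hj] at hsum
    rw [eq_neg_of_add_eq_zero_right hsum, Valuation.map_neg] at h1
    exact lt_irrefl _ h1
  have main : ∀ i j : ℕ, i < j → j ≤ P.natDegree → P.coeff i ≠ 0 → P.coeff j ≠ 0 →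
      O.valuation (t i) = O.valuation (t j) → ∃ e : ℕ, 1 ≤ e ∧ e ≤ Module.finrank K L ∧
        ∃ a : K, a ≠ 0 ∧ O.valuation x ^ e = O.valuation (algebraMap K L a) := by
    intro i j hij hjn hi hj h
    refine ⟨j - i, by omega, by omega, P.coeff i / P.coeff j, div_ne_zero hi hj, ?_⟩
    have hvx : O.valuation x ≠ 0 := (Valuation.ne_zero_iff _).2 hx
    have hvcj : O.valuation (algebraMap K L (P.coeff j)) ≠ 0 :=
      (Valuation.ne_zero_iff _).2 ((_root_.map_ne_zero _).2 hj)
    simp only [t, map_mul, map_pow] at h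
    rw [map_div₀, map_div₀, eq_div_iff hvcj]
    have h2 : O.valuation x ^ j = O.valuation x ^ (j - i) * O.valuation x ^ i := by
      rw [← pow_add]
      congr 1
      omega
    rw [h2, ← mul_assoc] at h
    have h3 := mul_right_cancel₀ (pow_ne_zero i hvx) h
    rw [h3, mul_comm]
  have hci : P.coeff i ≠ 0 := Polynomial.mem_support_iff.1 hi
  rcases lt_or_gt_of_ne hij with h | h
  · exact main i j h (le_natDegree_of_mem_supp j hj) hci hcj hvi
  · exact main j i h (le_natDegree_of_mem_supp i hi) hcj hci hvi.symm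

end StructD

open Polynomial StructBase StructD in
theorem struct_dvr {K L : Type} [Field K] [Field L] [Algebra K L] [FiniteDimensional K L]
    (A : ValuationSubring K) (hA : IsDiscreteValuationRing A)
    (O : ValuationSubring L) (hO : O.comap (algebraMap K L) = A) :
    IsDiscreteValuationRing O := by
  classical
  obtain ⟨ϖ, hϖ⟩ := IsDiscreteValuationRing.exists_irreducible A
  set γ := O.valuation (algebraMap K L (ϖ : K)) with hγ
  have hϖ0 : (ϖ : K) ≠ 0 := fun h => hϖ.ne_zero (Subtype.ext h)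
  have hγ0 : γ ≠ 0 := (Valuation.ne_zero_iff _).2 ((_root_.map_ne_zero _).2 hϖ0)
  have hγ1 : γ < 1 := (lt_iff hO _).2 ((A.valuation_lt_one_iff _).1
    ((IsLocalRing.mem_maximalIdeal _).2 hϖ.not_isUnit))
  set N := (Module.finrank K L).factorial with hN
  have hN0 : N ≠ 0 := Nat.factorial_ne_zero _
  have hm : ∀ x : L, x ≠ 0 → ∃ k : ℤ, O.valuation x ^ N = γ ^ k := by
    intro x hx
    obtain ⟨e, he1, hen, a, ha, hae⟩ := exists_pow_mem (K := K) O x hx
    obtain ⟨k, hk⟩ := exists_zpow_base hA hO ϖ hϖ a ha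
    obtain ⟨q, hq⟩ := Nat.dvd_factorial he1 hen
    refine ⟨k * q, ?_⟩
    rw [hN, hq, pow_mul, hae, hk, zpow_mul, zpow_natCast]
  -- the smallest positive value
  let S : ℕ → Prop := fun k => 0 < k ∧ ∃ x : L, x ≠ 0 ∧ O.valuation x ^ N = γ ^ (k : ℤ)
  have hS : ∃ k, S k := ⟨N, Nat.pos_of_ne_zero hN0, algebraMap K L (ϖ : K),
    (_root_.map_ne_zero _).2 hϖ0, by rw [zpow_natCast]⟩
  obtain ⟨hg0, π, hπ0, hπ⟩ := Nat.find_spec hS
  have hmin := fun d => Nat.find_min hS (m := d)
  set g := Nat.find hS with hg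
  have hpos : ∀ (x : L) (k : ℤ), O.valuation x ≤ 1 → O.valuation x ^ N = γ ^ k → 0 ≤ k := by
    intro x k hx hk
    rw [← zpow_iff hγ0 hγ1, ← hk]
    exact pow_le_one' hx N
  have hone : ∀ x : L, O.valuation x ^ N = 1 → O.valuation x = 1 := by
    intro x hx
    rcases lt_trichotomy (O.valuation x) 1 with h | h | h
    · exact absurd hx (ne_of_lt (pow_lt_one₀ zero_le h hN0))
    · exact h
    · exact absurd hx (ne_of_gt (one_lt_pow₀ h hN0))
  have hinj : ∀ a b : ℤ, γ ^ a = γ ^ b → a = b := by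
    intro a b h
    have h1 : γ ^ (a - b) = 1 := by rw [zpow_sub₀ hγ0, h, div_self (zpow_ne_zero _ hγ0)]
    have h2 : γ ^ (b - a) = 1 := by rw [zpow_sub₀ hγ0, h, div_self (zpow_ne_zero _ hγ0)]
    have h3 := (zpow_iff hγ0 hγ1 _).1 h1.le
    have h4 := (zpow_iff hγ0 hγ1 _).1 h2.le
    omega
  -- elements of small value
  have hsmall : ∀ (x : L), x ≠ 0 → O.valuation x < 1 → ∃ k : ℤ, (g : ℤ) ≤ k ∧
      O.valuation x ^ N = γ ^ k := by
    intro x hx hx1
    obtain ⟨k, hk⟩ := hm x hx
    have hk0 := hpos x k hx1.le hk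
    have hk1 : k ≠ 0 := by
      rintro rfl
      rw [zpow_zero] at hk
      exact absurd (hone x hk) (ne_of_lt hx1)
    refine ⟨k, ?_, hk⟩
    by_contra hlt
    push Not at hlt
    refine hmin k.toNat (by omega) ⟨by omega, x, hx, ?_⟩
    rw [hk]
    congr 1
    omega
  have hπ1 : O.valuation π < 1 := by
    by_contra h
    push Not at h
    have h1 : O.valuation π⁻¹ ≤ 1 := by
      rw [map_inv₀, inv_le_one₀ (lt_of_lt_of_le one_pos h)]
      exact h
    have h2 := hpos π⁻¹ (-(g : ℤ)) h1 (by rw [map_inv₀, inv_pow, hπ, zpow_neg])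
    omega
  have hfac : ∀ x : L, x ≠ 0 → O.valuation x ≤ 1 → ∃ (q : ℕ) (y : L), O.valuation y = 1 ∧
      x = y * π ^ q := by
    intro x hx hx1
    obtain ⟨k, hk⟩ := hm x hx
    have hk0 := hpos x k hx1 hk
    obtain ⟨q, hq⟩ : ∃ q : ℕ, k / g = q := ⟨(k / g).toNat, by
      have := Int.ediv_nonneg hk0 (by positivity : (0 : ℤ) ≤ g)
      omega⟩
    have hdm := Int.mul_ediv_add_emod k g
    have hr0 := Int.emod_nonneg k (by omega : (g : ℤ) ≠ 0)
    have hr1 := Int.emod_lt_of_pos k (by omega : (0 : ℤ) < g)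
    have hy : O.valuation (x * (π ^ q)⁻¹) ^ N = γ ^ (k % g) := by
      rw [map_mul, map_inv₀, map_pow, mul_pow, inv_pow, ← pow_mul, mul_comm q N, pow_mul, hπ, hk,
        ← zpow_natCast (γ ^ (g : ℤ)), ← zpow_mul, ← zpow_neg, ← zpow_add₀ hγ0]
      congr 1
      rw [← hq]
      linarith
    refine ⟨q, x * (π ^ q)⁻¹, ?_, ?_⟩
    · apply hone
      rw [hy]
      by_cases hr : k % g = 0
      · rw [hr, zpow_zero]
      · exfalso
        refine hmin (k % g).toNat (by omega) ⟨by omega, x * (π ^ q)⁻¹,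
          mul_ne_zero hx (inv_ne_zero (pow_ne_zero _ hπ0)), ?_⟩
        rw [hy]
        congr 1
        omega
    · rw [inv_mul_cancel_right₀ (pow_ne_zero _ hπ0)]
  have hπO : π ∈ O := (O.valuation_le_one_iff _).1 hπ1.le
  apply IsDiscreteValuationRing.ofHasUnitMulPowIrreducibleFactorization
  refine ⟨⟨π, hπO⟩, ?_, ?_⟩
  · refine ⟨?_, ?_⟩
    · rw [O.valuation_eq_one_iff]
      exact ne_of_lt hπ1
    · intro a b hab
      by_contra hcon
      push Not at hcon
      obtain ⟨ha, hb⟩ := hcon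
      have hab' : π = (a : L) * (b : L) := congrArg Subtype.val hab
      have ha0 : (a : L) ≠ 0 := fun h => hπ0 (by rw [hab', h, zero_mul])
      have hb0 : (b : L) ≠ 0 := fun h => hπ0 (by rw [hab', h, mul_zero])
      have ha1 : O.valuation (a : L) < 1 := (O.valuation_lt_one_iff _).1
        ((IsLocalRing.mem_maximalIdeal _).2 ha)
      have hb1 : O.valuation (b : L) < 1 := (O.valuation_lt_one_iff _).1
        ((IsLocalRing.mem_maximalIdeal _).2 hb)
      obtain ⟨k, hk, hka⟩ := hsmall _ ha0 ha1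
      obtain ⟨l, hl, hlb⟩ := hsmall _ hb0 hb1
      have h1 : γ ^ (g : ℤ) = γ ^ (k + l) := by
        rw [zpow_add₀ hγ0, ← hka, ← hlb, ← mul_pow, ← map_mul, ← hab', hπ]
      have := hinj _ _ h1
      omega
  · intro x hx
    have hx0 : (x : L) ≠ 0 := fun h => hx (Subtype.ext h)
    obtain ⟨q, y, hy, hxy⟩ := hfac (x : L) hx0 (O.valuation_le_one x)
    have hyO : y ∈ O := (O.valuation_le_one_iff _).1 hy.le
    obtain ⟨u, hu⟩ : IsUnit (⟨y, hyO⟩ : O) := (O.valuation_eq_one_iff _).2 hy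
    refine ⟨q, u, ?_⟩
    apply Subtype.ext
    rw [hu]
    push_cast
    rw [hxy, mul_comm]

end Pool.Agent.DegThree
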