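import Pool.Agent.Lib_MP_9293ae_ag.NoStructBase

/-! The residue of an element of `O` satisfies a separable polynomial over `A`. -/

set_option autoImplicit false

namespace Pool.Agent.DegThree

open Polynomial StructBase in
theorem struct_res {K L : Type} [Field K] [Field L] [Algebra ℂ K] [Algebra ℂ L] [Algebra K L]
    [IsScalarTower ℂ K L] [Algebra.IsAlgebraic K L] (A : ValuationSubring K) (hC : OverC A)
    (O : ValuationSubring L) (hO : O.comap (algebraMap K L) = A) (b : L) (hb : b ∈ O) :
    ∃ p : Polynomial K, (∀ i, p.coeff i ∈ A) ∧ O.valuation (Polynomial.aeval b p) < 1 ∧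
      O.valuation (Polynomial.aeval b (Polynomial.derivative p)) = 1 := by
  classical
  have hb1 : O.valuation b ≤ 1 := (O.valuation_le_one_iff _).2 hb
  -- monic polynomials over `A` with small value at `b`
  let S : ℕ → Prop := fun d => ∃ p : K[X], p.Monic ∧ p.natDegree = d ∧
    (∀ i, A.valuation (p.coeff i) ≤ 1) ∧ O.valuation (aeval b p) < 1
  have hS : ∃ d, S d := by
    obtain ⟨P, k, hPz, hPk, hPle, hPlt⟩ := exists_relation A b
    refine ⟨k, ∑ i ∈ Finset.range (k + 1), C (P.coeff i) * X ^ i, ?_, ?_, ?_, ?_⟩
    · rw [Finset.sum_range_succ, hPk, map_one, one_mul, add_comm]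
      apply monic_X_pow_add
      refine lt_of_le_of_lt (degree_sum_le _ _) ?_
      rw [Finset.sup_lt_iff (by exact WithBot.bot_lt_coe k)]
      intro i hi
      rw [Finset.mem_range] at hi
      exact lt_of_le_of_lt (degree_C_mul_X_pow_le _ _) (by exact_mod_cast hi)
    · rw [Finset.sum_range_succ, hPk, map_one, one_mul, add_comm]
      apply natDegree_eq_of_degree_eq_some
      rw [degree_add_eq_left_of_degree_lt, degree_X_pow]
      rw [degree_X_pow]
      refine lt_of_le_of_lt (degree_sum_le _ _) ?_
      rw [Finset.sup_lt_iff (by exact WithBot.bot_lt_coe k)]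
      intro i hi
      rw [Finset.mem_range] at hi
      exact lt_of_le_of_lt (degree_C_mul_X_pow_le _ _) (by exact_mod_cast hi)
    · intro i
      rw [finsetSum_coeff]
      simp only [coeff_C_mul, coeff_X_pow]
      by_cases hi : i ∈ Finset.range (k + 1)
      · rw [Finset.sum_eq_single_of_mem i hi (by
          intro j _ hj
          rw [if_neg (Ne.symm hj), mul_zero])]
        simpa using hPle i
      · rw [Finset.sum_eq_zero (by
          intro j hj
          have : i ≠ j := fun h => hi (h ▸ hj)
          rw [if_neg this, mul_zero])]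
        simp
    · have hkn : k + 1 ≤ P.natDegree + 1 := by
        have : k ≤ P.natDegree := by
          apply le_natDegree_of_ne_zero
          rw [hPk]
          exact one_ne_zero
        omega
      have h0 : ∑ l ∈ Finset.range (k + 1), algebraMap K L (P.coeff l) * b ^ l +
          ∑ l ∈ Finset.Ico (k + 1) (P.natDegree + 1), algebraMap K L (P.coeff l) * b ^ l = 0 := by
        rw [Finset.sum_range_add_sum_Ico _ hkn, ← hPz, aeval_eq_sum_range]
        refine Finset.sum_congr rfl fun l _ => ?_
        rw [Algebra.smul_def]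
      have h1 : aeval b (∑ i ∈ Finset.range (k + 1), C (P.coeff i) * X ^ i) =
          ∑ l ∈ Finset.range (k + 1), algebraMap K L (P.coeff l) * b ^ l := by
        simp
      rw [h1, eq_neg_of_add_eq_zero_left h0, Valuation.map_neg]
      refine Valuation.map_sum_lt _ one_ne_zero fun i hi => ?_
      rw [Finset.mem_Ico] at hi
      rw [map_mul, map_pow]
      exact mul_lt_one_of_lt_of_le ((lt_iff hO _).2 (hPlt i (by omega))) (pow_le_one' hb1 _)
  obtain ⟨p, hpm, hpd, hpA, hpb⟩ := Nat.find_spec hS
  have hmin := fun d => Nat.find_min hS (m := d)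
  refine ⟨p, fun i => (A.valuation_le_one_iff _).1 (hpA i), hpb, ?_⟩
  set d := Nat.find hS with hd
  -- the natural number `d` is a unit of `A`
  have hCunit : ∀ c : ℂ, c ≠ 0 → A.valuation (algebraMap ℂ K c) = 1 := by
    intro c hc
    have h1 : A.valuation (algebraMap ℂ K c) ≤ 1 := (A.valuation_le_one_iff _).2 (hC c)
    have h2 : A.valuation (algebraMap ℂ K c⁻¹) ≤ 1 := (A.valuation_le_one_iff _).2 (hC c⁻¹)
    have h3 : A.valuation (algebraMap ℂ K c) * A.valuation (algebraMap ℂ K c⁻¹) = 1 := by
      rw [← map_mul, ← map_mul, mul_inv_cancel₀ hc, map_one, map_one]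
    refine le_antisymm h1 ?_
    rw [← h3]
    exact mul_le_of_le_one_right' h2
  have hcharK : CharZero K := charZero_of_injective_algebraMap (algebraMap ℂ K).injective
  have hd0 : d ≠ 0 := by
    intro h0
    rw [h0] at hpd
    rw [hpm.natDegree_eq_zero.1 hpd] at hpb
    simp at hpb
  have hAd : A.valuation (d : K) = 1 := by
    have := hCunit (d : ℂ) (by exact_mod_cast hd0)
    rwa [map_natCast] at this
  have hdK : (d : K) ≠ 0 := by exact_mod_cast hd0
  have hle : O.valuation (aeval b (derivative p)) ≤ 1 := by
    refine aeval_le hO _ (fun i => ?_) b hb1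
    rw [coeff_derivative, map_mul]
    refine mul_le_one' (hpA _) ?_
    have : ((i : K) + 1) = algebraMap ℂ K ((i : ℂ) + 1) := by simp
    rw [this]
    exact (A.valuation_le_one_iff _).2 (hC _)
  refine le_antisymm hle ?_
  by_contra hlt
  rw [not_le] at hlt
  obtain ⟨e, he⟩ := Nat.exists_eq_succ_of_ne_zero hd0
  have hcoeff : (derivative p).coeff e = (d : K) := by
    have h1 : p.coeff (e + 1) = 1 := by
      have := hpm.coeff_natDegree
      rwa [hpd, he] at this
    rw [coeff_derivative, h1, one_mul, he]
    push_cast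
    ring
  have hdeg : (derivative p).natDegree = e := by
    apply le_antisymm
    · have := natDegree_derivative_le p
      rw [hpd, he] at this
      simpa using this
    · apply le_natDegree_of_ne_zero
      rw [hcoeff]
      exact hdK
  refine hmin e (by omega) ⟨C (d : K)⁻¹ * derivative p, ?_, ?_, ?_, ?_⟩
  · apply monic_C_mul_of_mul_leadingCoeff_eq_one
    rw [leadingCoeff, hdeg, hcoeff, inv_mul_cancel₀ hdK]
  · rw [natDegree_C_mul (inv_ne_zero hdK), hdeg]
  · intro i
    rw [coeff_C_mul, map_mul, map_inv₀, hAd, inv_one, one_mul, coeff_derivative, map_mul]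
    refine mul_le_one' (hpA _) ?_
    have : ((i : K) + 1) = algebraMap ℂ K ((i : ℂ) + 1) := by simp
    rw [this]
    exact (A.valuation_le_one_iff _).2 (hC _)
  · rw [map_mul, aeval_C, map_mul, map_inv₀, map_inv₀, (eq_iff hO _).2 hAd, inv_one, one_mul]
    exact hlt

end Pool.Agent.DegThree
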