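import Pool.Agent.Lib_MP_9293ae_ag.NoStructQ
import Pool.Agent.Lib_MP_9293ae_ag.NoStructR
import Pool.Agent.Lib_MP_9293ae_ag.NoStructD

/-! Logarithmic derivations extend to valuation rings of finite extensions. -/

set_option autoImplicit false

namespace Pool.Agent.DegThree

namespace LogDer

open Polynomial StructBase

variable {K L : Type} [Field K] [Field L] [Algebra ℂ K] [Algebra ℂ L] [Algebra K L]

theorem der_aeval (D : Derivation ℂ K K) (D' : Derivation ℂ L L)
    (hD : ∀ a : K, D' (algebraMap K L a) = algebraMap K L (D a)) (b : L) (p : K[X]) :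
    D' (aeval b p) = p.sum (fun i a => algebraMap K L (D a) * b ^ i) +
      aeval b (derivative p) * D' b := by
  induction p using Polynomial.induction_on' with
  | add p q hp hq =>
    rw [map_add, map_add, hp, hq, Polynomial.sum_add_index, derivative_add, map_add]
    · ring
    · intro i
      simp
    · intro i a₁ a₂
      simp [add_mul]
  | monomial n a =>
    rw [Polynomial.sum_monomial_index _ _ (by simp), derivative_monomial, aeval_monomial,
      aeval_monomial, Derivation.leibniz, Derivation.leibniz_pow, hD]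
    simp only [smul_eq_mul, nsmul_eq_mul, map_mul, map_natCast]
    ring

omit [Algebra ℂ L] in
theorem sum_le {A : ValuationSubring K} {O : ValuationSubring L}
    (hO : O.comap (algebraMap K L) = A) (D : Derivation ℂ K K) (p : K[X])
    (hp : ∀ i, A.valuation (D (p.coeff i)) ≤ 1) (b : L) (hb : O.valuation b ≤ 1) :
    O.valuation (p.sum (fun i a => algebraMap K L (D a) * b ^ i)) ≤ 1 := by
  rw [Polynomial.sum_def]
  refine Valuation.map_sum_le _ fun i _ => ?_
  rw [map_mul, map_pow]
  exact mul_le_one' ((le_iff hO _).2 (hp i)) (pow_le_one' hb i)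

omit [Algebra ℂ L] in
theorem sum_lt {A : ValuationSubring K} {O : ValuationSubring L}
    (hO : O.comap (algebraMap K L) = A) (D : Derivation ℂ K K) (p : K[X])
    (hp : ∀ i, A.valuation (D (p.coeff i)) < 1) (b : L) (hb : O.valuation b ≤ 1) :
    O.valuation (p.sum (fun i a => algebraMap K L (D a) * b ^ i)) < 1 := by
  rw [Polynomial.sum_def]
  refine Valuation.map_sum_lt _ one_ne_zero fun i _ => ?_
  rw [map_mul, map_pow]
  exact mul_lt_one_of_lt_of_le ((lt_iff hO _).2 (hp i)) (pow_le_one' hb i)

/-- The derivation has bounded poles on `O`. -/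
theorem bounded [FiniteDimensional K L] (A : ValuationSubring K) (_hC : OverC A)
    (hA : IsDiscreteValuationRing A) (O : ValuationSubring L)
    (hO : O.comap (algebraMap K L) = A) (D : Derivation ℂ K K) (D' : Derivation ℂ L L)
    (hD : ∀ a : K, D' (algebraMap K L a) = algebraMap K L (D a))
    (h1 : ∀ a : K, A.valuation a ≤ 1 → A.valuation (D a) ≤ 1) :
    ∃ δ, ∀ b, O.valuation b ≤ 1 → O.valuation (D' b) ≤ δ := by
  classical
  have hcharK : CharZero K := charZero_of_injective_algebraMap (algebraMap ℂ K).injective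
  let : Algebra A L := ((algebraMap K L).comp A.subtype).toAlgebra
  have htow : IsScalarTower A K L := IsScalarTower.of_algebraMap_eq fun _ => rfl
  have hfin : Module.Finite A (integralClosure A L) :=
    IsIntegralClosure.finite A K L (integralClosure A L)
  obtain ⟨s, hs⟩ := hfin.fg_top
  -- integral elements have value at most one
  have hint : ∀ x : L, (∃ p : K[X], p.Monic ∧ (∀ i, p.coeff i ∈ A) ∧ aeval x p = 0) →
      O.valuation x ≤ 1 ∧ x ∈ integralClosure A L := by
    rintro x ⟨p, hp, hpA, hpx⟩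
    have hx : x ∈ integralClosure A L := by
      have hl : p ∈ Polynomial.lifts A.subtype := by
        rw [Polynomial.lifts_iff_coeff_lifts]
        intro i
        exact ⟨⟨p.coeff i, hpA i⟩, rfl⟩
      obtain ⟨q, hq, -, hqm⟩ := Polynomial.lifts_and_natDegree_eq_and_monic hl hp
      refine ⟨q, hqm, ?_⟩
      rw [← hpx, ← hq, aeval_def, eval₂_map]
      rfl
    refine ⟨?_, hx⟩
    by_contra hcon
    push Not at hcon
    -- the leading term dominates
    have hne : p.natDegree ≠ 0 := by
      intro h0
      rw [hp.natDegree_eq_zero.1 h0] at hpx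
      simp at hpx
    have h3 : O.valuation (∑ i ∈ Finset.range p.natDegree,
        algebraMap K L (p.coeff i) * x ^ i) < O.valuation x ^ p.natDegree := by
      refine Valuation.map_sum_lt _ (pow_ne_zero _ (ne_of_gt (lt_trans one_pos hcon)))
        fun i hi => ?_
      rw [Finset.mem_range] at hi
      rw [map_mul, map_pow]
      calc O.valuation (algebraMap K L (p.coeff i)) * O.valuation x ^ i
          ≤ 1 * O.valuation x ^ i := by
            gcongr
            exact (le_iff hO _).2 ((A.valuation_le_one_iff _).2 (hpA i))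
        _ = O.valuation x ^ i := one_mul _
        _ < O.valuation x ^ p.natDegree := pow_lt_pow_right₀ hcon hi
    have h4 : aeval x p = ∑ i ∈ Finset.range p.natDegree,
        algebraMap K L (p.coeff i) * x ^ i + x ^ p.natDegree := by
      rw [aeval_eq_sum_range, Finset.sum_range_succ, hp.coeff_natDegree, one_smul]
      congr 1
      refine Finset.sum_congr rfl fun i _ => ?_
      rw [Algebra.smul_def]
    rw [hpx] at h4
    rw [eq_neg_of_add_eq_zero_left h4.symm, Valuation.map_neg, map_pow] at h3
    exact lt_irrefl _ h3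
  have hint' : ∀ x : L, x ∈ integralClosure A L → O.valuation x ≤ 1 := fun x hx =>
    (hint x (StructQ.exists_monic hx)).1
  -- the bound on integral elements
  obtain ⟨δ, hδ1, hδ⟩ : ∃ δ, 1 ≤ δ ∧ ∀ y ∈ s, O.valuation (D' (y : L)) ≤ δ := by
    obtain ⟨M, hM⟩ := (s.image (fun y : integralClosure A L => O.valuation (D' (y : L)))).exists_le
    exact ⟨M ⊔ 1, le_sup_right, fun y hy =>
      (hM _ (Finset.mem_image_of_mem _ hy)).trans le_sup_left⟩
  have hB : ∀ x : integralClosure A L, O.valuation (D' (x : L)) ≤ δ := by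
    intro x
    have hx : x ∈ Submodule.span A (s : Set (integralClosure A L)) := by
      rw [hs]
      trivial
    induction hx using Submodule.span_induction with
    | mem y hy => exact hδ y hy
    | zero =>
      rw [ZeroMemClass.coe_zero, map_zero, map_zero]
      exact zero_le
    | add y z _ _ hy hz =>
      rw [Subalgebra.coe_add, map_add]
      exact (Valuation.map_add _ _ _).trans (max_le hy hz)
    | smul a y _ hy =>
      have e : ((a • y : integralClosure A L) : L) = algebraMap K L (a : K) * (y : L) := rfl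
      rw [e, Derivation.leibniz, hD]
      refine (Valuation.map_add _ _ _).trans (max_le ?_ ?_)
      · rw [smul_eq_mul, map_mul]
        calc O.valuation (algebraMap K L (a : K)) * O.valuation (D' (y : L)) ≤ 1 * δ :=
              mul_le_mul' ((le_iff hO _).2 (A.valuation_le_one a)) hy
          _ = δ := one_mul _
      · rw [smul_eq_mul, map_mul]
        exact (mul_le_one' (hint' _ y.2) ((le_iff hO _).2
          (h1 _ (A.valuation_le_one a)))).trans hδ1
  refine ⟨δ, fun b hb => ?_⟩
  obtain ⟨c, t, hc, ht, ht1, hbt⟩ := struct_quot A O hO b ((O.valuation_le_one_iff _).1 hb)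
  have h5 : O.valuation (D' c) ≤ δ := hB ⟨c, (hint c hc).2⟩
  have h6 : O.valuation (D' t) ≤ δ := hB ⟨t, (hint t ht).2⟩
  have ht0 : t ≠ 0 := by
    rintro rfl
    rw [map_zero] at ht1
    exact zero_ne_one ht1
  have h7 : t * D' b = D' c - b * D' t := by
    rw [← hbt, Derivation.leibniz, smul_eq_mul, smul_eq_mul]
    ring
  have h8 : O.valuation (D' b) = O.valuation (t * D' b) := by
    rw [map_mul, ht1, one_mul]
  rw [h8, h7]
  refine (Valuation.map_sub _ _ _).trans (max_le h5 ?_)
  rw [map_mul]
  calc O.valuation b * O.valuation (D' t) ≤ 1 * δ := mul_le_mul' hb h6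
    _ = δ := one_mul _

end LogDer

open Polynomial StructBase LogDer in
theorem log_der {K L : Type} [Field K] [Field L] [Algebra ℂ K] [Algebra ℂ L] [Algebra K L]
    [IsScalarTower ℂ K L] [FiniteDimensional K L] (A : ValuationSubring K) (hC : OverC A)
    (hA : IsDiscreteValuationRing A) (O : ValuationSubring L)
    (hO : O.comap (algebraMap K L) = A) (D : Derivation ℂ K K) (D' : Derivation ℂ L L)
    (hD : ∀ a : K, D' (algebraMap K L a) = algebraMap K L (D a))
    (h1 : ∀ a : K, A.valuation a ≤ 1 → A.valuation (D a) ≤ 1)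
    (h2 : ∀ a : K, A.valuation a < 1 → A.valuation (D a) < 1) :
    (∀ b, O.valuation b ≤ 1 → O.valuation (D' b) ≤ 1) ∧
    (∀ b, O.valuation b < 1 → O.valuation (D' b) < 1) ∧
    ((∀ a : K, A.valuation a ≤ 1 → A.valuation (D a) < 1) →
      ∀ b, O.valuation b ≤ 1 → O.valuation (D' b) < 1) := by
  classical
  have hcharL : CharZero L := charZero_of_injective_algebraMap (algebraMap ℂ L).injective
  have hODVR : IsDiscreteValuationRing O := struct_dvr A hA O hO
  obtain ⟨π, hπ⟩ := IsDiscreteValuationRing.exists_irreducible O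
  obtain ⟨ϖ, hϖ⟩ := IsDiscreteValuationRing.exists_irreducible A
  have hπ1 : O.valuation (π : L) < 1 := (O.valuation_lt_one_iff _).1
    ((IsLocalRing.mem_maximalIdeal _).2 hπ.not_isUnit)
  have hϖ1 : A.valuation (ϖ : K) < 1 := (A.valuation_lt_one_iff _).1
    ((IsLocalRing.mem_maximalIdeal _).2 hϖ.not_isUnit)
  have hϖ0 : (ϖ : K) ≠ 0 := fun h => hϖ.ne_zero (Subtype.ext h)
  have hπ0 : (π : L) ≠ 0 := fun h => hπ.ne_zero (Subtype.ext h)
  have hunit : ∀ u : Oˣ, O.valuation ((u : O) : L) = 1 := fun u =>
    (O.valuation_eq_one_iff _).1 u.isUnit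
  have hNat : ∀ n : ℕ, n ≠ 0 → O.valuation (n : L) = 1 := by
    intro n hn
    have h3 : ∀ c : ℂ, O.valuation (algebraMap ℂ L c) ≤ 1 := by
      intro c
      rw [IsScalarTower.algebraMap_apply ℂ K L]
      exact (le_iff hO _).2 ((A.valuation_le_one_iff _).2 (hC c))
    have h4 := h3 (n : ℂ)
    have h5 := h3 ((n : ℂ)⁻¹)
    rw [map_natCast] at h4
    rw [map_inv₀, map_natCast, map_inv₀] at h5
    refine le_antisymm h4 ?_
    have hn0 : O.valuation (n : L) ≠ 0 :=
      (Valuation.ne_zero_iff _).2 (by exact_mod_cast hn)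
    rwa [inv_le_one₀ (zero_lt_iff.2 hn0)] at h5
  -- factorisations in `O`
  have hfac : ∀ c : L, c ≠ 0 → O.valuation c ≤ 1 → ∃ (n : ℕ) (u : Oˣ),
      c = ((u : O) : L) * (π : L) ^ n := by
    intro c hc hc1
    obtain ⟨n, u, hu⟩ := IsDiscreteValuationRing.eq_unit_mul_pow_irreducible
      (x := (⟨c, (O.valuation_le_one_iff _).1 hc1⟩ : O)) (fun h => hc (congrArg Subtype.val h)) hπ
    exact ⟨n, u, congrArg Subtype.val hu⟩
  -- the value of `ϖ` is `e ≥ 1`
  obtain ⟨e, w, hw⟩ := hfac (algebraMap K L (ϖ : K)) ((_root_.map_ne_zero _).2 hϖ0)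
    ((le_iff hO _).2 hϖ1.le)
  have he0 : e ≠ 0 := by
    rintro rfl
    have := (lt_iff hO _).2 hϖ1
    rw [hw, pow_zero, mul_one, hunit] at this
    exact lt_irrefl _ this
  -- `D ϖ = ϖ d`
  obtain ⟨d, hd1, hd⟩ : ∃ d : K, A.valuation d ≤ 1 ∧ D (ϖ : K) = (ϖ : K) * d := by
    have h3 := h2 _ hϖ1
    have h4 : (⟨D (ϖ : K), (A.valuation_le_one_iff _).1 h3.le⟩ : A) ∈
        IsLocalRing.maximalIdeal A := (A.valuation_lt_one_iff _).2 h3
    rw [(IsDiscreteValuationRing.irreducible_iff_uniformizer ϖ).1 hϖ,
      Ideal.mem_span_singleton] at h4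
    obtain ⟨d, hd⟩ := h4
    exact ⟨d, A.valuation_le_one d, congrArg Subtype.val hd⟩
  -- the key formula
  have key : ∀ c : L, O.valuation c < 1 → ∀ δ, 1 ≤ δ →
      (∀ b, O.valuation b ≤ 1 → O.valuation (D' b) ≤ δ) →
      O.valuation (D' c) ≤ O.valuation c * δ := by
    intro c hc δ hδ1 hδ
    by_cases hc0 : c = 0
    · subst hc0
      simp
    obtain ⟨r, u, hu⟩ := hfac c hc0 hc.le
    -- `c ^ e = ϖ ^ r * t` with `t` a unit
    obtain ⟨t, ht1, ht0, ht⟩ : ∃ t : L, O.valuation t = 1 ∧ t ≠ 0 ∧
        c ^ e = algebraMap K L (ϖ : K) ^ r * t := by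
      have hw0 : ((w : O) : L) ≠ 0 := by
        intro h
        have := hunit w
        rw [h, map_zero] at this
        exact zero_ne_one this
      have hu0 : ((u : O) : L) ≠ 0 := by
        intro h
        have := hunit u
        rw [h, map_zero] at this
        exact zero_ne_one this
      refine ⟨((u : O) : L) ^ e / ((w : O) : L) ^ r, ?_,
        div_ne_zero (pow_ne_zero _ hu0) (pow_ne_zero _ hw0), ?_⟩
      · rw [map_div₀, map_pow, map_pow, hunit, hunit, one_pow, one_pow, div_one]
      · rw [hw]
        conv_lhs => rw [hu]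
        field_simp
        ring
    have hder : (e : L) * D' c = c * ((r : L) * algebraMap K L d + D' t / t) := by
      have h3 := congrArg D' ht
      rw [Derivation.leibniz_pow, Derivation.leibniz, Derivation.leibniz_pow, hD, hd, map_mul]
        at h3
      simp only [smul_eq_mul, nsmul_eq_mul] at h3
      have hp0 : algebraMap K L (ϖ : K) ≠ 0 := (_root_.map_ne_zero _).2 hϖ0
      have h4 : algebraMap K L (ϖ : K) ^ r * t *
          ((r : L) * algebraMap K L d + D' t / t) =
          algebraMap K L (ϖ : K) ^ r * D' t + t * ((r : L) * (algebraMap K L (ϖ : K) ^ (r - 1) *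
            (algebraMap K L (ϖ : K) * algebraMap K L d))) := by
        rcases Nat.eq_zero_or_pos r with h0 | h0
        · subst h0
          simp
          field_simp
        · obtain ⟨m, rfl⟩ := Nat.exists_eq_succ_of_ne_zero h0.ne'
          rw [Nat.succ_sub_one, pow_succ]
          field_simp
          ring
      obtain ⟨e', rfl⟩ := Nat.exists_eq_succ_of_ne_zero he0
      rw [← h4, ← ht, Nat.succ_sub_one] at h3
      have h5 : c ^ e' * (((e' + 1 : ℕ) : L) * D' c) =
          c ^ e' * (c * ((r : L) * algebraMap K L d + D' t / t)) := by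
        rw [← mul_assoc (c ^ e') c, ← pow_succ, ← h3]
        push_cast
        ring
      exact mul_left_cancel₀ (pow_ne_zero _ hc0) h5
    have h6 : O.valuation (D' c) = O.valuation ((e : L) * D' c) := by
      rw [map_mul, hNat e he0, one_mul]
    rw [h6, hder, map_mul]
    refine mul_le_mul' le_rfl ((Valuation.map_add _ _ _).trans (max_le ?_ ?_))
    · refine le_trans ?_ hδ1
      rw [map_mul]
      refine mul_le_one' ?_ ((le_iff hO _).2 hd1)
      by_cases hr : r = 0
      · subst hr
        simp
      · exact (hNat r hr).le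
    · rw [map_div₀, ht1, div_one]
      exact hδ t ht1.le
  -- the reduction to the maximal ideal
  have hred : ∀ b : L, O.valuation b ≤ 1 → ∃ c : L, O.valuation c < 1 ∧ ∃ r : L,
      O.valuation r ≤ 1 ∧ ((∀ a : K, A.valuation a ≤ 1 → A.valuation (D a) < 1) →
        O.valuation r < 1) ∧ O.valuation (D' b) = O.valuation (D' c - r) := by
    intro b hb
    obtain ⟨p, hpA, hpb, hp'⟩ := struct_res A hC O hO b ((O.valuation_le_one_iff _).1 hb)
    refine ⟨aeval b p, hpb, p.sum (fun i a => algebraMap K L (D a) * b ^ i), ?_, ?_, ?_⟩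
    · exact sum_le hO D p (fun i => h1 _ ((A.valuation_le_one_iff _).2 (hpA i))) b hb
    · intro h3
      exact sum_lt hO D p (fun i => h3 _ ((A.valuation_le_one_iff _).2 (hpA i))) b hb
    · rw [der_aeval D D' hD, add_sub_cancel_left, map_mul, hp', one_mul]
  -- improving the bound
  have himp : ∀ δ, 1 ≤ δ → (∀ b, O.valuation b ≤ 1 → O.valuation (D' b) ≤ δ) →
      ∀ b, O.valuation b ≤ 1 → O.valuation (D' b) ≤ max 1 (O.valuation (π : L) * δ) := by
    intro δ hδ1 hδ b hb
    obtain ⟨c, hc, r, hr, -, hbc⟩ := hred b hb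
    rw [hbc]
    refine (Valuation.map_sub _ _ _).trans (max_le ?_ (hr.trans (le_max_left _ _)))
    refine le_trans ?_ (le_max_right _ _)
    refine (key c hc δ hδ1 hδ).trans (mul_le_mul' ?_ le_rfl)
    by_cases hc0 : c = 0
    · subst hc0
      simp
    obtain ⟨n, u, hu⟩ := hfac c hc0 hc.le
    have hn : n ≠ 0 := by
      rintro rfl
      rw [hu, pow_zero, mul_one, hunit] at hc
      exact lt_irrefl _ hc
    rw [hu, map_mul, hunit, one_mul, map_pow]
    exact pow_le_of_le_one zero_le hπ1.le hn
  obtain ⟨δ₀, hδ₀⟩ := bounded A hC hA O hO D D' hD h1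
  have hiter : ∀ n : ℕ, ∀ b, O.valuation b ≤ 1 →
      O.valuation (D' b) ≤ max 1 (O.valuation (π : L) ^ n * max 1 δ₀) := by
    intro n
    induction n with
    | zero =>
      intro b hb
      rw [pow_zero, one_mul]
      exact (hδ₀ b hb).trans ((le_max_right _ _).trans (le_max_right _ _))
    | succ n ih =>
      intro b hb
      refine (himp _ (le_max_left _ _) ih b hb).trans ?_
      rw [max_le_iff]
      refine ⟨le_max_left _ _, ?_⟩
      rcases le_total 1 (O.valuation (π : L) ^ n * max 1 δ₀) with h3 | h3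
      · rw [max_eq_right h3, ← mul_assoc, ← pow_succ']
        exact le_max_right _ _
      · rw [max_eq_left h3, mul_one]
        exact hπ1.le.trans (le_max_left _ _)
  have hone : ∀ b, O.valuation b ≤ 1 → O.valuation (D' b) ≤ 1 := by
    obtain ⟨y, hy⟩ := O.valuation_surjective (max 1 δ₀)
    have hy1 : 1 ≤ O.valuation y := by
      rw [hy]
      exact le_max_left _ _
    have hy0 : y ≠ 0 := by
      rintro rfl
      rw [map_zero] at hy1
      exact absurd hy1 (not_le.2 one_pos)
    obtain ⟨n, u, hu⟩ := hfac y⁻¹ (inv_ne_zero hy0) (by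
      rw [map_inv₀]
      exact inv_le_one_of_one_le₀ hy1)
    intro b hb
    refine (hiter n b hb).trans ?_
    rw [max_le_iff]
    refine ⟨le_rfl, ?_⟩
    have h3 := congrArg O.valuation hu
    rw [map_mul, hunit, one_mul, map_pow, map_inv₀, hy] at h3
    rw [← h3, inv_mul_cancel₀]
    rw [← hy]
    exact (Valuation.ne_zero_iff _).2 hy0
  have htwo : ∀ b, O.valuation b < 1 → O.valuation (D' b) < 1 := by
    intro b hb
    have h3 := key b hb 1 le_rfl hone
    rw [mul_one] at h3
    exact lt_of_le_of_lt h3 hb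
  refine ⟨hone, htwo, fun h3 b hb => ?_⟩
  obtain ⟨c, hc, r, -, hr, hbc⟩ := hred b hb
  rw [hbc]
  exact lt_of_le_of_lt (Valuation.map_sub _ _ _) (max_lt (htwo c hc) (hr h3))

end Pool.Agent.DegThree
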