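import Pool.Agent.Lib_MP_9293ae_ag.NoDefs2

/-! Splitting lemma (successive minima) for the Riemann-Roch spaces of the divisors of poles. -/

set_option autoImplicit false

namespace Pool.Agent.DegThree

open Polynomial

section aux

variable {M : Type} [Field M] [Algebra ℂ M]

theorem isIntegral_of_forall_valuation (s : Set M) (y : M)
    (hy : ∀ O : ValuationSubring M, OverC O → (∀ x ∈ s, x ∈ O) → y ∈ O) :
    IsIntegral (Algebra.adjoin ℂ s) y := by
  set s' : Set M := Set.range (algebraMap ℂ M) ∪ s with hs'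
  have h1 : y ∈ (⨅ V : {V : ValuationSubring M // s' ⊆ V.toSubring}, V.1.toSubring) := by
    rw [Subring.mem_iInf]
    rintro ⟨V, hV⟩
    exact hy V (fun c => hV (Or.inl ⟨c, rfl⟩)) (fun x hx => hV (Or.inr hx))
  rw [iInf_valuationSubring_superset] at h1
  have h2 : IsIntegral (Subring.closure s') y := h1
  obtain ⟨p, hp, hpy⟩ := h2
  have hle : Subring.closure s' ≤ (Algebra.adjoin ℂ s).toSubring := by
    rw [Subring.closure_le]
    rintro x (⟨c, rfl⟩ | hx)
    · exact (Algebra.adjoin ℂ s).algebraMap_mem c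
    · exact Algebra.subset_adjoin hx
  refine ⟨p.map (Subring.inclusion hle), hp.map _, ?_⟩
  rw [eval₂_map]
  exact hpy

theorem exists_const_of_isAlgebraic (y : M) (hy : IsAlgebraic ℂ y) :
    ∃ c : ℂ, y = algebraMap ℂ M c := by
  have hirr := minpoly.irreducible hy.isIntegral
  have hdeg := IsAlgClosed.degree_eq_one_of_irreducible ℂ hirr
  obtain ⟨c, hc⟩ := minpoly.mem_range_of_degree_eq_one ℂ y hdeg
  exact ⟨c, hc.symm⟩

theorem const_of_forall_valuation (y : M)
    (hy : ∀ O : ValuationSubring M, OverC O → y ∈ O) : ∃ c : ℂ, y = algebraMap ℂ M c := by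
  have h := isIntegral_of_forall_valuation ∅ y (fun O hO _ => hy O hO)
  have : Algebra.IsIntegral ℂ (Algebra.adjoin ℂ (∅ : Set M)) := by
    constructor
    rintro ⟨x, hx⟩
    rw [Algebra.adjoin_empty, Algebra.mem_bot] at hx
    obtain ⟨c, rfl⟩ := hx
    exact (isIntegral_algebraMap (R := ℂ) (A := Algebra.adjoin ℂ (∅ : Set M)) (x := c))
  have h3 : IsIntegral ℂ y := isIntegral_trans (A := Algebra.adjoin ℂ (∅ : Set M)) y h
  exact exists_const_of_isAlgebraic y h3.isAlgebraic

theorem valuation_const_le (O : ValuationSubring M) (hO : OverC O) (c : ℂ) :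
    O.valuation (algebraMap ℂ M c) ≤ 1 := (O.valuation_le_one_iff _).mpr (hO c)

/-- membership in the Riemann-Roch space through valuations -/
theorem mem_LL_iff (t y : M) (k : ℕ) :
    y ∈ LL t k ↔ ∀ O : ValuationSubring M, OverC O →
      (O.valuation t ≤ 1 → O.valuation y ≤ 1) ∧
      (1 < O.valuation t → O.valuation y ≤ O.valuation t ^ k) := by
  have key : ∀ O : ValuationSubring M, (t ∉ O → ((t ^ k)⁻¹ * y ∈ O ↔
      O.valuation y ≤ O.valuation t ^ k)) := by
    intro O ht
    have h1 : 1 < O.valuation t := by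
      rw [← not_le, O.valuation_le_one_iff]
      exact ht
    have h0 : O.valuation t ^ k ≠ 0 := pow_ne_zero _ (zero_lt_one.trans h1).ne'
    rw [← O.valuation_le_one_iff, map_mul, map_inv₀, map_pow]
    rw [inv_mul_le_iff₀ (zero_lt_iff.mpr h0), mul_one]
  constructor
  · intro h O hO
    obtain ⟨h1, h2⟩ := h O hO
    refine ⟨fun ht => (O.valuation_le_one_iff _).mpr (h1 ((O.valuation_le_one_iff _).mp ht)),
      fun ht => ?_⟩
    have ht' : t ∉ O := by
      rw [← O.valuation_le_one_iff, not_le]
      exact ht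
    exact (key O ht').mp (h2 ht')
  · intro h O hO
    obtain ⟨h1, h2⟩ := h O hO
    refine ⟨fun ht => (O.valuation_le_one_iff _).mp (h1 ((O.valuation_le_one_iff _).mpr ht)),
      fun ht => ?_⟩
    refine (key O ht).mpr (h2 ?_)
    rw [← not_le, O.valuation_le_one_iff]
    exact ht

end aux

theorem LL_zero {M : Type} [Field M] [Algebra ℂ M] (t : M) (y : M) (hy : y ∈ LL t 0) :
    ∃ c : ℂ, y = algebraMap ℂ M c := by
  refine const_of_forall_valuation y fun O hO => ?_
  obtain ⟨h1, h2⟩ := hy O hO
  by_cases ht : t ∈ O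
  · exact h1 ht
  · simpa using h2 ht

section aux2

variable {M : Type} [Field M] [Algebra ℂ M]

/-- a valuation ring with a pole of `t` -/
theorem exists_pole (t : M) (ht : Transcendental ℂ t) :
    ∃ O : ValuationSubring M, OverC O ∧ 1 < O.valuation t := by
  by_contra hcon
  push Not at hcon
  obtain ⟨c, hc⟩ := const_of_forall_valuation t
    (fun O hO => (O.valuation_le_one_iff _).mp (hcon O hO))
  exact ht (hc ▸ isAlgebraic_algebraMap c)

/-- a valuation ring with `t = c` -/
theorem exists_zero (t : M) (ht : Transcendental ℂ t) (c : ℂ) :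
    ∃ O : ValuationSubring M, OverC O ∧ O.valuation t ≤ 1 ∧
      O.valuation (t - algebraMap ℂ M c) < 1 := by
  have h1 : Transcendental ℂ (t - algebraMap ℂ M c)⁻¹ := by
    intro h
    apply ht
    have h2 := h.inv
    rw [inv_inv] at h2
    have h3 := h2.add (isAlgebraic_algebraMap (R := ℂ) (A := M) c)
    simpa using h3
  obtain ⟨O, hO, h2⟩ := exists_pole _ h1
  have h3 : O.valuation (t - algebraMap ℂ M c) < 1 := by
    rw [map_inv₀] at h2
    by_contra hcon
    rw [not_lt] at hcon
    exact absurd (inv_le_one_of_one_le₀ hcon) (not_le.mpr h2)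
  refine ⟨O, hO, ?_, h3⟩
  have h4 : t = (t - algebraMap ℂ M c) + algebraMap ℂ M c := by ring
  rw [h4]
  exact O.valuation.map_add_le h3.le (valuation_const_le O hO c)

theorem aeval_le (O : ValuationSubring M) (hO : OverC O) (t : M) (ht : O.valuation t ≤ 1)
    (p : ℂ[X]) : O.valuation (aeval t p) ≤ 1 := by
  rw [aeval_eq_sum_range]
  refine O.valuation.map_sum_le fun i _ => ?_
  rw [Algebra.smul_def, map_mul, map_pow]
  exact mul_le_one' (valuation_const_le O hO _) (pow_le_one' ht i)

theorem aeval_le_pow (O : ValuationSubring M) (hO : OverC O) (t : M) (ht : 1 < O.valuation t)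
    (p : ℂ[X]) : O.valuation (aeval t p) ≤ O.valuation t ^ p.natDegree := by
  rw [aeval_eq_sum_range]
  refine O.valuation.map_sum_le fun i hi => ?_
  rw [Algebra.smul_def, map_mul, map_pow]
  calc O.valuation (algebraMap ℂ M (p.coeff i)) * O.valuation t ^ i
      ≤ 1 * O.valuation t ^ i := mul_le_mul_left (valuation_const_le O hO _) _
    _ = O.valuation t ^ i := one_mul _
    _ ≤ O.valuation t ^ p.natDegree :=
        pow_le_pow_right₀ ht.le (by simpa [Nat.lt_succ_iff] using hi)

/-- integral elements have bounded pole orders -/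
theorem exists_mem_LL (t y : M)
    (hy : ∀ O : ValuationSubring M, OverC O → O.valuation t ≤ 1 → O.valuation y ≤ 1) :
    ∃ k, y ∈ LL t k := by
  have h := isIntegral_of_forall_valuation {t} y (fun O hO hx =>
    (O.valuation_le_one_iff _).mp (hy O hO ((O.valuation_le_one_iff _).mpr (hx t rfl))))
  obtain ⟨p, hp, hpy⟩ := h
  have hq : ∀ i, ∃ q : ℂ[X], ((p.coeff i : Algebra.adjoin ℂ {t}) : M) = aeval t q := by
    intro i
    have h1 : ((p.coeff i : Algebra.adjoin ℂ {t}) : M) ∈ Algebra.adjoin ℂ {t} := (p.coeff i).2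
    have h2 := (Algebra.adjoin_singleton_eq_range_aeval ℂ t).le h1
    obtain ⟨q, hq⟩ := h2
    exact ⟨q, hq.symm⟩
  choose q hq using hq
  set k := ∑ i ∈ Finset.range p.natDegree, (q i).natDegree with hk
  refine ⟨k, (mem_LL_iff t y k).mpr fun O hO => ⟨hy O hO, fun ht => ?_⟩⟩
  by_contra hcon
  rw [not_le] at hcon
  have hy1 : 1 < O.valuation y := lt_of_le_of_lt (one_le_pow_of_one_le' ht.le k) hcon
  have hsum : y ^ p.natDegree = - ∑ i ∈ Finset.range p.natDegree, aeval t (q i) * y ^ i := by
    have h1 := hpy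
    rw [hp.as_sum] at h1
    rw [eval₂_add, eval₂_pow, eval₂_X, eval₂_finsetSum] at h1
    rw [eq_neg_iff_add_eq_zero]
    refine Eq.trans ?_ h1
    congr 1
    refine Finset.sum_congr rfl fun i _ => ?_
    rw [eval₂_mul, eval₂_pow, eval₂_X, eval₂_C, ← hq i]
    rfl
  have hlt : O.valuation (y ^ p.natDegree) < O.valuation (y ^ p.natDegree) := by
    conv_lhs => rw [hsum]
    rw [Valuation.map_neg]
    refine O.valuation.map_sum_lt ?_ fun i hi => ?_
    · rw [map_pow]
      exact pow_ne_zero _ (zero_lt_one.trans hy1).ne'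
    · rw [map_mul, map_pow, map_pow]
      have hi' : i < p.natDegree := Finset.mem_range.mp hi
      have h2 : O.valuation (aeval t (q i)) < O.valuation y := by
        refine lt_of_le_of_lt ((aeval_le_pow O hO t ht (q i)).trans ?_) hcon
        exact pow_le_pow_right₀ ht.le
          (Finset.single_le_sum (f := fun i => (q i).natDegree) (fun _ _ => Nat.zero_le _) hi)
      calc O.valuation (aeval t (q i)) * O.valuation y ^ i
          < O.valuation y * O.valuation y ^ i := by
            refine mul_lt_mul_of_pos_right h2 ?_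
            exact pow_pos (zero_lt_one.trans hy1) i
        _ = O.valuation y ^ (i + 1) := (pow_succ' _ _).symm
        _ ≤ O.valuation y ^ p.natDegree := pow_le_pow_right₀ hy1.le hi'
  exact lt_irrefl _ hlt

theorem isAlgebraic_adjoin (hM : IsCurve M) (t : M) (ht : Transcendental ℂ t) :
    Algebra.IsAlgebraic (Algebra.adjoin ℂ {t}) M := by
  have h1 : AlgebraicIndependent ℂ ![t] := by
    rw [algebraicIndependent_unique_type_iff]
    exact ht
  have h2 := h1.isTranscendenceBasis_of_trdeg_le_of_finite (by rw [hM.2]; simp)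
  have h3 := h2.isAlgebraic
  rwa [show Set.range ![t] = {t} by simp] at h3

theorem isAlgebraic_Ct (hM : IsCurve M) (t : M) (ht : Transcendental ℂ t) :
    Algebra.IsAlgebraic (Ct t) M := by
  have h := isAlgebraic_adjoin hM t ht
  constructor
  intro x
  obtain ⟨p, hp, hpx⟩ := h.isAlgebraic x
  have hle : (Algebra.adjoin ℂ {t}).toSubring ≤ (Ct t).toSubring :=
    IntermediateField.algebra_adjoin_le_adjoin ℂ {t}
  refine ⟨p.map (Subring.inclusion hle), ?_, ?_⟩
  · rw [Ne, Polynomial.map_eq_zero_iff (Subring.inclusion_injective hle)]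
    exact hp
  · rw [aeval_def, eval₂_map]
    exact hpx

theorem finite_Ct (hM : IsCurve M) (t : M) (ht : Transcendental ℂ t) :
    FiniteDimensional (Ct t) M := by
  have h1 := isAlgebraic_Ct hM t ht
  have h2 : Algebra.EssFiniteType ℂ M := IntermediateField.fg_top_iff.mp hM.1
  have h3 : Algebra.EssFiniteType (Ct t) M := Algebra.EssFiniteType.of_comp ℂ (Ct t) M
  exact Algebra.finite_of_essFiniteType_of_isAlgebraic

theorem mem_of_isIntegral_adjoin (O : ValuationSubring M) (hO : OverC O) (t : M)
    (ht : O.valuation t ≤ 1) (z : M) (hz : IsIntegral (Algebra.adjoin ℂ {t}) z) :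
    O.valuation z ≤ 1 := by
  obtain ⟨p, hp, hpz⟩ := hz
  have hle : (Algebra.adjoin ℂ {t}).toSubring ≤ O.toSubring := by
    intro x hx
    have hx' : x ∈ Algebra.adjoin ℂ {t} := hx
    rw [Algebra.adjoin_singleton_eq_range_aeval] at hx'
    obtain ⟨q, rfl⟩ := hx'
    exact (O.valuation_le_one_iff _).mp (aeval_le O hO t ht q)
  have h1 : IsIntegral O z := by
    refine ⟨p.map (Subring.inclusion hle), hp.map _, ?_⟩
    rw [eval₂_map]
    exact hpz
  obtain ⟨w, hw⟩ := IsIntegrallyClosed.isIntegral_iff.mp h1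
  rw [O.valuation_le_one_iff, ← hw]
  exact w.2

theorem linIndep_update {K V ι : Type} [Field K] [AddCommGroup V] [Module K V] [Fintype ι]
    [DecidableEq ι] (y : ι → V) (h : LinearIndependent K y) (c : ι → K) (j : ι) (hj : c j ≠ 0) :
    LinearIndependent K (Function.update y j (∑ i, c i • y i)) := by
  rw [Fintype.linearIndependent_iff] at h ⊢
  intro g hg
  have h1 : ∑ i, (Function.update g j 0 i + g j * c i) • y i = 0 := by
    rw [← hg]
    simp_rw [add_smul, Finset.sum_add_distrib, mul_smul, ← Finset.smul_sum]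
    rw [← Finset.add_sum_erase _ _ (Finset.mem_univ j),
      ← Finset.add_sum_erase (a := j) (f := fun i => g i • Function.update y j (∑ i, c i • y i) i)
        _ (Finset.mem_univ j)]
    simp only [Function.update_self, zero_smul, zero_add]
    rw [add_comm]
    congr 1
    refine Finset.sum_congr rfl fun i hi => ?_
    have hij : i ≠ j := (Finset.mem_erase.mp hi).1
    rw [Function.update_of_ne hij, Function.update_of_ne hij]
  have h2 := h _ h1
  have h3 := h2 j
  rw [Function.update_self, zero_add] at h3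
  have h4 : g j = 0 := (mul_eq_zero.mp h3).resolve_right hj
  intro i
  by_cases hij : i = j
  · rw [hij]
    exact h4
  · have h5 := h2 i
    rw [Function.update_of_ne hij, h4, zero_mul, add_zero] at h5
    exact h5

/-- an independent family in the Riemann-Roch spaces, containing `1` -/
def Adapted (t : M) {n : ℕ} (y : Fin n → M) (a : Fin n → ℕ) (i₀ : Fin n) : Prop :=
  (∀ i, y i ∈ LL t (a i)) ∧ y i₀ = 1 ∧ a i₀ = 0 ∧ LinearIndependent (Ct t) y

theorem aeval_mem_Ct (t : M) (p : ℂ[X]) : aeval t p ∈ Ct t :=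
  IntermediateField.algebra_adjoin_le_adjoin ℂ {t} (by
    rw [Algebra.adjoin_singleton_eq_range_aeval]
    exact ⟨p, rfl⟩)

theorem one_mem_LL (t : M) (k : ℕ) : (1 : M) ∈ LL t k := by
  rw [mem_LL_iff]
  intro O _
  rw [map_one]
  exact ⟨fun _ => le_rfl, fun h => one_le_pow_of_one_le' h.le k⟩

theorem exists_adapted (hM : IsCurve M) (t : M) (ht : Transcendental ℂ t) (n : ℕ)
    (hn : Module.finrank (Ct t) M = n) :
    ∃ (y : Fin n → M) (a : Fin n → ℕ) (i₀ : Fin n), Adapted t y a i₀ := by
  classical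
  have hfin := finite_Ct hM t ht
  have halg := isAlgebraic_adjoin hM t ht
  have h1 : LinearIndepOn (Ct t) id ({1} : Set M) := LinearIndepOn.singleton one_ne_zero
  let B := Module.Basis.extend h1
  let e := B.indexEquiv (Module.finBasisOfFinrankEq (Ct t) M hn)
  have hmem : (1 : M) ∈ h1.extend (Set.subset_univ {1}) :=
    h1.subset_extend (Set.subset_univ {1}) (Set.mem_singleton 1)
  set i₀ : Fin n := e ⟨1, hmem⟩ with hi₀
  have hB0 : B (e.symm i₀) = 1 := by
    rw [hi₀, Equiv.symm_apply_apply, Module.Basis.extend_apply_self]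
  -- denominators
  have hd : ∀ z : M, ∃ d : ℂ[X], aeval t d ≠ 0 ∧ ∀ O : ValuationSubring M, OverC O →
      O.valuation t ≤ 1 → O.valuation (aeval t d * z) ≤ 1 := by
    intro z
    obtain ⟨d, hd0, hd⟩ := (halg.isAlgebraic z).exists_integral_multiple
    have h2 := (Algebra.adjoin_singleton_eq_range_aeval ℂ t).le d.2
    obtain ⟨q, hq⟩ := h2
    have hq' : aeval t q = (d : M) := hq
    refine ⟨q, ?_, fun O hO htO => ?_⟩
    · rw [hq']
      exact fun h => hd0 (Subtype.ext h)
    · rw [hq']
      exact mem_of_isIntegral_adjoin O hO t htO _ hd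
  choose d hd0 hd1 using hd
  let u : Fin n → (Ct t)ˣ := fun i => if i = i₀ then 1 else
    Units.mk0 ⟨aeval t (d (B (e.symm i))), aeval_mem_Ct t _⟩ (fun h => hd0 _ (congrArg Subtype.val h))
  have hli : LinearIndependent (Ct t) (fun i => B (e.symm i)) :=
    B.linearIndependent.comp e.symm e.symm.injective
  have hli2 := hli.units_smul u
  have hk : ∀ i, ∃ k, (u i • B (e.symm i)) ∈ LL t k := by
    intro i
    by_cases hi : i = i₀
    · refine ⟨0, ?_⟩
      have h3 : u i • B (e.symm i) = 1 := by
        simp only [u, if_pos hi, one_smul]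
        rw [hi, hB0]
      rw [h3]
      exact one_mem_LL t 0
    · refine exists_mem_LL t _ fun O hO htO => ?_
      have h3 : u i • B (e.symm i) = aeval t (d (B (e.symm i))) * B (e.symm i) := by
        simp only [u, if_neg hi]
        rfl
      rw [h3]
      exact hd1 _ O hO htO
  choose k hk using hk
  have h10 : u i₀ • B (e.symm i₀) = 1 := by
    simp only [u, if_true, one_smul]
    exact hB0
  refine ⟨fun i => u i • B (e.symm i), fun i => if i = i₀ then 0 else k i, i₀, ?_, h10, ?_, hli2⟩
  · intro i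
    by_cases hi : i = i₀
    · simp only [if_pos hi]
      rw [hi, h10]
      exact one_mem_LL t 0
    · simp only [if_neg hi]
      exact hk i
  · simp

theorem const_valuation_eq_one (O : ValuationSubring M) (hO : OverC O) (c : ℂ) (hc : c ≠ 0) :
    O.valuation (algebraMap ℂ M c) = 1 := by
  refine le_antisymm (valuation_const_le O hO c) ?_
  have h := valuation_const_le O hO c⁻¹
  rw [map_inv₀, map_inv₀] at h
  have h0 : O.valuation (algebraMap ℂ M c) ≠ 0 := by
    rw [Ne, Valuation.zero_iff]
    exact fun h => hc ((algebraMap ℂ M).injective (by rw [h, map_zero]))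
  exact (inv_le_one₀ (zero_lt_iff.mpr h0)).mp h

theorem lead_le (O : ValuationSubring M) (hO : OverC O) (t : M) (ht : 1 < O.valuation t)
    (p : ℂ[X]) (e : ℕ) (he : p.natDegree ≤ e) :
    O.valuation (t * ((t ^ e)⁻¹ * aeval t p - algebraMap ℂ M (p.coeff e))) ≤ 1 := by
  have ht0 : t ≠ 0 := by
    rintro rfl
    rw [map_zero] at ht
    exact absurd ht (not_lt.mpr zero_le_one)
  have hte : t ^ e ≠ 0 := pow_ne_zero _ ht0
  have h1 : t * ((t ^ e)⁻¹ * aeval t p - algebraMap ℂ M (p.coeff e)) =
      (t ^ e)⁻¹ * ∑ j ∈ Finset.range e, p.coeff j • t ^ (j + 1) := by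
    rw [aeval_eq_sum_range' (Nat.lt_succ_iff.mpr he), Finset.sum_range_succ, Algebra.smul_def]
    have h2 : ∑ j ∈ Finset.range e, p.coeff j • t ^ (j + 1) =
        t * ∑ j ∈ Finset.range e, p.coeff j • t ^ j := by
      rw [Finset.mul_sum]
      refine Finset.sum_congr rfl fun j _ => ?_
      rw [pow_succ', Algebra.smul_def, Algebra.smul_def]
      ring
    rw [h2]
    field_simp
    ring
  rw [h1, map_mul, map_inv₀, map_pow]
  have h0 : 0 < O.valuation t ^ e := pow_pos (zero_lt_one.trans ht) e
  rw [inv_mul_le_iff₀ h0, mul_one]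
  refine O.valuation.map_sum_le fun j hj => ?_
  rw [Algebra.smul_def, map_mul, map_pow]
  calc O.valuation (algebraMap ℂ M (p.coeff j)) * O.valuation t ^ (j + 1)
      ≤ 1 * O.valuation t ^ (j + 1) := mul_le_mul_left (valuation_const_le O hO _) _
    _ = O.valuation t ^ (j + 1) := one_mul _
    _ ≤ O.valuation t ^ e :=
        pow_le_pow_right₀ ht.le (by simpa using hj)

/-- the properties of a family with minimal degrees -/
structure Minimal (t : M) {n : ℕ} (y : Fin n → M) (a : Fin n → ℕ) (i₀ : Fin n) : Prop where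
  adapted : Adapted t y a i₀
  exchange : ∀ (c : Fin n → Ct t) (j : Fin n), c j ≠ 0 → 1 ≤ a j →
    (∑ i, c i • y i) ∉ LL t (a j - 1)

theorem exists_minimal (hM : IsCurve M) (t : M) (ht : Transcendental ℂ t) (n : ℕ)
    (hn : Module.finrank (Ct t) M = n) :
    ∃ (y : Fin n → M) (a : Fin n → ℕ) (i₀ : Fin n), Minimal t y a i₀ := by
  classical
  have hex : ∃ N : ℕ, ∃ (y : Fin n → M) (a : Fin n → ℕ) (i₀ : Fin n),
      Adapted t y a i₀ ∧ ∑ i, a i = N := by
    obtain ⟨y, a, i₀, h⟩ := exists_adapted hM t ht n hn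
    exact ⟨_, y, a, i₀, h, rfl⟩
  obtain ⟨y, a, i₀, had, hsum⟩ := Nat.find_spec hex
  refine ⟨y, a, i₀, had, fun c j hcj haj hw => ?_⟩
  obtain ⟨h1, h2, h3, h4⟩ := had
  have hji : j ≠ i₀ := by
    rintro rfl
    omega
  refine Nat.find_min hex (m := ∑ i, Function.update a j (a j - 1) i) ?_
    ⟨Function.update y j (∑ i, c i • y i), Function.update a j (a j - 1), i₀, ⟨?_, ?_, ?_, ?_⟩, rfl⟩
  · rw [← hsum]
    refine Finset.sum_lt_sum (fun i _ => ?_) ⟨j, Finset.mem_univ j, ?_⟩
    · by_cases hij : i = j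
      · subst hij
        rw [Function.update_self]
        omega
      · rw [Function.update_of_ne hij]
    · rw [Function.update_self]
      omega
  · intro i
    by_cases hij : i = j
    · subst hij
      rw [Function.update_self, Function.update_self]
      exact hw
    · rw [Function.update_of_ne hij, Function.update_of_ne hij]
      exact h1 i
  · rw [Function.update_of_ne hji.symm]
    exact h2
  · rw [Function.update_of_ne hji.symm]
    exact h3
  · exact linIndep_update y h4 c j hcj

variable {t : M} {n : ℕ} {y : Fin n → M} {a : Fin n → ℕ} {i₀ : Fin n}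

theorem Minimal.one_le (h : Minimal t y a i₀) (i : Fin n) (hi : i ≠ i₀) : 1 ≤ a i := by
  classical
  by_contra hcon
  have ha : a i = 0 := by omega
  obtain ⟨h1, h2, h3, h4⟩ := h.adapted
  have h5 := h1 i
  rw [ha] at h5
  obtain ⟨c, hc⟩ := LL_zero t _ h5
  rw [Fintype.linearIndependent_iff] at h4
  have h6 := h4 (Function.update (Pi.single i 1) i₀ (-algebraMap ℂ (Ct t) c)) ?_ i
  · rw [Function.update_of_ne hi, Pi.single_eq_same] at h6
    exact one_ne_zero h6
  · rw [← Finset.add_sum_erase _ _ (Finset.mem_univ i₀), Function.update_self, h2]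
    rw [Finset.sum_eq_single i]
    · rw [Function.update_of_ne hi, Pi.single_eq_same, one_smul, hc]
      have : (-algebraMap ℂ (Ct t) c) • (1 : M) = - algebraMap ℂ M c := by
        rw [neg_smul, algebraMap_smul, Algebra.smul_def, mul_one]
      rw [this]
      ring
    · intro j hj hji
      rw [Function.update_of_ne (Finset.mem_erase.mp hj).1, Pi.single_eq_of_ne hji, zero_smul]
    · intro hcon'
      exact absurd (Finset.mem_erase.mpr ⟨hi, Finset.mem_univ i⟩) hcon'

theorem Minimal.vanish1 (h : Minimal t y a i₀) (ht : Transcendental ℂ t) (α : Fin n → ℂ) (c : ℂ)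
    (w : M) (hw : (t - algebraMap ℂ M c) * w = ∑ i, algebraMap ℂ M (α i) * y i)
    (hwB : ∀ O : ValuationSubring M, OverC O → O.valuation t ≤ 1 → O.valuation w ≤ 1) :
    ∀ i, α i = 0 := by
  classical
  by_contra hcon
  push Not at hcon
  obtain ⟨i₁, hi₁⟩ := hcon
  obtain ⟨j, hj, hjmax⟩ := Finset.exists_max_image (Finset.univ.filter fun i => α i ≠ 0) a
    ⟨i₁, by simp [hi₁]⟩
  have hjα : α j ≠ 0 := (Finset.mem_filter.mp hj).2
  have hmax : ∀ i, α i ≠ 0 → a i ≤ a j := fun i hi => hjmax i (by simp [hi])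
  have htc : t - algebraMap ℂ M c ≠ 0 := by
    intro h0
    exact ht ((sub_eq_zero.mp h0) ▸ isAlgebraic_algebraMap c)
  obtain ⟨h1, h2, h3, h4⟩ := h.adapted
  by_cases haj : a j = 0
  · have hall : ∀ i, i ≠ i₀ → α i = 0 := by
      intro i hi
      by_contra h5
      have h6 := hmax i h5
      have h7 := h.one_le i hi
      omega
    have hj0 : j = i₀ := by
      by_contra h5
      exact hjα (hall j h5)
    rw [Finset.sum_eq_single i₀ (fun i _ hi => by rw [hall i hi, map_zero, zero_mul])
      (fun h => absurd (Finset.mem_univ _) h), h2, mul_one] at hw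
    obtain ⟨O, hO, hO1, hO2⟩ := exists_zero t ht c
    have h5 := hwB O hO hO1
    have h6 : O.valuation (algebraMap ℂ M (α i₀)) = 1 :=
      const_valuation_eq_one O hO _ (hj0 ▸ hjα)
    rw [← hw, map_mul] at h6
    have h7 : O.valuation (t - algebraMap ℂ M c) * O.valuation w ≤
        O.valuation (t - algebraMap ℂ M c) * 1 := mul_le_mul_right h5 _
    rw [h6, mul_one] at h7
    exact absurd hO2 (not_lt.mpr h7)
  · refine h.exchange (fun i => ⟨algebraMap ℂ M (α i) * (t - algebraMap ℂ M c)⁻¹, ?_⟩) j ?_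
      (by omega) ?_
    · refine mul_mem ((Ct t).algebraMap_mem _) (inv_mem (sub_mem ?_ ((Ct t).algebraMap_mem _)))
      exact IntermediateField.mem_adjoin_simple_self ℂ t
    · intro h0
      have h5 : algebraMap ℂ M (α j) * (t - algebraMap ℂ M c)⁻¹ = 0 := congrArg Subtype.val h0
      rcases mul_eq_zero.mp h5 with h6 | h6
      · exact hjα ((algebraMap ℂ M).injective (by rw [h6, map_zero]))
      · exact htc (inv_eq_zero.mp h6)
    · have hweq : (∑ i, (⟨algebraMap ℂ M (α i) * (t - algebraMap ℂ M c)⁻¹, by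
          refine mul_mem ((Ct t).algebraMap_mem _) (inv_mem (sub_mem ?_ ((Ct t).algebraMap_mem _)))
          exact IntermediateField.mem_adjoin_simple_self ℂ t⟩ : Ct t) • y i) = w := by
        have h5 : ∀ i, (⟨algebraMap ℂ M (α i) * (t - algebraMap ℂ M c)⁻¹, by
          refine mul_mem ((Ct t).algebraMap_mem _) (inv_mem (sub_mem ?_ ((Ct t).algebraMap_mem _)))
          exact IntermediateField.mem_adjoin_simple_self ℂ t⟩ : Ct t) • y i =
            (t - algebraMap ℂ M c)⁻¹ * (algebraMap ℂ M (α i) * y i) := by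
          intro i
          rw [IntermediateField.smul_def]
          simp only [smul_eq_mul]
          ring
        simp_rw [h5]
        rw [← Finset.mul_sum, ← hw, inv_mul_cancel_left₀ htc]
      rw [hweq, mem_LL_iff]
      intro O hO
      refine ⟨hwB O hO, fun htO => ?_⟩
      have h6 : O.valuation (t - algebraMap ℂ M c) = O.valuation t :=
        Valuation.map_sub_eq_of_lt_left _ (lt_of_le_of_lt (valuation_const_le O hO c) htO)
      have h7 : O.valuation t * O.valuation w ≤ O.valuation t ^ (a j) := by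
        rw [← h6, ← map_mul, hw, h6]
        refine O.valuation.map_sum_le fun i _ => ?_
        by_cases hαi : α i = 0
        · rw [hαi, map_zero, zero_mul, map_zero]
          exact zero_le
        · rw [map_mul, const_valuation_eq_one O hO _ hαi, one_mul]
          exact (((mem_LL_iff t _ _).mp (h1 i) O hO).2 htO).trans
            (pow_le_pow_right₀ htO.le (hmax i hαi))
      have h8 : a j = (a j - 1) + 1 := by omega
      rw [h8, pow_succ'] at h7
      exact le_of_mul_le_mul_left h7 (zero_lt_one.trans htO)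

theorem Minimal.vanish2 (h : Minimal t y a i₀) (ht : Transcendental ℂ t) (α : Fin n → ℂ)
    (hw : ∀ O : ValuationSubring M, OverC O → 1 < O.valuation t →
      O.valuation (t * ∑ i, algebraMap ℂ M (α i) * ((t ^ a i)⁻¹ * y i)) ≤ 1) :
    ∀ i, α i = 0 := by
  classical
  by_contra hcon
  push Not at hcon
  obtain ⟨i₁, hi₁⟩ := hcon
  obtain ⟨j, hj, hjmax⟩ := Finset.exists_max_image (Finset.univ.filter fun i => α i ≠ 0) a
    ⟨i₁, by simp [hi₁]⟩
  have hjα : α j ≠ 0 := (Finset.mem_filter.mp hj).2
  have hmax : ∀ i, α i ≠ 0 → a i ≤ a j := fun i hi => hjmax i (by simp [hi])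
  have ht0 : t ≠ 0 := by
    rintro rfl
    exact ht isAlgebraic_zero
  obtain ⟨h1, h2, h3, h4⟩ := h.adapted
  by_cases haj : a j = 0
  · have hall : ∀ i, i ≠ i₀ → α i = 0 := by
      intro i hi
      by_contra h5
      have h6 := hmax i h5
      have h7 := h.one_le i hi
      omega
    have hj0 : j = i₀ := by
      by_contra h5
      exact hjα (hall j h5)
    obtain ⟨O, hO, hO1⟩ := exists_pole t ht
    have h5 := hw O hO hO1
    rw [Finset.sum_eq_single i₀ (fun i _ hi => by rw [hall i hi, map_zero, zero_mul])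
      (fun h => absurd (Finset.mem_univ _) h), h2, h3, pow_zero, inv_one, mul_one, mul_one,
      map_mul, const_valuation_eq_one O hO _ (hj0 ▸ hjα), mul_one] at h5
    exact absurd hO1 (not_lt.mpr h5)
  · have hmemt : t ∈ Ct t := IntermediateField.mem_adjoin_simple_self ℂ t
    refine h.exchange (fun i => algebraMap ℂ (Ct t) (α i) * (⟨t, hmemt⟩ : Ct t) ^ (a j - a i)) j
      ?_ (by omega) ?_
    · rw [Nat.sub_self, pow_zero, mul_one]
      intro h0
      exact hjα ((algebraMap ℂ (Ct t)).injective (by rw [h0, map_zero]))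
    · have h5 : ∀ i, (algebraMap ℂ (Ct t) (α i) * (⟨t, hmemt⟩ : Ct t) ^ (a j - a i)) • y i =
          t ^ (a j) * (algebraMap ℂ M (α i) * ((t ^ a i)⁻¹ * y i)) := by
        intro i
        rw [IntermediateField.smul_def]
        by_cases hαi : α i = 0
        · rw [hαi]
          simp
        · have h6 : a j = a i + (a j - a i) := by
            have := hmax i hαi
            omega
          have h7 : ((algebraMap ℂ (Ct t) (α i) * (⟨t, hmemt⟩ : Ct t) ^ (a j - a i) : Ct t) : M) =
              algebraMap ℂ M (α i) * t ^ (a j - a i) := rfl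
          rw [h7, smul_eq_mul]
          conv_rhs => rw [h6, pow_add]
          have h8 : t ^ a i ≠ 0 := pow_ne_zero _ ht0
          field_simp
      simp_rw [h5]
      rw [← Finset.mul_sum, mem_LL_iff]
      intro O hO
      constructor
      · intro htO
        rw [Finset.mul_sum]
        refine O.valuation.map_sum_le fun i _ => ?_
        rw [← h5 i, IntermediateField.smul_def]
        have h7 : ((algebraMap ℂ (Ct t) (α i) * (⟨t, hmemt⟩ : Ct t) ^ (a j - a i) : Ct t) : M) =
              algebraMap ℂ M (α i) * t ^ (a j - a i) := rfl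
        rw [h7, smul_eq_mul, map_mul, map_mul, map_pow]
        exact mul_le_one' (mul_le_one' (valuation_const_le O hO _) (pow_le_one' htO _))
          (((mem_LL_iff t _ _).mp (h1 i) O hO).1 htO)
      · intro htO
        have h6 := hw O hO htO
        have h8 : a j = (a j - 1) + 1 := by omega
        have h9 : t ^ a j * ∑ i, algebraMap ℂ M (α i) * ((t ^ a i)⁻¹ * y i) =
            t ^ (a j - 1) * (t * ∑ i, algebraMap ℂ M (α i) * ((t ^ a i)⁻¹ * y i)) := by
          conv_lhs => rw [h8, pow_succ]
          ring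
        rw [h9, map_mul, map_pow]
        calc O.valuation t ^ (a j - 1) *
              O.valuation (t * ∑ i, algebraMap ℂ M (α i) * ((t ^ a i)⁻¹ * y i))
            ≤ O.valuation t ^ (a j - 1) * 1 := mul_le_mul_right h6 _
          _ = O.valuation t ^ (a j - 1) := mul_one _

/-- polynomial coordinates -/
theorem Minimal.poly (h : Minimal t y a i₀) (ht : Transcendental ℂ t) :
    ∀ (d : ℕ) (D : ℂ[X]), D.natDegree = d → D ≠ 0 → ∀ (z : M)
      (_ : ∀ O : ValuationSubring M, OverC O → O.valuation t ≤ 1 → O.valuation z ≤ 1)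
      (P : Fin n → ℂ[X]), aeval t D * z = ∑ i, aeval t (P i) * y i →
      ∃ p : Fin n → ℂ[X], z = ∑ i, aeval t (p i) * y i := by
  intro d
  induction d with
  | zero =>
    intro D hD hD0 z _ P hP
    obtain ⟨c, rfl⟩ := natDegree_eq_zero.mp hD
    have hc : c ≠ 0 := fun h0 => hD0 (by rw [h0, C_0])
    refine ⟨fun i => C c⁻¹ * P i, ?_⟩
    have hc' : algebraMap ℂ M c ≠ 0 := fun h0 => hc ((algebraMap ℂ M).injective (by rw [h0, map_zero]))
    have h1 : z = (algebraMap ℂ M c)⁻¹ * (aeval t (C c) * z) := by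
      rw [aeval_C, inv_mul_cancel_left₀ hc']
    rw [h1, hP, Finset.mul_sum]
    refine Finset.sum_congr rfl fun i _ => ?_
    rw [map_mul, aeval_C, map_inv₀]
    ring
  | succ d ih =>
    intro D hD hD0 z hz P hP
    obtain ⟨c, hc⟩ := IsAlgClosed.exists_root D (by
      rw [degree_eq_natDegree hD0, hD]
      exact_mod_cast Nat.succ_ne_zero d)
    obtain ⟨D', hD'⟩ := dvd_iff_isRoot.mpr hc
    have hD'0 : D' ≠ 0 := by
      rintro rfl
      exact hD0 (by rw [hD', mul_zero])
    have hdeg : D'.natDegree = d := by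
      have h1 := congrArg natDegree hD'
      rw [natDegree_mul (X_sub_C_ne_zero c) hD'0, natDegree_X_sub_C, hD] at h1
      omega
    have htc : t - algebraMap ℂ M c ≠ 0 := by
      intro h0
      exact ht ((sub_eq_zero.mp h0) ▸ isAlgebraic_algebraMap c)
    have hQ : ∀ i, aeval t (P i) = (t - algebraMap ℂ M c) * aeval t (P i /ₘ (X - C c)) +
        algebraMap ℂ M ((P i).eval c) := by
      intro i
      conv_lhs => rw [← modByMonic_add_div (P i) (X - C c), modByMonic_X_sub_C_eq_C_eval]
      rw [map_add, map_mul, map_sub, aeval_X, aeval_C, aeval_C]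
      ring
    have hprod : (t - algebraMap ℂ M c) * (aeval t D' * z) = ∑ i, aeval t (P i) * y i := by
      rw [← hP, hD', map_mul, map_sub, aeval_X, aeval_C]
      ring
    set w := aeval t D' * z - ∑ i, aeval t (P i /ₘ (X - C c)) * y i with hwdef
    have hw : (t - algebraMap ℂ M c) * w = ∑ i, algebraMap ℂ M ((P i).eval c) * y i := by
      rw [hwdef, mul_sub, hprod, Finset.mul_sum, ← Finset.sum_sub_distrib]
      refine Finset.sum_congr rfl fun i _ => ?_
      rw [hQ i]
      ring
    have hwB : ∀ O : ValuationSubring M, OverC O → O.valuation t ≤ 1 → O.valuation w ≤ 1 := by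
      intro O hO htO
      refine O.valuation.map_sub_le ?_ ?_
      · rw [map_mul]
        exact mul_le_one' (aeval_le O hO t htO _) (hz O hO htO)
      · refine O.valuation.map_sum_le fun i _ => ?_
        rw [map_mul]
        exact mul_le_one' (aeval_le O hO t htO _)
          (((mem_LL_iff t _ _).mp (h.adapted.1 i) O hO).1 htO)
    have hα := h.vanish1 ht (fun i => (P i).eval c) c w hw hwB
    have hw0 : w = 0 := by
      have h1 : (t - algebraMap ℂ M c) * w = 0 := by
        rw [hw]
        refine Finset.sum_eq_zero fun i _ => ?_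
        rw [hα i, map_zero, zero_mul]
      exact (mul_eq_zero.mp h1).resolve_left htc
    exact ih D' hdeg hD'0 z hz (fun i => P i /ₘ (X - C c)) (sub_eq_zero.mp hw0)

theorem Minimal.poly' (h : Minimal t y a i₀) (ht : Transcendental ℂ t)
    (hn : Module.finrank (Ct t) M = n) (z : M)
    (hz : ∀ O : ValuationSubring M, OverC O → O.valuation t ≤ 1 → O.valuation z ≤ 1) :
    ∃ p : Fin n → ℂ[X], z = ∑ i, aeval t (p i) * y i := by
  classical
  obtain ⟨h1, h2, h3, h4⟩ := h.adapted
  have : Nonempty (Fin n) := ⟨i₀⟩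
  have hspan := h4.span_eq_top_of_card_eq_finrank (by rw [hn, Fintype.card_fin])
  have hz1 : z ∈ Submodule.span (Ct t) (Set.range y) := by
    rw [hspan]
    exact Submodule.mem_top
  obtain ⟨c, hc⟩ := (Submodule.mem_span_range_iff_exists_fun (Ct t)).mp hz1
  have hrs : ∀ i, ∃ r s : ℂ[X], s ≠ 0 ∧ (c i : M) * aeval t s = aeval t r := by
    intro i
    obtain ⟨r, s, hrs⟩ := (IntermediateField.mem_adjoin_simple_iff ℂ _).mp (c i).2
    by_cases hs : s = 0
    · refine ⟨0, 1, one_ne_zero, ?_⟩
      rw [hrs, hs]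
      simp
    · refine ⟨r, s, hs, ?_⟩
      have hs' : aeval t s ≠ 0 := fun h0 => ht ⟨s, hs, h0⟩
      rw [hrs, div_mul_cancel₀ _ hs']
  choose r s hs hrs using hrs
  refine h.poly ht _ (∏ i, s i) rfl (Finset.prod_ne_zero_iff.mpr fun i _ => hs i) z hz
    (fun i => r i * ∏ j ∈ Finset.univ.erase i, s j) ?_
  rw [← hc, Finset.mul_sum]
  refine Finset.sum_congr rfl fun i _ => ?_
  rw [← Finset.mul_prod_erase _ _ (Finset.mem_univ i), map_mul, map_mul, ← hrs i,
    IntermediateField.smul_def, smul_eq_mul]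
  ring

theorem Minimal.degrees (h : Minimal t y a i₀) (ht : Transcendental ℂ t) (k : ℕ) (z : M)
    (hz : z ∈ LL t k) (p : Fin n → ℂ[X]) (hp : z = ∑ i, aeval t (p i) * y i) :
    ∀ i, p i ≠ 0 → (p i).natDegree + a i ≤ k := by
  classical
  by_contra hcon
  push Not at hcon
  obtain ⟨i₁, hi₁, hi₁k⟩ := hcon
  obtain ⟨j, hj, hjmax⟩ := Finset.exists_max_image (Finset.univ.filter fun i => p i ≠ 0)
    (fun i => (p i).natDegree + a i) ⟨i₁, by simp [hi₁]⟩
  have hjp : p j ≠ 0 := (Finset.mem_filter.mp hj).2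
  have hmax : ∀ i, p i ≠ 0 → (p i).natDegree + a i ≤ (p j).natDegree + a j :=
    fun i hi => hjmax i (by simp [hi])
  set m := (p j).natDegree + a j with hm
  have hmk : k < m := lt_of_lt_of_le hi₁k (hmax i₁ hi₁)
  have ht0 : t ≠ 0 := by
    rintro rfl
    exact ht isAlgebraic_zero
  have hvan := h.vanish2 ht (fun i => (p i).coeff (m - a i)) ?_ j
  · have h1 : m - a j = (p j).natDegree := by omega
    rw [h1] at hvan
    exact hjp (leadingCoeff_eq_zero.mp hvan)
  · intro O hO htO
    have h1 : t * ∑ i, algebraMap ℂ M ((p i).coeff (m - a i)) * ((t ^ a i)⁻¹ * y i) =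
        t * ((t ^ m)⁻¹ * z) - ∑ i, (t * ((t ^ (m - a i))⁻¹ * aeval t (p i) -
          algebraMap ℂ M ((p i).coeff (m - a i)))) * ((t ^ a i)⁻¹ * y i) := by
      rw [hp, Finset.mul_sum, Finset.mul_sum, Finset.mul_sum, ← Finset.sum_sub_distrib]
      refine Finset.sum_congr rfl fun i _ => ?_
      by_cases hpi : p i = 0
      · rw [hpi]
        simp
      · have h2 : m = (m - a i) + a i := by
          have := hmax i hpi
          omega
        have h3 : (t ^ m)⁻¹ = (t ^ (m - a i))⁻¹ * (t ^ a i)⁻¹ := by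
          conv_lhs => rw [h2, pow_add, mul_inv]
        rw [h3]
        ring
    rw [h1]
    refine O.valuation.map_sub_le ?_ ?_
    · have h2 := ((mem_LL_iff t _ _).mp hz O hO).2 htO
      rw [map_mul, map_mul, map_inv₀, map_pow]
      have h0 : 0 < O.valuation t ^ m := pow_pos (zero_lt_one.trans htO) m
      rw [mul_left_comm, inv_mul_le_iff₀ h0, mul_one]
      calc O.valuation t * O.valuation z ≤ O.valuation t * O.valuation t ^ k :=
            mul_le_mul_right h2 _
        _ = O.valuation t ^ (k + 1) := (pow_succ' _ _).symm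
        _ ≤ O.valuation t ^ m := pow_le_pow_right₀ htO.le hmk
    · refine O.valuation.map_sum_le fun i _ => ?_
      by_cases hpi : p i = 0
      · rw [hpi]
        simp
      · rw [map_mul]
        refine mul_le_one' (lead_le O hO t htO _ _ ?_) ?_
        · have := hmax i hpi
          omega
        · have h2 := ((mem_LL_iff t _ _).mp (h.adapted.1 i) O hO).2 htO
          rw [map_mul, map_inv₀, map_pow, inv_mul_le_iff₀ (pow_pos (zero_lt_one.trans htO) _),
            mul_one]
          exact h2

end aux2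

theorem splitting {M : Type} [Field M] [Algebra ℂ M] (hM : IsCurve M) (t : M)
    (ht : Transcendental ℂ t) (n : ℕ) (hn : Module.finrank (Ct t) M = n) :
    ∃ (y : Fin n → M) (a : Fin n → ℕ) (i₀ : Fin n), (∀ i, y i ∈ LL t (a i)) ∧ y i₀ = 1 ∧
      a i₀ = 0 ∧ (∀ i, i ≠ i₀ → 1 ≤ a i) ∧ LinearIndependent (Ct t) y ∧
      ∀ k, ∀ z ∈ LL t k, ∃ p : Fin n → Polynomial ℂ,
        (∀ i, p i ≠ 0 → (p i).natDegree + a i ≤ k) ∧
        z = ∑ i, Polynomial.aeval t (p i) * y i := by
  obtain ⟨y, a, i₀, h⟩ := exists_minimal hM t ht n hn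
  refine ⟨y, a, i₀, h.adapted.1, h.adapted.2.1, h.adapted.2.2.1, h.one_le, h.adapted.2.2.2,
    fun k z hz => ?_⟩
  obtain ⟨p, hp⟩ := h.poly' ht hn z (fun O hO htO => ((mem_LL_iff t z k).mp hz O hO).1 htO)
  exact ⟨p, h.degrees ht k z hz p hp, hp⟩

end Pool.Agent.DegThree
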