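import Pool.Agent.Lib_MP_9293ae_ag.NoDefs2

/-! Basic facts on valuation rings above a valuation ring (helper file for the STRUCT pieces). -/

set_option autoImplicit false

namespace Pool.Agent.DegThree

namespace StructBase

open Polynomial

variable {K L : Type} [Field K] [Field L] [Algebra K L]

theorem le_iff {A : ValuationSubring K} {O : ValuationSubring L}
    (hO : O.comap (algebraMap K L) = A) (a : K) :
    O.valuation (algebraMap K L a) ≤ 1 ↔ A.valuation a ≤ 1 := by
  rw [ValuationSubring.valuation_le_one_iff, ValuationSubring.valuation_le_one_iff, ← hO]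
  rfl

theorem one_le_iff {A : ValuationSubring K} {O : ValuationSubring L}
    (hO : O.comap (algebraMap K L) = A) (a : K) :
    1 ≤ O.valuation (algebraMap K L a) ↔ 1 ≤ A.valuation a := by
  by_cases ha : a = 0
  · subst ha
    simp
  · have h := le_iff hO a⁻¹
    rw [map_inv₀, map_inv₀, map_inv₀] at h
    have h1 : A.valuation a ≠ 0 := (Valuation.ne_zero_iff _).2 ha
    have h2 : O.valuation (algebraMap K L a) ≠ 0 :=
      (Valuation.ne_zero_iff _).2 ((_root_.map_ne_zero _).2 ha)
    rw [inv_le_one₀ (zero_lt_iff.2 h1), inv_le_one₀ (zero_lt_iff.2 h2)] at h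
    exact h

theorem lt_iff {A : ValuationSubring K} {O : ValuationSubring L}
    (hO : O.comap (algebraMap K L) = A) (a : K) :
    O.valuation (algebraMap K L a) < 1 ↔ A.valuation a < 1 := by
  rw [← not_le, ← not_le, not_iff_not]
  exact one_le_iff hO a

theorem eq_iff {A : ValuationSubring K} {O : ValuationSubring L}
    (hO : O.comap (algebraMap K L) = A) (a : K) :
    O.valuation (algebraMap K L a) = 1 ↔ A.valuation a = 1 := by
  rw [le_antisymm_iff, le_antisymm_iff, le_iff hO, one_le_iff hO]

/-- A relation whose largest coefficient is one, with the coefficients of higher index in the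
maximal ideal. -/
theorem exists_relation [Algebra.IsAlgebraic K L] (A : ValuationSubring K) (z : L) :
    ∃ (P : K[X]) (k : ℕ), aeval z P = 0 ∧ P.coeff k = 1 ∧ (∀ i, A.valuation (P.coeff i) ≤ 1) ∧
      ∀ i, k < i → A.valuation (P.coeff i) < 1 := by
  obtain ⟨P, hP, hPz⟩ := Algebra.IsAlgebraic.isAlgebraic (R := K) z
  obtain ⟨k, hk, hmax⟩ := Finset.exists_max_image P.support
    (fun i => toLex (A.valuation (P.coeff i), i)) (Polynomial.support_nonempty.2 hP)
  have hk0 : P.coeff k ≠ 0 := Polynomial.mem_support_iff.1 hk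
  have hv0 : A.valuation (P.coeff k) ≠ 0 := (Valuation.ne_zero_iff _).2 hk0
  have hle : ∀ i, A.valuation (P.coeff i) ≤ A.valuation (P.coeff k) := by
    intro i
    by_cases hi : i ∈ P.support
    · rcases (Prod.Lex.le_iff.1 (hmax i hi)) with h | h
      · exact le_of_lt h
      · exact le_of_eq h.1
    · rw [Polynomial.notMem_support_iff.1 hi]
      simp
  have hlt : ∀ i, k < i → A.valuation (P.coeff i) < A.valuation (P.coeff k) := by
    intro i hki
    by_cases hi : i ∈ P.support
    · rcases (Prod.Lex.le_iff.1 (hmax i hi)) with h | h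
      · exact h
      · exact absurd h.2 (not_le.2 hki)
    · rw [Polynomial.notMem_support_iff.1 hi, map_zero]
      exact zero_lt_iff.2 hv0
  refine ⟨C (P.coeff k)⁻¹ * P, k, by simp [hPz], by simp [hk0], fun i => ?_, fun i hi => ?_⟩
  · rw [coeff_C_mul, map_mul, map_inv₀, inv_mul_le_iff₀ (zero_lt_iff.2 hv0), mul_one]
    exact hle i
  · rw [coeff_C_mul, map_mul, map_inv₀, inv_mul_lt_iff₀ (zero_lt_iff.2 hv0), mul_one]
    exact hlt i hi

/-- A value of a polynomial with small coefficients is small. -/
theorem aeval_le {A : ValuationSubring K} {O : ValuationSubring L}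
    (hO : O.comap (algebraMap K L) = A) (P : K[X]) (hP : ∀ i, A.valuation (P.coeff i) ≤ 1)
    (z : L) (hz : O.valuation z ≤ 1) : O.valuation (aeval z P) ≤ 1 := by
  rw [aeval_eq_sum_range]
  refine Valuation.map_sum_le _ fun i _ => ?_
  rw [Algebra.smul_def, map_mul, map_pow]
  exact mul_le_one' ((le_iff hO _).2 (hP i)) (pow_le_one' hz i)

theorem aeval_lt {A : ValuationSubring K} {O : ValuationSubring L}
    (hO : O.comap (algebraMap K L) = A) (P : K[X]) (hP : ∀ i, A.valuation (P.coeff i) < 1)
    (z : L) (hz : O.valuation z ≤ 1) : O.valuation (aeval z P) < 1 := by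
  rw [aeval_eq_sum_range]
  refine Valuation.map_sum_lt _ one_ne_zero fun i _ => ?_
  rw [Algebra.smul_def, map_mul, map_pow]
  exact mul_lt_one_of_lt_of_le ((lt_iff hO _).2 (hP i)) (pow_le_one' hz i)

end StructBase

end Pool.Agent.DegThree
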