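import Pool.Agent.Lib_MP_9293ae_ag.NoStructBase

/-! Traces of elements which are integral, or of positive valuation, at all places above `A`. -/

set_option autoImplicit false

namespace Pool.Agent.DegThree

namespace TraceInt

open Polynomial StructBase

/-- Valuation rings extend to bigger fields. -/
theorem exists_extension {K E : Type} [Field K] [Field E] [Algebra K E] (A : ValuationSubring K) :
    ∃ O : ValuationSubring E, O.comap (algebraMap K E) = A := by
  let f : A →+* E := (algebraMap K E).comp A.subtype
  obtain ⟨O, h, hloc⟩ := IsLocalRing.exists_factor_valuationRing f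
  refine ⟨O, ?_⟩
  ext x
  constructor
  · intro hx
    have hx' : algebraMap K E x ∈ O := hx
    by_contra hxA
    have hx0 : x ≠ 0 := by
      rintro rfl
      exact hxA A.zero_mem
    have hinv : x⁻¹ ∈ A := (A.mem_or_inv_mem x).resolve_left hxA
    have hu : IsUnit (f.codRestrict O.toSubring h ⟨x⁻¹, hinv⟩) := by
      refine IsUnit.of_mul_eq_one ⟨algebraMap K E x, hx'⟩ (Subtype.ext ?_)
      change algebraMap K E x⁻¹ * algebraMap K E x = 1
      rw [← map_mul, inv_mul_cancel₀ hx0, map_one]
    have hu' : IsUnit (⟨x⁻¹, hinv⟩ : A) := hloc.map_nonunit _ hu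
    obtain ⟨y, hy⟩ := hu'.exists_right_inv
    have hy' : x⁻¹ * (y : K) = 1 := congrArg Subtype.val hy
    have : x = y := by
      rw [inv_mul_eq_one₀ hx0] at hy'
      exact hy'
    exact hxA (this ▸ y.2)
  · intro hx
    exact h ⟨x, hx⟩

variable {K L : Type} [Field K] [Field L] [Algebra K L] [FiniteDimensional K L]

/-- Conjugates come from valuation rings above `A`. -/
theorem conj (A : ValuationSubring K) (z : L) :
    ∃ O' : ValuationSubring (AlgebraicClosure L),
      O'.comap (algebraMap K (AlgebraicClosure L)) = A ∧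
      (∀ r ∈ (minpoly K z).aroots (AlgebraicClosure L), ∃ O : ValuationSubring L,
        O.comap (algebraMap K L) = A ∧ (O'.valuation r ≤ 1 ↔ O.valuation z ≤ 1) ∧
          (O'.valuation r < 1 ↔ O.valuation z < 1)) := by
  obtain ⟨O', hO'⟩ := exists_extension (E := AlgebraicClosure L) A
  refine ⟨O', hO', fun r hr => ?_⟩
  have hz : IsIntegral K z := Algebra.IsIntegral.isIntegral z
  have hr' : aeval r (minpoly K z) = 0 := (mem_aroots.1 hr).2
  obtain ⟨σ, hσ⟩ := IntermediateField.exists_algHom_of_splits_of_aeval (F := K) (E := L)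
    (K := AlgebraicClosure L) (fun s => ⟨Algebra.IsIntegral.isIntegral s,
      IsAlgClosed.splits _⟩) hr'
  let : Algebra L (AlgebraicClosure L) := σ.toRingHom.toAlgebra
  have e : ∀ x, algebraMap L (AlgebraicClosure L) x = σ x := fun _ => rfl
  refine ⟨O'.comap σ.toRingHom, ?_, ?_, ?_⟩
  · rw [← hO']
    ext x
    change σ (algebraMap K L x) ∈ O' ↔ algebraMap K (AlgebraicClosure L) x ∈ O'
    rw [σ.commutes]
  · rw [← hσ, ← e]
    exact le_iff (K := L) (L := AlgebraicClosure L) (A := O'.comap σ.toRingHom) rfl z
  · rw [← hσ, ← e]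
    exact lt_iff (K := L) (L := AlgebraicClosure L) (A := O'.comap σ.toRingHom) rfl z

theorem trace_eq (z : L) :
    algebraMap K (AlgebraicClosure L) (Algebra.trace K L z) =
      Module.finrank (IntermediateField.adjoin K {z}) L •
        ((minpoly K z).aroots (AlgebraicClosure L)).sum :=
  trace_eq_sum_roots (IsAlgClosed.splits _)

theorem sum_le_one {E : Type} [Field E] (O : ValuationSubring E) (s : Multiset E)
    (hs : ∀ r ∈ s, O.valuation r ≤ 1) : O.valuation s.sum ≤ 1 := by
  induction s using Multiset.induction_on with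
  | empty => simp
  | cons a s ih =>
    rw [Multiset.sum_cons]
    exact (Valuation.map_add _ _ _).trans (max_le (hs a (Multiset.mem_cons_self _ _))
      (ih fun r hr => hs r (Multiset.mem_cons_of_mem hr)))

theorem sum_lt_one {E : Type} [Field E] (O : ValuationSubring E) (s : Multiset E)
    (hs : ∀ r ∈ s, O.valuation r < 1) : O.valuation s.sum < 1 := by
  induction s using Multiset.induction_on with
  | empty => simp
  | cons a s ih =>
    rw [Multiset.sum_cons]
    exact lt_of_le_of_lt (Valuation.map_add _ _ _) (max_lt (hs a (Multiset.mem_cons_self _ _))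
      (ih fun r hr => hs r (Multiset.mem_cons_of_mem hr)))

end TraceInt

open Polynomial StructBase TraceInt in
theorem trace_le {K L : Type} [Field K] [Field L] [Algebra K L] [FiniteDimensional K L]
    (A : ValuationSubring K) (z : L)
    (hz : ∀ O : ValuationSubring L, O.comap (algebraMap K L) = A → O.valuation z ≤ 1) :
    A.valuation (Algebra.trace K L z) ≤ 1 := by
  obtain ⟨O', hO', hconj⟩ := conj A z
  rw [← le_iff hO', trace_eq, nsmul_eq_mul, map_mul]
  refine mul_le_one' ?_ (sum_le_one O' _ fun r hr => ?_)
  · rw [O'.valuation_le_one_iff]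
    exact natCast_mem O' _
  · obtain ⟨O, hO, h1, -⟩ := hconj r hr
    exact h1.2 (hz O hO)

open Polynomial StructBase TraceInt in
theorem trace_lt {K L : Type} [Field K] [Field L] [Algebra K L] [FiniteDimensional K L]
    (A : ValuationSubring K) (z : L)
    (hz : ∀ O : ValuationSubring L, O.comap (algebraMap K L) = A → O.valuation z < 1) :
    A.valuation (Algebra.trace K L z) < 1 := by
  obtain ⟨O', hO', hconj⟩ := conj A z
  rw [← lt_iff hO', trace_eq, nsmul_eq_mul, map_mul, mul_comm]
  refine mul_lt_one_of_lt_of_le (sum_lt_one O' _ fun r hr => ?_) ?_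
  · obtain ⟨O, hO, -, h1⟩ := hconj r hr
    exact h1.2 (hz O hO)
  · rw [O'.valuation_le_one_iff]
    exact natCast_mem O' _

end Pool.Agent.DegThree
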