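import Mathlib

/-! Piece PosA: the field generated by the degree three map. -/

set_option autoImplicit false

open scoped Polynomial IntermediateField

namespace Pool.Agent.DegThree

/-- Under algebraic independence of `x, z` the relation `z^3 (a x + b)^2 = x^3 (c z + d)^2`
is impossible when `d ≠ 0`. -/
lemma posA_indep_ne {K : Type} [Field K] [Algebra ℂ K] (α β γ δ : ℂ) (hδ : δ ≠ 0)
    (x z : K) (hxz : AlgebraicIndependent ℂ ![x, z])
    (h : z ^ 3 * (algebraMap ℂ K α * x + algebraMap ℂ K β) ^ 2 =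
      x ^ 3 * (algebraMap ℂ K γ * z + algebraMap ℂ K δ) ^ 2) : False := by
  have hinj := (algebraicIndependent_iff.1 hxz)
    (MvPolynomial.X 1 ^ 3 * (MvPolynomial.C α * MvPolynomial.X 0 + MvPolynomial.C β) ^ 2 -
      MvPolynomial.X 0 ^ 3 * (MvPolynomial.C γ * MvPolynomial.X 1 + MvPolynomial.C δ) ^ 2)
    (by
      simp only [map_sub, map_mul, map_pow, map_add, MvPolynomial.aeval_X, MvPolynomial.aeval_C,
        Matrix.cons_val_zero, Matrix.cons_val_one]
      rw [h, sub_self])
  have h2 := congrArg (MvPolynomial.eval (![1, 0] : Fin 2 → ℂ)) hinj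
  simp at h2
  exact hδ h2

lemma posA_ne_zero {K : Type} [Field K] [Algebra ℂ K]
    (x z : K) (hxz : AlgebraicIndependent ℂ ![x, z]) : x ≠ 0 ∧ z ≠ 0 := by
  refine ⟨fun h => ?_, fun h => ?_⟩
  · exact hxz.ne_zero 0 (by simpa using h)
  · exact hxz.ne_zero 1 (by simpa using h)

open scoped IntermediateField.algebraAdjoinAdjoin in
lemma posA_alg {K : Type} [Field K] [Algebra ℂ K] (s : Set K)
    (h : Algebra.IsAlgebraic (IntermediateField.adjoin ℂ s) K) :
    Algebra.IsAlgebraic (Algebra.adjoin ℂ s) K :=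
  (IsFractionRing.comap_isAlgebraic_iff (A := Algebra.adjoin ℂ s)
    (K := IntermediateField.adjoin ℂ s) (C := K)).2 h

theorem pos_fields {K : Type} [Field K] [Algebra ℂ K] (α β γ δ : ℂ) (hδ : δ ≠ 0)
    (x y z w t u : K) (hxz : AlgebraicIndependent ℂ ![x, z])
    (hgen : IntermediateField.adjoin ℂ {x, y, z, w} = ⊤)
    (h1 : y ^ 2 = x ^ 3 + (algebraMap ℂ K α * x + algebraMap ℂ K β) ^ 2)
    (h2 : w ^ 2 = z ^ 3 + (algebraMap ℂ K γ * z + algebraMap ℂ K δ) ^ 2)
    (ht : t = z / x) (hu : u = (w - algebraMap ℂ K γ * z - algebraMap ℂ K δ) /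
      (y - algebraMap ℂ K α * x - algebraMap ℂ K β)) :
    AlgebraicIndependent ℂ ![t, u] ∧
    ∃ m ∈ IntermediateField.adjoin ℂ {t, u}, ∃ n ∈ IntermediateField.adjoin ℂ {t, u},
      m * (t ^ 3 - u ^ 2) =
        -(t ^ 3 + u ^ 2) * algebraMap ℂ K α + 2 * algebraMap ℂ K γ * t * u ∧
      n * (t ^ 3 - u ^ 2) = -(t ^ 3 + u ^ 2) * algebraMap ℂ K β + 2 * algebraMap ℂ K δ * u ∧
      y = m * x + n ∧
      IntermediateField.adjoin (IntermediateField.adjoin ℂ {t, u}) {x} = ⊤ := by
  obtain ⟨hx0, hz0⟩ := posA_ne_zero x z hxz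
  set a : K := algebraMap ℂ K α with ha
  set b : K := algebraMap ℂ K β with hb
  set c : K := algebraMap ℂ K γ with hc
  set d : K := algebraMap ℂ K δ with hd
  have hAA : (y - a * x - b) * (y + a * x + b) = x ^ 3 := by linear_combination h1
  have hBB : (w - c * z - d) * (w + c * z + d) = z ^ 3 := by linear_combination h2
  have hA0 : y - a * x - b ≠ 0 := by
    intro h
    rw [h, zero_mul] at hAA
    exact (pow_ne_zero 3 hx0) hAA.symm
  have hB0 : w - c * z - d ≠ 0 := by
    intro h
    rw [h, zero_mul] at hBB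
    exact (pow_ne_zero 3 hz0) hBB.symm
  have hu0 : u ≠ 0 := by
    rw [hu]
    exact div_ne_zero hB0 hA0
  have hz : z = t * x := by
    rw [ht]
    field_simp
  have hB : w - c * z - d = u * (y - a * x - b) := by
    rw [hu]
    field_simp
  have hB' : u * (w + c * z + d) = t ^ 3 * (y + a * x + b) := by
    apply mul_left_cancel₀ hA0
    have e1 : (y - a * x - b) * (u * (w + c * z + d)) = (w - c * z - d) * (w + c * z + d) := by
      rw [hB]; ring
    rw [e1, hBB, hz]
    linear_combination (-t ^ 3) * hAA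
  have hstar : y * (t ^ 3 - u ^ 2) = -(t ^ 3 + u ^ 2) * (a * x + b) + 2 * u * (c * t * x + d) := by
    have e2 : u * (w + c * z + d) - u * (w - c * z - d) = 2 * u * (c * z + d) := by ring
    rw [hB', hB] at e2
    rw [hz] at e2
    linear_combination e2
  have hD : t ^ 3 - u ^ 2 ≠ 0 := by
    intro h
    rw [h, mul_zero] at hstar
    have h3 : t ^ 3 = u ^ 2 := by linear_combination h
    rw [h3] at hstar
    have h4 : u * (a * x + b) = c * z + d := by
      have h5 : (2 * u) * (u * (a * x + b)) = (2 * u) * (c * z + d) := by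
        rw [hz]
        linear_combination hstar
      have h2' : (2 : K) ≠ 0 := by
        have : (2 : K) = algebraMap ℂ K 2 := (map_ofNat (algebraMap ℂ K) 2).symm
        rw [this]
        exact (map_ne_zero (algebraMap ℂ K)).2 two_ne_zero
      exact mul_left_cancel₀ (mul_ne_zero h2' hu0) h5
    refine posA_indep_ne α β γ δ hδ x z hxz ?_
    rw [← ha, ← hb, ← hc, ← hd, ← h4, hz]
    linear_combination (x ^ 3 * (a * x + b) ^ 2) * h3
  have htL : t ∈ IntermediateField.adjoin ℂ {t, u} :=
    IntermediateField.subset_adjoin ℂ {t, u} (by simp)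
  have huL : u ∈ IntermediateField.adjoin ℂ {t, u} :=
    IntermediateField.subset_adjoin ℂ {t, u} (by simp)
  have hmapL : ∀ r : ℂ, algebraMap ℂ K r ∈ IntermediateField.adjoin ℂ {t, u} := fun r =>
    (IntermediateField.adjoin ℂ {t, u}).algebraMap_mem r
  have h2L : (2 : K) ∈ IntermediateField.adjoin ℂ {t, u} := by
    have : (2 : K) = algebraMap ℂ K 2 := (map_ofNat (algebraMap ℂ K) 2).symm
    rw [this]
    exact hmapL 2
  have hDL : t ^ 3 - u ^ 2 ∈ IntermediateField.adjoin ℂ {t, u} :=
    sub_mem (pow_mem htL 3) (pow_mem huL 2)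
  obtain ⟨m, hm⟩ : ∃ m : K, m = (-(t ^ 3 + u ^ 2) * a + 2 * c * t * u) / (t ^ 3 - u ^ 2) :=
    ⟨_, rfl⟩
  obtain ⟨n, hn⟩ : ∃ n : K, n = (-(t ^ 3 + u ^ 2) * b + 2 * d * u) / (t ^ 3 - u ^ 2) :=
    ⟨_, rfl⟩
  have hmL : m ∈ IntermediateField.adjoin ℂ {t, u} := by
    rw [hm]
    exact div_mem (add_mem (mul_mem (neg_mem (add_mem (pow_mem htL 3) (pow_mem huL 2))) (hmapL α))
      (mul_mem (mul_mem (mul_mem h2L (hmapL γ)) htL) huL)) hDL
  have hnL : n ∈ IntermediateField.adjoin ℂ {t, u} := by
    rw [hn]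
    exact div_mem (add_mem (mul_mem (neg_mem (add_mem (pow_mem htL 3) (pow_mem huL 2))) (hmapL β))
      (mul_mem (mul_mem h2L (hmapL δ)) huL)) hDL
  have hmD : m * (t ^ 3 - u ^ 2) = -(t ^ 3 + u ^ 2) * a + 2 * c * t * u := by
    rw [hm]
    exact div_mul_cancel₀ _ hD
  have hnD : n * (t ^ 3 - u ^ 2) = -(t ^ 3 + u ^ 2) * b + 2 * d * u := by
    rw [hn]
    exact div_mul_cancel₀ _ hD
  have hy : y = m * x + n := by
    apply mul_right_cancel₀ hD
    linear_combination hstar - x * hmD - hnD
  -- generation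
  have htop : IntermediateField.adjoin (IntermediateField.adjoin ℂ {t, u}) {x} = ⊤ := by
    have hL : ∀ r ∈ IntermediateField.adjoin ℂ {t, u},
        r ∈ IntermediateField.adjoin (IntermediateField.adjoin ℂ {t, u}) {x} := fun r hr =>
      (IntermediateField.adjoin (IntermediateField.adjoin ℂ {t, u}) {x}).algebraMap_mem ⟨r, hr⟩
    have hxM : x ∈ IntermediateField.adjoin (IntermediateField.adjoin ℂ {t, u}) {x} :=
      IntermediateField.subset_adjoin _ {x} (by simp)
    have hzM : z ∈ IntermediateField.adjoin (IntermediateField.adjoin ℂ {t, u}) {x} := by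
      rw [hz]
      exact mul_mem (hL t htL) hxM
    have hyM : y ∈ IntermediateField.adjoin (IntermediateField.adjoin ℂ {t, u}) {x} := by
      rw [hy]
      exact add_mem (mul_mem (hL m hmL) hxM) (hL n hnL)
    have hwM : w ∈ IntermediateField.adjoin (IntermediateField.adjoin ℂ {t, u}) {x} := by
      have hw : w = u * (y - a * x - b) + c * z + d := by linear_combination hB
      rw [hw]
      exact add_mem (add_mem (mul_mem (hL u huL) (sub_mem (sub_mem hyM
        (mul_mem (hL a (hmapL α)) hxM)) (hL b (hmapL β)))) (mul_mem (hL c (hmapL γ)) hzM))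
        (hL d (hmapL δ))
    have hle : IntermediateField.adjoin ℂ {x, y, z, w} ≤
        (IntermediateField.adjoin (IntermediateField.adjoin ℂ {t, u}) {x}).restrictScalars ℂ := by
      rw [IntermediateField.adjoin_le_iff]
      intro r hr
      simp only [Set.mem_insert_iff, Set.mem_singleton_iff] at hr
      rcases hr with rfl | rfl | rfl | rfl
      · exact hxM
      · exact hyM
      · exact hzM
      · exact hwM
    rw [hgen] at hle
    rw [eq_top_iff]
    intro r _
    exact hle (IntermediateField.mem_top (F := ℂ) (x := r))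
  -- algebraicity
  have hxint : IsIntegral (IntermediateField.adjoin ℂ {t, u}) x := by
    refine ⟨Polynomial.X ^ 3 + ((Polynomial.C ⟨a, hmapL α⟩ * Polynomial.X +
      Polynomial.C ⟨b, hmapL β⟩) ^ 2 - (Polynomial.C ⟨m, hmL⟩ * Polynomial.X +
      Polynomial.C ⟨n, hnL⟩) ^ 2), ?_, ?_⟩
    · apply Polynomial.monic_X_pow_add
      refine lt_of_le_of_lt (Polynomial.degree_sub_le _ _) ?_
      have hdeg : ∀ p q : IntermediateField.adjoin ℂ {t, u},
          ((Polynomial.C p * Polynomial.X + Polynomial.C q) ^ 2).degree < 3 := by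
        intro p q
        refine lt_of_le_of_lt (Polynomial.degree_pow_le _ _) ?_
        refine lt_of_le_of_lt (nsmul_le_nsmul_right (Polynomial.degree_linear_le) 2) ?_
        norm_num
      exact max_lt (hdeg _ _) (hdeg _ _)
    · have hmn : x ^ 3 + ((a * x + b) ^ 2 - (m * x + n) ^ 2) = 0 := by
        rw [← hy]
        linear_combination -h1
      simpa [Polynomial.eval₂_add, Polynomial.eval₂_sub, Polynomial.eval₂_mul,
        Polynomial.eval₂_pow] using hmn
  have halgL : Algebra.IsAlgebraic (IntermediateField.adjoin ℂ {t, u}) K := by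
    have h5 : Algebra.IsAlgebraic (IntermediateField.adjoin ℂ {t, u})
        (IntermediateField.adjoin (IntermediateField.adjoin ℂ {t, u}) {x}) :=
      IntermediateField.isAlgebraic_adjoin (by
        intro r hr
        rw [Set.mem_singleton_iff] at hr
        rw [hr]
        exact hxint)
    rw [htop] at h5
    exact (IntermediateField.topEquiv (F := IntermediateField.adjoin ℂ {t, u})
      (E := K)).isAlgebraic_iff.1 h5
  have hindep : AlgebraicIndependent ℂ ![t, u] := by
    have hrange : Set.range ![t, u] = {t, u} := by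
      ext r
      simp [Matrix.range_cons, Matrix.range_empty, or_comm]
    have halgR : Algebra.IsAlgebraic (Algebra.adjoin ℂ (Set.range ![t, u])) K := by
      rw [hrange]
      exact posA_alg {t, u} halgL
    have hle : Cardinal.lift.{0} (Cardinal.mk (Fin 2)) ≤ Cardinal.lift.{0} (Algebra.trdeg ℂ K) :=
      hxz.lift_cardinalMk_le_trdeg
    exact (Algebra.IsAlgebraic.isTranscendenceBasis_of_lift_le_trdeg_of_finite
      ℂ ![t, u] hle).1
  exact ⟨hindep, m, hmL, n, hnL, hmD, hnD, hy, htop⟩

end Pool.Agent.DegThree
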