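import Mathlib

/-! Piece PosB: the cubic has no root in the field of rational functions. -/

set_option autoImplicit false

open scoped Polynomial IntermediateField

namespace Pool.Agent.DegThree

/-- Every element of `L` is a reduced fraction of polynomials in `t` and `u`. -/
theorem posB_frac {L : Type} [Field L] [Algebra ℂ L] (t u : L)
    (htu : AlgebraicIndependent ℂ ![t, u])
    (hgen : IntermediateField.adjoin ℂ {t, u} = ⊤) (c : L) :
    ∃ p q : MvPolynomial (Fin 2) ℂ, IsRelPrime p q ∧ MvPolynomial.aeval ![t, u] q ≠ 0 ∧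
      c * MvPolynomial.aeval ![t, u] q = MvPolynomial.aeval ![t, u] p := by
  have hinj : Function.Injective (MvPolynomial.aeval (R := ℂ) ![t, u]) := htu
  have hc : c ∈ IntermediateField.adjoin ℂ {t, u} := by rw [hgen]; trivial
  obtain ⟨r, hr, s, hs, hrs⟩ := IntermediateField.mem_adjoin_iff_div.1 hc
  have hset : ({t, u} : Set L) = Set.range ![t, u] := by
    ext z; simp [Matrix.range_cons, eq_comm, or_comm]
  rw [hset, Algebra.adjoin_range_eq_range_aeval] at hr hs
  obtain ⟨P, hP⟩ := hr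
  obtain ⟨Q, hQ⟩ := hs
  simp only [RingHom.coe_coe, AlgHom.toRingHom_eq_coe] at hP hQ
  by_cases hs0 : s = 0
  · refine ⟨0, 1, isRelPrime_one_right, by simp, ?_⟩
    rw [hrs, hs0]; simp
  · have hQ0 : Q ≠ 0 := by
      rintro rfl
      apply hs0
      rw [← hQ]; simp
    obtain ⟨p, q, e, hpq, hep, heq⟩ :=
      UniqueFactorizationMonoid.exists_reduced_factors' P Q hQ0
    have hq0 : q ≠ 0 := by
      rintro rfl
      apply hQ0; rw [← heq]; simp
    have he0 : e ≠ 0 := by
      rintro rfl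
      apply hQ0; rw [← heq]; simp
    have h1 : MvPolynomial.aeval ![t, u] q ≠ 0 := by
      intro h
      exact hq0 (hinj (by rw [h]; simp))
    have h2 : MvPolynomial.aeval ![t, u] e ≠ 0 := by
      intro h
      exact he0 (hinj (by rw [h]; simp))
    refine ⟨p, q, hpq, h1, ?_⟩
    rw [hrs, ← hP, ← hQ, ← hep, ← heq]
    simp only [map_mul]
    field_simp

theorem no_root {L : Type} [Field L] [Algebra ℂ L] (α β γ δ : ℂ) (hβ : β ≠ 0) (hδ : δ ≠ 0)
    (t u m n : L) (htu : AlgebraicIndependent ℂ ![t, u])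
    (hgen : IntermediateField.adjoin ℂ {t, u} = ⊤)
    (hm : m * (t ^ 3 - u ^ 2) =
        -(t ^ 3 + u ^ 2) * algebraMap ℂ L α + 2 * algebraMap ℂ L γ * t * u)
    (hn : n * (t ^ 3 - u ^ 2) = -(t ^ 3 + u ^ 2) * algebraMap ℂ L β + 2 * algebraMap ℂ L δ * u)
    (c : L) : c ^ 3 + (algebraMap ℂ L α * c + algebraMap ℂ L β) ^ 2 ≠ (m * c + n) ^ 2 := by
  intro hc
  have hinj : Function.Injective (MvPolynomial.aeval (R := ℂ) ![t, u]) := htu
  obtain ⟨p, q, hpq, hq0, hcq⟩ := posB_frac t u htu hgen c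
  set T : MvPolynomial (Fin 2) ℂ := MvPolynomial.X 0 with hT
  set U : MvPolynomial (Fin 2) ℂ := MvPolynomial.X 1 with hU
  set A : MvPolynomial (Fin 2) ℂ := MvPolynomial.C α with hA
  set B : MvPolynomial (Fin 2) ℂ := MvPolynomial.C β with hB
  set G : MvPolynomial (Fin 2) ℂ := MvPolynomial.C γ with hG
  set E : MvPolynomial (Fin 2) ℂ := MvPolynomial.C δ with hE
  have eT : MvPolynomial.aeval ![t, u] T = t := by simp [hT]
  have eU : MvPolynomial.aeval ![t, u] U = u := by simp [hU]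
  have eA : MvPolynomial.aeval ![t, u] A = algebraMap ℂ L α := by simp [hA]
  have eB : MvPolynomial.aeval ![t, u] B = algebraMap ℂ L β := by simp [hB]
  have eG : MvPolynomial.aeval ![t, u] G = algebraMap ℂ L γ := by simp [hG]
  have eE : MvPolynomial.aeval ![t, u] E = algebraMap ℂ L δ := by simp [hE]
  -- the polynomial identity
  have key : (T ^ 3 - U ^ 2) ^ 2 * p ^ 3 + 4 * U * q *
      (E * q + G * T * p - U * (A * p + B * q)) *
      (T ^ 3 * (A * p + B * q) - U * (G * T * p + E * q)) = 0 := by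
    apply hinj
    simp only [map_add, map_sub, map_mul, map_pow, map_zero, eT, eU, eA, eB, eG, eE, map_ofNat]
    rw [← hcq]
    set a := algebraMap ℂ L α
    set b := algebraMap ℂ L β
    set g := algebraMap ℂ L γ
    set d := algebraMap ℂ L δ
    set Q := MvPolynomial.aeval ![t, u] q
    have h1 : (m * c + n) * (t ^ 3 - u ^ 2) =
        -(t ^ 3 + u ^ 2) * (a * c + b) + 2 * u * (g * t * c + d) := by
      linear_combination c * hm + hn
    have h2 : ((m * c + n) * (t ^ 3 - u ^ 2)) ^ 2 =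
        (c ^ 3 + (a * c + b) ^ 2) * (t ^ 3 - u ^ 2) ^ 2 := by
      rw [hc]; ring
    rw [h1] at h2
    linear_combination (-Q ^ 3) * h2
  have hUp : Prime U := MvPolynomial.X_prime
  have hUT : ¬ U ∣ T := by
    rw [hU, hT, MvPolynomial.X_dvd_X]
    decide
  have hUD : ¬ U ∣ (T ^ 3 - U ^ 2) := by
    intro h
    have h3 : U ∣ T ^ 3 := by
      have := dvd_add h (dvd_pow_self U (two_ne_zero))
      simpa using this
    exact hUT (hUp.dvd_of_dvd_pow h3)
  have hUP : U ∣ p := by
    have h1 : U ∣ (T ^ 3 - U ^ 2) ^ 2 * p ^ 3 := by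
      refine ⟨-(4 * q * (E * q + G * T * p - U * (A * p + B * q)) *
        (T ^ 3 * (A * p + B * q) - U * (G * T * p + E * q))), ?_⟩
      linear_combination key
    rcases hUp.dvd_or_dvd h1 with h | h
    · exact absurd (hUp.dvd_of_dvd_pow h) hUD
    · exact hUp.dvd_of_dvd_pow h
  obtain ⟨r, rfl⟩ := hUP
  have key2 : U * ((T ^ 3 - U ^ 2) ^ 2 * U ^ 2 * r ^ 3 + 4 * q *
      (E * q + G * T * (U * r) - U * (A * (U * r) + B * q)) *
      (T ^ 3 * (A * (U * r) + B * q) - U * (G * T * (U * r) + E * q))) = 0 := by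
    linear_combination key
  have key3 := (mul_eq_zero.1 key2).resolve_left hUp.ne_zero
  have hdiv : U ∣ MvPolynomial.C (4 * δ * β) * (T ^ 3 * q ^ 3) := by
    have hC : (MvPolynomial.C (4 * δ * β) : MvPolynomial (Fin 2) ℂ) = 4 * E * B := by
      rw [hE, hB, MvPolynomial.C_mul, MvPolynomial.C_mul]
      rw [show (MvPolynomial.C (4 : ℂ) : MvPolynomial (Fin 2) ℂ) = 4 from map_ofNat _ 4]
    rw [hC]
    refine ⟨-((T ^ 3 - U ^ 2) ^ 2 * U * r ^ 3 + 4 * q *
      (E * q * (T ^ 3 * A * r - (G * T * (U * r) + E * q)) +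
        (G * T * r - (A * (U * r) + B * q)) *
        (T ^ 3 * (A * (U * r) + B * q) - U * (G * T * (U * r) + E * q)))), ?_⟩
    linear_combination key3
  have hunit : IsUnit (MvPolynomial.C (4 * δ * β) : MvPolynomial (Fin 2) ℂ) := by
    apply IsUnit.map
    exact isUnit_iff_ne_zero.2 (by simp [hδ, hβ])
  have hUq : U ∣ q := by
    have h1 := (hunit.dvd_mul_left).1 hdiv
    rcases hUp.dvd_or_dvd h1 with h | h
    · exact absurd (hUp.dvd_of_dvd_pow h) hUT
    · exact hUp.dvd_of_dvd_pow h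
  exact hUp.not_isUnit (hpq (dvd_mul_right U r) hUq)

end Pool.Agent.DegThree
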