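import Pool.Agent.Lib_MP_9293ae_ag.YesDefs
import Pool.Agent.Lib_MP_9293ae_ag.PosA
import Pool.Agent.Lib_MP_9293ae_ag.PosB

/-! Piece Pos: the degree three map for curves in flex form. -/

set_option autoImplicit false

open scoped Polynomial IntermediateField

namespace Pool.Agent.DegThree

theorem pos_adjoin_top {K : Type} [Field K] [Algebra ℂ K] (t u : K)
    (tL uL : IntermediateField.adjoin ℂ {t, u}) (ht : (tL : K) = t) (hu : (uL : K) = u) :
    IntermediateField.adjoin ℂ {tL, uL} = ⊤ := by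
  apply IntermediateField.map_injective (IntermediateField.adjoin ℂ {t, u}).val
  rw [IntermediateField.adjoin_map, ← AlgHom.fieldRange_eq_map, IntermediateField.fieldRange_val]
  congr 1
  rw [Set.image_pair]
  simp [ht, hu]

theorem pos_algInd {K : Type} [Field K] [Algebra ℂ K] (t u : K)
    (tL uL : IntermediateField.adjoin ℂ {t, u}) (ht : (tL : K) = t) (hu : (uL : K) = u)
    (h : AlgebraicIndependent ℂ ![t, u]) : AlgebraicIndependent ℂ ![tL, uL] := by
  apply AlgebraicIndependent.of_comp (IntermediateField.adjoin ℂ {t, u}).val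
  convert h using 1
  ext i
  fin_cases i
  · simp [ht]
  · simp [hu]

theorem pos_poly {L K : Type} [Field L] [Field K] [Algebra L K] (a b m n : L) (x : K)
    (hx : x ^ 3 + (algebraMap L K a * x + algebraMap L K b) ^ 2 =
      (algebraMap L K m * x + algebraMap L K n) ^ 2)
    (htop : IntermediateField.adjoin L {x} = ⊤)
    (hno : ∀ c : L, c ^ 3 + (a * c + b) ^ 2 ≠ (m * c + n) ^ 2) :
    Module.finrank L K = 3 := by
  classical
  set p : L[X] := Polynomial.X ^ 3 + (Polynomial.C a * Polynomial.X + Polynomial.C b) ^ 2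
    - (Polynomial.C m * Polynomial.X + Polynomial.C n) ^ 2 with hp
  have hp' : p = Polynomial.X ^ 3 + (Polynomial.C (a ^ 2 - m ^ 2) * Polynomial.X ^ 2
      + Polynomial.C (2 * a * b - 2 * m * n) * Polynomial.X + Polynomial.C (b ^ 2 - n ^ 2)) := by
    rw [hp]
    simp only [map_sub, map_mul, map_pow, map_ofNat]
    ring
  have hmon : p.Monic := by
    rw [hp']
    monicity!
  have hdeg : p.natDegree = 3 := by
    rw [hp']
    compute_degree!
  have hroot : Polynomial.aeval x p = 0 := by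
    rw [hp]
    simp only [map_sub, map_add, map_mul, map_pow, Polynomial.aeval_X, Polynomial.aeval_C]
    rw [hx]
    ring
  have hirr : Irreducible p := by
    rw [Polynomial.Monic.irreducible_iff_roots_eq_zero_of_degree_le_three hmon (by omega)
      (by omega)]
    rw [Multiset.eq_zero_iff_forall_notMem]
    intro c hc
    have hc' := Polynomial.isRoot_of_mem_roots hc
    rw [Polynomial.IsRoot.def, hp] at hc'
    simp only [Polynomial.eval_sub, Polynomial.eval_add, Polynomial.eval_mul, Polynomial.eval_pow,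
      Polynomial.eval_X, Polynomial.eval_C] at hc'
    exact hno c (sub_eq_zero.mp hc')
  have hmin : minpoly L x = p :=
    (minpoly.eq_of_irreducible_of_monic hirr hroot hmon).symm
  have hint : IsIntegral L x := ⟨p, hmon, by
    rw [← Polynomial.aeval_def]; exact hroot⟩
  have h3 := IntermediateField.adjoin.finrank hint
  rw [hmin, hdeg, htop, IntermediateField.finrank_top'] at h3
  exact h3

theorem pos_normal {K : Type} [Field K] [Algebra ℂ K] (α β γ δ : ℂ) (hβ : β ≠ 0) (hδ : δ ≠ 0)
    (x y z w : K) (hxz : AlgebraicIndependent ℂ ![x, z])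
    (hgen : IntermediateField.adjoin ℂ {x, y, z, w} = ⊤)
    (h1 : y ^ 2 = x ^ 3 + (algebraMap ℂ K α * x + algebraMap ℂ K β) ^ 2)
    (h2 : w ^ 2 = z ^ 3 + (algebraMap ℂ K γ * z + algebraMap ℂ K δ) ^ 2) :
    HasMapToPlane K 3 := by
  obtain ⟨t, ht⟩ : ∃ t : K, t = z / x := ⟨_, rfl⟩
  obtain ⟨u, hu⟩ : ∃ u : K, u = (w - algebraMap ℂ K γ * z - algebraMap ℂ K δ) /
      (y - algebraMap ℂ K α * x - algebraMap ℂ K β) := ⟨_, rfl⟩
  obtain ⟨htu, m, hmL, n, hnL, hm, hn, hy, htop⟩ :=
    pos_fields α β γ δ hδ x y z w t u hxz hgen h1 h2 ht hu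
  refine ⟨t, u, htu, ?_⟩
  have htL : t ∈ IntermediateField.adjoin ℂ {t, u} :=
    IntermediateField.subset_adjoin ℂ _ (by simp)
  have huL : u ∈ IntermediateField.adjoin ℂ {t, u} :=
    IntermediateField.subset_adjoin ℂ _ (by simp)
  refine pos_poly (L := IntermediateField.adjoin ℂ {t, u}) (K := K)
    (algebraMap ℂ _ α) (algebraMap ℂ _ β) ⟨m, hmL⟩ ⟨n, hnL⟩ x ?_ htop ?_
  · have e1 : algebraMap (IntermediateField.adjoin ℂ {t, u}) K (algebraMap ℂ _ α)
        = algebraMap ℂ K α := (IsScalarTower.algebraMap_apply ℂ _ K α).symm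
    have e2 : algebraMap (IntermediateField.adjoin ℂ {t, u}) K (algebraMap ℂ _ β)
        = algebraMap ℂ K β := (IsScalarTower.algebraMap_apply ℂ _ K β).symm
    rw [e1, e2, ← h1, hy]
    rfl
  · intro c
    refine no_root α β γ δ hβ hδ ⟨t, htL⟩ ⟨u, huL⟩ ⟨m, hmL⟩ ⟨n, hnL⟩
      (pos_algInd t u _ _ rfl rfl htu) (pos_adjoin_top t u _ _ rfl rfl) ?_ ?_ c
    · apply Subtype.ext
      exact hm
    · apply Subtype.ext
      exact hn

end Pool.Agent.DegThree
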