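import Mathlib

/-! Piece Tensor: the function field of a product. -/

set_option autoImplicit false

open scoped TensorProduct

namespace Pool.Agent.DegThree

/-- first inclusion into the function field of a product -/
noncomputable def tinl (N F K : Type) [Field N] [Field F] [Field K] [Algebra ℂ N] [Algebra ℂ F]
    [Algebra ℂ K] [Algebra (N ⊗[ℂ] F) K] [IsScalarTower ℂ (N ⊗[ℂ] F) K] : N →ₐ[ℂ] K :=
  (IsScalarTower.toAlgHom ℂ (N ⊗[ℂ] F) K).comp Algebra.TensorProduct.includeLeft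

/-- second inclusion into the function field of a product -/
noncomputable def tinr (N F K : Type) [Field N] [Field F] [Field K] [Algebra ℂ N] [Algebra ℂ F]
    [Algebra ℂ K] [Algebra (N ⊗[ℂ] F) K] [IsScalarTower ℂ (N ⊗[ℂ] F) K] : F →ₐ[ℂ] K :=
  (IsScalarTower.toAlgHom ℂ (N ⊗[ℂ] F) K).comp Algebra.TensorProduct.includeRight

variable (N F K : Type) [Field N] [Field F] [Field K] [Algebra ℂ N] [Algebra ℂ F]
    [Algebra ℂ K] [Algebra (N ⊗[ℂ] F) K] [IsScalarTower ℂ (N ⊗[ℂ] F) K]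
    [IsFractionRing (N ⊗[ℂ] F) K]

/-- a transcendental element of `N` stays transcendental over `F` -/
theorem tensor_transcendental (x : N) (hx : Transcendental ℂ x) (p : Polynomial F) (hp : p ≠ 0) :
    Polynomial.eval₂ (tinr N F K).toRingHom (tinl N F K x) p ≠ 0 := by
  -- the map `F[X] → F ⊗ ℂ[X] → F ⊗ N → N ⊗ F → K`
  let e1 : Polynomial F ≃ₐ[ℂ] F ⊗[ℂ] Polynomial ℂ := polyEquivTensor ℂ F
  let e2 : F ⊗[ℂ] Polynomial ℂ →ₐ[ℂ] F ⊗[ℂ] N :=
    Algebra.TensorProduct.map (AlgHom.id ℂ F) (Polynomial.aeval x)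
  let e3 : F ⊗[ℂ] N ≃ₐ[ℂ] N ⊗[ℂ] F := Algebra.TensorProduct.comm ℂ F N
  let e4 : N ⊗[ℂ] F →ₐ[ℂ] K := IsScalarTower.toAlgHom ℂ (N ⊗[ℂ] F) K
  have i2 : Function.Injective e2 := by
    have h := Module.Flat.lTensor_preserves_injective_linearMap (M := F)
      (Polynomial.aeval (R := ℂ) x).toLinearMap (transcendental_iff_injective.mp hx)
    exact h
  have i4 : Function.Injective e4 := IsFractionRing.injective (N ⊗[ℂ] F) K
  have hinj : Function.Injective (fun q : Polynomial F => e4 (e3 (e2 (e1 q)))) :=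
    i4.comp (e3.injective.comp (i2.comp e1.injective))
  have hcomp : ∀ q : Polynomial F,
      e4 (e3 (e2 (e1 q))) = Polynomial.eval₂ (tinr N F K).toRingHom (tinl N F K x) q := by
    intro q
    induction q using Polynomial.induction_on' with
    | add a b ha hb => rw [map_add, map_add, map_add, map_add, ha, hb, Polynomial.eval₂_add]
    | monomial n a =>
      rw [Polynomial.eval₂_monomial]
      have h1 : e1 (Polynomial.monomial n a) = a ⊗ₜ[ℂ] (Polynomial.X ^ n : Polynomial ℂ) := by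
        simp [e1, polyEquivTensor_apply]
      rw [h1]
      have h2 : e2 (a ⊗ₜ[ℂ] (Polynomial.X ^ n : Polynomial ℂ)) = a ⊗ₜ[ℂ] (x ^ n) := by
        simp [e2]
      rw [h2]
      have h3 : e3 (a ⊗ₜ[ℂ] (x ^ n)) = (x ^ n) ⊗ₜ[ℂ] a := by
        simp [e3]
      rw [h3]
      have h4 : (x ^ n) ⊗ₜ[ℂ] a = ((1 : N) ⊗ₜ[ℂ] a) * ((x ⊗ₜ[ℂ] (1 : F)) ^ n) := by
        rw [Algebra.TensorProduct.tmul_pow, Algebra.TensorProduct.tmul_mul_tmul]
        simp
      rw [h4, map_mul, map_pow]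
      rfl
  intro h0
  apply hp
  apply hinj
  change e4 (e3 (e2 (e1 p))) = e4 (e3 (e2 (e1 0)))
  rw [hcomp p, h0, map_zero, map_zero, map_zero, map_zero]

/-- `K` is generated by `F` and generators of `N` -/
theorem tensor_generated (S : IntermediateField ℂ K) (s : Set N)
    (hs : IntermediateField.adjoin ℂ s = ⊤) (h1 : ∀ a ∈ s, tinl N F K a ∈ S)
    (h2 : ∀ a : F, tinr N F K a ∈ S) : S = ⊤ := by
  have hl : ∀ a : N, tinl N F K a ∈ S := by
    intro a
    have h3 : (⊤ : IntermediateField ℂ N) ≤ S.comap (tinl N F K) := by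
      rw [← hs, IntermediateField.adjoin_le_iff]
      intro b hb
      exact h1 b hb
    exact h3 (IntermediateField.mem_top)
  have ht : ∀ z : N ⊗[ℂ] F, algebraMap (N ⊗[ℂ] F) K z ∈ S := by
    intro z
    induction z using TensorProduct.induction_on with
    | zero => rw [map_zero]; exact S.zero_mem
    | tmul a b =>
      have h4 : a ⊗ₜ[ℂ] b = (a ⊗ₜ[ℂ] (1 : F)) * ((1 : N) ⊗ₜ[ℂ] b) := by
        rw [Algebra.TensorProduct.tmul_mul_tmul]; simp
      rw [h4, map_mul]
      exact S.mul_mem (hl a) (h2 b)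
    | add a b ha hb => rw [map_add]; exact S.add_mem ha hb
  rw [eq_top_iff]
  intro z _
  obtain ⟨a, b, -, rfl⟩ := IsFractionRing.div_surjective (A := N ⊗[ℂ] F) z
  exact S.div_mem (ht a) (ht b)

end Pool.Agent.DegThree
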