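import Pool.Agent.Lib_MP_9293ae_ag.Pos
import Pool.Agent.Lib_MP_9293ae_ag.Flex
import Pool.Agent.Lib_MP_9293ae_ag.Bridge
import Pool.Agent.Lib_MP_9293ae_ag.Tensor

/-! Piece PosAsm: every product of two elliptic curves has a map of degree three to the plane. -/

set_option autoImplicit false

open scoped Polynomial IntermediateField TensorProduct

namespace Pool.Agent.DegThree

theorem posAsm_indep {F K : Type} [Field F] [Field K] [Algebra ℂ F] [Algebra ℂ K]
    (j : F →ₐ[ℂ] K) (x : K) (z : F)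
    (hx : ∀ p : Polynomial F, p ≠ 0 → Polynomial.eval₂ j.toRingHom x p ≠ 0)
    (hz : Transcendental ℂ z) : AlgebraicIndependent ℂ ![x, j z] := by
  let _ : Algebra F K := j.toRingHom.toAlgebra
  have : IsScalarTower ℂ F K := IsScalarTower.of_algebraMap_eq fun c => (j.commutes c).symm
  have h1 : AlgebraicIndependent ℂ (fun _ : Unit => z) :=
    algebraicIndependent_unique_type_iff.mpr hz
  have h2 : AlgebraicIndependent F (fun _ : Unit => x) := by
    rw [algebraicIndependent_unique_type_iff]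
    rintro ⟨p, hp, h0⟩
    exact hx p hp h0
  have h3 := h1.sumElim_comp h2
  let e : Fin 2 → Unit ⊕ Unit := ![Sum.inl (), Sum.inr ()]
  have he : Function.Injective e := by
    intro a b hab
    fin_cases a <;> fin_cases b <;> simp_all [e]
  have h4 := h3.comp e he
  convert h4 using 1
  ext i
  fin_cases i <;> rfl

theorem posAsm_shift {N : Type} [Field N] [Algebra ℂ N] (x : N) (a : ℂ)
    (h : Transcendental ℂ x) : Transcendental ℂ (x - algebraMap ℂ N a) := by
  intro h0
  apply h
  have := h0.add (isAlgebraic_algebraMap (R := ℂ) (A := N) a)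
  rwa [sub_add_cancel] at this

theorem pos (E₁ E₂ : WeierstrassCurve ℂ) [E₁.IsElliptic] [E₂.IsElliptic] (K : Type) [Field K]
    [Algebra ℂ K] [Algebra (E₁.toAffine.FunctionField ⊗[ℂ] E₂.toAffine.FunctionField) K]
    [IsScalarTower ℂ (E₁.toAffine.FunctionField ⊗[ℂ] E₂.toAffine.FunctionField) K]
    [IsFractionRing (E₁.toAffine.FunctionField ⊗[ℂ] E₂.toAffine.FunctionField) K] :
    HasMapToPlane K 3 := by
  obtain ⟨A₁, B₁, x₁, y₁, -, -, hΔ₁, he₁, tx₁, hg₁⟩ := exists_short E₁
  obtain ⟨A₂, B₂, x₂, y₂, -, -, hΔ₂, he₂, tx₂, hg₂⟩ := exists_short E₂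
  obtain ⟨a, α, β, hβ, hα⟩ := exists_flex A₁ B₁ hΔ₁
  obtain ⟨c, γ, δ, hδ, hγ⟩ := exists_flex A₂ B₂ hΔ₂
  let l := tinl E₁.toAffine.FunctionField E₂.toAffine.FunctionField K
  let r := tinr E₁.toAffine.FunctionField E₂.toAffine.FunctionField K
  have hxz : AlgebraicIndependent ℂ ![l (x₁ - algebraMap ℂ _ a), r (x₂ - algebraMap ℂ _ c)] :=
    posAsm_indep r _ _ (fun p hp => tensor_transcendental E₁.toAffine.FunctionField
      E₂.toAffine.FunctionField K _ (posAsm_shift x₁ a tx₁) p hp) (posAsm_shift x₂ c tx₂)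
  have hl : ∀ c : ℂ, l (algebraMap ℂ _ c) = algebraMap ℂ K c := l.commutes
  have hr : ∀ c : ℂ, r (algebraMap ℂ _ c) = algebraMap ℂ K c := r.commutes
  rw [map_sub, map_sub, hl, hr] at hxz
  refine pos_normal α β γ δ hβ hδ (l x₁ - algebraMap ℂ K a) (l y₁) (r x₂ - algebraMap ℂ K c)
    (r y₂) hxz ?_ ?_ ?_
  · set S := IntermediateField.adjoin ℂ {l x₁ - algebraMap ℂ K a, l y₁,
      r x₂ - algebraMap ℂ K c, r y₂} with hS
    have m1 : l x₁ - algebraMap ℂ K a ∈ S := IntermediateField.subset_adjoin _ _ (by simp)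
    have m2 : l y₁ ∈ S := IntermediateField.subset_adjoin _ _ (by simp)
    have m3 : r x₂ - algebraMap ℂ K c ∈ S := IntermediateField.subset_adjoin _ _ (by simp)
    have m4 : r y₂ ∈ S := IntermediateField.subset_adjoin _ _ (by simp)
    have m1' : l x₁ ∈ S := by
      have := add_mem m1 (S.algebraMap_mem a)
      rwa [sub_add_cancel] at this
    have m3' : r x₂ ∈ S := by
      have := add_mem m3 (S.algebraMap_mem c)
      rwa [sub_add_cancel] at this
    refine tensor_generated E₁.toAffine.FunctionField E₂.toAffine.FunctionField K S {x₁, y₁} hg₁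
      ?_ ?_
    · rintro z (rfl | hz)
      · exact m1'
      · rw [Set.mem_singleton_iff.mp hz]; exact m2
    · intro z
      have hz : z ∈ IntermediateField.adjoin ℂ {x₂, y₂} := by rw [hg₂]; trivial
      have hle : IntermediateField.adjoin ℂ {x₂, y₂} ≤ S.comap r := by
        rw [IntermediateField.adjoin_le_iff]
        rintro w (rfl | hw)
        · exact m3'
        · rw [Set.mem_singleton_iff.mp hw]; exact m4
      exact hle hz
  · rw [← hα K (l x₁), ← map_pow, he₁, map_add, map_add, map_mul, map_pow, hl, hl]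
  · rw [← hγ K (r x₂), ← map_pow, he₂, map_add, map_add, map_mul, map_pow, hr, hr]

end Pool.Agent.DegThree
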