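import Mathlib

/-! Piece Pt0: points with coordinates in a subfield. -/

set_option autoImplicit false

open scoped Polynomial WeierstrassCurve.Affine

namespace Pool.Agent.DegThree

variable {Ab : Type} [Field Ab] [Algebra ℂ Ab] [DecidableEq Ab]

/-- the curve `y² = x³ + A x + B` -/
def sw (A B : ℂ) : WeierstrassCurve.Affine ℂ := ⟨0, 0, 0, A, B⟩

/-- the points with coordinates in `M` -/
noncomputable def rat (A B : ℂ) (M : IntermediateField ℂ Ab) : AddSubgroup ((sw A B)⁄Ab).Point :=
  haveI : DecidableEq M := Classical.decEq _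
  (WeierstrassCurve.Affine.Point.map (W' := sw A B) (S := ℂ) M.val).range

theorem some_mem_rat (A B : ℂ) (M : IntermediateField ℂ Ab) (x y : Ab)
    (h : ((sw A B)⁄Ab).Nonsingular x y) :
    WeierstrassCurve.Affine.Point.some x y h ∈ rat A B M ↔ x ∈ M ∧ y ∈ M := by
  have hd : DecidableEq M := Classical.decEq _
  constructor
  · rintro ⟨P, hP⟩
    rcases P with _ | ⟨a, b, hab⟩
    · exact absurd hP.symm (WeierstrassCurve.Affine.Point.some_ne_zero h)
    · have h1 : (WeierstrassCurve.Affine.Point.some (M.val a) (M.val b)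
          (((sw A B).baseChange_nonsingular M.val.injective ..).mpr hab) :
            ((sw A B)⁄Ab).Point) = WeierstrassCurve.Affine.Point.some x y h := hP
      rw [WeierstrassCurve.Affine.Point.some.injEq] at h1
      exact ⟨h1.1 ▸ a.2, h1.2 ▸ b.2⟩
  · rintro ⟨hx, hy⟩
    have hab : ((sw A B)⁄M).Nonsingular (⟨x, hx⟩ : M) (⟨y, hy⟩ : M) :=
      ((sw A B).baseChange_nonsingular (f := M.val) M.val.injective ..).mp h
    exact ⟨WeierstrassCurve.Affine.Point.some (⟨x, hx⟩ : M) (⟨y, hy⟩ : M) hab, rfl⟩

theorem sw_eqn {K : Type} [Field K] [Algebra ℂ K] (A B : ℂ) (x y : K)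
    (h : ((sw A B)⁄K).Nonsingular x y) :
    y ^ 2 = x ^ 3 + algebraMap ℂ K A * x + algebraMap ℂ K B := by
  have h1 := (WeierstrassCurve.Affine.equation_iff ..).mp h.1
  simpa [sw, WeierstrassCurve.Affine.baseChange, WeierstrassCurve.baseChange] using h1

/-- on `y² = x³ + A x + B` with non-zero discriminant every solution is a nonsingular point -/
theorem sw_nonsingular {K : Type} [Field K] [Algebra ℂ K] (A B : ℂ)
    (hΔ : 4 * A ^ 3 + 27 * B ^ 2 ≠ 0) (x y : K)
    (h : y ^ 2 = x ^ 3 + algebraMap ℂ K A * x + algebraMap ℂ K B) :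
    ((sw A B)⁄K).Nonsingular x y := by
  have hc : CharZero K := charZero_of_injective_algebraMap (algebraMap ℂ K).injective
  have hΔ' : 4 * (algebraMap ℂ K A) ^ 3 + 27 * (algebraMap ℂ K B) ^ 2 ≠ 0 := by
    intro h0
    apply hΔ
    apply (algebraMap ℂ K).injective
    rw [map_zero, map_add, map_mul, map_mul, map_pow, map_pow, map_ofNat, map_ofNat]
    exact h0
  rw [WeierstrassCurve.Affine.nonsingular_iff]
  refine ⟨?_, ?_⟩
  · rw [WeierstrassCurve.Affine.equation_iff]
    simpa [sw, WeierstrassCurve.Affine.baseChange, WeierstrassCurve.baseChange] using h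
  · simp only [sw, WeierstrassCurve.Affine.baseChange, WeierstrassCurve.baseChange,
      WeierstrassCurve.map, map_zero]
    by_contra hcon
    push Not at hcon
    obtain ⟨h1, h2⟩ := hcon
    have hy : y = 0 := by
      have : (2 : K) * y = 0 := by linear_combination h2
      simpa using this
    subst hy
    apply hΔ'
    have h1' : 3 * x ^ 2 + algebraMap ℂ K A = 0 := by linear_combination -h1
    have h3 : x ^ 3 + algebraMap ℂ K A * x + algebraMap ℂ K B = 0 := by linear_combination -h
    generalize algebraMap ℂ K A = a at *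
    generalize algebraMap ℂ K B = b at *
    have ha : a = -3 * x ^ 2 := by linear_combination h1'
    subst ha
    have hb : b = 2 * x ^ 3 := by linear_combination h3
    subst hb
    ring

end Pool.Agent.DegThree
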