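import Mathlib

/-! Piece TameBound: a derivation has bounded poles on a valuation ring (finite extension). -/

set_option autoImplicit false

open scoped Polynomial IntermediateField

namespace Pool.Agent.DegThree

/-- `v` is the order function of the discrete valuation ring `O` -/
def IsOrd {K : Type} [Field K] (O : ValuationSubring K) (v : K → ℤ) : Prop :=
  (∀ x y, x ≠ 0 → y ≠ 0 → v (x * y) = v x + v y) ∧ (∀ x, x ≠ 0 → (x ∈ O ↔ 0 ≤ v x)) ∧
    ∃ t, t ≠ 0 ∧ v t = 1

open IsDedekindDomain in
theorem tameBound_dvr {R K : Type} [CommRing R] [IsDedekindDomain R] [Field K] [Algebra R K]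
    [IsFractionRing R K] (W : ValuationSubring K) (hR : ∀ r : R, algebraMap R K r ∈ W)
    (hne : ∃ r : R, r ≠ 0 ∧ W.valuation (algebraMap R K r) < 1) :
    ∃ P : HeightOneSpectrum R,
      (∀ r, r ∈ P.asIdeal ↔ W.valuation (algebraMap R K r) < 1) ∧
      ∀ x : K, x ∈ W ↔ P.valuation K x ≤ 1 := by
  let f : R →+* W := (algebraMap R K).codRestrict W.toSubring hR
  have hf : ∀ r, ((f r : W) : K) = algebraMap R K r := fun r => rfl
  let I : Ideal R := (IsLocalRing.maximalIdeal W).comap f
  have hI : ∀ r, r ∈ I ↔ W.valuation (algebraMap R K r) < 1 := by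
    intro r
    rw [← hf r, ← ValuationSubring.valuation_lt_one_iff]
    exact Ideal.mem_comap
  have hprime : I.IsPrime := Ideal.comap_isPrime f _
  have hbot : I ≠ ⊥ := by
    obtain ⟨r, hr0, hr⟩ := hne
    intro h
    apply hr0
    have : r ∈ I := (hI r).2 hr
    rw [h] at this
    exact this
  let P : HeightOneSpectrum R := ⟨I, hprime, hbot⟩
  refine ⟨P, hI, ?_⟩
  have hunit : ∀ s : R, s ∉ I → W.valuation (algebraMap R K s) = 1 := by
    intro s hs
    rw [hI] at hs
    exact le_antisymm ((W.valuation_le_one_iff _).2 (hR s)) (not_lt.mp hs)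
  have hunit' : ∀ s : R, s ∉ I → P.valuation K (algebraMap R K s) = 1 := by
    intro s hs
    rw [HeightOneSpectrum.valuation_eq_one_iff_notMem]
    exact hs
  intro x
  obtain ⟨n, d, h | h⟩ := HeightOneSpectrum.exists_primeCompl_mul_eq_or_mul_eq P x
  · have e1 : W.valuation x = W.valuation (algebraMap R K n) := by
      rw [← h, map_mul, hunit d d.2, mul_one]
    have e2 : P.valuation K x = P.valuation K (algebraMap R K n) := by
      rw [← h, map_mul, hunit' d d.2, mul_one]
    constructor
    · intro _
      rw [e2]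
      exact P.valuation_le_one n
    · intro _
      rw [← W.valuation_le_one_iff, e1]
      exact (W.valuation_le_one_iff _).2 (hR n)
  · by_cases hn : n ∈ I
    · have e1 : W.valuation x * W.valuation (algebraMap R K n) = 1 := by
        rw [← map_mul, h, hunit d d.2]
      have e2 : P.valuation K x * P.valuation K (algebraMap R K n) = 1 := by
        rw [← map_mul, h, hunit' d d.2]
      have h1 : W.valuation (algebraMap R K n) < 1 := (hI n).1 hn
      have h2 : P.valuation K (algebraMap R K n) < 1 := by
        rw [HeightOneSpectrum.valuation_lt_one_iff_mem]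
        exact hn
      constructor
      · intro hx
        exfalso
        rw [← W.valuation_le_one_iff] at hx
        have := (mul_le_of_le_one_left' hx).trans_lt h1
        rw [e1] at this
        exact lt_irrefl _ this
      · intro hx
        exfalso
        have := (mul_le_of_le_one_left' hx).trans_lt h2
        rw [e2] at this
        exact lt_irrefl _ this
    · have e1 : W.valuation x = 1 := by
        have := congrArg W.valuation h
        rwa [map_mul, hunit n hn, mul_one, hunit d d.2] at this
      have e2 : P.valuation K x = 1 := by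
        have := congrArg (P.valuation K) h
        rwa [map_mul, hunit' n hn, mul_one, hunit' d d.2] at this
      constructor
      · intro _
        exact e2.le
      · intro _
        rw [← W.valuation_le_one_iff]
        exact e1.le

open IsDedekindDomain in
theorem tameBound_ord {R K : Type} [CommRing R] [IsDedekindDomain R] [Field K] [Algebra R K]
    [IsFractionRing R K] (W : ValuationSubring K) (P : HeightOneSpectrum R)
    (h : ∀ x : K, x ∈ W ↔ P.valuation K x ≤ 1) :
    IsOrd W (fun x => - WithZero.log (P.valuation K x)) := by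
  refine ⟨?_, ?_, ?_⟩
  · intro x y hx hy
    have hx' : P.valuation K x ≠ 0 := (P.valuation K).ne_zero_iff.2 hx
    have hy' : P.valuation K y ≠ 0 := (P.valuation K).ne_zero_iff.2 hy
    simp only [map_mul]
    rw [WithZero.log_mul hx' hy']
    ring
  · intro x hx
    have hx' : P.valuation K x ≠ 0 := (P.valuation K).ne_zero_iff.2 hx
    rw [h x]
    constructor
    · intro hle
      have := WithZero.log_le_log hx' one_ne_zero |>.2 hle
      simp at this
      simpa using this
    · intro hle
      rw [← WithZero.log_le_log hx' one_ne_zero]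
      simp
      simpa using hle
  · obtain ⟨π, hπ⟩ := P.valuation_exists_uniformizer K
    refine ⟨π, ?_, ?_⟩
    · rintro rfl
      rw [map_zero] at hπ
      exact WithZero.exp_ne_zero hπ.symm
    · simp [hπ]

/-- elements integral over a subring contained in `W` lie in `W` -/
theorem tameBound_integral {A K : Type} [CommRing A] [Field K] [Algebra A K]
    (W : ValuationSubring K) (hA : ∀ a : A, algebraMap A K a ∈ W) (b : K) (hb : IsIntegral A b) :
    b ∈ W := by
  let f : A →+* W := (algebraMap A K).codRestrict W.toSubring hA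
  obtain ⟨p, hp, hroot⟩ := hb
  have hint : IsIntegral W b := by
    refine ⟨p.map f, hp.map f, ?_⟩
    rw [Polynomial.eval₂_map]
    exact hroot
  obtain ⟨w, hw⟩ := (IsIntegrallyClosed.isIntegral_iff (R := W) (K := K)).1 hint
  rw [← hw]
  exact w.2

/-- a derivation preserving `A` has a common denominator on the integral closure of `A` -/
theorem tameBound_mult {A K : Type} [CommRing A] [IsDomain A] [Field K] [Algebra A K]
    [Module.Finite A (integralClosure A K)] [Algebra.IsAlgebraic A K]
    (D : Derivation ℤ K K) (hD : ∀ a : A, ∃ a' : A, D (algebraMap A K a) = algebraMap A K a') :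
    ∃ q : A, q ≠ 0 ∧ ∀ b : K, IsIntegral A b → IsIntegral A (algebraMap A K q * D b) := by
  classical
  obtain ⟨S, hS⟩ := (Module.Finite.fg_top : (⊤ : Submodule A (integralClosure A K)).FG)
  obtain ⟨q, hq, hqS⟩ := Algebra.IsAlgebraic.exists_integral_multiples A
    (S.image (fun s : integralClosure A K => D (s : K)))
  refine ⟨q, hq, ?_⟩
  intro b hb
  have hmem : (⟨b, hb⟩ : integralClosure A K) ∈
      Submodule.span A (S : Set (integralClosure A K)) := by
    rw [hS]; trivial
  have key : ∀ z ∈ Submodule.span A (S : Set (integralClosure A K)),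
      IsIntegral A (algebraMap A K q * D (z : K)) := by
    intro z hz
    induction hz using Submodule.span_induction with
    | mem x hx =>
      have := hqS (D x) (Finset.mem_image_of_mem (fun s : integralClosure A K => D (s : K)) hx)
      rwa [Algebra.smul_def] at this
    | zero =>
      have : algebraMap A K q * D ((0 : integralClosure A K) : K) = 0 := by simp
      rw [this]
      exact isIntegral_zero
    | add x y _ _ hx hy =>
      have : algebraMap A K q * D ((x + y : integralClosure A K) : K) =
          algebraMap A K q * D (x : K) + algebraMap A K q * D (y : K) := by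
        rw [← mul_add, ← map_add]
        rfl
      rw [this]
      exact hx.add hy
    | smul a x _ hx =>
      obtain ⟨a', ha'⟩ := hD a
      have : algebraMap A K q * D ((a • x : integralClosure A K) : K) =
          algebraMap A K a * (algebraMap A K q * D (x : K)) +
            algebraMap A K (q * a') * (x : K) := by
        have e : ((a • x : integralClosure A K) : K) = algebraMap A K a * (x : K) := by
          rw [← Algebra.smul_def]; rfl
        rw [e, Derivation.leibniz, ha', map_mul]
        simp only [smul_eq_mul]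
        ring
      rw [this]
      exact (isIntegral_algebraMap.mul hx).add (isIntegral_algebraMap.mul x.2)
  exact key _ hmem

theorem tameBound_residue {k₀ A K : Type} [Field k₀] [CommRing A] [Field K] [Algebra A K]
    [Algebra k₀ K] (W : ValuationSubring K) (hk : ∀ c : k₀, algebraMap k₀ K c ∈ W)
    (hA : ∀ a : A, ∃ c : k₀, W.valuation (algebraMap A K a - algebraMap k₀ K c) < 1)
    (z b s : K) (hb : IsIntegral A b) (hs : IsIntegral A s) (hs1 : W.valuation s = 1)
    (hz : z * s = b) :
    ∃ p : k₀[X], p.Monic ∧ Irreducible p ∧ W.valuation (Polynomial.aeval z p) < 1 := by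
  have hAW : ∀ a : A, algebraMap A K a ∈ W := by
    intro a
    obtain ⟨c, hc⟩ := hA a
    have h1 : algebraMap A K a - algebraMap k₀ K c ∈ W := (W.valuation_le_one_iff _).1 hc.le
    have := W.add_mem _ _ h1 (hk c)
    simpa using this
  have hbW : b ∈ W := tameBound_integral W hAW b hb
  have hsW : s ∈ W := tameBound_integral W hAW s hs
  have hzW : z ∈ W := by
    rw [← W.valuation_le_one_iff]
    have := congrArg W.valuation hz
    rw [map_mul, hs1, mul_one] at this
    rw [this]
    exact (W.valuation_le_one_iff _).2 hbW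
  let f : k₀ →+* W := (algebraMap k₀ K).codRestrict W.toSubring hk
  let fA : A →+* W := (algebraMap A K).codRestrict W.toSubring hAW
  let _ : Algebra k₀ (IsLocalRing.ResidueField W) := ((IsLocalRing.residue W).comp f).toAlgebra
  have hres0 : ∀ w : W, IsLocalRing.residue W w = 0 ↔ W.valuation (w : K) < 1 := by
    intro w
    rw [IsLocalRing.residue_eq_zero_iff]
    exact W.valuation_lt_one_iff w
  have hint : ∀ (w : W), IsIntegral A (w : K) → IsIntegral k₀ (IsLocalRing.residue W w) := by
    intro w hw
    obtain ⟨p, hp, hroot⟩ := hw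
    have hroot' : Polynomial.eval₂ fA w p = 0 := by
      apply Subtype.ext
      have : W.subtype (Polynomial.eval₂ fA w p) =
          Polynomial.eval₂ (W.subtype.comp fA) (W.subtype w) p := Polynomial.hom_eval₂ _ _ _ _
      exact this.trans hroot
    have hlift : p.map ((IsLocalRing.residue W).comp fA) ∈
        Polynomial.lifts (algebraMap k₀ (IsLocalRing.ResidueField W)) := by
      rw [Polynomial.lifts_iff_coeff_lifts]
      intro n
      obtain ⟨c, hc⟩ := hA (p.coeff n)
      refine ⟨c, ?_⟩
      rw [Polynomial.coeff_map]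
      change IsLocalRing.residue W (f c) = IsLocalRing.residue W (fA (p.coeff n))
      rw [eq_comm, ← sub_eq_zero, ← map_sub, hres0]
      exact hc
    obtain ⟨q, hq, -, hqm⟩ := Polynomial.lifts_and_degree_eq_and_monic hlift (hp.map _)
    refine ⟨q, hqm, ?_⟩
    rw [← Polynomial.eval_map, hq, Polynomial.eval_map, ← Polynomial.hom_eval₂, hroot', map_zero]
  have hi1 := hint ⟨b, hbW⟩ hb
  have hi2 := hint ⟨s, hsW⟩ hs
  have hs0 : IsLocalRing.residue W ⟨s, hsW⟩ ≠ 0 := by
    rw [Ne, hres0]
    simp [hs1]
  have heq : IsLocalRing.residue W ⟨z, hzW⟩ =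
      IsLocalRing.residue W ⟨b, hbW⟩ * (IsLocalRing.residue W ⟨s, hsW⟩)⁻¹ := by
    rw [eq_mul_inv_iff_mul_eq₀ hs0, ← map_mul]
    congr 1
    exact Subtype.ext hz
  have hi3 : IsIntegral k₀ (IsLocalRing.residue W ⟨z, hzW⟩) := by
    rw [heq]
    exact hi1.mul hi2.inv
  refine ⟨minpoly k₀ (IsLocalRing.residue W ⟨z, hzW⟩), minpoly.monic hi3,
    minpoly.irreducible hi3, ?_⟩
  have h0 := minpoly.aeval k₀ (IsLocalRing.residue W ⟨z, hzW⟩)
  have h1 : IsLocalRing.residue W
      (Polynomial.eval₂ f ⟨z, hzW⟩ (minpoly k₀ (IsLocalRing.residue W ⟨z, hzW⟩))) = 0 := by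
    rw [Polynomial.hom_eval₂]
    exact h0
  rw [hres0] at h1
  have h2 : W.subtype
      (Polynomial.eval₂ f ⟨z, hzW⟩ (minpoly k₀ (IsLocalRing.residue W ⟨z, hzW⟩))) =
      Polynomial.aeval z (minpoly k₀ (IsLocalRing.residue W ⟨z, hzW⟩)) := by
    rw [Polynomial.hom_eval₂]
    rfl
  rw [← h2]
  exact h1

open scoped IntermediateField.algebraAdjoinAdjoin in
theorem tame_bound {k₀ K₁ : Type} [Field k₀] [CharZero k₀] [Field K₁] [Algebra k₀ K₁] (u : K₁)
    (hu : Transcendental k₀ u) (hfin : FiniteDimensional (IntermediateField.adjoin k₀ {u}) K₁)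
    (D : Derivation ℤ K₁ K₁)
    (h0 : ∀ c : k₀, ∃ c' : k₀, D (algebraMap k₀ K₁ c) = algebraMap k₀ K₁ c')
    (h1 : ∃ c : k₀, D u = algebraMap k₀ K₁ c * u) (W : ValuationSubring K₁)
    (hk : ∀ c : k₀, algebraMap k₀ K₁ c ∈ W) (hW : W.valuation u < 1) :
    ∃ v : K₁ → ℤ, IsOrd W v ∧ (∃ N : ℤ, ∀ z ∈ W, D z ≠ 0 → N ≤ v (D z)) ∧
      ∀ z ∈ W, ∃ p : k₀[X], p.Monic ∧ Irreducible p ∧
        W.valuation (Polynomial.aeval z p) < 1 := by
  have hu0 : u ≠ 0 := fun h => hu (h ▸ isAlgebraic_zero)
  have huW : u ∈ W := (W.valuation_le_one_iff _).1 hW.le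
  set A := Algebra.adjoin k₀ {u} with hAdef
  -- `A` is a principal ideal domain
  have hPID : IsPrincipalIdealRing A := by
    have hr : (Polynomial.aeval u : k₀[X] →ₐ[k₀] K₁).range = A :=
      (Algebra.adjoin_singleton_eq_range_aeval k₀ u).symm
    have : IsPrincipalIdealRing (Polynomial.aeval u : k₀[X] →ₐ[k₀] K₁).range :=
      IsPrincipalIdealRing.of_surjective
        ((Polynomial.aeval u : k₀[X] →ₐ[k₀] K₁).rangeRestrict.toRingHom)
        (AlgHom.rangeRestrict_surjective _)
    rwa [hr] at this
  have : CharZero (IntermediateField.adjoin k₀ {u}) :=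
    charZero_of_injective_algebraMap (algebraMap k₀ (IntermediateField.adjoin k₀ {u})).injective
  have : Algebra.IsSeparable (IntermediateField.adjoin k₀ {u}) K₁ := inferInstance
  have hfrac : IsFractionRing (integralClosure A K₁) K₁ :=
    integralClosure.isFractionRing_of_finite_extension (IntermediateField.adjoin k₀ {u}) K₁
  have hded : IsDedekindDomain (integralClosure A K₁) :=
    integralClosure.isDedekindDomain A (IntermediateField.adjoin k₀ {u}) K₁
  have hmf : Module.Finite A (integralClosure A K₁) :=
    IsIntegralClosure.finite A (IntermediateField.adjoin k₀ {u}) K₁ (integralClosure A K₁)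
  have halg : Algebra.IsAlgebraic A K₁ :=
    Algebra.IsAlgebraic.trans A (IntermediateField.adjoin k₀ {u}) K₁
  -- residues of elements of `A`
  have hAres : ∀ a : A, ∃ c : k₀, W.valuation (algebraMap A K₁ a - algebraMap k₀ K₁ c) < 1 := by
    have key : ∀ a ∈ Algebra.adjoin k₀ {u}, a ∈ W ∧
        ∃ c : k₀, W.valuation (a - algebraMap k₀ K₁ c) < 1 := by
      intro a ha
      induction ha using Algebra.adjoin_induction with
      | mem x hx =>
        rw [Set.mem_singleton_iff] at hx
        subst hx
        exact ⟨huW, 0, by simpa using hW⟩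
      | algebraMap r => exact ⟨hk r, r, by simp⟩
      | add x y _ _ hx hy =>
        obtain ⟨hx, c, hc⟩ := hx
        obtain ⟨hy, d, hd⟩ := hy
        refine ⟨W.add_mem _ _ hx hy, c + d, ?_⟩
        have : x + y - algebraMap k₀ K₁ (c + d) =
            (x - algebraMap k₀ K₁ c) + (y - algebraMap k₀ K₁ d) := by
          rw [map_add]; ring
        rw [this]
        exact W.valuation.map_add_lt hc hd
      | mul x y _ _ hx hy =>
        obtain ⟨hx, c, hc⟩ := hx
        obtain ⟨hy, d, hd⟩ := hy
        refine ⟨W.mul_mem _ _ hx hy, c * d, ?_⟩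
        have : x * y - algebraMap k₀ K₁ (c * d) =
            x * (y - algebraMap k₀ K₁ d) + algebraMap k₀ K₁ d * (x - algebraMap k₀ K₁ c) := by
          rw [map_mul]; ring
        rw [this]
        refine W.valuation.map_add_lt ?_ ?_
        · rw [map_mul]
          exact (mul_le_of_le_one_left' ((W.valuation_le_one_iff _).2 hx)).trans_lt hd
        · rw [map_mul]
          exact (mul_le_of_le_one_left' ((W.valuation_le_one_iff _).2 (hk d))).trans_lt hc
    exact fun a => (key a a.2).2
  have hAW : ∀ a : A, algebraMap A K₁ a ∈ W := by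
    intro a
    obtain ⟨c, hc⟩ := hAres a
    have h1 : algebraMap A K₁ a - algebraMap k₀ K₁ c ∈ W := (W.valuation_le_one_iff _).1 hc.le
    have := W.add_mem _ _ h1 (hk c)
    simpa using this
  -- the derivation preserves `A`
  have hDA : ∀ a : A, ∃ a' : A, D (algebraMap A K₁ a) = algebraMap A K₁ a' := by
    obtain ⟨cu, hcu⟩ := h1
    have key : ∀ a ∈ Algebra.adjoin k₀ {u}, D a ∈ Algebra.adjoin k₀ {u} := by
      intro a ha
      induction ha using Algebra.adjoin_induction with
      | mem x hx =>
        rw [Set.mem_singleton_iff] at hx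
        subst hx
        rw [hcu]
        exact Subalgebra.mul_mem _ (Subalgebra.algebraMap_mem _ _)
          (Algebra.self_mem_adjoin_singleton k₀ x)
      | algebraMap r =>
        obtain ⟨c', hc'⟩ := h0 r
        rw [hc']
        exact Subalgebra.algebraMap_mem _ _
      | add x y _ _ hx hy =>
        rw [map_add]
        exact Subalgebra.add_mem _ hx hy
      | mul x y hx' hy' hx hy =>
        rw [Derivation.leibniz]
        simp only [smul_eq_mul]
        exact Subalgebra.add_mem _ (Subalgebra.mul_mem _ hx' hy) (Subalgebra.mul_mem _ hy' hx)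
    exact fun a => ⟨⟨D a, key a a.2⟩, rfl⟩
  have hBW : ∀ b : integralClosure A K₁, algebraMap (integralClosure A K₁) K₁ b ∈ W :=
    fun b => tameBound_integral W hAW b b.2
  obtain ⟨P, hP, hWP⟩ := tameBound_dvr (R := integralClosure A K₁) W hBW
    ⟨algebraMap A (integralClosure A K₁) ⟨u, Algebra.self_mem_adjoin_singleton k₀ u⟩, by
      intro h
      apply hu0
      have := congrArg (Subtype.val) h
      exact this, by
      have : algebraMap (integralClosure A K₁) K₁ (algebraMap A (integralClosure A K₁)
        ⟨u, Algebra.self_mem_adjoin_singleton k₀ u⟩) = u := rfl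
      rw [this]
      exact hW⟩
  have hord := tameBound_ord W P hWP
  -- representation of the elements of `W`
  have hrep : ∀ z ∈ W, ∃ b s : K₁, IsIntegral A b ∧ IsIntegral A s ∧ W.valuation s = 1 ∧
      z * s = b := by
    intro z hz
    obtain ⟨n, d, hnd⟩ := IsDedekindDomain.HeightOneSpectrum.exists_primeCompl_mul_eq_of_integer
      P z ((hWP z).1 hz)
    refine ⟨n, (d : integralClosure A K₁), n.2, (d : integralClosure A K₁).2, ?_, hnd⟩
    have hd : (d : integralClosure A K₁) ∉ P.asIdeal := d.2
    rw [hP] at hd
    exact le_antisymm ((W.valuation_le_one_iff _).2 (hBW d)) (not_lt.mp hd)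
  refine ⟨_, hord, ?_, ?_⟩
  · obtain ⟨q, hq0, hq⟩ := tameBound_mult (A := A) (K := K₁) D hDA
    have hq0' : algebraMap A K₁ q ≠ 0 := by
      intro h
      apply hq0
      exact Subtype.ext h
    refine ⟨- (fun x => - WithZero.log (P.valuation K₁ x)) (algebraMap A K₁ q), ?_⟩
    intro z hz hDz
    obtain ⟨hmul, hmem, -⟩ := hord
    obtain ⟨b, s, hb, hs, hs1, hzs⟩ := hrep z hz
    have hs0 : s ≠ 0 := by
      rintro rfl
      simp at hs1
    have hsW : s ∈ W := (W.valuation_le_one_iff _).1 hs1.le
    have hbW : b ∈ W := tameBound_integral W hAW b hb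
    have hsinv : s⁻¹ ∈ W := by
      rw [← W.valuation_le_one_iff, map_inv₀, hs1, inv_one]
    have hqb : algebraMap A K₁ q * D b ∈ W := tameBound_integral W hAW _ (hq b hb)
    have hqs : algebraMap A K₁ q * D s ∈ W := tameBound_integral W hAW _ (hq s hs)
    have hz' : algebraMap A K₁ q * D z =
        s⁻¹ * (algebraMap A K₁ q * D b - z * (algebraMap A K₁ q * D s)) := by
      have : D b = z * D s + s * D z := by
        rw [← hzs, Derivation.leibniz]
        simp only [smul_eq_mul]
      rw [this]
      field_simp
      ring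
    have hmemW : algebraMap A K₁ q * D z ∈ W := by
      rw [hz']
      exact W.mul_mem _ _ hsinv (sub_mem hqb (W.mul_mem _ _ hz hqs))
    have h2 := (hmem _ (mul_ne_zero hq0' hDz)).1 hmemW
    rw [hmul _ _ hq0' hDz] at h2
    linarith
  · intro z hz
    obtain ⟨b, s, hb, hs, hs1, hzs⟩ := hrep z hz
    exact tameBound_residue W hk hAres z b s hb hs hs1 hzs

end Pool.Agent.DegThree
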