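import Pool.Agent.Lib_MP_9293ae_ag.TameBound

/-! Piece TameFin: derivations of tame type preserve valuation rings (finite extension). -/

set_option autoImplicit false

open scoped Polynomial IntermediateField

namespace Pool.Agent.DegThree

section TameFinAux

variable {K : Type} [Field K] {O : ValuationSubring K} {v : K → ℤ}

theorem tf_ord_one (h : IsOrd O v) : v 1 = 0 := by
  have h1 := h.1 1 1 one_ne_zero one_ne_zero
  rw [one_mul] at h1
  omega

theorem tf_ord_inv (h : IsOrd O v) {x : K} (hx : x ≠ 0) : v x⁻¹ = - v x := by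
  have h1 := h.1 x x⁻¹ hx (inv_ne_zero hx)
  rw [mul_inv_cancel₀ hx, tf_ord_one h] at h1
  omega

theorem tf_ord_pow (h : IsOrd O v) {x : K} (hx : x ≠ 0) (n : ℕ) : v (x ^ n) = n * v x := by
  induction n with
  | zero => simp [tf_ord_one h]
  | succ n ih =>
    rw [pow_succ, h.1 _ _ (pow_ne_zero _ hx) hx, ih]
    push_cast
    ring

theorem tf_ord_zpow (h : IsOrd O v) {x : K} (hx : x ≠ 0) (n : ℤ) : v (x ^ n) = n * v x := by
  obtain ⟨m, rfl | rfl⟩ := n.eq_nat_or_neg
  · rw [zpow_natCast]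
    exact tf_ord_pow h hx m
  · rw [zpow_neg, zpow_natCast, tf_ord_inv h (pow_ne_zero _ hx), tf_ord_pow h hx m]
    ring

theorem tf_lt_one_iff (h : IsOrd O v) {x : K} (hx : x ≠ 0) :
    O.valuation x < 1 ↔ 1 ≤ v x := by
  have h1 : O.valuation x < 1 ↔ ¬ (O.valuation x⁻¹ ≤ 1) := by
    rw [map_inv₀, not_le]
    constructor
    · intro hlt
      exact (one_lt_inv₀ (zero_lt_iff.mpr ((O.valuation).ne_zero_iff.mpr hx))).mpr hlt
    · intro hlt
      exact (one_lt_inv₀ (zero_lt_iff.mpr ((O.valuation).ne_zero_iff.mpr hx))).mp hlt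
  rw [h1, ValuationSubring.valuation_le_one_iff, h.2.1 _ (inv_ne_zero hx), tf_ord_inv h hx]
  omega

/-- elements of order at least `n` -/
def TfGe (O : ValuationSubring K) (t : K) (n : ℤ) (x : K) : Prop := x * t ^ (-n) ∈ O

theorem TfGe.add {t : K} {n : ℤ} {x y : K} (hx : TfGe O t n x) (hy : TfGe O t n y) :
    TfGe O t n (x + y) := by
  unfold TfGe at *
  rw [add_mul]
  exact O.add_mem _ _ hx hy

theorem TfGe.neg {t : K} {n : ℤ} {x : K} (hx : TfGe O t n x) : TfGe O t n (-x) := by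
  unfold TfGe at *
  rw [neg_mul]
  exact O.neg_mem _ hx

theorem TfGe.mul {t : K} {n : ℤ} {x y : K} (hy : y ∈ O) (hx : TfGe O t n x) :
    TfGe O t n (y * x) := by
  unfold TfGe at *
  rw [mul_assoc]
  exact O.mul_mem _ _ hy hx

theorem tfGe_iff (h : IsOrd O v) {t : K} (ht : t ≠ 0) (hvt : v t = 1) {n : ℤ} {x : K}
    (hx : x ≠ 0) : TfGe O t n x ↔ n ≤ v x := by
  unfold TfGe
  rw [h.2.1 _ (mul_ne_zero hx (zpow_ne_zero _ ht)), h.1 _ _ hx (zpow_ne_zero _ ht),
    tf_ord_zpow h ht, hvt]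
  constructor <;> intro h1 <;> linarith

theorem tfGe_zero {t : K} {n : ℤ} : TfGe O t n (0 : K) := by
  unfold TfGe
  rw [zero_mul]
  exact O.zero_mem

theorem tfGe_of_mem (h : IsOrd O v) {t : K} (ht : t ≠ 0) (hvt : v t = 1) {n : ℤ} (hn : n ≤ 0)
    {x : K} (hx : x ∈ O) : TfGe O t n x := by
  by_cases hx0 : x = 0
  · rw [hx0]; exact tfGe_zero
  · rw [tfGe_iff h ht hvt hx0]
    have := (h.2.1 x hx0).1 hx
    omega

end TameFinAux

theorem tf_D_pow {K : Type} [Field K] (D : Derivation ℤ K K) {u c : K} (hu : D u = c * u)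
    (a : ℕ) : D (u ^ a) = a * c * u ^ a := by
  induction a with
  | zero => simp
  | succ n ih =>
    rw [pow_succ, D.leibniz, ih, hu]
    simp only [smul_eq_mul]
    push_cast
    ring

theorem tf_key {K : Type} [Field K] (D : Derivation ℤ K K) {u c g η : K} (hu : D u = c * u)
    {a e : ℕ} (h : g ^ e = u ^ a * η) (hg : g ≠ 0) (hη : η ≠ 0) :
    (e : K) * D g = g * ((a : K) * c + D η / η) := by
  have h1 : D (g ^ e) = D (u ^ a * η) := by rw [h]
  rw [D.leibniz, tf_D_pow D hu] at h1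
  simp only [smul_eq_mul] at h1
  have h2 : g * D (g ^ e) = (e : K) * g ^ e * D g := by
    rw [D.leibniz_pow]
    rcases Nat.eq_zero_or_pos e with he | he
    · subst he; simp
    · obtain ⟨m, rfl⟩ : ∃ m, e = m + 1 := ⟨e - 1, by omega⟩
      simp only [Nat.add_sub_cancel, smul_eq_mul, nsmul_eq_mul]
      ring
  have h3 : (e : K) * g ^ e * D g = g * (u ^ a * D η + η * (a * c * u ^ a)) := by
    rw [← h2, h1]
  have hge : g ^ e ≠ 0 := pow_ne_zero _ hg
  have h4 : g ^ e * ((e : K) * D g) = g ^ e * (g * ((a : K) * c + D η / η)) := by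
    calc g ^ e * ((e : K) * D g) = (e : K) * g ^ e * D g := by ring
      _ = g * (u ^ a * D η + η * (a * c * u ^ a)) := h3
      _ = (u ^ a * η) * (g * ((a : K) * c + D η / η)) := by
        field_simp
        ring
      _ = g ^ e * (g * ((a : K) * c + D η / η)) := by rw [h]
  exact mul_left_cancel₀ hge h4

theorem tf_poly_mem {k₀ K₁ : Type} [Field k₀] [Field K₁] [Algebra k₀ K₁]
    (D : Derivation ℤ K₁ K₁)
    (h0 : ∀ c : k₀, ∃ c' : k₀, D (algebraMap k₀ K₁ c) = algebraMap k₀ K₁ c')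
    (W : ValuationSubring K₁) (hk : ∀ c : k₀, algebraMap k₀ K₁ c ∈ W) (h : K₁) (hh : h ∈ W)
    (p : k₀[X]) :
    D (Polynomial.aeval h p) - Polynomial.aeval h (Polynomial.derivative p) * D h ∈ W := by
  induction p using Polynomial.induction_on' with
  | add p q hp hq =>
    have : D (Polynomial.aeval h (p + q)) - Polynomial.aeval h (Polynomial.derivative (p + q)) * D h
        = (D (Polynomial.aeval h p) - Polynomial.aeval h (Polynomial.derivative p) * D h) +
          (D (Polynomial.aeval h q) - Polynomial.aeval h (Polynomial.derivative q) * D h) := by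
      simp only [map_add]
      ring
    rw [this]
    exact W.add_mem _ _ hp hq
  | monomial n c =>
    obtain ⟨c', hc'⟩ := h0 c
    have : D (Polynomial.aeval h (Polynomial.monomial n c)) -
        Polynomial.aeval h (Polynomial.derivative (Polynomial.monomial n c)) * D h =
          algebraMap k₀ K₁ c' * h ^ n := by
      rw [Polynomial.aeval_monomial, Polynomial.derivative_monomial, Polynomial.aeval_monomial,
        D.leibniz, D.leibniz_pow, hc']
      simp only [smul_eq_mul, nsmul_eq_mul, map_mul, map_natCast]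
      ring
    rw [this]
    exact W.mul_mem _ _ (hk c') (W.pow_mem hh n)

theorem tf_poly_zero {k₀ K₁ : Type} [Field k₀] [Field K₁] [Algebra k₀ K₁]
    (D : Derivation ℤ K₁ K₁) (h0 : ∀ c : k₀, D (algebraMap k₀ K₁ c) = 0) (h : K₁) (p : k₀[X]) :
    D (Polynomial.aeval h p) = Polynomial.aeval h (Polynomial.derivative p) * D h := by
  induction p using Polynomial.induction_on' with
  | add p q hp hq =>
    simp only [map_add, hp, hq]
    ring
  | monomial n c =>
    rw [Polynomial.aeval_monomial, Polynomial.derivative_monomial, Polynomial.aeval_monomial,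
      D.leibniz, D.leibniz_pow, h0]
    simp only [smul_eq_mul, nsmul_eq_mul, map_mul, map_natCast]
    ring

theorem tf_aeval_mem {k₀ K₁ : Type} [Field k₀] [Field K₁] [Algebra k₀ K₁]
    (W : ValuationSubring K₁) (hk : ∀ c : k₀, algebraMap k₀ K₁ c ∈ W) (h : K₁) (hh : h ∈ W)
    (p : k₀[X]) : Polynomial.aeval h p ∈ W := by
  induction p using Polynomial.induction_on' with
  | add p q hp hq =>
    rw [map_add]
    exact W.add_mem _ _ hp hq
  | monomial n c =>
    rw [Polynomial.aeval_monomial]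
    exact W.mul_mem _ _ (hk c) (W.pow_mem hh n)

/-- the derivative of the minimal polynomial of the residue class is a unit -/
theorem tf_deriv_unit {k₀ K₁ : Type} [Field k₀] [CharZero k₀] [Field K₁] [Algebra k₀ K₁]
    (W : ValuationSubring K₁) (hk : ∀ c : k₀, algebraMap k₀ K₁ c ∈ W) (h : K₁) (hh : h ∈ W)
    (p : k₀[X]) (hp : Irreducible p) (hv : W.valuation (Polynomial.aeval h p) < 1) :
    W.valuation (Polynomial.aeval h (Polynomial.derivative p)) = 1 := by
  obtain ⟨a, b, hab⟩ := hp.separable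
  have h1 : Polynomial.aeval h a * Polynomial.aeval h p +
      Polynomial.aeval h b * Polynomial.aeval h (Polynomial.derivative p) = 1 := by
    rw [← map_mul, ← map_mul, ← map_add, hab, map_one]
  have ha : W.valuation (Polynomial.aeval h a) ≤ 1 :=
    (W.valuation_le_one_iff _).mpr (tf_aeval_mem W hk h hh a)
  have hb : W.valuation (Polynomial.aeval h b) ≤ 1 :=
    (W.valuation_le_one_iff _).mpr (tf_aeval_mem W hk h hh b)
  have hd : W.valuation (Polynomial.aeval h (Polynomial.derivative p)) ≤ 1 :=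
    (W.valuation_le_one_iff _).mpr (tf_aeval_mem W hk h hh _)
  by_contra hne
  have hlt : W.valuation (Polynomial.aeval h (Polynomial.derivative p)) < 1 :=
    lt_of_le_of_ne hd hne
  have h2 : W.valuation (1 : K₁) < 1 := by
    rw [← h1]
    refine (W.valuation).map_add_lt ?_ ?_
    · rw [map_mul]
      exact mul_lt_one_of_nonneg_of_lt_one_right ha zero_le hv
    · rw [map_mul]
      exact mul_lt_one_of_nonneg_of_lt_one_right hb zero_le hlt
  rw [map_one] at h2
  exact lt_irrefl _ h2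

theorem tame_fin {k₀ K₁ : Type} [Field k₀] [CharZero k₀] [Field K₁] [Algebra k₀ K₁] (u : K₁)
    (hu : Transcendental k₀ u) (hfin : FiniteDimensional (IntermediateField.adjoin k₀ {u}) K₁)
    (D : Derivation ℤ K₁ K₁)
    (h0 : ∀ c : k₀, ∃ c' : k₀, D (algebraMap k₀ K₁ c) = algebraMap k₀ K₁ c')
    (h1 : ∃ c : k₀, D u = algebraMap k₀ K₁ c * u) (W : ValuationSubring K₁)
    (hk : ∀ c : k₀, algebraMap k₀ K₁ c ∈ W) (hW : W.valuation u < 1) :
    (∀ z ∈ W, D z ∈ W) ∧
      ((∀ c : k₀, D (algebraMap k₀ K₁ c) = 0) → ∀ z ∈ W, W.valuation (D z) < 1) := by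
  obtain ⟨v, hv, ⟨N, hN⟩, hp⟩ := tame_bound u hu hfin D h0 h1 W hk hW
  obtain ⟨c, hc⟩ := h1
  obtain ⟨t, ht, hvt⟩ := hv.2.2
  have hu0 : u ≠ 0 := by
    rintro rfl
    exact hu (isAlgebraic_zero)
  -- the formula for elements of the maximal ideal
  have key : ∀ g : K₁, g ≠ 0 → W.valuation g < 1 → ∃ (r : K₁) (η : K₁), r ∈ W ∧ η ∈ W ∧
      η⁻¹ ∈ W ∧ D g = g * (r + algebraMap k₀ K₁ ((v u).toNat : k₀)⁻¹ * (D η * η⁻¹)) := by
    intro g hg hgv
    have ha := (tf_lt_one_iff hv hg).1 hgv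
    have he := (tf_lt_one_iff hv hu0).1 hW
    set a := (v g).toNat with ha'
    set e := (v u).toNat with he'
    have ha2 : (a : ℤ) = v g := by rw [ha']; exact Int.toNat_of_nonneg (by omega)
    have he2 : (e : ℤ) = v u := by rw [he']; exact Int.toNat_of_nonneg (by omega)
    have hua : u ^ a ≠ 0 := pow_ne_zero _ hu0
    have hge : g ^ e ≠ 0 := pow_ne_zero _ hg
    set η := g ^ e * (u ^ a)⁻¹ with hη
    have hη0 : η ≠ 0 := mul_ne_zero hge (inv_ne_zero hua)
    have hvη : v η = 0 := by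
      rw [hη, hv.1 _ _ hge (inv_ne_zero hua), tf_ord_inv hv hua, tf_ord_pow hv hg,
        tf_ord_pow hv hu0, ha2, he2]
      ring
    have hηW : η ∈ W := (hv.2.1 _ hη0).2 (by rw [hvη])
    have hηW' : η⁻¹ ∈ W := (hv.2.1 _ (inv_ne_zero hη0)).2 (by rw [tf_ord_inv hv hη0, hvη]; simp)
    have hge' : g ^ e = u ^ a * η := by
      rw [hη]
      field_simp
    have hk1 := tf_key D hc hge' hg hη0
    have he0 : ((e : k₀)) ≠ 0 := by
      have : e ≠ 0 := by omega
      exact_mod_cast this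
    have he1 : (e : K₁) ≠ 0 := by
      have h5 : algebraMap k₀ K₁ (e : k₀) ≠ 0 :=
        (map_ne_zero_iff _ (algebraMap k₀ K₁).injective).mpr he0
      rwa [map_natCast] at h5
    refine ⟨algebraMap k₀ K₁ ((e : k₀)⁻¹ * (a : k₀) * c), η, hk _, hηW, hηW', ?_⟩
    have h6 : D g = (e : K₁)⁻¹ * (g * ((a : K₁) * algebraMap k₀ K₁ c + D η / η)) := by
      rw [← hk1]
      field_simp
    rw [h6]
    simp only [map_mul, map_inv₀, map_natCast]
    rw [div_eq_mul_inv]
    ring
  have claim1 : ∀ z ∈ W, D z ∈ W := by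
    by_contra hcon
    push Not at hcon
    obtain ⟨z0, hz0, hDz0⟩ := hcon
    have hDz00 : D z0 ≠ 0 := by
      intro h5
      rw [h5] at hDz0
      exact hDz0 W.zero_mem
    obtain ⟨n0, ⟨h, hh, hDh, hn0⟩, hmin⟩ := Int.exists_least_of_bdd
      (P := fun n => ∃ z ∈ W, D z ≠ 0 ∧ v (D z) = n)
      ⟨N, fun n ⟨z, hz, hDz, hn⟩ => hn ▸ hN z hz hDz⟩ ⟨_, z0, hz0, hDz00, rfl⟩
    have hn0neg : n0 < 0 := by
      have h5 := hmin _ ⟨z0, hz0, hDz00, rfl⟩
      have h6 : ¬ 0 ≤ v (D z0) := fun h7 => hDz0 ((hv.2.1 _ hDz00).2 h7)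
      omega
    have hall : ∀ z ∈ W, TfGe W t n0 (D z) := by
      intro z hz
      by_cases hz0' : D z = 0
      · rw [hz0']; exact tfGe_zero
      · exact (tfGe_iff hv ht hvt hz0').2 (hmin _ ⟨z, hz, hz0', rfl⟩)
    obtain ⟨p, -, hirr, hpv⟩ := hp h hh
    have hder := tf_deriv_unit W hk h hh p hirr hpv
    have hder0 : Polynomial.aeval h (Polynomial.derivative p) ≠ 0 := by
      intro h5
      rw [h5, map_zero] at hder
      exact zero_ne_one hder
    have hder1 : (Polynomial.aeval h (Polynomial.derivative p))⁻¹ ∈ W := by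
      rw [← W.valuation_le_one_iff, map_inv₀, hder, inv_one]
    set g := Polynomial.aeval h p with hg
    have hDg : TfGe W t (n0 + 1) (D g) := by
      by_cases hg0 : g = 0
      · rw [hg0, map_zero]; exact tfGe_zero
      · obtain ⟨r, η, hr, hη, hη', hD⟩ := key g hg0 hpv
        have h7 : TfGe W t n0 (r + algebraMap k₀ K₁ ((v u).toNat : k₀)⁻¹ * (D η * η⁻¹)) := by
          refine (tfGe_of_mem hv ht hvt hn0neg.le hr).add ?_
          refine TfGe.mul (hk _) ?_
          rw [mul_comm]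
          exact TfGe.mul hη' (hall η hη)
        have h8 := (tf_lt_one_iff hv hg0).1 hpv
        have h9 : g * t⁻¹ ∈ W := by
          rw [hv.2.1 _ (mul_ne_zero hg0 (inv_ne_zero ht)), hv.1 _ _ hg0 (inv_ne_zero ht),
            tf_ord_inv hv ht, hvt]
          omega
        rw [hD]
        unfold TfGe at h7 ⊢
        have h10 : g * (r + algebraMap k₀ K₁ ((v u).toNat : k₀)⁻¹ * (D η * η⁻¹)) *
            t ^ (-(n0 + 1)) = (g * t⁻¹) *
              ((r + algebraMap k₀ K₁ ((v u).toNat : k₀)⁻¹ * (D η * η⁻¹)) * t ^ (-n0)) := by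
          have : t ^ (-(n0 + 1)) = t⁻¹ * t ^ (-n0) := by
            rw [neg_add, add_comm, zpow_add₀ ht, zpow_neg_one]
          rw [this]
          ring
        rw [h10]
        exact W.mul_mem _ _ h9 h7
    have hpD := tf_poly_mem D h0 W hk h hh p
    have h11 : D h = (Polynomial.aeval h (Polynomial.derivative p))⁻¹ *
        (D g + -(D g - Polynomial.aeval h (Polynomial.derivative p) * D h)) := by
      field_simp
      ring
    have h12 : TfGe W t (n0 + 1) (D h) := by
      rw [h11]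
      refine TfGe.mul hder1 (hDg.add ?_)
      exact (tfGe_of_mem hv ht hvt (by omega) hpD).neg
    have h13 := (tfGe_iff hv ht hvt hDh).1 h12
    omega
  refine ⟨claim1, fun hD0 z hz => ?_⟩
  obtain ⟨p, -, hirr, hpv⟩ := hp z hz
  have hder := tf_deriv_unit W hk z hz p hirr hpv
  have h5 := tf_poly_zero D hD0 z p
  have h6 : W.valuation (D (Polynomial.aeval z p)) = W.valuation (D z) := by
    rw [h5, map_mul, hder, one_mul]
  rw [← h6]
  by_cases hg0 : Polynomial.aeval z p = 0
  · rw [hg0, map_zero, map_zero]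
    exact zero_lt_one
  · obtain ⟨r, η, hr, hη, hη', hD⟩ := key _ hg0 hpv
    rw [hD, map_mul]
    refine mul_lt_one_of_nonneg_of_lt_one_left zero_le hpv ?_
    rw [W.valuation_le_one_iff]
    exact W.add_mem _ _ hr (W.mul_mem _ _ (hk _) (W.mul_mem _ _ (claim1 η hη) hη'))

end Pool.Agent.DegThree
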