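import Pool.Agent.Lib_MP_9293ae_ag.Dual
import Pool.Agent.Lib_MP_9293ae_ag.Inv
import Pool.Agent.Lib_MP_9293ae_ag.Place
import Pool.Agent.Lib_MP_9293ae_ag.Coord
import Pool.Agent.Lib_MP_9293ae_ag.Tame

/-! Piece TraceZero: the trace of a holomorphic one-form of a curve is zero if the target surface has no regular one-forms. -/

set_option autoImplicit false

open scoped Polynomial IntermediateField

namespace Pool.Agent.DegThree

namespace TZ

lemma der_adjoin {K : Type} [Field K] [Algebra ℂ K] (D : Derivation ℂ K K) (S : Set K)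
    (hD : ∀ z ∈ S, D z ∈ IntermediateField.adjoin ℂ S) (z : K)
    (hz : z ∈ IntermediateField.adjoin ℂ S) : D z ∈ IntermediateField.adjoin ℂ S := by
  induction hz using IntermediateField.adjoin_induction with
  | mem x hx => exact hD x hx
  | algebraMap x =>
    rw [Derivation.map_algebraMap]
    exact zero_mem _
  | add x y hx hy h1 h2 =>
    rw [map_add]
    exact add_mem h1 h2
  | inv x hx h =>
    rw [Derivation.leibniz_inv, smul_eq_mul]
    exact mul_mem (neg_mem (pow_mem (inv_mem hx) _)) h
  | mul x y hx hy h1 h2 =>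
    rw [Derivation.leibniz, smul_eq_mul, smul_eq_mul]
    exact add_mem (mul_mem hx h2) (mul_mem hy h1)

lemma der_adjoin_zero {K : Type} [Field K] [Algebra ℂ K] (D : Derivation ℂ K K) (S : Set K)
    (hD : ∀ z ∈ S, D z = 0) (z : K)
    (hz : z ∈ IntermediateField.adjoin ℂ S) : D z = 0 := by
  induction hz using IntermediateField.adjoin_induction with
  | mem x hx => exact hD x hx
  | algebraMap x => rw [Derivation.map_algebraMap]
  | add x y hx hy h1 h2 => rw [map_add, h1, h2, add_zero]
  | inv x hx h => rw [Derivation.leibniz_inv, h, smul_zero]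
  | mul x y hx hy h1 h2 => rw [Derivation.leibniz, h1, h2, smul_zero, smul_zero, add_zero]

lemma val_lt {L Ab : Type} [Field L] [Field Ab] [Algebra L Ab] (V : ValuationSubring L)
    (W : ValuationSubring Ab) (hW : W.comap (algebraMap L Ab) = V) (z : L) :
    W.valuation (algebraMap L Ab z) < 1 ↔ V.valuation z < 1 := by
  have key : ∀ {K : Type} [Field K] (O : ValuationSubring K) (x : K), O.valuation x < 1 ↔
      x = 0 ∨ x⁻¹ ∉ O := by
    intro K _ O x
    by_cases hx : x = 0
    · simp [hx]
    · have h0 : O.valuation x ≠ 0 := (Valuation.ne_zero_iff _).2 hx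
      rw [← O.valuation_le_one_iff, map_inv₀, inv_le_one₀ (zero_lt_iff.2 h0), not_le]
      simp [hx]
  rw [key, key, ← hW, ValuationSubring.mem_comap, map_inv₀]
  simp

/-- the elements of positive value -/
def ltGroup {K : Type} [Field K] (W : ValuationSubring K) : AddSubgroup K where
  carrier := {z | W.valuation z < 1}
  zero_mem' := by simp
  add_mem' := fun {a b} ha hb => by
    show W.valuation (a + b) < 1
    exact Valuation.map_add_lt _ ha hb
  neg_mem' := fun {a} ha => by
    show W.valuation (-a) < 1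
    rw [Valuation.map_neg]
    exact ha

end TZ

variable {F L K Ab : Type} [Field F] [Field L] [Field K] [Field Ab] [Algebra ℂ F] [Algebra ℂ L]
  [Algebra ℂ K] [Algebra ℂ Ab] [Algebra F K] [IsScalarTower ℂ F K] [Algebra L K]
  [IsScalarTower ℂ L K] [Algebra L Ab] [IsScalarTower ℂ L Ab]

theorem trace_zero (hL : Algebra.trdeg ℂ L = 2) (hq : regularForms L = ⊥)
    [FiniteDimensional L K] [IsAlgClosed Ab] [Algebra.IsAlgebraic L Ab]
    (ω : Ω[F⁄ℂ]) (hω : ω ∈ holomorphicForms F) (D : Derivation ℂ Ab Ab) :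
    ∑ σ : K →ₐ[L] Ab,
      evalForm ((σ.restrictScalars ℂ).comp (IsScalarTower.toAlgHom ℂ F K)) D ω = 0 := by
  classical
  set θ : Derivation ℂ Ab Ab → Ab := fun D => ∑ σ : K →ₐ[L] Ab,
      evalForm ((σ.restrictScalars ℂ).comp (IsScalarTower.toAlgHom ℂ F K)) D ω with hθ
  have hθadd : ∀ D D', θ (D + D') = θ D + θ D' := by
    intro D D'
    simp only [hθ, evalForm_add_der, Finset.sum_add_distrib]
  have hθsmul : ∀ (c : Ab) D, θ (c • D) = c * θ D := by
    intro c D
    simp only [hθ, evalForm_smul_der, Finset.mul_sum]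
  set ι := IsScalarTower.toAlgHom ℂ L Ab with hι
  have hιa : ∀ z : L, ι z = algebraMap L Ab z := fun z => rfl
  -- a transcendence basis of `L`
  obtain ⟨u₀, v₀, h₀⟩ : ∃ u₀ v₀ : L, AlgebraicIndependent ℂ ![u₀, v₀] := by
    obtain ⟨κ, z, hz⟩ := exists_isTranscendenceBasis' ℂ L
    have hc := hz.cardinalMk_eq_trdeg
    rw [hL] at hc
    have e : Fin 2 ≃ κ := by
      have h : Cardinal.mk (Fin 2) = Cardinal.mk κ := by rw [hc]; simp
      exact (Cardinal.eq.mp h).some
    refine ⟨z (e 0), z (e 1), ?_⟩
    have h := hz.1.comp e e.injective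
    convert h using 1
    ext i
    fin_cases i <;> rfl
  obtain ⟨Du₀, Dv₀, hu₀, hv₀, -, -, -, -, hdec₀, -⟩ := exists_dual (Ab := Ab) hL u₀ v₀ h₀
  obtain ⟨a₀, ha₀⟩ := trace_mem (K := K) ω Du₀ hu₀
  obtain ⟨b₀, hb₀⟩ := trace_mem (K := K) ω Dv₀ hv₀
  set Θ : Ω[L⁄ℂ] := a₀ • KaehlerDifferential.D ℂ L u₀ + b₀ • KaehlerDifferential.D ℂ L v₀ with hΘ
  have hval : ∀ D : Derivation ℂ Ab Ab, evalForm ι D Θ = θ D := by
    intro D
    rw [hΘ, map_add, evalForm_smul, evalForm_smul, evalForm_D, evalForm_D, hιa, hιa, hιa, hιa,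
      ← ha₀, ← hb₀]
    conv_rhs => rw [hdec₀ D, hθadd, hθsmul, hθsmul]
    show θ Du₀ * _ + θ Dv₀ * _ = _
    ring
  -- regularity
  have hreg : Θ ∈ regularForms L := by
    intro V hV
    obtain ⟨u, v, huv, hcv, hu, hdiv⟩ := exists_coord V hV
    obtain ⟨Du, Dv, hru, hrv, e1, e2, e3, e4, -, hexp⟩ := exists_dual (Ab := Ab) hL u v huv
    obtain ⟨a, ha⟩ := trace_mem (K := K) ω Du hru
    obtain ⟨b, hb⟩ := trace_mem (K := K) ω Dv hrv
    have ha' : θ Du = algebraMap L Ab a := ha
    have hb' : θ Dv = algebraMap L Ab b := hb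
    have hΘ' := hexp Θ a b ((hval Du).trans ha') ((hval Dv).trans hb')
    obtain ⟨W, hW⟩ := exists_place (Ab := Ab) V
    have hmem : ∀ z : L, algebraMap L Ab z ∈ W ↔ z ∈ V := by
      intro z
      rw [← hW]
      rfl
    have hWC : ∀ c : ℂ, algebraMap ℂ Ab c ∈ W := by
      intro c
      rw [IsScalarTower.algebraMap_apply ℂ L Ab, hmem]
      exact hV.1 c
    set u' := algebraMap L Ab u with hu'
    set v' := algebraMap L Ab v with hv'
    have hu0 : u ≠ 0 := by
      rintro rfl
      rw [hu', map_zero, map_zero] at e1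
      exact zero_ne_one e1
    set k₀ : IntermediateField ℂ Ab := IntermediateField.adjoin ℂ {v'} with hk₀
    have hk₀V : ∀ c : k₀, ∃ c' ∈ V, algebraMap L Ab c' = c := by
      intro c
      have h1 : k₀ = (IntermediateField.adjoin ℂ {v}).map ι := by
        rw [hk₀, IntermediateField.adjoin_map, Set.image_singleton]
        rfl
      have h2 : (c : Ab) ∈ (IntermediateField.adjoin ℂ {v}).map ι := h1 ▸ c.2
      obtain ⟨c', hc', hc''⟩ := h2
      exact ⟨c', hcv ⟨c', hc'⟩, hc''⟩
    have hk₀W : ∀ c : k₀, algebraMap k₀ Ab c ∈ W := by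
      intro c
      obtain ⟨c', hc', hc''⟩ := hk₀V c
      have h3 : algebraMap k₀ Ab c = (c : Ab) := rfl
      rw [h3, ← hc'', hmem]
      exact hc'
    have hDu0 : ∀ c ∈ k₀, Du c = 0 := by
      intro c hc
      refine TZ.der_adjoin_zero Du _ ?_ c hc
      intro z hz
      rw [Set.mem_singleton_iff.1 hz]
      exact e2
    have hut : Transcendental k₀ u' := by
      intro halg
      have := Campana.derivation_eq_zero Du k₀ hDu0 u' halg
      rw [e1] at this
      exact one_ne_zero this
    have hWu : W.valuation u' < 1 := (TZ.val_lt V W hW u).2 hu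
    have hAlg : Algebra.IsAlgebraic (IntermediateField.adjoin k₀ {u'}) Ab := by
      have hb1 : IsTranscendenceBasis ℂ ![u, v] := by
        refine huv.isTranscendenceBasis_of_trdeg_le_of_finite ?_
        rw [hL]
        simp
      have hb2 : IsTranscendenceBasis ℂ (algebraMap L Ab ∘ ![u, v]) := hb1.algebraMap_comp
      have hb3 := hb2.isAlgebraic_field
      have hle : IntermediateField.adjoin ℂ (Set.range (algebraMap L Ab ∘ ![u, v])) ≤
          (IntermediateField.adjoin k₀ {u'}).restrictScalars ℂ := by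
        rw [IntermediateField.adjoin_le_iff]
        rintro _ ⟨i, rfl⟩
        fin_cases i
        · exact IntermediateField.mem_adjoin_simple_self k₀ u'
        · exact (IntermediateField.adjoin k₀ {u'}).algebraMap_mem
            (⟨v', IntermediateField.mem_adjoin_simple_self ℂ v'⟩ : k₀)
      refine ⟨fun z => ?_⟩
      obtain ⟨p, hp0, hp⟩ := hb3.isAlgebraic z
      let φ : IntermediateField.adjoin ℂ (Set.range (algebraMap L Ab ∘ ![u, v])) →+*
          IntermediateField.adjoin k₀ {u'} := (IntermediateField.inclusion hle).toRingHom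
      refine ⟨p.map φ, ?_, ?_⟩
      · exact (Polynomial.map_ne_zero_iff φ.injective).2 hp0
      · rw [Polynomial.aeval_def, Polynomial.eval₂_map]
        exact hp
    -- first coefficient
    have hbV : b ∈ V := by
      have h1 := (tame_alg u' hut hAlg (Dv.restrictScalars ℤ) ?_ ?_ W hk₀W hWu).1
      · have h2 : θ Dv ∈ W.toSubring.toAddSubgroup := by
          refine sum_mem fun σ _ => ?_
          exact evalForm_mem ω hω _ W hWC Dv W.toSubring.toAddSubgroup
            (fun w hw j hj => W.mul_mem _ _ hw hj) (fun w hw => h1 w hw)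
        rw [hb'] at h2
        exact (hmem b).1 h2
      · intro c
        have h3 : Dv (c : Ab) ∈ k₀ := by
          refine TZ.der_adjoin Dv _ ?_ _ c.2
          intro z hz
          rw [Set.mem_singleton_iff.1 hz, e4]
          exact one_mem _
        exact ⟨⟨_, h3⟩, rfl⟩
      · refine ⟨0, ?_⟩
        rw [map_zero, zero_mul]
        exact e3
    have haV : a ∈ V := by
      have h1 := (tame_alg u' hut hAlg ((u' • Du).restrictScalars ℤ) ?_ ?_ W hk₀W hWu).2 ?_
      · have h2 : θ (u' • Du) ∈ TZ.ltGroup W := by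
          refine sum_mem fun σ _ => ?_
          refine evalForm_mem ω hω _ W hWC (u' • Du) (TZ.ltGroup W) ?_ (fun w hw => h1 w hw)
          intro w hw j hj
          show W.valuation (w * j) < 1
          rw [map_mul]
          exact mul_lt_one_of_nonneg_of_lt_one_right ((W.valuation_le_one_iff w).2 hw) zero_le
            hj
        rw [hθsmul, ha', hu', ← map_mul] at h2
        have h3 := hdiv _ ((TZ.val_lt V W hW (u * a)).1 h2)
        rwa [mul_div_cancel_left₀ _ hu0] at h3
      · intro c
        refine ⟨0, ?_⟩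
        show u' * Du (c : Ab) = _
        rw [hDu0 _ c.2, mul_zero, map_zero]
      · refine ⟨1, ?_⟩
        show u' * Du u' = _
        rw [e1, mul_one, map_one, one_mul]
      · intro c
        show u' * Du (c : Ab) = _
        rw [hDu0 _ c.2, mul_zero]
    rw [hΘ']
    refine RegularAt.add ?_ ?_
    · refine RegularAt.smul ⟨1, fun _ => 1, fun _ => u, fun _ => one_mem _, fun _ => ?_, by simp⟩ haV
      exact (V.valuation_le_one_iff u).1 hu.le
    · refine RegularAt.smul ⟨1, fun _ => 1, fun _ => v, fun _ => one_mem _, fun _ => ?_, by simp⟩ hbV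
      exact hcv ⟨v, IntermediateField.mem_adjoin_simple_self ℂ v⟩
  rw [hq, Submodule.mem_bot] at hreg
  have h1 := hval D
  rw [hreg, map_zero] at h1
  exact h1.symm

end Pool.Agent.DegThree
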