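import Mathlib

/-! Definition: degree of a dominant rational map to the plane. -/

set_option autoImplicit false

open scoped Polynomial IntermediateField

namespace Pool.Agent.DegThree

/-- There is a dominant rational map of degree `d` from the surface with function field `F` to the
projective plane: `F` is an extension of degree `d` of a purely transcendental subfield `ℂ(x, y)`. -/
def HasMapToPlane (F : Type) [Field F] [Algebra ℂ F] (d : ℕ) : Prop :=
  ∃ x y : F, AlgebraicIndependent ℂ ![x, y] ∧
    Module.finrank (IntermediateField.adjoin ℂ {x, y}) F = d

end Pool.Agent.DegThree
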